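import Pool.Agent.Books.Sym.Selection

set_option autoImplicit false

/-!
# Books in graphs with a group of automorphisms which has a large normal elementary abelian subgroup
-/

namespace Pool.Agent.Books.Sym

open Finset

section Action

variable {Γ V : Type} [Group Γ] [MulAction Γ V]

/-- The orbit of a vertex. -/
def orbM (Γ : Type) {V : Type} [Group Γ] [MulAction Γ V] (v : V) :
    Quotient (MulAction.orbitRel Γ V) := Quotient.mk _ v

theorem exists_coordM (v : V) : ∃ a : Γ, a • (orbM Γ v).out = v := by
  have h1 : Quotient.mk (MulAction.orbitRel Γ V) (orbM Γ v).out = Quotient.mk _ v :=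
    Quotient.out_eq _
  have h2 := Quotient.exact h1
  have h3 : (orbM Γ v).out ∈ MulAction.orbit Γ v := MulAction.orbitRel_apply.mp h2
  obtain ⟨a, ha⟩ := MulAction.mem_orbit_iff.mp h3
  refine ⟨a⁻¹, ?_⟩
  rw [← ha, inv_smul_smul]

/-- The coordinate of a vertex. -/
noncomputable def coordM (Γ : Type) {V : Type} [Group Γ] [MulAction Γ V] (v : V) : Γ :=
  (exists_coordM (Γ := Γ) v).choose

theorem coordM_spec (v : V) : coordM Γ v • (orbM Γ v).out = v := (exists_coordM v).choose_spec

variable [Fintype Γ]

/-- The order of the stabiliser. -/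
theorem st_eq [DecidableEq V] (v : V) :
    (univ.filter fun g : Γ => g • v = v).card = Nat.card (MulAction.stabilizer Γ v) := by
  classical
  rw [Nat.card_eq_fintype_card]
  symm
  exact Fintype.card_subtype _

theorem fib_le [DecidableEq V] (v t : V) :
    (univ.filter fun g : Γ => g • v = t).card ≤ Nat.card (MulAction.stabilizer Γ v) := by
  classical
  rw [← st_eq]
  rcases (univ.filter fun g : Γ => g • v = t).eq_empty_or_nonempty with h | ⟨g0, hg0⟩
  · rw [h]
    simp
  · have h0 : g0 • v = t := (mem_filter.mp hg0).2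
    apply card_le_card_of_injOn (fun g => g0⁻¹ * g)
    · intro g hg
      have hg' : g • v = t := (mem_filter.mp (show g ∈ univ.filter fun g : Γ => g • v = t from hg)).2
      show g0⁻¹ * g ∈ univ.filter fun g : Γ => g • v = v
      rw [mem_filter]
      refine ⟨mem_univ _, ?_⟩
      rw [mul_smul, hg', ← h0, inv_smul_smul]
    · intro g _ g' _ hgg
      exact mul_left_cancel hgg

theorem fib_ge [DecidableEq V] (v t : V) (g0 : Γ) (h0 : g0 • v = t) :
    Nat.card (MulAction.stabilizer Γ v) ≤ (univ.filter fun g : Γ => g • v = t).card := by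
  classical
  rw [← st_eq]
  apply card_le_card_of_injOn (fun g => g0 * g)
  · intro g hg
    have hg' : g • v = v := (mem_filter.mp (show g ∈ univ.filter fun g : Γ => g • v = v from hg)).2
    show g0 * g ∈ univ.filter fun g : Γ => g • v = t
    rw [mem_filter]
    refine ⟨mem_univ _, ?_⟩
    rw [mul_smul, hg', h0]
  · intro g _ g' _ hgg
    exact mul_left_cancel hgg

theorem card_group_le [Fintype V] (v : V) :
    Fintype.card Γ ≤ Nat.card (MulAction.stabilizer Γ v) * Fintype.card V := by
  classical
  have h := card_le_mul_card_image_of_maps_to (f := fun g : Γ => g • v) (s := univ) (t := univ)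
    (fun _ _ => mem_univ _) (Nat.card (MulAction.stabilizer Γ v)) (fun t _ => fib_le v t)
  rw [card_univ, card_univ] at h
  exact h

end Action

/-- The main inequality. -/
theorem action_bound {Γ : Type} [Group Γ] [Fintype Γ] (δ : ℝ) (hδ : 0 ≤ δ) (htc : TC Γ δ)
    {V : Type} [Fintype V] (G : SimpleGraph V) [DecidableRel G.Adj] [MulAction Γ V] (h : ℕ)
    (hst : ∀ v : V, Nat.card (MulAction.stabilizer Γ v) ≤ h)
    (hinv : ∀ (a : Γ) (u v : V), G.Adj u v → G.Adj (a • u) (a • v))
    (htri : ∀ u v : V, G.Adj u v → ∃ w : V, G.Adj u w ∧ G.Adj v w) (b : ℕ)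
    (hb : ∀ u v : V, G.Adj u v → (univ.filter fun w : V => G.Adj u w ∧ G.Adj v w).card ≤ b) :
    2 * (G.edgeFinset.card : ℝ) ≤
      15 * ((h : ℝ) * (Nat.card (Quotient (MulAction.orbitRel Γ V)) : ℝ) * (b : ℝ) *
        (Fintype.card V : ℝ)) ^ 2 * δ := by
  classical
  rcases isEmpty_or_nonempty V with hV | hV
  · have h1 : G.edgeFinset.card = 0 := by
      rw [card_eq_zero, SimpleGraph.edgeFinset_eq_empty]
      ext u
      exact hV.elim u
    rw [h1]
    simp only [Nat.cast_zero, mul_zero]
    positivity
  let _ : Fintype (Quotient (MulAction.orbitRel Γ V)) := Fintype.ofFinite _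
  rw [Nat.card_eq_fintype_card]
  set k := Fintype.card (Quotient (MulAction.orbitRel Γ V)) with hk
  have hkpos : 0 < k := by
    rw [hk]
    exact Fintype.card_pos_iff.mpr ⟨orbM Γ (Classical.arbitrary V)⟩
  -- a vertex of large degree
  obtain ⟨o1, ho1⟩ : ∃ o : V, 2 * G.edgeFinset.card ≤ G.degree o * Fintype.card V := by
    by_contra hcon
    push Not at hcon
    have h1 : ∑ v : V, G.degree v * Fintype.card V < ∑ _v : V, 2 * G.edgeFinset.card :=
      sum_lt_sum_of_nonempty univ_nonempty fun v _ => hcon v
    rw [← sum_mul, G.sum_degrees_eq_twice_card_edges, sum_const, card_univ, smul_eq_mul,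
      mul_comm] at h1
    exact lt_irrefl _ h1
  let w : V → V := fun v => if h : G.Adj o1 v then (htri o1 v h).choose else v
  have hw : ∀ v, G.Adj o1 v → G.Adj o1 (w v) ∧ G.Adj v (w v) := by
    intro v hv
    have h1 := (htri o1 v hv).choose_spec
    have h2 : w v = (htri o1 v hv).choose := by
      simp only [w]
      rw [dif_pos hv]
    rw [h2]
    exact h1
  -- pigeonhole
  let S := G.neighborFinset o1
  let T : Finset (Quotient (MulAction.orbitRel Γ V) × Quotient (MulAction.orbitRel Γ V)) := univ
  have hT : T.card = k * k := by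
    simp only [T]
    rw [card_univ, Fintype.card_prod]
  have hTne : T.Nonempty := ⟨(orbM Γ o1, orbM Γ o1), mem_univ _⟩
  obtain ⟨o, -, ho⟩ := exists_le_card_fiber_of_nsmul_le_card_of_maps_to
    (s := S) (t := T) (f := fun v => (orbM Γ v, orbM Γ (w v))) (b := (G.degree o1 : ℝ) / (k * k))
    (fun v _ => mem_univ _) hTne (by
      rw [hT, nsmul_eq_mul]
      have h1 : (0 : ℝ) < (k : ℝ) * k := by
        have : (0 : ℝ) < (k : ℝ) := by exact_mod_cast hkpos
        positivity
      push_cast
      rw [mul_div_cancel₀ _ h1.ne']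
      simp only [S, SimpleGraph.card_neighborFinset_eq_degree]
      exact le_refl _)
  set F := S.filter fun v => (orbM Γ v, orbM Γ (w v)) = o with hF
  set o2 := o.1.out with ho2
  set o3 := o.2.out with ho3
  let X : Finset Γ := univ.filter fun a => G.Adj o1 (a • o2)
  let Y : Finset Γ := univ.filter fun a => G.Adj o2 (a • o3)
  let Z : Finset Γ := univ.filter fun a => G.Adj o3 (a • o1)
  let X' : Finset Γ := X.filter fun x => ∃ v ∈ Y, (x * v)⁻¹ ∈ Z
  have memX : ∀ a, a ∈ X ↔ G.Adj o1 (a • o2) := fun a => by simp [X]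
  have memY : ∀ a, a ∈ Y ↔ G.Adj o2 (a • o3) := fun a => by simp [Y]
  have memZ : ∀ a, a ∈ Z ↔ G.Adj o3 (a • o1) := fun a => by simp [Z]
  set s2 := Nat.card (MulAction.stabilizer Γ o2) with hs2
  have hs2pos : 0 < s2 := Nat.card_pos
  have hFX : F.card * s2 ≤ X'.card := by
    have hsub : (univ.filter fun x : Γ => x • o2 ∈ F) ⊆ X' := by
      intro x hx
      rw [mem_filter] at hx
      have hv' := hx.2
      rw [hF, mem_filter] at hv'
      have hadj : G.Adj o1 (x • o2) := by
        have := hv'.1
        simpa [S] using this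
      obtain ⟨h1, h2⟩ := hw _ hadj
      have e2 : orbM Γ (w (x • o2)) = o.2 := congrArg Prod.snd hv'.2
      have c2 : coordM Γ (w (x • o2)) • o3 = w (x • o2) := by
        rw [ho3, ← e2]
        exact coordM_spec (w (x • o2))
      rw [mem_filter]
      refine ⟨(memX _).mpr hadj, x⁻¹ * coordM Γ (w (x • o2)), ?_, ?_⟩
      · rw [memY]
        have h3 := hinv x⁻¹ _ _ h2
        rw [inv_smul_smul] at h3
        rw [mul_smul, c2]
        exact h3
      · rw [memZ]
        have h3 := hinv (coordM Γ (w (x • o2)))⁻¹ _ _ h1.symm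
        have h4 : (coordM Γ (w (x • o2)))⁻¹ • w (x • o2) = o3 := by
          have h5 := inv_smul_smul (coordM Γ (w (x • o2))) o3
          rw [c2] at h5
          exact h5
        rw [h4] at h3
        have h7 : (x * (x⁻¹ * coordM Γ (w (x • o2))))⁻¹ = (coordM Γ (w (x • o2)))⁻¹ := by
          rw [mul_inv_cancel_left]
        rw [h7]
        exact h3
    refine le_trans ?_ (card_le_card hsub)
    rw [card_eq_sum_card_fiberwise (f := fun x : Γ => x • o2) (t := F)
      (s := univ.filter fun x : Γ => x • o2 ∈ F) (by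
        intro x hx
        exact (mem_filter.mp (show x ∈ univ.filter fun x : Γ => x • o2 ∈ F from hx)).2)]
    rw [← smul_eq_mul]
    apply card_nsmul_le_sum
    intro v hv
    have hv1 := hv
    rw [hF, mem_filter] at hv1
    have e1 : orbM Γ v = o.1 := congrArg Prod.fst hv1.2
    have c1 : coordM Γ v • o2 = v := by rw [ho2, ← e1]; exact coordM_spec v
    refine le_trans (fib_ge o2 v (coordM Γ v) c1) (card_le_card ?_)
    intro x hx
    rw [mem_filter] at hx ⊢
    refine ⟨?_, hx.2⟩
    rw [mem_filter]
    refine ⟨mem_univ _, ?_⟩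
    rw [hx.2]
    exact hv
  have hbound := sparse_boundM δ hδ htc X Y Z X' (h * b) (filter_subset _ _)
    (fun x hx => (mem_filter.mp hx).2)
    (by
      intro x hx
      refine le_trans (card_le_mul_card_image_of_maps_to (f := fun v => (x * v) • o3)
        (t := univ.filter fun w : V => G.Adj o1 w ∧ G.Adj (x • o2) w) ?_ h ?_)
        (Nat.mul_le_mul_left h (hb o1 (x • o2) ((memX x).mp hx)))
      · intro v hv
        have hv' := mem_filter.mp hv
        show (x * v) • o3 ∈ univ.filter fun w : V => G.Adj o1 w ∧ G.Adj (x • o2) w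
        rw [mem_filter]
        refine ⟨mem_univ _, ?_, ?_⟩
        · have h1 := hinv (x * v) _ _ ((memZ _).mp hv'.2)
          rw [smul_inv_smul] at h1
          exact h1.symm
        · have h1 := hinv x _ _ ((memY _).mp hv'.1)
          rw [smul_smul] at h1
          exact h1
      · intro t _
        refine le_trans (le_trans (card_le_card_of_injOn (fun v => x * v)
          (t := univ.filter fun g : Γ => g • o3 = t) ?_ ?_) (fib_le o3 t)) (hst o3)
        · intro v hv
          have hv' := (mem_filter.mp (show v ∈ (Y.filter fun v => (x * v)⁻¹ ∈ Z).filter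
            fun v => (x * v) • o3 = t from hv)).2
          show x * v ∈ univ.filter fun g : Γ => g • o3 = t
          rw [mem_filter]
          exact ⟨mem_univ _, hv'⟩
        · intro v _ v' _ hvv
          exact mul_left_cancel hvv)
    (by
      intro v hv
      refine le_trans (card_le_mul_card_image_of_maps_to (f := fun x => x⁻¹ • o1)
        (t := univ.filter fun w : V => G.Adj o2 w ∧ G.Adj (v • o3) w) ?_ h ?_)
        (Nat.mul_le_mul_left h (hb o2 (v • o3) ((memY v).mp hv)))
      · intro x hx
        have hx' := mem_filter.mp hx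
        show x⁻¹ • o1 ∈ univ.filter fun w : V => G.Adj o2 w ∧ G.Adj (v • o3) w
        rw [mem_filter]
        refine ⟨mem_univ _, ?_, ?_⟩
        · have h1 := hinv x⁻¹ _ _ ((memX _).mp hx'.1)
          rw [inv_smul_smul] at h1
          exact h1.symm
        · have h1 := hinv v _ _ ((memZ _).mp hx'.2)
          rw [smul_smul] at h1
          have h2 : v * (x * v)⁻¹ = x⁻¹ := by group
          rw [h2] at h1
          exact h1
      · intro t _
        refine le_trans (le_trans (card_le_card_of_injOn (fun x => x⁻¹)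
          (t := univ.filter fun g : Γ => g • o1 = t) ?_ ?_) (fib_le o1 t)) (hst o1)
        · intro x hx
          have hx' := (mem_filter.mp (show x ∈ (X.filter fun x => (x * v)⁻¹ ∈ Z).filter
            fun x => x⁻¹ • o1 = t from hx)).2
          show x⁻¹ ∈ univ.filter fun g : Γ => g • o1 = t
          rw [mem_filter]
          exact ⟨mem_univ _, hx'⟩
        · intro x _ x' _ hxx
          exact inv_injective hxx)
    (by
      intro z hz
      refine le_trans (card_le_mul_card_image_of_maps_to (f := fun x => (z * x) • o2)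
        (t := univ.filter fun w : V => G.Adj o3 w ∧ G.Adj (z • o1) w) ?_ h ?_)
        (Nat.mul_le_mul_left h (hb o3 (z • o1) ((memZ z).mp hz)))
      · intro x hx
        have hx' := mem_filter.mp hx
        show (z * x) • o2 ∈ univ.filter fun w : V => G.Adj o3 w ∧ G.Adj (z • o1) w
        rw [mem_filter]
        refine ⟨mem_univ _, ?_, ?_⟩
        · have h1 := hinv (z * x) _ _ ((memY _).mp hx'.2)
          rw [smul_inv_smul] at h1
          exact h1.symm
        · have h1 := hinv z _ _ ((memX _).mp hx'.1)
          rw [smul_smul] at h1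
          exact h1
      · intro t _
        refine le_trans (le_trans (card_le_card_of_injOn (fun x => z * x)
          (t := univ.filter fun g : Γ => g • o2 = t) ?_ ?_) (fib_le o2 t)) (hst o2)
        · intro x hx
          have hx' := (mem_filter.mp (show x ∈ (X.filter fun x => (z * x)⁻¹ ∈ Y).filter
            fun x => (z * x) • o2 = t from hx)).2
          show z * x ∈ univ.filter fun g : Γ => g • o2 = t
          rw [mem_filter]
          exact ⟨mem_univ _, hx'⟩
        · intro x _ x' _ hxx
          exact mul_left_cancel hxx)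
  -- assemble
  have hk0 : (0 : ℝ) < k := by exact_mod_cast hkpos
  have hs0 : (0 : ℝ) < s2 := by exact_mod_cast hs2pos
  have hΓ : (Fintype.card Γ : ℝ) ≤ (s2 : ℝ) * Fintype.card V := by
    exact_mod_cast card_group_le o2
  have h1 : (F.card : ℝ) * s2 ≤
      15 * (((h * b : ℕ) : ℝ)) ^ 2 * ((Fintype.card Γ : ℝ) * δ) := by
    refine le_trans ?_ hbound
    exact_mod_cast hFX
  have h2 : 15 * (((h * b : ℕ) : ℝ)) ^ 2 * ((Fintype.card Γ : ℝ) * δ) ≤
      (15 * ((h : ℝ) * b) ^ 2 * (Fintype.card V * δ)) * s2 := by
    have h3 : 15 * (((h * b : ℕ) : ℝ)) ^ 2 * ((Fintype.card Γ : ℝ) * δ) ≤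
        15 * (((h * b : ℕ) : ℝ)) ^ 2 *
          (((s2 : ℝ) * Fintype.card V) * δ) :=
      mul_le_mul_of_nonneg_left (mul_le_mul_of_nonneg_right hΓ hδ) (by positivity)
    refine le_trans h3 (le_of_eq ?_)
    push_cast
    ring
  have h3 : (F.card : ℝ) ≤ 15 * ((h : ℝ) * b) ^ 2 * (Fintype.card V * δ) :=
    le_of_mul_le_mul_right (le_trans h1 h2) hs0
  have h4 := le_trans ho h3
  rw [div_le_iff₀ (by positivity)] at h4
  have h5 : 2 * (G.edgeFinset.card : ℝ) ≤ G.degree o1 * Fintype.card V := by exact_mod_cast ho1
  have h6 : (0 : ℝ) ≤ (Fintype.card V : ℝ) := by positivity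
  have h7 := mul_le_mul_of_nonneg_right h4 h6
  refine le_trans (le_trans h5 h7) (le_of_eq ?_)
  ring

end Pool.Agent.Books.Sym
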