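import Mathlib

set_option autoImplicit false

/-!
# The augmentation ideal of the group algebra of a central extension
-/

namespace Pool.Agent.Books.Sym

open Finset

section Aug

variable (F : Type) [Field F] {P : Type} [Group P]

/-- The span of the elements `b - 1` of the group algebra, `b` in `B`. -/
noncomputable def aug (B : Subgroup P) : Submodule F (MonoidAlgebra F P) :=
  Submodule.span F (Set.range fun b : B => MonoidAlgebra.of F P (b : P) - 1)

theorem of_sub_mem (B : Subgroup P) {b : P} (hb : b ∈ B) :
    MonoidAlgebra.of F P b - 1 ∈ aug F B := Submodule.subset_span ⟨⟨b, hb⟩, rfl⟩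

theorem aug_le (B : Subgroup P) (M : Submodule F (MonoidAlgebra F P))
    (h : ∀ b ∈ B, MonoidAlgebra.of F P b - 1 ∈ M) : aug F B ≤ M := by
  unfold aug
  rw [Submodule.span_le]
  rintro _ ⟨b, rfl⟩
  exact h b b.2

theorem aug_bot : aug F (⊥ : Subgroup P) = ⊥ := by
  rw [eq_bot_iff]
  apply aug_le
  intro b hb
  rw [Subgroup.mem_bot] at hb
  rw [hb, map_one, sub_self]
  exact Submodule.zero_mem _

theorem le_of_of (M : Submodule F (MonoidAlgebra F P)) (h : ∀ b, MonoidAlgebra.of F P b ∈ M)
    (x : MonoidAlgebra F P) : x ∈ M := by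
  induction x using MonoidAlgebra.induction_on with
  | of b => exact h b
  | add x y hx hy => exact M.add_mem hx hy
  | smul r x hx => exact M.smul_mem r hx

theorem aug_two_sided (B : Subgroup P) [hB : B.Normal] :
    aug F B * ⊤ ≤ (⊤ : Submodule F (MonoidAlgebra F P)) * aug F B := by
  rw [Submodule.mul_le]
  intro a ha x _
  have h1 : aug F B ≤ (⊤ * aug F B).comap (LinearMap.mulRight F x) := by
    apply aug_le
    intro b hb
    rw [Submodule.mem_comap, LinearMap.mulRight_apply]
    have h2 := le_of_of F ((⊤ * aug F B).comap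
      (LinearMap.mulLeft F (MonoidAlgebra.of F P b - 1))) (fun v => by
        rw [Submodule.mem_comap, LinearMap.mulLeft_apply]
        have h3 : (MonoidAlgebra.of F P b - 1) * MonoidAlgebra.of F P v =
            MonoidAlgebra.of F P v * (MonoidAlgebra.of F P (v⁻¹ * b * v) - 1) := by
          rw [sub_mul, mul_sub, ← map_mul, ← map_mul, one_mul, mul_one]
          congr 2
          group
        rw [h3]
        apply Submodule.mul_mem_mul Submodule.mem_top
        apply of_sub_mem
        have := hB.conj_mem b hb v⁻¹
        rwa [inv_inv] at this) x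
    rw [Submodule.mem_comap, LinearMap.mulLeft_apply] at h2
    exact h2
  have := h1 ha
  rwa [Submodule.mem_comap, LinearMap.mulRight_apply] at this

theorem aug_central (B : Subgroup P) (hB : ∀ b ∈ B, ∀ x : P, b * x = x * b) :
    ∀ a ∈ aug F B, ∀ x : MonoidAlgebra F P, a * x = x * a := by
  intro a ha x
  have h1 : aug F B ≤ LinearMap.ker (LinearMap.mulRight F x - LinearMap.mulLeft F x) := by
    apply aug_le
    intro b hb
    rw [LinearMap.mem_ker, LinearMap.sub_apply, LinearMap.mulRight_apply,
      LinearMap.mulLeft_apply]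
    have h2 := le_of_of F (LinearMap.ker (LinearMap.mulLeft F (MonoidAlgebra.of F P b - 1) -
      LinearMap.mulRight F (MonoidAlgebra.of F P b - 1))) (fun v => by
        rw [LinearMap.mem_ker, LinearMap.sub_apply, LinearMap.mulRight_apply,
          LinearMap.mulLeft_apply, sub_mul, mul_sub, ← map_mul, ← map_mul, hB b hb v]
        simp) x
    rw [LinearMap.mem_ker, LinearMap.sub_apply, LinearMap.mulRight_apply,
      LinearMap.mulLeft_apply] at h2
    exact h2
  have h2 := h1 ha
  rw [LinearMap.mem_ker, LinearMap.sub_apply, LinearMap.mulRight_apply,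
    LinearMap.mulLeft_apply] at h2
  exact sub_eq_zero.mp h2

/-- Decomposition modulo the ideal of a subgroup. -/
theorem aug_decomp (C B : Subgroup P) {k : ℕ} (g : Fin k → P)
    (hC : C ≤ Subgroup.closure (Set.range g ∪ B)) :
    ∀ a ∈ aug F C, ∃ r : Fin k → MonoidAlgebra F P,
      a - ∑ i, r i * (MonoidAlgebra.of F P (g i) - 1) ∈
        (⊤ * aug F B : Submodule F (MonoidAlgebra F P)) := by
  let M : Submodule F (MonoidAlgebra F P) :=
    { carrier := {a | ∃ r : Fin k → MonoidAlgebra F P,
        a - ∑ i, r i * (MonoidAlgebra.of F P (g i) - 1) ∈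
          (⊤ * aug F B : Submodule F (MonoidAlgebra F P))}
      add_mem' := by
        rintro a b ⟨r, hr⟩ ⟨s, hs⟩
        refine ⟨r + s, ?_⟩
        have h1 : a + b - ∑ i, (r + s) i * (MonoidAlgebra.of F P (g i) - 1) =
            (a - ∑ i, r i * (MonoidAlgebra.of F P (g i) - 1)) +
              (b - ∑ i, s i * (MonoidAlgebra.of F P (g i) - 1)) := by
          have h2 : ∑ i, (r + s) i * (MonoidAlgebra.of F P (g i) - 1) =
              ∑ i, r i * (MonoidAlgebra.of F P (g i) - 1) +
                ∑ i, s i * (MonoidAlgebra.of F P (g i) - 1) := by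
            rw [← sum_add_distrib]
            exact sum_congr rfl fun i _ => by rw [Pi.add_apply, add_mul]
          rw [h2]
          abel
        rw [h1]
        exact Submodule.add_mem _ hr hs
      zero_mem' := ⟨0, by simp⟩
      smul_mem' := by
        rintro c a ⟨r, hr⟩
        refine ⟨c • r, ?_⟩
        have h1 : c • a - ∑ i, (c • r) i * (MonoidAlgebra.of F P (g i) - 1) =
            c • (a - ∑ i, r i * (MonoidAlgebra.of F P (g i) - 1)) := by
          rw [smul_sub, smul_sum]
          congr 1
          exact sum_congr rfl fun i _ => by rw [Pi.smul_apply, smul_mul_assoc]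
        rw [h1]
        exact Submodule.smul_mem _ _ hr }
  have hmul : ∀ x a : MonoidAlgebra F P, a ∈ M → x * a ∈ M := by
    rintro x a ⟨r, hr⟩
    refine ⟨fun i => x * r i, ?_⟩
    have h1 : x * a - ∑ i, x * r i * (MonoidAlgebra.of F P (g i) - 1) =
        x * (a - ∑ i, r i * (MonoidAlgebra.of F P (g i) - 1)) := by
      rw [mul_sub, mul_sum]
      congr 1
      exact sum_congr rfl fun i _ => by rw [mul_assoc]
    rw [h1]
    have h2 : x * (a - ∑ i, r i * (MonoidAlgebra.of F P (g i) - 1)) ∈
        (⊤ * (⊤ * aug F B) : Submodule F (MonoidAlgebra F P)) :=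
      Submodule.mul_mem_mul Submodule.mem_top hr
    rw [← mul_assoc] at h2
    exact (mul_le_mul_left (le_top : ((⊤ : Submodule F (MonoidAlgebra F P)) * ⊤) ≤ ⊤) (aug F B)) h2
  have hcl : ∀ u ∈ Subgroup.closure (Set.range g ∪ (B : Set P)),
      MonoidAlgebra.of F P u - 1 ∈ M := by
    intro u hu
    induction hu using Subgroup.closure_induction with
    | mem s hs =>
      rcases hs with ⟨i, rfl⟩ | hs
      · refine ⟨Pi.single i 1, ?_⟩
        rw [sum_eq_single i]
        · rw [Pi.single_eq_same, one_mul, sub_self]
          exact Submodule.zero_mem _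
        · intro j _ hj
          rw [Pi.single_eq_of_ne hj, zero_mul]
        · intro h
          exact absurd (mem_univ _) h
      · refine ⟨0, ?_⟩
        have h1 : MonoidAlgebra.of F P s - 1 - ∑ i, (0 : Fin k → MonoidAlgebra F P) i *
            (MonoidAlgebra.of F P (g i) - 1) = 1 * (MonoidAlgebra.of F P s - 1) := by
          simp
        rw [h1]
        exact Submodule.mul_mem_mul Submodule.mem_top (of_sub_mem F B hs)
    | one =>
      rw [map_one, sub_self]
      exact M.zero_mem
    | mul a b _ _ ha hb =>
      have h1 : MonoidAlgebra.of F P (a * b) - 1 =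
          MonoidAlgebra.of F P a * (MonoidAlgebra.of F P b - 1) +
            (MonoidAlgebra.of F P a - 1) := by
        rw [map_mul]
        noncomm_ring
      rw [h1]
      exact M.add_mem (hmul _ _ hb) ha
    | inv a _ ha =>
      have h1 : MonoidAlgebra.of F P a⁻¹ - 1 =
          - (MonoidAlgebra.of F P a⁻¹ * (MonoidAlgebra.of F P a - 1)) := by
        rw [mul_sub, ← map_mul, inv_mul_cancel, map_one]
        noncomm_ring
      rw [h1]
      exact M.neg_mem (hmul _ _ ha)
  intro a ha
  exact aug_le F C M (fun b hb => hcl b (hC hb)) ha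

end Aug

end Pool.Agent.Books.Sym
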