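import Mathlib

set_option autoImplicit false

/-!
# Large normal elementary abelian subgroups of nilpotent groups of bounded exponent
-/

namespace Pool.Agent.Books.Sym

open Finset
open scoped commutatorElement

theorem aux_equiv0 {V : Type} [AddCommGroup V] [Finite V] (p n : ℕ) [Fact p.Prime]
    [Module (ZMod p) V] (hcard : Nat.card V = p ^ n) : Nonempty (V ≃+ (Fin n → ZMod p)) := by
  classical
  let _ : Fintype V := Fintype.ofFinite _
  have hmf : Module.Finite (ZMod p) V := Module.Finite.of_finite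
  have hfr : Module.Free (ZMod p) V := Module.Free.of_divisionRing _ _
  have hfin : Module.finrank (ZMod p) V = n := by
    have h1 := Module.card_eq_pow_finrank (K := ZMod p) (V := V)
    rw [ZMod.card, ← Nat.card_eq_fintype_card, hcard] at h1
    exact (Nat.pow_right_injective (Fact.out : p.Prime).two_le h1).symm
  have h2 : Module.finrank (ZMod p) V = Module.finrank (ZMod p) (Fin n → ZMod p) := by
    rw [hfin, Module.finrank_fin_fun]
  let L : V ≃ₗ[ZMod p] (Fin n → ZMod p) := LinearEquiv.ofFinrankEq V (Fin n → ZMod p) h2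
  exact ⟨L.toAddEquiv⟩

theorem aux_equiv {V : Type} [AddCommGroup V] [Finite V] (p n : ℕ) [Fact p.Prime]
    (hexp : ∀ a : V, p • a = 0) (hcard : Nat.card V = p ^ n) :
    Nonempty (V ≃+ (Fin n → ZMod p)) :=
  @aux_equiv0 V _ _ p n _ (AddCommGroup.zmodModule hexp) hcard

theorem elem_equiv {Γ : Type} [Group Γ] [Finite Γ] (N : Subgroup Γ) (p n : ℕ) [Fact p.Prime]
    (hcomm : ∀ a ∈ N, ∀ b ∈ N, a * b = b * a) (hexp : ∀ a ∈ N, a ^ p = 1)
    (hcard : Nat.card N = p ^ n) : Nonempty (N ≃* Multiplicative (Fin n → ZMod p)) := by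
  let _ : CommGroup N :=
    { (inferInstance : Group N) with
      mul_comm := fun a b => Subtype.ext (hcomm a a.2 b b.2) }
  obtain ⟨L⟩ := aux_equiv (V := Additive N) p n (fun x => by
    have h1 : (Additive.toMul x) ^ p = 1 := Subtype.ext (hexp _ (Additive.toMul x).2)
    exact congrArg Additive.ofMul h1) hcard
  exact ⟨{ toFun := fun a => Multiplicative.ofAdd (L (Additive.ofMul a))
           invFun := fun u => Additive.toMul (L.symm (Multiplicative.toAdd u))
           left_inv := fun a => by simp
           right_inv := fun u => by simp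
           map_mul' := fun a b => by
            rw [ofMul_mul, map_add]
            rfl }⟩

/-- A nontrivial normal subgroup of a nilpotent group meets the centre. -/
theorem center_meet {P : Type} [Group P] [hP : Group.IsNilpotent P] (K : Subgroup P) [hK : K.Normal]
    (g0 : P) (hg0 : g0 ∈ K) (hne : g0 ≠ 1) : ∃ k ∈ K, k ≠ 1 ∧ ∀ g, g * k * g⁻¹ = k := by
  have key : ∀ n : ℕ, ∀ k ∈ K, k ∈ Subgroup.upperCentralSeries P n → k ≠ 1 →
      ∃ k ∈ K, k ≠ 1 ∧ ∀ g, g * k * g⁻¹ = k := by
    intro n
    induction n with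
    | zero =>
      intro k _ hk hk1
      rw [Subgroup.upperCentralSeries_zero, Subgroup.mem_bot] at hk
      exact absurd hk hk1
    | succ n ih =>
      intro k hkK hk hk1
      rw [Subgroup.mem_upperCentralSeries_succ_iff] at hk
      by_cases hc : ∀ y : P, ⁅k, y⁆ = 1
      · refine ⟨k, hkK, hk1, ?_⟩
        intro g
        have h1 := hc g
        rw [commutatorElement_eq_one_iff_mul_comm] at h1
        rw [← h1]
        group
      · push Not at hc
        obtain ⟨y, hy⟩ := hc
        refine ih ⁅k, y⁆ ?_ (hk y) hy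
        have h2 : ⁅k, y⁆ = k * (y * k⁻¹ * y⁻¹) := by
          rw [commutatorElement_def]
          group
        rw [h2]
        exact K.mul_mem hkK (hK.conj_mem _ (K.inv_mem hkK) y)
  obtain ⟨n, hn⟩ := hP.nilpotent'
  exact key n g0 hg0 (by rw [hn]; exact Subgroup.mem_top _) hne

/-- A maximal normal abelian subgroup of a finite nilpotent group is its own centraliser. -/
theorem self_centralising {P : Type} [Group P] [Finite P] [Group.IsNilpotent P] : ∃ A : Subgroup P, A.Normal ∧ (∀ a ∈ A, ∀ b ∈ A, a * b = b * a) ∧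
      ∀ g, (∀ a ∈ A, a * g = g * a) → g ∈ A := by
  classical
  let _ : Fintype (Subgroup P) := Fintype.ofFinite _
  obtain ⟨A, hA, hmax⟩ := ((univ : Finset (Subgroup P)).filter
    fun A => A.Normal ∧ ∀ a ∈ A, ∀ b ∈ A, a * b = b * a).exists_max_image
    (fun A => Nat.card A) ⟨⊥, by
      rw [mem_filter]
      refine ⟨mem_univ _, inferInstance, ?_⟩
      intro a ha b hb
      rw [Subgroup.mem_bot] at ha hb
      rw [ha, hb]⟩
  rw [mem_filter] at hA
  obtain ⟨-, hAn, hAc⟩ := hA
  refine ⟨A, hAn, hAc, ?_⟩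
  intro g hg
  by_contra hgA
  let C : Subgroup P := Subgroup.centralizer (A : Set P)
  have hCn : C.Normal := inferInstance
  let π : P →* P ⧸ A := QuotientGroup.mk' A
  have hKn : (C.map π).Normal := hCn.map π (QuotientGroup.mk'_surjective A)
  have hgC : g ∈ C := by
    rw [Subgroup.mem_centralizer_iff]
    exact fun a ha => hg a ha
  obtain ⟨k, hkC, hk1, hk⟩ := center_meet (C.map π) (π g)
    ⟨g, hgC, rfl⟩ (by
      intro h
      exact hgA ((QuotientGroup.eq_one_iff g).mp h))
  obtain ⟨x, hxC, hxk⟩ := hkC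
  have hxA : x ∉ A := by
    intro h
    apply hk1
    rw [← hxk]
    exact (QuotientGroup.eq_one_iff x).mpr h
  have hxc : ∀ a ∈ A, a * x = x * a := fun a ha => (Subgroup.mem_centralizer_iff.mp hxC) a ha
  let B : Subgroup P := A ⊔ Subgroup.zpowers x
  have hmem : ∀ b ∈ B, ∃ a ∈ A, ∃ i : ℤ, b = a * x ^ i := by
    intro b hb
    have h1 : b ∈ ((A ⊔ Subgroup.zpowers x : Subgroup P) : Set P) := hb
    rw [Subgroup.normal_mul] at h1
    obtain ⟨a, ha, z, hz, rfl⟩ := Set.mem_mul.mp h1
    obtain ⟨i, rfl⟩ := Subgroup.mem_zpowers_iff.mp hz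
    exact ⟨a, ha, i, rfl⟩
  have hAB : A ≤ B := le_sup_left
  have hxB : x ∈ B := (le_sup_right : Subgroup.zpowers x ≤ B) (Subgroup.mem_zpowers x)
  have hBc : ∀ a ∈ B, ∀ b ∈ B, a * b = b * a := by
    intro a ha b hb
    obtain ⟨a1, ha1, i, rfl⟩ := hmem a ha
    obtain ⟨a2, ha2, j, rfl⟩ := hmem b hb
    have c1 : Commute a1 a2 := hAc a1 ha1 a2 ha2
    have c2 : Commute a1 (x ^ j) := Commute.zpow_right (hxc a1 ha1) j
    have c3 : Commute a2 (x ^ i) := Commute.zpow_right (hxc a2 ha2) i
    have c4 : Commute (x ^ i) (x ^ j) := Commute.zpow_zpow_self x i j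
    exact (Commute.mul_left (Commute.mul_right c1 c2) (Commute.mul_right c3.symm c4)).eq
  have hBn : B.Normal := by
    constructor
    intro b hb y
    obtain ⟨a, ha, i, rfl⟩ := hmem b hb
    have h1 : y * (a * x ^ i) * y⁻¹ = (y * a * y⁻¹) * (y * x * y⁻¹) ^ i := by
      rw [conj_zpow]
      group
    rw [h1]
    apply B.mul_mem (hAB (hAn.conj_mem a ha y))
    apply B.zpow_mem
    have h2 : π (y * x * y⁻¹) = π x := by
      rw [map_mul, map_mul, map_inv, hxk]
      exact hk (π y)
    have h3 : x⁻¹ * (y * x * y⁻¹) ∈ A := QuotientGroup.eq.mp h2.symm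
    have h4 : y * x * y⁻¹ = x * (x⁻¹ * (y * x * y⁻¹)) := by group
    rw [h4]
    exact B.mul_mem hxB (hAB h3)
  have h5 := hmax B (by
    rw [mem_filter]
    exact ⟨mem_univ _, hBn, hBc⟩)
  have h6 : A = B := Subgroup.eq_of_le_of_card_ge hAB h5
  exact hxA (h6 ▸ hxB)

/-- A subgroup of order less than `2 ^ d` is generated by `d` elements. -/
theorem gens {P : Type} [Group P] [Finite P] (A : Subgroup P) (d : ℕ) (hd : Nat.card A < 2 ^ d) :
    ∃ S : Finset P, S.card ≤ d ∧ Subgroup.closure (S : Set P) = A := by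
  classical
  have key : ∀ d : ℕ, ∃ S : Finset P, (S : Set P) ⊆ A ∧ S.card ≤ d ∧
      (Subgroup.closure (S : Set P) = A ∨ 2 ^ d ≤ Nat.card (Subgroup.closure (S : Set P))) := by
    intro d
    induction d with
    | zero =>
      refine ⟨∅, by simp, by simp, Or.inr ?_⟩
      rw [pow_zero]
      exact Nat.card_pos
    | succ d ih =>
      obtain ⟨S, hSA, hSd, h | h⟩ := ih
      · exact ⟨S, hSA, by omega, Or.inl h⟩
      · by_cases hc : Subgroup.closure (S : Set P) = A
        · exact ⟨S, hSA, by omega, Or.inl hc⟩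
        · have hle : Subgroup.closure (S : Set P) ≤ A := (Subgroup.closure_le A).mpr hSA
          obtain ⟨x, hxA, hxS⟩ : ∃ x ∈ A, x ∉ Subgroup.closure (S : Set P) := by
            by_contra hcon
            push Not at hcon
            exact hc (le_antisymm hle hcon)
          refine ⟨insert x S, ?_, ?_, Or.inr ?_⟩
          · rw [coe_insert]
            exact Set.insert_subset hxA hSA
          · exact le_trans (card_insert_le x S) (by omega)
          · have hle2 : Subgroup.closure (S : Set P) ≤
                Subgroup.closure ((insert x S : Finset P) : Set P) := by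
              apply Subgroup.closure_mono
              rw [coe_insert]
              exact Set.subset_insert _ _
            obtain ⟨k, hk⟩ := Subgroup.card_dvd_of_le hle2
            have hpos : 0 < Nat.card (Subgroup.closure ((insert x S : Finset P) : Set P)) :=
              Nat.card_pos
            have hk2 : 2 ≤ k := by
              rcases k with _ | _ | k
              · rw [hk] at hpos
                simp at hpos
              · exfalso
                rw [zero_add, mul_one] at hk
                have h1 := Subgroup.eq_of_le_of_card_ge hle2 hk.le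
                apply hxS
                rw [h1]
                exact Subgroup.subset_closure (by simp)
              · omega
            rw [hk, pow_succ]
            exact Nat.mul_le_mul h hk2
  obtain ⟨S, hSA, hSd, h | h⟩ := key d
  · exact ⟨S, hSd, h⟩
  · exfalso
    have hle : Subgroup.closure (S : Set P) ≤ A := (Subgroup.closure_le A).mpr hSA
    have h1 := Nat.le_of_dvd Nat.card_pos (Subgroup.card_dvd_of_le hle)
    omega

theorem card_le_of_self_centralising {P : Type} [Group P] [Finite P] (A : Subgroup P)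
    (hAn : A.Normal) (hself : ∀ g, (∀ a ∈ A, a * g = g * a) → g ∈ A) (d : ℕ)
    (hd : Nat.card A < 2 ^ d) : Nat.card P ≤ Nat.card A ^ (1 + d) := by
  classical
  let _ : Fintype P := Fintype.ofFinite _
  obtain ⟨S, hSd, hS⟩ := gens A d hd
  have hSA : ∀ s ∈ S, s ∈ A := fun s hs => by
    rw [← hS]
    exact Subgroup.subset_closure hs
  let f : P → (S → A) := fun g s => ⟨g * (s : P) * g⁻¹, hAn.conj_mem _ (hSA s s.2) g⟩
  have hfib : ∀ t ∈ (univ : Finset (S → A)),
      ((univ : Finset P).filter fun g => f g = t).card ≤ Nat.card A := by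
    intro t _
    rcases ((univ : Finset P).filter fun g => f g = t).eq_empty_or_nonempty with h | ⟨g0, hg0⟩
    · rw [h]
      simp
    · have h0 : f g0 = t := (mem_filter.mp hg0).2
      rw [Nat.card_eq_fintype_card, ← Fintype.card_coe]
      apply Fintype.card_le_of_injective
        (fun g : ((univ : Finset P).filter fun g => f g = t) => (⟨g0⁻¹ * (g : P), by
          have h1 : f g = f g0 := ((mem_filter.mp g.2).2).trans h0.symm
          apply hself
          intro a ha
          rw [← hS] at ha
          induction ha using Subgroup.closure_induction with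
          | mem s hs =>
            have h2 := congrArg Subtype.val (congrFun h1 ⟨s, hs⟩)
            have h3 : (g : P) * s * (g : P)⁻¹ = g0 * s * g0⁻¹ := h2
            have h4 : s * (g0⁻¹ * (g : P)) = g0⁻¹ * (g0 * s * g0⁻¹) * (g : P) := by group
            rw [h4, ← h3]
            group
          | one => simp
          | mul a b _ _ ha hb => rw [mul_assoc, hb, ← mul_assoc, ha, mul_assoc]
          | inv a _ ha =>
            have h5 : Commute a (g0⁻¹ * (g : P)) := ha
            exact h5.inv_left.eq⟩ : A))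
      intro g g' hgg
      have h6 := congrArg Subtype.val hgg
      exact Subtype.ext (mul_left_cancel h6)
  have h1 := card_le_mul_card_image_of_maps_to (f := f) (s := univ) (t := univ)
    (fun _ _ => mem_univ _) (Nat.card A) hfib
  rw [card_univ, card_univ, Fintype.card_fun, Fintype.card_coe,
    ← Nat.card_eq_fintype_card (α := A), ← Nat.card_eq_fintype_card (α := P)] at h1
  refine le_trans h1 ?_
  rw [pow_add, pow_one]
  exact Nat.mul_le_mul_left _ (Nat.pow_le_pow_right Nat.card_pos hSd)

/-- The elements of order dividing `p` of an abelian subgroup. -/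
def tor {P : Type} [Group P] (A : Subgroup P) (hA : ∀ a ∈ A, ∀ b ∈ A, a * b = b * a) (p : ℕ) :
    Subgroup P where
  carrier := {a | a ∈ A ∧ a ^ p = 1}
  mul_mem' := by
    rintro a b ⟨ha, ha'⟩ ⟨hb, hb'⟩
    refine ⟨A.mul_mem ha hb, ?_⟩
    have h : Commute a b := hA a ha b hb
    rw [h.mul_pow, ha', hb', one_mul]
  one_mem' := ⟨A.one_mem, one_pow p⟩
  inv_mem' := by
    rintro a ⟨ha, ha'⟩
    exact ⟨A.inv_mem ha, by rw [inv_pow, ha', inv_one]⟩

theorem mem_tor {P : Type} [Group P] (A : Subgroup P) (hA : ∀ a ∈ A, ∀ b ∈ A, a * b = b * a)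
    (p : ℕ) (a : P) : a ∈ tor A hA p ↔ a ∈ A ∧ a ^ p = 1 := Iff.rfl

/-- An abelian group of exponent dividing `m`, all of whose ranks are at most `n`, has at most
`m ^ n` elements. -/
theorem card_le_tor {P : Type} [Group P] [Finite P] (A : Subgroup P)
    (hA : ∀ a ∈ A, ∀ b ∈ A, a * b = b * a) (n m : ℕ) (hm : m ≠ 0)
    (hrank : ∀ q : ℕ, q.Prime → q ∣ m → Nat.card (tor A hA q) ≤ q ^ n)
    (hexp : ∀ a ∈ A, a ^ m = 1) : Nat.card A ≤ m ^ n := by
  classical
  let _ : Fintype P := Fintype.ofFinite _
  let T : ℕ → Finset P := fun i => univ.filter fun a => a ∈ A ∧ a ^ i = 1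
  have hT : ∀ i a, a ∈ T i ↔ a ∈ A ∧ a ^ i = 1 := fun i a => by simp [T]
  have hT1 : ∀ q, (T q).card = Nat.card (tor A hA q) := by
    intro q
    rw [Nat.card_eq_fintype_card, Fintype.card_of_subtype (T q)]
    intro x
    rw [hT, mem_tor]
  have hstep : ∀ i j, (T (j * i)).card ≤ (T i).card * (T j).card := by
    intro i j
    apply card_le_mul_card_image_of_maps_to (f := fun a => a ^ i)
    · intro a ha
      rw [hT] at ha
      rw [hT]
      refine ⟨A.pow_mem ha.1 _, ?_⟩
      rw [← pow_mul, mul_comm]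
      exact ha.2
    · intro t _
      rcases ((T (j * i)).filter fun a => a ^ i = t).eq_empty_or_nonempty with h | ⟨g0, hg0⟩
      · rw [h]
        simp
      · rw [mem_filter, hT] at hg0
        apply card_le_card_of_injOn (fun g => g0⁻¹ * g)
        · intro g hg
          have hg' := mem_filter.mp
            (show g ∈ (T (j * i)).filter fun a => a ^ i = t from hg)
          have hg1 := (hT _ _).mp hg'.1
          show g0⁻¹ * g ∈ T i
          rw [hT]
          refine ⟨A.mul_mem (A.inv_mem hg0.1.1) hg1.1, ?_⟩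
          have h1 : Commute g0⁻¹ g := (show Commute g0 g from hA g0 hg0.1.1 g hg1.1).inv_left
          rw [h1.mul_pow, inv_pow, hg0.2, hg'.2, inv_mul_cancel]
        · intro g _ g' _ hgg
          exact mul_left_cancel hgg
  have hall : ∀ i : ℕ, i ≠ 0 → (∀ q : ℕ, q.Prime → q ∣ i → (T q).card ≤ q ^ n) →
      (T i).card ≤ i ^ n := by
    intro i
    induction i using Nat.strong_induction_on with
    | _ i ih =>
      intro hi hq
      by_cases h1 : i = 1
      · rw [h1, one_pow]
        have h2 : T 1 ⊆ {1} := by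
          intro a ha
          rw [hT, pow_one] at ha
          rw [mem_singleton]
          exact ha.2
        exact le_trans (card_le_card h2) (by simp)
      · obtain ⟨q, hqp, hqi⟩ := Nat.exists_prime_and_dvd h1
        obtain ⟨j, hj⟩ := hqi
        have hj0 : j ≠ 0 := by
          intro h
          rw [h, mul_zero] at hj
          exact hi hj
        have hji : j < i := by
          rw [hj]
          have := hqp.two_le
          nlinarith [Nat.pos_of_ne_zero hj0]
        have h3 := ih j hji hj0 fun r hr hrj => hq r hr (hj ▸ Dvd.dvd.mul_left hrj q)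
        have h4 := hq q hqp ⟨j, hj⟩
        rw [hj, mul_pow]
        calc (T (q * j)).card ≤ (T j).card * (T q).card := hstep j q
          _ ≤ j ^ n * q ^ n := Nat.mul_le_mul h3 h4
          _ = q ^ n * j ^ n := mul_comm _ _
  have h2 : Nat.card A = (T m).card := by
    rw [Nat.card_eq_fintype_card, Fintype.card_of_subtype (T m)]
    intro x
    rw [hT]
    exact ⟨fun h => h.1, fun h => ⟨h, hexp x h⟩⟩
  rw [h2]
  exact hall m hm fun q hq hqm => by
    rw [hT1]
    exact hrank q hq hqm

/-- A normal abelian subgroup `A` of exponent dividing `m` contains a normal elementary abelian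
`p`-subgroup of rank `n` with `|A| ≤ m ^ n`. -/
theorem elementary_of_abelian {P : Type} [Group P] [Finite P] (A : Subgroup P) (hAn : A.Normal)
    (hAc : ∀ a ∈ A, ∀ b ∈ A, a * b = b * a) (m : ℕ) (hm : m ≠ 0) (hexp : ∀ a ∈ A, a ^ m = 1) :
    ∃ (N : Subgroup P) (p n : ℕ), N.Normal ∧ p.Prime ∧ (∀ a ∈ N, ∀ b ∈ N, a * b = b * a) ∧
      (∀ a ∈ N, a ^ p = 1) ∧ Nat.card N = p ^ n ∧ Nat.card A ≤ m ^ n := by
  classical
  have hpow : ∀ q : ℕ, q.Prime → ∃ n, Nat.card (tor A hAc q) = q ^ n := by
    intro q hq
    have : Fact q.Prime := ⟨hq⟩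
    apply IsPGroup.iff_card.mp
    intro g
    refine ⟨1, ?_⟩
    rw [pow_one]
    exact Subtype.ext g.2.2
  -- the largest rank
  obtain ⟨p, n, hp, hn, hmax⟩ : ∃ (p n : ℕ), p.Prime ∧ Nat.card (tor A hAc p) = p ^ n ∧
      ∀ q : ℕ, q.Prime → q ∣ m → Nat.card (tor A hAc q) ≤ q ^ n := by
    rcases m.primeFactors.eq_empty_or_nonempty with h | h
    · obtain ⟨n, hn⟩ := hpow 2 Nat.prime_two
      refine ⟨2, n, Nat.prime_two, hn, ?_⟩
      intro q hq hqm
      exfalso
      have : q ∈ m.primeFactors := Nat.mem_primeFactors.mpr ⟨hq, hqm, hm⟩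
      rw [h] at this
      simp at this
    · let f : ℕ → ℕ := fun q => if hq : q.Prime then (hpow q hq).choose else 0
      have hf : ∀ q (hq : q.Prime), Nat.card (tor A hAc q) = q ^ f q := by
        intro q hq
        have h1 := (hpow q hq).choose_spec
        simp only [f]
        rw [dif_pos hq]
        exact h1
      obtain ⟨p, hp, hpm⟩ := exists_max_image m.primeFactors f h
      have hpp := (Nat.mem_primeFactors.mp hp).1
      refine ⟨p, f p, hpp, hf p hpp, ?_⟩
      intro q hq hqm
      rw [hf q hq]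
      exact Nat.pow_le_pow_right hq.pos (hpm q (Nat.mem_primeFactors.mpr ⟨hq, hqm, hm⟩))
  refine ⟨tor A hAc p, p, n, ?_, hp, ?_, ?_, hn, ?_⟩
  · constructor
    rintro a ⟨ha, ha'⟩ g
    refine ⟨hAn.conj_mem a ha g, ?_⟩
    rw [conj_pow, ha']
    group
  · rintro a ⟨ha, _⟩ b ⟨hb, _⟩
    exact hAc a ha b hb
  · rintro a ⟨_, ha'⟩
    exact ha'
  · exact card_le_tor A hAc n m hm hmax hexp

/-- A finite nilpotent group of exponent dividing `m` has a normal elementary abelian `p`-subgroup
of rank `n` with `|P| ≤ a ^ (2 + log_2 a)` for some `a ≤ m ^ n`. -/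
theorem exists_elementary {P : Type} [Group P] [Finite P] [Group.IsNilpotent P] (m : ℕ)
    (hm : m ≠ 0) (hexp : ∀ g : P, g ^ m = 1) :
    ∃ (N : Subgroup P) (p n a : ℕ), N.Normal ∧ p.Prime ∧ (∀ a ∈ N, ∀ b ∈ N, a * b = b * a) ∧
      (∀ a ∈ N, a ^ p = 1) ∧ Nat.card N = p ^ n ∧ 1 ≤ a ∧ a ≤ m ^ n ∧
      Nat.card P ≤ a ^ (2 + Nat.log 2 a) := by
  classical
  obtain ⟨A, hAn, hAc, hself⟩ := self_centralising (P := P)
  obtain ⟨N, p, n, h1, h2, h3, h4, h5, h6⟩ :=
    elementary_of_abelian A hAn hAc m hm fun a _ => hexp a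
  refine ⟨N, p, n, Nat.card A, h1, h2, h3, h4, h5, Nat.card_pos, h6, ?_⟩
  have h1 := card_le_of_self_centralising A hAn hself (Nat.log 2 (Nat.card A)).succ
    (Nat.lt_pow_succ_log_self (by norm_num) _)
  refine le_trans h1 (le_of_eq ?_)
  congr 1
  rw [Nat.succ_eq_add_one]
  omega

end Pool.Agent.Books.Sym
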