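import Mathlib
import Pool.Agent.Books.Sym.Nilpotent

set_option autoImplicit false

namespace Pool.Agent.Books.Sym

open Finset

/-- (E) noncommutative expansion -/
theorem prod_sum_ofFn {R : Type} [Ring R] (k q : ℕ) (f : Fin k → Fin q → R) :
    (List.ofFn fun i => ∑ a, f i a).prod =
      ∑ α : Fin k → Fin q, (List.ofFn fun i => f i (α i)).prod := by
  induction k with
  | zero => simp
  | succ k ih =>
    rw [List.ofFn_succ, List.prod_cons, ih (fun i => f i.succ), Finset.sum_mul_sum,
      ← Fintype.sum_prod_type', ← (Fin.consEquiv (fun _ => Fin q)).sum_comp]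
    apply Fintype.sum_congr
    rintro ⟨a, α⟩
    rw [List.ofFn_succ, List.prod_cons]
    rfl

/-- (K) -/
theorem card_le_critical {Γ : Type} [Group Γ] [Finite Γ] (S A D : Subgroup Γ) (hD : D.Normal)
    (hself : ∀ g ∈ S, (∀ d ∈ D, d * g = g * d) → g ∈ A) (d : ℕ)
    (hd : Nat.card D < 2 ^ d) : Nat.card S ≤ Nat.card A * Nat.card D ^ d := by
  classical
  let _ : Fintype Γ := Fintype.ofFinite _
  obtain ⟨T, hTd, hT⟩ := gens D d hd
  have hTD : ∀ s ∈ T, s ∈ D := fun s hs => by
    rw [← hT]
    exact Subgroup.subset_closure hs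
  let f : S → (T → D) := fun g s =>
    ⟨(g : Γ) * (s : Γ) * (g : Γ)⁻¹, hD.conj_mem _ (hTD s s.2) (g : Γ)⟩
  have hfib : ∀ t ∈ (univ : Finset (T → D)),
      ((univ : Finset S).filter fun g => f g = t).card ≤ Nat.card A := by
    intro t _
    rcases ((univ : Finset S).filter fun g => f g = t).eq_empty_or_nonempty with h | ⟨g0, hg0⟩
    · rw [h]
      simp
    · have h0 : f g0 = t := (mem_filter.mp hg0).2
      rw [Nat.card_eq_fintype_card, ← Fintype.card_coe]
      apply Fintype.card_le_of_injective
        (fun g : ((univ : Finset S).filter fun g => f g = t) =>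
          (⟨(g0 : Γ)⁻¹ * ((g : S) : Γ), by
          have h1 : f g = f g0 := ((mem_filter.mp g.2).2).trans h0.symm
          apply hself
          · exact S.mul_mem (S.inv_mem g0.2) (g : S).2
          intro a ha
          rw [← hT] at ha
          induction ha using Subgroup.closure_induction with
          | mem s hs =>
            have h2 := congrArg Subtype.val (congrFun h1 ⟨s, hs⟩)
            have h3 : ((g : S) : Γ) * s * ((g : S) : Γ)⁻¹ = (g0 : Γ) * s * (g0 : Γ)⁻¹ := h2
            have h4 : s * ((g0 : Γ)⁻¹ * ((g : S) : Γ)) =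
                (g0 : Γ)⁻¹ * ((g0 : Γ) * s * (g0 : Γ)⁻¹) * ((g : S) : Γ) := by group
            rw [h4, ← h3]
            group
          | one => simp
          | mul a b _ _ ha hb => rw [mul_assoc, hb, ← mul_assoc, ha, mul_assoc]
          | inv a _ ha =>
            have h5 : Commute a ((g0 : Γ)⁻¹ * ((g : S) : Γ)) := ha
            exact h5.inv_left.eq⟩ : A))
      intro g g' hgg
      have h6 := congrArg Subtype.val hgg
      exact Subtype.ext (Subtype.ext (mul_left_cancel h6))
  have h1 := card_le_mul_card_image_of_maps_to (f := f) (s := univ) (t := univ)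
    (fun _ _ => mem_univ _) (Nat.card A) hfib
  rw [card_univ, card_univ, Fintype.card_fun, Fintype.card_coe,
    ← Nat.card_eq_fintype_card (α := D), ← Nat.card_eq_fintype_card (α := S)] at h1
  refine le_trans h1 ?_
  exact Nat.mul_le_mul_left _ (Nat.pow_le_pow_right Nat.card_pos hTd)

end Pool.Agent.Books.Sym
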