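import Pool.Agent.Books.Sym.Aug
import Pool.Agent.Books.Sym.ExpandCount

set_option autoImplicit false

/-!
# Coefficient functions for the group algebra of a normal subgroup
-/

namespace Pool.Agent.Books.Sym

open Finset

theorem list_prod_mem_pow {F R : Type} [CommRing F] [Ring R] [Algebra F R] (J : Submodule F R) :
    ∀ (k : ℕ) (f : Fin k → R) (n : Fin k → ℕ), (∀ i, f i ∈ J ^ n i) →
      (List.ofFn f).prod ∈ J ^ (∑ i, n i)
  | 0, f, n, _ => by
    rw [List.ofFn_zero, List.prod_nil, univ_eq_empty, sum_empty, pow_zero]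
    exact Submodule.one_le.mp le_rfl
  | k + 1, f, n, h => by
    rw [List.ofFn_succ, List.prod_cons, Fin.sum_univ_succ, pow_add]
    exact Submodule.mul_mem_mul (h 0)
      (list_prod_mem_pow J k (fun i => f i.succ) (fun i => n i.succ) fun i => h i.succ)

theorem list_prod_smul {F R : Type} [CommRing F] [Ring R] [Algebra F R] :
    ∀ (k : ℕ) (c : Fin k → F) (f : Fin k → R),
      (List.ofFn fun i => c i • f i).prod = (∏ i, c i) • (List.ofFn f).prod
  | 0, c, f => by simp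
  | k + 1, c, f => by
    rw [List.ofFn_succ, List.prod_cons, List.ofFn_succ, List.prod_cons, Fin.prod_univ_succ,
      list_prod_smul k (fun i => c i.succ) (fun i => f i.succ), smul_mul_smul_comm]

variable (F : Type) [Field F]

/-- The products of the powers `(g i - 1) ^ a i` and the elements of `B`. -/
noncomputable def eb {P : Type} [Group P] {k p : ℕ} (g : Fin k → P) (B : Subgroup P)
    (α : (Fin k → Fin p) × B) : MonoidAlgebra F P :=
  (List.ofFn fun i => (MonoidAlgebra.of F P (g i) - 1) ^ (α.1 i : ℕ)).prod *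
    MonoidAlgebra.of F P (α.2 : P)

theorem pow_expand {R : Type} [Ring R] [Algebra F R] (x : R) (c p : ℕ) (hc : c < p) :
    x ^ c = ∑ a : Fin p, ((c.choose a : ℕ) : F) • (x - 1) ^ (a : ℕ) := by
  have h1 : x ^ c = ∑ a ∈ range (c + 1), ((c.choose a : ℕ) : F) • (x - 1) ^ a := by
    have h2 : x ^ c = ((x - 1) + 1) ^ c := by rw [sub_add_cancel]
    rw [h2, (Commute.one_right (x - 1)).add_pow]
    apply sum_congr rfl
    intro a _
    rw [one_pow, mul_one, Algebra.smul_def, map_natCast, Nat.cast_comm]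
  rw [h1, ← Finset.sum_range (fun a => ((c.choose a : ℕ) : F) • (x - 1) ^ a)]
  apply sum_subset
  · intro a ha
    rw [mem_range] at ha ⊢
    omega
  · intro a _ ha
    rw [mem_range, not_lt] at ha
    rw [Nat.choose_eq_zero_of_lt (by omega), Nat.cast_zero, zero_smul]

theorem of_mem_span {P : Type} [Group P] {k p : ℕ} (g : Fin k → P) (B : Subgroup P)
    (c : Fin k → ℕ) (hc : ∀ i, c i < p) (b : B) :
    MonoidAlgebra.of F P ((List.ofFn fun i => g i ^ c i).prod * (b : P)) ∈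
      Submodule.span F (Set.range (eb F (p := p) g B)) := by
  rw [map_mul, map_list_prod, List.map_ofFn]
  have h1 : (⇑(MonoidAlgebra.of F P) ∘ fun i => g i ^ c i) =
      fun i => ∑ a : Fin p, (((c i).choose a : ℕ) : F) •
        (MonoidAlgebra.of F P (g i) - 1) ^ (a : ℕ) := by
    funext i
    rw [Function.comp_apply, map_pow]
    exact pow_expand F _ _ _ (hc i)
  rw [h1, prod_sum_ofFn, sum_mul]
  apply Submodule.sum_mem
  intro α _
  rw [list_prod_smul, smul_mul_assoc]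
  apply Submodule.smul_mem
  exact Submodule.subset_span ⟨(α, b), rfl⟩

theorem eb_mem {P : Type} [Group P] {k p : ℕ} (g : Fin k → P) (B : Subgroup P)
    (α : (Fin k → Fin p) × B) :
    eb F g B α ∈ (⊤ * aug F (⊤ : Subgroup P) ^ (∑ i, (α.1 i : ℕ)) :
      Submodule F (MonoidAlgebra F P)) := by
  have h1 := list_prod_mem_pow (aug F (⊤ : Subgroup P)) k
    (fun i => (MonoidAlgebra.of F P (g i) - 1) ^ (α.1 i : ℕ)) (fun i => (α.1 i : ℕ))
    (fun i => Submodule.pow_mem_pow _ (of_sub_mem F ⊤ (Subgroup.mem_top _)) _)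
  have h2 : ∀ n : ℕ, (aug F (⊤ : Subgroup P) ^ n * ⊤ : Submodule F (MonoidAlgebra F P)) ≤
      ⊤ * aug F (⊤ : Subgroup P) ^ n := by
    intro n
    induction n with
    | zero => simp
    | succ n ih =>
      calc (aug F (⊤ : Subgroup P) ^ (n + 1) * ⊤ : Submodule F (MonoidAlgebra F P))
          = aug F (⊤ : Subgroup P) ^ n * (aug F (⊤ : Subgroup P) * ⊤) := by
            rw [pow_succ, mul_assoc]
        _ ≤ aug F (⊤ : Subgroup P) ^ n * (⊤ * aug F (⊤ : Subgroup P)) :=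
            mul_le_mul' le_rfl (aug_two_sided F ⊤)
        _ = (aug F (⊤ : Subgroup P) ^ n * ⊤) * aug F (⊤ : Subgroup P) := by rw [mul_assoc]
        _ ≤ (⊤ * aug F (⊤ : Subgroup P) ^ n) * aug F (⊤ : Subgroup P) :=
            mul_le_mul' ih le_rfl
        _ = ⊤ * aug F (⊤ : Subgroup P) ^ (n + 1) := by rw [pow_succ, mul_assoc]
  exact h2 _ (Submodule.mul_mem_mul h1 Submodule.mem_top)

/-- The ideal is invariant under automorphisms. -/
theorem map_aug {P : Type} [Group P] (φ : P →* P) (n : ℕ) (x : MonoidAlgebra F P)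
    (hx : x ∈ (⊤ * aug F (⊤ : Subgroup P) ^ n : Submodule F (MonoidAlgebra F P))) :
    MonoidAlgebra.mapDomainAlgHom F F φ x ∈
      (⊤ * aug F (⊤ : Subgroup P) ^ n : Submodule F (MonoidAlgebra F P)) := by
  have h1 : (aug F (⊤ : Subgroup P)).map (MonoidAlgebra.mapDomainAlgHom F F φ).toLinearMap ≤
      aug F (⊤ : Subgroup P) := by
    rw [Submodule.map_le_iff_le_comap]
    apply aug_le
    intro b _
    rw [Submodule.mem_comap, AlgHom.toLinearMap_apply, map_sub, map_one]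
    have h2 : (MonoidAlgebra.mapDomainAlgHom F F φ) (MonoidAlgebra.of F P b) =
        MonoidAlgebra.of F P (φ b) := by
      simp
    rw [h2]
    exact of_sub_mem F ⊤ (Subgroup.mem_top _)
  have h3 : (⊤ * aug F (⊤ : Subgroup P) ^ n : Submodule F (MonoidAlgebra F P)).map
      (MonoidAlgebra.mapDomainAlgHom F F φ).toLinearMap ≤ ⊤ * aug F (⊤ : Subgroup P) ^ n := by
    rw [Submodule.map_mul, Submodule.map_pow]
    exact mul_le_mul' le_top (pow_le_pow_left' h1 n)
  exact h3 (Submodule.mem_map_of_mem hx)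

theorem mul3_mem {R : Type} [Ring R] [Algebra F R] (J : Submodule F R) (hJt : J * ⊤ ≤ ⊤ * J)
    (a b c : ℕ) (x y z : R) (hx : x ∈ (⊤ * J ^ a : Submodule F R))
    (hy : y ∈ (⊤ * J ^ b : Submodule F R)) (hz : z ∈ (⊤ * J ^ c : Submodule F R)) (D : ℕ)
    (hD : D ≤ a + b + c) : x * y * z ∈ (⊤ * J ^ D : Submodule F R) := by
  have h2 : ∀ n : ℕ, (J ^ n * ⊤ : Submodule F R) ≤ ⊤ * J ^ n := by
    intro n
    induction n with
    | zero => simp
    | succ n ih =>
      calc (J ^ (n + 1) * ⊤ : Submodule F R) = J ^ n * (J * ⊤) := by rw [pow_succ, mul_assoc]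
        _ ≤ J ^ n * (⊤ * J) := mul_le_mul' le_rfl hJt
        _ = (J ^ n * ⊤) * J := by rw [mul_assoc]
        _ ≤ (⊤ * J ^ n) * J := mul_le_mul' ih le_rfl
        _ = ⊤ * J ^ (n + 1) := by rw [pow_succ, mul_assoc]
  have h3 : ∀ m n : ℕ, ((⊤ * J ^ m) * (⊤ * J ^ n) : Submodule F R) ≤ ⊤ * J ^ (m + n) := by
    intro m n
    calc ((⊤ * J ^ m) * (⊤ * J ^ n) : Submodule F R) = ⊤ * (J ^ m * ⊤) * J ^ n := by
          rw [mul_assoc, mul_assoc, mul_assoc]
      _ ≤ ⊤ * (⊤ * J ^ m) * J ^ n := mul_le_mul' (mul_le_mul' le_rfl (h2 m)) le_rfl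
      _ = (⊤ * ⊤) * J ^ (m + n) := by rw [pow_add, mul_assoc, mul_assoc, mul_assoc]
      _ ≤ ⊤ * J ^ (m + n) := mul_le_mul' le_top le_rfl
  have h4 := h3 (a + b) c (Submodule.mul_mem_mul (h3 a b (Submodule.mul_mem_mul hx hy)) hz)
  obtain ⟨e, he⟩ := Nat.exists_eq_add_of_le hD
  rw [he, add_comm D e, pow_add, ← mul_assoc] at h4
  exact (mul_le_mul' (le_top : (⊤ * J ^ e : Submodule F R) ≤ ⊤) le_rfl) h4

open Classical in
theorem coefP {Γ : Type} [Group Γ] (N : Subgroup Γ) [hN : N.Normal] {S : Type} [Fintype S]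
    (w : S → ℕ) (D : ℕ) (e : S → MonoidAlgebra F N) (cf : S → N → F)
    (he : ∀ α, e α ∈ (⊤ * aug F (⊤ : Subgroup N) ^ w α : Submodule F (MonoidAlgebra F N)))
    (hcf : ∀ u : N, MonoidAlgebra.of F N u = ∑ α, cf α u • e α)
    (hD : (⊤ * aug F (⊤ : Subgroup N) ^ (D + 1) : Submodule F (MonoidAlgebra F N)) = ⊥)
    (r1 r2 r3 : Γ) :
    ∃ C : S → S → S → F, (∀ α β γ, D < w α + w β + w γ → C α β γ = 0) ∧
      ∀ u1 u2 u3 : N,
        (if (u1 : Γ) * r1 * ((u2 : Γ) * r2) * ((u3 : Γ) * r3) = 1 then (1 : F) else 0) =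
          ∑ α, ∑ β, ∑ γ, C α β γ * (cf α u1 * cf β u2 * cf γ u3) := by
  by_cases hr : r1 * r2 * r3 ∈ N
  · let φ1 : N →* N := (MulAut.conjNormal r1 : N ≃* N).toMonoidHom
    let φ2 : N →* N := (MulAut.conjNormal (r1 * r2) : N ≃* N).toMonoidHom
    let A1 := MonoidAlgebra.mapDomainAlgHom F F φ1
    let A2 := MonoidAlgebra.mapDomainAlgHom F F φ2
    let t : N := (⟨r1 * r2 * r3, hr⟩ : N)⁻¹
    let L : MonoidAlgebra F N →ₗ[F] F :=
      (Finsupp.lapply t : (N →₀ F) →ₗ[F] F) ∘ₗ (MonoidAlgebra.coeffLinearEquiv F).toLinearMap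
    refine ⟨fun α β γ => L (e α * A1 (e β) * A2 (e γ)), ?_, ?_⟩
    · intro α β γ h
      have h1 := mul3_mem F (aug F (⊤ : Subgroup N)) (aug_two_sided F ⊤) (w α) (w β) (w γ)
        (e α) (A1 (e β)) (A2 (e γ)) (he α) (map_aug F φ1 _ _ (he β)) (map_aug F φ2 _ _ (he γ))
        (D + 1) h
      rw [hD, Submodule.mem_bot] at h1
      show L (e α * A1 (e β) * A2 (e γ)) = 0
      rw [h1, map_zero]
    · intro u1 u2 u3
      have h1 : MonoidAlgebra.of F N u1 * A1 (MonoidAlgebra.of F N u2) *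
          A2 (MonoidAlgebra.of F N u3) = MonoidAlgebra.of F N (u1 * φ1 u2 * φ2 u3) := by
        have h2 : A1 (MonoidAlgebra.of F N u2) = MonoidAlgebra.of F N (φ1 u2) := by
          simp [A1]
        have h3 : A2 (MonoidAlgebra.of F N u3) = MonoidAlgebra.of F N (φ2 u3) := by
          simp [A2]
        rw [h2, h3, ← map_mul, ← map_mul]
      have h2 : L (MonoidAlgebra.of F N (u1 * φ1 u2 * φ2 u3)) =
          if (u1 : Γ) * r1 * ((u2 : Γ) * r2) * ((u3 : Γ) * r3) = 1 then (1 : F) else 0 := by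
        have h3 : L (MonoidAlgebra.of F N (u1 * φ1 u2 * φ2 u3)) =
            if u1 * φ1 u2 * φ2 u3 = t then (1 : F) else 0 := by
          simp [L, MonoidAlgebra.of_apply, Finsupp.single_apply]
        rw [h3]
        have h4 : (u1 * φ1 u2 * φ2 u3 = t) ↔
            ((u1 : Γ) * r1 * ((u2 : Γ) * r2) * ((u3 : Γ) * r3) = 1) := by
          have h5 : ((u1 * φ1 u2 * φ2 u3 : N) : Γ) =
              (u1 : Γ) * (r1 * u2 * r1⁻¹) * ((r1 * r2) * u3 * (r1 * r2)⁻¹) := rfl
          constructor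
          · intro h
            have h6 : ((u1 * φ1 u2 * φ2 u3 : N) : Γ) = (r1 * r2 * r3)⁻¹ := by
              rw [h]
              rfl
            rw [h5] at h6
            have h7 : (u1 : Γ) * r1 * ((u2 : Γ) * r2) * ((u3 : Γ) * r3) =
                (u1 : Γ) * (r1 * u2 * r1⁻¹) * ((r1 * r2) * u3 * (r1 * r2)⁻¹) *
                  (r1 * r2 * r3) := by group
            rw [h7, h6]
            group
          · intro h
            apply Subtype.ext
            rw [h5]
            show _ = (r1 * r2 * r3)⁻¹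
            have h7 : (u1 : Γ) * (r1 * u2 * r1⁻¹) * ((r1 * r2) * u3 * (r1 * r2)⁻¹) =
                (u1 : Γ) * r1 * ((u2 : Γ) * r2) * ((u3 : Γ) * r3) * (r1 * r2 * r3)⁻¹ := by group
            rw [h7, h, one_mul]
        by_cases h6 : u1 * φ1 u2 * φ2 u3 = t
        · rw [if_pos h6, if_pos (h4.mp h6)]
        · rw [if_neg h6, if_neg fun h => h6 (h4.mpr h)]
      rw [← h2, ← h1, hcf u1, hcf u2, hcf u3]
      simp only [map_sum, map_smul, sum_mul, mul_sum, smul_mul_assoc, mul_smul_comm, smul_eq_mul]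
      have h8 : ∀ g : S → S → S → F, ∑ γ, ∑ β, ∑ α, g α β γ = ∑ α, ∑ β, ∑ γ, g α β γ := by
        intro g
        rw [sum_congr rfl fun γ _ => sum_comm, sum_comm]
        exact sum_congr rfl fun α _ => sum_comm
      rw [h8 fun α β γ => cf γ u3 * (cf β u2 * (cf α u1 * L (e α * A1 (e β) * A2 (e γ))))]
      refine sum_congr rfl fun α _ => sum_congr rfl fun β _ => sum_congr rfl fun γ _ => ?_
      ring
  · refine ⟨0, fun _ _ _ _ => rfl, ?_⟩
    intro u1 u2 u3
    rw [if_neg]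
    · simp
    · intro h
      apply hr
      have h7 : r1 * r2 * r3 = ((r1 * r2) * u3 * (r1 * r2)⁻¹)⁻¹ * (r1 * u2 * r1⁻¹)⁻¹ *
          (u1 : Γ)⁻¹ * ((u1 : Γ) * r1 * ((u2 : Γ) * r2) * ((u3 : Γ) * r3)) := by group
      rw [h7, h, mul_one]
      exact N.mul_mem (N.mul_mem (N.inv_mem (hN.conj_mem _ u3.2 _))
        (N.inv_mem (hN.conj_mem _ u2.2 _))) (N.inv_mem u1.2)

end Pool.Agent.Books.Sym
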