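import Mathlib

set_option autoImplicit false

namespace Pool.Agent.Books.Sym

open Finset

section W

variable {F R : Type} [CommRing F] [Ring R] [Algebra F R]

theorem W_TT : (⊤ * ⊤ : Submodule F R) = ⊤ := by
  refine le_antisymm le_top fun x _ => ?_
  have := Submodule.mul_mem_mul (M := (⊤ : Submodule F R)) (N := (⊤ : Submodule F R))
    (Submodule.mem_top (x := (1 : R))) (Submodule.mem_top (x := x))
  rwa [one_mul] at this

theorem W_JT (J : Submodule F R) (hJt : J * ⊤ ≤ ⊤ * J) (n : ℕ) : J ^ n * ⊤ ≤ ⊤ * J ^ n := by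
  induction n with
  | zero => rw [pow_zero, one_mul, mul_one]
  | succ n ih =>
    calc J ^ (n + 1) * ⊤ = J ^ n * (J * ⊤) := by rw [pow_succ, mul_assoc]
      _ ≤ J ^ n * (⊤ * J) := mul_le_mul' le_rfl hJt
      _ = (J ^ n * ⊤) * J := by rw [mul_assoc]
      _ ≤ (⊤ * J ^ n) * J := mul_le_mul' ih le_rfl
      _ = ⊤ * J ^ (n + 1) := by rw [pow_succ, mul_assoc]

theorem W_KX (K : Submodule F R) (hKc : ∀ a ∈ K, ∀ x : R, a * x = x * a) (X : Submodule F R) :
    K * X = X * K := by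
  refine le_antisymm (Submodule.mul_le.2 fun a ha x hx => ?_)
    (Submodule.mul_le.2 fun x hx a ha => ?_)
  · rw [hKc a ha x]
    exact Submodule.mul_mem_mul hx ha
  · rw [← hKc a ha x]
    exact Submodule.mul_mem_mul ha hx

theorem W_le_of_le (J K : Submodule F R) (hKc : ∀ a ∈ K, ∀ x : R, a * x = x * a) (a b : ℕ)
    (h : b ≤ a) : (⊤ * K * J ^ a : Submodule F R) ≤ ⊤ * K * J ^ b := by
  obtain ⟨c, rfl⟩ := Nat.exists_eq_add_of_le' h
  calc (⊤ * K * J ^ (c + b) : Submodule F R) = ⊤ * K * (J ^ c * J ^ b) := by rw [pow_add]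
    _ ≤ ⊤ * K * (⊤ * J ^ b) := mul_le_mul' le_rfl (mul_le_mul' le_top le_rfl)
    _ = ⊤ * (K * ⊤) * J ^ b := by simp only [mul_assoc]
    _ = ⊤ * (⊤ * K) * J ^ b := by rw [W_KX K hKc]
    _ = ⊤ * K * J ^ b := by rw [← mul_assoc, W_TT]

theorem W_left (X : Submodule F R) (K : Submodule F R) (n : ℕ) (r x : R)
    (hx : x ∈ (⊤ * K * X ^ n : Submodule F R)) : r * x ∈ (⊤ * K * X ^ n : Submodule F R) := by
  have h := Submodule.mul_mem_mul (M := (⊤ : Submodule F R)) (Submodule.mem_top (x := r)) hx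
  rw [← mul_assoc, ← mul_assoc, W_TT] at h
  exact h

theorem W_J_left (J K : Submodule F R) (hJt : J * ⊤ ≤ ⊤ * J)
    (hKc : ∀ a ∈ K, ∀ x : R, a * x = x * a) (n : ℕ) (r x : R) (hr : r ∈ J)
    (hx : x ∈ (⊤ * K * J ^ n : Submodule F R)) : r * x ∈ (⊤ * K * J ^ (n + 1) : Submodule F R) := by
  have h := Submodule.mul_mem_mul hr hx
  have h2 : J * (⊤ * K * J ^ n) ≤ (⊤ * K * J ^ (n + 1) : Submodule F R) := by
    calc J * (⊤ * K * J ^ n) = (J * ⊤) * (K * J ^ n) := by simp only [mul_assoc]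
      _ ≤ (⊤ * J) * (K * J ^ n) := mul_le_mul' hJt le_rfl
      _ = ⊤ * (J * K) * J ^ n := by simp only [mul_assoc]
      _ = ⊤ * (K * J) * J ^ n := by rw [W_KX K hKc J]
      _ = ⊤ * K * J ^ (n + 1) := by rw [pow_succ']; simp only [mul_assoc]
  exact h2 h

/-- words -/
def Wd {k : ℕ} (u : Fin k → R) (l : List (Fin k)) : R := (l.map u).prod

theorem W_perm (J K : Submodule F R) (k : ℕ) (u : Fin k → R) (hJt : J * ⊤ ≤ ⊤ * J)
    (hKc : ∀ a ∈ K, ∀ x : R, a * x = x * a) (hu : ∀ i, u i ∈ J)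
    (hcomm : ∀ i j, u i * u j - u j * u i ∈ (⊤ * K : Submodule F R)) (l l' : List (Fin k))
    (h : l.Perm l') : Wd u l - Wd u l' ∈ (⊤ * K * J ^ (l.length - 2) : Submodule F R) := by
  have hword : ∀ l : List (Fin k), Wd u l ∈ J ^ l.length := by
    intro l
    induction l with
    | nil =>
      simp only [Wd, List.map_nil, List.prod_nil, List.length_nil, pow_zero]
      exact Submodule.one_le.1 le_rfl
    | cons a l ih =>
      simp only [Wd, List.map_cons, List.prod_cons, List.length_cons, pow_succ'] at ih ⊢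
      exact Submodule.mul_mem_mul (hu a) ih
  induction h with
  | nil => rw [sub_self]; exact Submodule.zero_mem _
  | cons a h ih =>
    rename_i l₁ l₂
    have e : Wd u (a :: l₁) - Wd u (a :: l₂) = u a * (Wd u l₁ - Wd u l₂) := by
      simp only [Wd, List.map_cons, List.prod_cons, mul_sub]
    rw [e]
    have h1 := W_J_left J K hJt hKc _ (u a) _ (hu a) ih
    refine W_le_of_le J K hKc _ _ ?_ h1
    simp only [List.length_cons]
    omega
  | swap a b l =>
    have e : Wd u (b :: a :: l) - Wd u (a :: b :: l) = (u b * u a - u a * u b) * Wd u l := by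
      simp only [Wd, List.map_cons, List.prod_cons, sub_mul, mul_assoc]
    rw [e]
    simp only [List.length_cons]
    exact Submodule.mul_mem_mul (hcomm b a) (hword l)
  | trans h1 h2 ih1 ih2 =>
    rename_i l₁ l₂ l₃
    have e : Wd u l₁ - Wd u l₃ = (Wd u l₁ - Wd u l₂) + (Wd u l₂ - Wd u l₃) := by abel
    rw [e]
    rw [← h1.length_eq] at ih2
    exact Submodule.add_mem _ ih1 ih2

theorem W_count (k : ℕ) (l : List (Fin k)) : ∑ i : Fin k, l.count i = l.length := by
  induction l with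
  | nil => simp
  | cons a l ih =>
    simp only [List.count_cons, sum_add_distrib, ih, List.length_cons, beq_iff_eq]
    congr 1
    simp

theorem W_word (J K : Submodule F R) (k q : ℕ) (hq : 2 ≤ q) (u : Fin k → R)
    (hJt : J * ⊤ ≤ ⊤ * J)
    (hKc : ∀ a ∈ K, ∀ x : R, a * x = x * a) (hu : ∀ i, u i ∈ J)
    (hcomm : ∀ i j, u i * u j - u j * u i ∈ (⊤ * K : Submodule F R))
    (hpow : ∀ i, u i ^ q ∈ (⊤ * K : Submodule F R)) (l : List (Fin k))
    (hl : k * (q - 1) + 1 ≤ l.length) :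
    Wd u l ∈ (⊤ * K * J ^ (l.length - q) : Submodule F R) := by
  have hword : ∀ l : List (Fin k), Wd u l ∈ J ^ l.length := by
    intro l
    induction l with
    | nil =>
      simp only [Wd, List.map_nil, List.prod_nil, List.length_nil, pow_zero]
      exact Submodule.one_le.1 le_rfl
    | cons a l ih =>
      simp only [Wd, List.map_cons, List.prod_cons, List.length_cons, pow_succ'] at ih ⊢
      exact Submodule.mul_mem_mul (hu a) ih
  obtain ⟨i, hi⟩ : ∃ i, q ≤ l.count i := by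
    by_contra hcon
    push Not at hcon
    have h1 : ∑ i : Fin k, l.count i ≤ ∑ _i : Fin k, (q - 1) :=
      sum_le_sum fun i _ => by have := hcon i; omega
    rw [W_count, sum_const, card_univ, Fintype.card_fin, smul_eq_mul] at h1
    omega
  obtain ⟨l', hl'⟩ := (List.replicate_sublist_iff.mpr hi).exists_perm_append
  have hlen := hl'.length_eq
  rw [List.length_append, List.length_replicate] at hlen
  have h1 := W_perm J K k u hJt hKc hu hcomm l _ hl'
  have h2 : Wd u (List.replicate q i ++ l') ∈ (⊤ * K * J ^ (l.length - q) : Submodule F R) := by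
    have e : Wd u (List.replicate q i ++ l') = u i ^ q * Wd u l' := by
      simp only [Wd, List.map_append, List.prod_append, List.map_replicate, List.prod_replicate]
    rw [e, hlen, Nat.add_sub_cancel_left]
    exact Submodule.mul_mem_mul (hpow i) (hword l')
  have h3 := W_le_of_le J K hKc (l.length - 2) (l.length - q) (by omega) h1
  have e : Wd u l = (Wd u l - Wd u (List.replicate q i ++ l')) +
      Wd u (List.replicate q i ++ l') := by abel
  rw [e]
  exact Submodule.add_mem _ h3 h2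

theorem W_main (J K : Submodule F R)
    (k q : ℕ) (hk : 1 ≤ k) (hq : 2 ≤ q) (u : Fin k → R)
    (hJt : J * ⊤ ≤ ⊤ * J)
    (hKc : ∀ a ∈ K, ∀ x : R, a * x = x * a)
    (hu : ∀ i, u i ∈ J)
    (hJ : ∀ a ∈ J, ∃ r : Fin k → R, a - ∑ i, r i * u i ∈ (⊤ * K : Submodule F R))
    (hcomm : ∀ i j, u i * u j - u j * u i ∈ (⊤ * K : Submodule F R))
    (hpow : ∀ i, u i ^ q ∈ (⊤ * K : Submodule F R)) (M : ℕ) (hM : k * (q - 1) + 1 ≤ M) :
    (⊤ * J ^ M : Submodule F R) ≤ ⊤ * K * J ^ (M - q) := by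
  obtain ⟨U, hU⟩ : ∃ U : Submodule F R, U = Submodule.span F (Set.range u) := ⟨_, rfl⟩
  have hUJ : U ≤ J := by
    rw [hU, Submodule.span_le]
    rintro _ ⟨i, rfl⟩
    exact hu i
  have hJle : J ≤ ⊤ * U ⊔ ⊤ * K := by
    intro a ha
    obtain ⟨r, hr⟩ := hJ a ha
    have e : a = (∑ i, r i * u i) + (a - ∑ i, r i * u i) := by abel
    rw [e]
    refine Submodule.add_mem _ (Submodule.mem_sup_left ?_) (Submodule.mem_sup_right hr)
    refine Submodule.sum_mem _ fun i _ => Submodule.mul_mem_mul Submodule.mem_top ?_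
    rw [hU]
    exact Submodule.subset_span ⟨i, rfl⟩
  have key : ∀ n : ℕ, (⊤ * J ^ (n + 1) : Submodule F R) ≤ ⊤ * U ^ (n + 1) ⊔ ⊤ * K * J ^ n := by
    intro n
    induction n with
    | zero =>
      rw [zero_add, pow_one, pow_one, pow_zero, mul_one]
      calc (⊤ * J : Submodule F R) ≤ ⊤ * (⊤ * U ⊔ ⊤ * K) := mul_le_mul' le_rfl hJle
        _ = ⊤ * U ⊔ ⊤ * K := by
          rw [Submodule.mul_sup, ← mul_assoc, ← mul_assoc, W_TT]
    | succ n ih =>
      calc (⊤ * J ^ (n + 1 + 1) : Submodule F R) = (⊤ * J ^ (n + 1)) * J := by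
            rw [pow_succ J (n + 1), mul_assoc]
        _ ≤ (⊤ * J ^ (n + 1)) * (⊤ * U ⊔ ⊤ * K) := mul_le_mul' le_rfl hJle
        _ = (⊤ * (J ^ (n + 1) * ⊤)) * U ⊔ (⊤ * (J ^ (n + 1) * ⊤)) * K := by
            rw [Submodule.mul_sup]
            simp only [mul_assoc]
        _ ≤ (⊤ * (⊤ * J ^ (n + 1))) * U ⊔ (⊤ * (⊤ * J ^ (n + 1))) * K :=
            sup_le_sup
              (mul_le_mul' (mul_le_mul' le_rfl (W_JT J hJt (n + 1))) le_rfl)
              (mul_le_mul' (mul_le_mul' le_rfl (W_JT J hJt (n + 1))) le_rfl)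
        _ = (⊤ * J ^ (n + 1)) * U ⊔ (⊤ * J ^ (n + 1)) * K := by
            rw [← mul_assoc, W_TT]
        _ ≤ (⊤ * U ^ (n + 1) ⊔ ⊤ * K * J ^ n) * U ⊔ ⊤ * K * J ^ (n + 1) := by
            refine sup_le_sup (mul_le_mul' ih le_rfl) ?_
            rw [mul_assoc, ← W_KX K hKc (J ^ (n + 1)), mul_assoc]
        _ ≤ ⊤ * U ^ (n + 1 + 1) ⊔ ⊤ * K * J ^ (n + 1) := by
            rw [Submodule.sup_mul]
            refine sup_le (sup_le ?_ ?_) le_sup_right
            · refine le_trans (le_of_eq ?_) le_sup_left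
              rw [pow_succ U (n + 1), mul_assoc]
            · refine le_trans ?_ le_sup_right
              rw [pow_succ J n, ← mul_assoc]
              exact mul_le_mul' le_rfl hUJ
  have hM1 : M = (M - 1) + 1 := by omega
  have hkq : q - 1 ≤ k * (q - 1) := Nat.le_mul_of_pos_left _ hk
  have h1 := key (M - 1)
  rw [← hM1] at h1
  refine h1.trans (sup_le ?_ (W_le_of_le J K hKc _ _ (by omega)))
  rw [Submodule.mul_le]
  intro r _ x hx
  apply W_left
  have h2 : U ^ M ≤ (⊤ * K * J ^ (M - q) : Submodule F R) := by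
    rw [hU, Submodule.span_pow, Submodule.span_le]
    intro y hy
    obtain ⟨f, rfl⟩ := Set.mem_pow.1 hy
    choose g hg using fun i => (f i).2
    have e : (List.ofFn fun i => ((f i : Set.range u) : R)).prod = Wd u (List.ofFn g) := by
      unfold Wd
      rw [List.map_ofFn]
      congr 2
      funext i
      exact (hg i).symm
    rw [e]
    have h3 := W_word J K k q hq u hJt hKc hu hcomm hpow (List.ofFn g)
      (by rw [List.length_ofFn]; exact hM)
    rw [List.length_ofFn] at h3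
    exact h3
  exact h2 hx

end W

/-- (W) -/
theorem filt_step {F R : Type} [CommRing F] [Ring R] [Algebra F R] (J K : Submodule F R)
    (k q : ℕ) (hk : 1 ≤ k) (hq : 2 ≤ q) (u : Fin k → R)
    (hJt : J * ⊤ ≤ ⊤ * J)
    (hKc : ∀ a ∈ K, ∀ x : R, a * x = x * a)
    (hu : ∀ i, u i ∈ J)
    (hJ : ∀ a ∈ J, ∃ r : Fin k → R, a - ∑ i, r i * u i ∈ (⊤ * K : Submodule F R))
    (hcomm : ∀ i j, u i * u j - u j * u i ∈ (⊤ * K : Submodule F R))
    (hpow : ∀ i, u i ^ q ∈ (⊤ * K : Submodule F R)) (t : ℕ) :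
    (⊤ * J ^ (k * (q - 1) + 1 + q * t) : Submodule F R) ≤ ⊤ * K ^ (t + 1) := by
  have hkq : q - 1 ≤ k * (q - 1) := Nat.le_mul_of_pos_left _ hk
  induction t with
  | zero =>
    have h1 := W_main J K k q hk hq u hJt hKc hu hJ hcomm hpow (k * (q - 1) + 1) le_rfl
    rw [mul_zero, add_zero, zero_add, pow_one]
    refine h1.trans ?_
    have h2 := W_le_of_le J K hKc (k * (q - 1) + 1 - q) 0 (Nat.zero_le _)
    rwa [pow_zero, mul_one] at h2
  | succ t ih =>
    have h1 := W_main J K k q hk hq u hJt hKc hu hJ hcomm hpow (k * (q - 1) + 1 + q * (t + 1))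
      (by omega)
    have e : k * (q - 1) + 1 + q * (t + 1) - q = k * (q - 1) + 1 + q * t := by
      rw [mul_add, mul_one]
      omega
    rw [e] at h1
    refine h1.trans ?_
    calc (⊤ * K * J ^ (k * (q - 1) + 1 + q * t) : Submodule F R)
        = K * (⊤ * J ^ (k * (q - 1) + 1 + q * t)) := by
          rw [← W_KX K hKc ⊤, mul_assoc]
      _ ≤ K * (⊤ * K ^ (t + 1)) := mul_le_mul' le_rfl ih
      _ = ⊤ * K ^ (t + 1 + 1) := by
          rw [W_KX K hKc, mul_assoc, ← pow_succ]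

end Pool.Agent.Books.Sym
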