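import Pool.Agent.Books.Sym.Aug
import Pool.Agent.Books.Sym.FiltStep

set_option autoImplicit false

/-!
# Nilpotency of the augmentation ideal of a central extension
-/

namespace Pool.Agent.Books.Sym

open Finset

theorem aug_nilpotent (p r : ℕ) [hp : Fact p.Prime] (hr : 1 ≤ r) {P : Type} [Group P]
    (B : Subgroup P) (hBc : ∀ b ∈ B, ∀ x : P, b * x = x * b) {k s : ℕ} (hk : 1 ≤ k) (hs : 1 ≤ s)
    (g : Fin k → P) (hg : ∀ x : P, x ∈ Subgroup.closure (Set.range g ∪ (B : Set P)))
    (b : Fin s → P) (hb : ∀ j, b j ∈ B) (hB : B ≤ Subgroup.closure (Set.range b))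
    (hbq : ∀ j, b j ^ (p ^ r) = 1) (hcomm : ∀ x y : P, x * y * x⁻¹ * y⁻¹ ∈ B)
    (hpow : ∀ x : P, x ^ p ∈ B) :
    (⊤ * aug (ZMod p) (⊤ : Subgroup P) ^ (k * (p - 1) + 1 + p * (s * (p ^ r - 1))) :
      Submodule (ZMod p) (MonoidAlgebra (ZMod p) P)) = ⊥ := by
  have hp2 : 2 ≤ p := hp.out.two_le
  have hchar : CharP (MonoidAlgebra (ZMod p) P) p :=
    charP_of_injective_algebraMap (FaithfulSMul.algebraMap_injective (ZMod p) _) p
  have hBn : B.Normal := ⟨fun b hb x => by
    rw [← hBc b hb x, mul_inv_cancel_right]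
    exact hb⟩
  have hq2 : 2 ≤ p ^ r := le_trans hp2 (Nat.le_self_pow (by omega) p)
  have w2 := filt_step (aug (ZMod p) B) ⊥ s (p ^ r) hs hq2
    (fun j => MonoidAlgebra.of (ZMod p) P (b j) - 1) (aug_two_sided (ZMod p) B)
    (by
      intro a ha x
      rw [(Submodule.mem_bot _).mp ha]
      simp) (fun j => of_sub_mem (ZMod p) B (hb j))
    (by
      intro a ha
      have h1 := aug_decomp (ZMod p) B ⊥ b (le_trans hB (Subgroup.closure_mono (by simp))) a ha
      rwa [aug_bot] at h1)
    (by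
      intro i j
      rw [aug_central (ZMod p) B hBc _ (of_sub_mem (ZMod p) B (hb i)), sub_self]
      exact Submodule.zero_mem _)
    (by
      intro j
      rw [sub_pow_char_pow_of_commute _ _ (Commute.one_right _), ← map_pow, hbq, map_one, one_pow,
        sub_self]
      exact Submodule.zero_mem _) 0
  have w1 := filt_step (aug (ZMod p) (⊤ : Subgroup P)) (aug (ZMod p) B) k p hk hp2
    (fun i => MonoidAlgebra.of (ZMod p) P (g i) - 1) (aug_two_sided (ZMod p) ⊤)
    (aug_central (ZMod p) B hBc) (fun i => of_sub_mem (ZMod p) ⊤ (Subgroup.mem_top _))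
    (aug_decomp (ZMod p) ⊤ B g (fun x _ => hg x))
    (by
      intro i j
      have h1 : (MonoidAlgebra.of (ZMod p) P (g i) - 1) * (MonoidAlgebra.of (ZMod p) P (g j) - 1) -
          (MonoidAlgebra.of (ZMod p) P (g j) - 1) * (MonoidAlgebra.of (ZMod p) P (g i) - 1) =
          MonoidAlgebra.of (ZMod p) P (g j * g i) *
            (MonoidAlgebra.of (ZMod p) P ((g j * g i)⁻¹ * (g i * g j)) - 1) := by
        have h3 : MonoidAlgebra.of (ZMod p) P (g j * g i) *
            (MonoidAlgebra.of (ZMod p) P ((g j * g i)⁻¹ * (g i * g j)) - 1) =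
            MonoidAlgebra.of (ZMod p) P (g i) * MonoidAlgebra.of (ZMod p) P (g j) -
              MonoidAlgebra.of (ZMod p) P (g j) * MonoidAlgebra.of (ZMod p) P (g i) := by
          rw [mul_sub, ← map_mul, mul_inv_cancel_left, map_mul, map_mul, mul_one]
        rw [h3]
        noncomm_ring
      rw [h1]
      apply Submodule.mul_mem_mul Submodule.mem_top
      apply of_sub_mem
      have h2 : (g j * g i)⁻¹ * (g i * g j) =
          (g i)⁻¹ * (g j)⁻¹ * ((g i)⁻¹)⁻¹ * ((g j)⁻¹)⁻¹ := by group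
      rw [h2]
      exact hcomm _ _)
    (by
      intro i
      rw [sub_pow_char_of_commute _ (Commute.one_right _), ← map_pow, one_pow]
      rw [← one_mul (MonoidAlgebra.of (ZMod p) P (g i ^ p) - 1)]
      exact Submodule.mul_mem_mul Submodule.mem_top (of_sub_mem _ _ (hpow _)))
    (s * (p ^ r - 1))
  rw [mul_zero, add_zero, zero_add, pow_one, Submodule.mul_bot] at w2
  exact eq_bot_iff.mpr (le_trans w1 w2)

end Pool.Agent.Books.Sym
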