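import Pool.Agent.Books.Sym.Aug

set_option autoImplicit false

/-!
# The augmentation ideal of a finite `p`-group in characteristic `p` is nilpotent
-/

namespace Pool.Agent.Books.Sym

theorem r7_step {P : Type} [Group P] [Finite P] (p : ℕ) [hp : Fact p.Prime] (hPp : IsPGroup p P)
    (A : Submodule (MonoidAlgebra (ZMod p) P) (MonoidAlgebra (ZMod p) P)) (hA : A ≠ ⊤) :
    ∃ x, x ∉ A ∧ ∀ g : P, (MonoidAlgebra.of (ZMod p) P g - 1) * x ∈ A := by
  have hfin : Finite (MonoidAlgebra (ZMod p) P) := Module.finite_of_finite (ZMod p)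
  let _ : MulAction P (MonoidAlgebra (ZMod p) P ⧸ A) :=
    MulAction.compHom _ (MonoidAlgebra.of (ZMod p) P)
  have hsm : ∀ (g : P) (y : MonoidAlgebra (ZMod p) P ⧸ A),
      g • y = MonoidAlgebra.of (ZMod p) P g • y := fun _ _ => rfl
  have hchar : CharP (MonoidAlgebra (ZMod p) P) p :=
    charP_of_injective_algebraMap (FaithfulSMul.algebraMap_injective (ZMod p) _) p
  have hpd : p ∣ Nat.card (MonoidAlgebra (ZMod p) P ⧸ A) := by
    have hnt : Nontrivial (MonoidAlgebra (ZMod p) P ⧸ A) := Submodule.Quotient.nontrivial_iff.2 hA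
    obtain ⟨q, hq⟩ := exists_ne (0 : MonoidAlgebra (ZMod p) P ⧸ A)
    have h1 : p • q = 0 := by
      rw [← Nat.cast_smul_eq_nsmul (MonoidAlgebra (ZMod p) P), CharP.cast_eq_zero, zero_smul]
    have h2 : addOrderOf q ∣ p := addOrderOf_dvd_of_nsmul_eq_zero h1
    rcases (Nat.dvd_prime hp.out).1 h2 with h3 | h3
    · exact absurd (AddMonoid.addOrderOf_eq_one_iff.1 h3) hq
    · exact (dvd_of_eq h3.symm).trans (addOrderOf_dvd_natCard q)
  have hfq : Finite (MonoidAlgebra (ZMod p) P ⧸ A) :=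
    Finite.of_surjective _ (Submodule.Quotient.mk_surjective A)
  have h0 : (0 : MonoidAlgebra (ZMod p) P ⧸ A) ∈
      MulAction.fixedPoints P (MonoidAlgebra (ZMod p) P ⧸ A) := by
    intro g
    rw [hsm, smul_zero]
  obtain ⟨b, hb, hb0⟩ := hPp.exists_fixed_point_of_prime_dvd_card_of_fixed_point _ hpd h0
  obtain ⟨x, rfl⟩ := Submodule.Quotient.mk_surjective A b
  refine ⟨x, fun hx => hb0 ((Submodule.Quotient.mk_eq_zero A).2 hx).symm, fun g => ?_⟩
  have h1 := hb g
  rw [hsm, ← Submodule.Quotient.mk_smul, smul_eq_mul] at h1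
  rw [sub_mul, one_mul]
  exact (Submodule.Quotient.eq A).1 h1

/-- The augmentation ideal of a finite `p`-group in characteristic `p` is nilpotent. -/
theorem aug_nil_pgroup {P : Type} [Group P] [Finite P] (p : ℕ) [Fact p.Prime]
    (hPp : IsPGroup p P) : ∃ K : ℕ, aug (ZMod p) (⊤ : Subgroup P) ^ K = ⊥ := by
  have hfin : Finite (MonoidAlgebra (ZMod p) P) := Module.finite_of_finite (ZMod p)
  have hwf : WellFoundedGT (Submodule (MonoidAlgebra (ZMod p) P) (MonoidAlgebra (ZMod p) P)) :=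
    inferInstance
  obtain ⟨A, ⟨K, hK⟩, hmax⟩ := hwf.wf.has_min
    {A : Submodule (MonoidAlgebra (ZMod p) P) (MonoidAlgebra (ZMod p) P) |
      ∃ K : ℕ, ∀ y ∈ aug (ZMod p) (⊤ : Subgroup P) ^ K, ∀ x ∈ A, y * x = 0}
    ⟨⊥, 0, fun y _ x hx => by rw [(Submodule.mem_bot _).1 hx, mul_zero]⟩
  by_cases hA : A = ⊤
  · refine ⟨K, ?_⟩
    rw [eq_bot_iff]
    intro y hy
    have h1 := hK y hy 1 (by rw [hA]; trivial)
    rw [mul_one] at h1
    exact (Submodule.mem_bot _).2 h1
  exfalso
  obtain ⟨x, hx, hgx⟩ := r7_step p hPp A hA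
  -- `aug * x ⊆ A`
  have h1 : ∀ y ∈ aug (ZMod p) (⊤ : Subgroup P), y * x ∈ A := by
    intro y hy
    have h2 : aug (ZMod p) (⊤ : Subgroup P) ≤
        (A.restrictScalars (ZMod p)).comap (LinearMap.mulRight (ZMod p) x) := by
      apply aug_le
      intro b _
      rw [Submodule.mem_comap, LinearMap.mulRight_apply]
      exact hgx b
    have h3 := h2 hy
    rw [Submodule.mem_comap, LinearMap.mulRight_apply] at h3
    exact h3
  have h4 : ∀ y ∈ (⊤ * aug (ZMod p) (⊤ : Subgroup P) : Submodule (ZMod p)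
      (MonoidAlgebra (ZMod p) P)), y * x ∈ A := by
    intro y hy
    induction hy using Submodule.mul_induction_on' with
    | mem_mul_mem m _ n hn =>
      rw [mul_assoc]
      exact A.smul_mem m (h1 n hn)
    | add y _ z _ hy hz =>
      rw [add_mul]
      exact A.add_mem hy hz
  -- the ideal `A + R x`
  apply hmax (A ⊔ Submodule.span (MonoidAlgebra (ZMod p) P) {x})
  · refine ⟨K + 1, ?_⟩
    intro y hy z hz
    rw [pow_succ] at hy
    obtain ⟨a, ha, w, hw, rfl⟩ := Submodule.mem_sup.1 hz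
    obtain ⟨r, rfl⟩ := Submodule.mem_span_singleton.1 hw
    induction hy using Submodule.mul_induction_on' with
    | mem_mul_mem m hm n hn =>
      rw [mul_assoc]
      apply hK m hm
      rw [mul_add]
      apply A.add_mem (A.smul_mem n ha)
      rw [smul_eq_mul, ← mul_assoc]
      exact h4 _ (aug_two_sided (ZMod p) (⊤ : Subgroup P) (Submodule.mul_mem_mul hn trivial))
    | add y _ z _ hy hz =>
      rw [add_mul, hy, hz, add_zero]
  · rw [left_lt_sup]
    intro h
    exact hx (h (Submodule.mem_span_singleton_self x))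

end Pool.Agent.Books.Sym
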