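import Pool.Agent.Books.Sym.Jen

set_option autoImplicit false

/-!
# Groups with a large normal nilpotent subgroup of bounded class and exponent
-/

namespace Pool.Agent.Books.Sym

open Finset

theorem class_bound {Γ : Type} [Group Γ] [Fintype Γ] (S : Subgroup Γ) (hS : S.Normal) (m k : ℕ)
    (hm : 2 ≤ m) (hexp : ∀ g ∈ S, g ^ m = 1) (hk1 : 1 ≤ k) (hk : S.lowerCentralSeries k = ⊥)
    (x : ℝ)
    (hlog : 18 * x * k * (m : ℝ) ^ (Nat.log 2 k + 1) * Real.log m ≤ Real.log (Nat.card S))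
    (I : Type) [Fintype I] [DecidableEq I] (x' y z : I → Γ)
    (h : ∀ i j k, x' i * y j * z k = 1 ↔ i = j ∧ j = k) :
    (Fintype.card I : ℝ) ≤ 3 * ((Fintype.card Γ : ℝ) * Real.exp (-(2 * x))) := by
  obtain ⟨P, p, r, N, hPn, hp, _, hPp, hr, hprm, hPe, hPc, hPN, hSN⟩ :=
    exists_sylow_part S hS k hk m hm hexp
  have hpF : Fact p.Prime := ⟨hp⟩
  have h1 := tricolouredJ P p r k N hr hk1 hPp hPe hPc hPN x' y z h
  have hm2 : (2 : ℝ) ≤ m := by exact_mod_cast hm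
  have hlm : 0 < Real.log m := Real.log_pos (by linarith)
  have hMpos : 0 < p ^ (r - 1) * (k * (p ^ r) ^ Nat.log 2 k) :=
    Nat.mul_pos (pow_pos hp.pos _) (Nat.mul_pos (by omega) (pow_pos (pow_pos hp.pos _) _))
  have hM2 : 2 * (p ^ (r - 1) * (k * (p ^ r) ^ Nat.log 2 k)) ≤ k * m ^ (Nat.log 2 k + 1) := by
    have h2 : 2 * p ^ (r - 1) ≤ m := by
      obtain ⟨r', rfl⟩ : ∃ r', r = r' + 1 := ⟨r - 1, by omega⟩
      rw [Nat.add_sub_cancel]
      calc 2 * p ^ r' ≤ p * p ^ r' := Nat.mul_le_mul_right _ hp.two_le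
        _ = p ^ (r' + 1) := by rw [pow_succ, mul_comm]
        _ ≤ m := hprm
    have h3 : (p ^ r) ^ Nat.log 2 k ≤ m ^ Nat.log 2 k := Nat.pow_le_pow_left hprm _
    calc 2 * (p ^ (r - 1) * (k * (p ^ r) ^ Nat.log 2 k))
        = (2 * p ^ (r - 1)) * (k * (p ^ r) ^ Nat.log 2 k) := by ring
      _ ≤ m * (k * m ^ Nat.log 2 k) := Nat.mul_le_mul h2 (Nat.mul_le_mul_left k h3)
      _ = k * m ^ (Nat.log 2 k + 1) := by rw [pow_succ]; ring
  generalize p ^ (r - 1) * (k * (p ^ r) ^ Nat.log 2 k) = M at h1 hMpos hM2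
  have hpos : (0 : ℝ) < M := by exact_mod_cast hMpos
  have hM2' : 2 * (M : ℝ) ≤ k * (m : ℝ) ^ (Nat.log 2 k + 1) := by exact_mod_cast hM2
  have hN : 18 * x * k * (m : ℝ) ^ (Nat.log 2 k + 1) ≤ N := by
    have h2 : Real.log (Nat.card S) ≤ N * Real.log m := by
      have h3 : (Nat.card S : ℝ) ≤ (m : ℝ) ^ N := by exact_mod_cast hSN
      have h4 := Real.log_le_log (by exact_mod_cast Nat.card_pos) h3
      rwa [Real.log_pow] at h4
    exact le_of_mul_le_mul_right (le_trans hlog h2) hlm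
  have hN0 : (0 : ℝ) ≤ N := Nat.cast_nonneg N
  have hkey : 2 * x ≤ (N : ℝ) / (18 * M) := by
    rw [le_div_iff₀ (by positivity)]
    rcases le_or_gt x 0 with hx | hx
    · have : 2 * x * (18 * (M : ℝ)) ≤ 0 :=
        mul_nonpos_of_nonpos_of_nonneg (by linarith) (by positivity)
      linarith
    · have h2 : x * (2 * (M : ℝ)) ≤ x * (k * (m : ℝ) ^ (Nat.log 2 k + 1)) :=
        mul_le_mul_of_nonneg_left hM2' hx.le
      linarith
  refine le_trans h1 ?_
  apply mul_le_mul_of_nonneg_left _ (by norm_num)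
  apply mul_le_mul_of_nonneg_left _ (Nat.cast_nonneg _)
  apply Real.exp_le_exp.mpr
  have h2 : -(N : ℝ) / (18 * M) = -((N : ℝ) / (18 * M)) := by
    ring
  rw [h2]
  linarith

end Pool.Agent.Books.Sym
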