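import Mathlib

set_option autoImplicit false

/-!
# The number of monomials of low degree (Chernoff bound)
-/

namespace Pool.Agent.Books.Sym

open Finset

/-- The exponent vectors of degree at most a third of the maximum. -/
def low (m n : ℕ) : Finset (Fin n → Fin (m + 1)) :=
  univ.filter fun α => 3 * ∑ t, (α t : ℕ) ≤ m * n

theorem sum_exp_le (m : ℕ) (l : ℝ) :
    ∑ a : Fin (m + 1), Real.exp (l * ((m : ℝ) / 2 - (a : ℕ))) ≤
      (m + 1) * Real.exp ((l * m / 2) ^ 2 / 2) := by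
  have hrev : ∑ a : Fin (m + 1), Real.exp (l * ((m : ℝ) / 2 - (a : ℕ))) =
      ∑ a : Fin (m + 1), Real.exp (-(l * ((m : ℝ) / 2 - (a : ℕ)))) := by
    rw [← Equiv.sum_comp Fin.revPerm]
    apply sum_congr rfl
    intro a _
    congr 1
    have h1 : ((Fin.revPerm a : Fin (m + 1)) : ℕ) = m - (a : ℕ) := by
      simp [Fin.revPerm, Fin.val_rev]
    have h2 : (a : ℕ) ≤ m := Nat.lt_succ_iff.mp a.2
    rw [h1, Nat.cast_sub h2]
    ring
  have h2 : ∑ a : Fin (m + 1), Real.exp (l * ((m : ℝ) / 2 - (a : ℕ))) =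
      ∑ a : Fin (m + 1), Real.cosh (l * ((m : ℝ) / 2 - (a : ℕ))) := by
    have h3 : ∑ a : Fin (m + 1), Real.cosh (l * ((m : ℝ) / 2 - (a : ℕ))) =
        (∑ a : Fin (m + 1), Real.exp (l * ((m : ℝ) / 2 - (a : ℕ))) +
          ∑ a : Fin (m + 1), Real.exp (-(l * ((m : ℝ) / 2 - (a : ℕ))))) / 2 := by
      rw [← sum_add_distrib, sum_div]
      exact sum_congr rfl fun a _ => by rw [Real.cosh_eq]
    rw [h3, ← hrev]
    ring
  rw [h2]
  have h4 : ∀ a ∈ (univ : Finset (Fin (m + 1))),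
      Real.cosh (l * ((m : ℝ) / 2 - (a : ℕ))) ≤ Real.exp ((l * m / 2) ^ 2 / 2) := by
    intro a _
    refine le_trans (Real.cosh_le_exp_half_sq _) ?_
    apply Real.exp_le_exp.mpr
    have h5 : (a : ℕ) ≤ m := Nat.lt_succ_iff.mp a.2
    have h6 : ((a : ℕ) : ℝ) ≤ m := by exact_mod_cast h5
    have h7 : (0 : ℝ) ≤ ((a : ℕ) : ℝ) := by positivity
    have h8 : ((m : ℝ) / 2 - (a : ℕ)) ^ 2 ≤ (m / 2) ^ 2 := by nlinarith
    have h9 : (l * ((m : ℝ) / 2 - (a : ℕ))) ^ 2 ≤ (l * m / 2) ^ 2 := by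
      have : (l * m / 2) ^ 2 = l ^ 2 * (m / 2) ^ 2 := by ring
      rw [this, mul_pow]
      exact mul_le_mul_of_nonneg_left h8 (sq_nonneg l)
    linarith
  refine le_trans (sum_le_card_nsmul _ _ _ h4) ?_
  rw [card_univ, Fintype.card_fin, nsmul_eq_mul]
  push_cast
  exact le_refl _

theorem card_low_le (m n : ℕ) (hm : 1 ≤ m) :
    ((low m n).card : ℝ) ≤ ((m : ℝ) + 1) ^ n * Real.exp (-(n : ℝ) / 18) := by
  have hm0 : (0 : ℝ) < m := by exact_mod_cast hm
  set l : ℝ := 2 / (3 * m) with hl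
  have hlpos : 0 < l := by positivity
  have h1 : ((low m n).card : ℝ) ≤
      ∑ α : Fin n → Fin (m + 1), ∏ t, Real.exp (l * ((m : ℝ) / 3 - ((α t : Fin (m + 1)) : ℕ))) := by
    have h2 : ((low m n).card : ℝ) = ∑ α ∈ low m n, (1 : ℝ) := by simp
    rw [h2]
    refine le_trans (sum_le_sum (f := fun _ => (1 : ℝ))
      (g := fun α : Fin n → Fin (m + 1) =>
        ∏ t, Real.exp (l * ((m : ℝ) / 3 - ((α t : Fin (m + 1)) : ℕ)))) ?_)
      (sum_le_sum_of_subset_of_nonneg (subset_univ _) fun α _ _ =>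
        prod_nonneg fun t _ => (Real.exp_pos _).le)
    intro α hα
    rw [low, mem_filter] at hα
    have h3 : (3 : ℝ) * ∑ t, ((α t : ℕ) : ℝ) ≤ m * n := by exact_mod_cast hα.2
    rw [← Real.exp_sum]
    apply Real.one_le_exp
    rw [← mul_sum, sum_sub_distrib, sum_const, card_univ, Fintype.card_fin, nsmul_eq_mul]
    apply mul_nonneg hlpos.le
    linarith
  have h2 : ∑ α : Fin n → Fin (m + 1), ∏ t, Real.exp (l * ((m : ℝ) / 3 - ((α t : Fin (m + 1)) : ℕ))) =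
      (∑ a : Fin (m + 1), Real.exp (l * ((m : ℝ) / 3 - (a : ℕ)))) ^ n := by
    have h3 := Finset.prod_univ_sum (fun _ : Fin n => (univ : Finset (Fin (m + 1))))
      (fun _ a => Real.exp (l * ((m : ℝ) / 3 - ((a : Fin (m + 1)) : ℕ))))
    rw [prod_const, card_univ, Fintype.card_fin] at h3
    rw [h3, Fintype.piFinset_univ]
  rw [h2] at h1
  refine le_trans h1 ?_
  have h3 : ∑ a : Fin (m + 1), Real.exp (l * ((m : ℝ) / 3 - (a : ℕ))) ≤
      (m + 1) * Real.exp (-1 / 18) := by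
    have h4 : ∑ a : Fin (m + 1), Real.exp (l * ((m : ℝ) / 3 - (a : ℕ))) =
        Real.exp (-(1 / 9)) * ∑ a : Fin (m + 1), Real.exp (l * ((m : ℝ) / 2 - (a : ℕ))) := by
      rw [mul_sum]
      apply sum_congr rfl
      intro a _
      rw [← Real.exp_add]
      congr 1
      rw [hl]
      field_simp
      ring
    rw [h4]
    refine le_trans (mul_le_mul_of_nonneg_left (sum_exp_le m l) (Real.exp_pos _).le) ?_
    have h5 : (l * m / 2) ^ 2 / 2 = 1 / 18 := by
      rw [hl]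
      field_simp
      norm_num
    rw [h5]
    have h6 : Real.exp (-(1 / 9)) * ((m + 1) * Real.exp (1 / 18)) =
        (m + 1) * (Real.exp (-(1 / 9)) * Real.exp (1 / 18)) := by ring
    rw [h6, ← Real.exp_add]
    norm_num
  have h7 : (0 : ℝ) ≤ ∑ a : Fin (m + 1), Real.exp (l * ((m : ℝ) / 3 - (a : ℕ))) :=
    sum_nonneg fun a _ => (Real.exp_pos _).le
  refine le_trans (pow_le_pow_left₀ h7 h3 n) ?_
  rw [mul_pow, ← Real.exp_nat_mul]
  apply le_of_eq
  congr 2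
  ring

end Pool.Agent.Books.Sym
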