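import Pool.Agent.Books.Sym.Count

set_option autoImplicit false

/-!
# Exponent vectors of small weighted degree
-/

namespace Pool.Agent.Books.Sym

open Finset

/-- Few exponent vectors have small weighted degree. -/
theorem card_low_w (m N M : ℕ) (hm : 1 ≤ m) (w : Fin N → ℕ) (hw1 : ∀ i, 1 ≤ w i)
    (hw : ∀ i, w i ≤ M) :
    (((univ : Finset (Fin N → Fin (m + 1))).filter fun α =>
      3 * ∑ i, (α i : ℕ) * w i ≤ m * ∑ i, w i).card : ℝ) ≤
        ((m : ℝ) + 1) ^ N * Real.exp (-(N : ℝ) / (18 * M)) := by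
  rcases Nat.eq_zero_or_pos N with hN | hN
  · subst hN
    have h1 : ((univ : Finset (Fin 0 → Fin (m + 1))).filter fun α =>
        3 * ∑ i, (α i : ℕ) * w i ≤ m * ∑ i, w i).card ≤ 1 := by
      refine le_trans (card_filter_le _ _) ?_
      rw [card_univ, Fintype.card_fun]
      simp
    have h2 : ((m : ℝ) + 1) ^ 0 * Real.exp (-((0 : ℕ) : ℝ) / (18 * M)) = 1 := by
      simp
    rw [h2]
    exact_mod_cast h1
  have hM1 : 1 ≤ M := le_trans (hw1 ⟨0, hN⟩) (hw ⟨0, hN⟩)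
  have hM0 : (0 : ℝ) < M := by exact_mod_cast hM1
  have hm0 : (0 : ℝ) < m := by exact_mod_cast hm
  have hN0 : (0 : ℝ) < N := by exact_mod_cast hN
  set s1 : ℝ := ∑ i, (w i : ℝ) with hs1
  set s2 : ℝ := ∑ i, (w i : ℝ) ^ 2 with hs2
  have hw1' : ∀ i, (1 : ℝ) ≤ w i := fun i => by exact_mod_cast hw1 i
  have hw' : ∀ i, (w i : ℝ) ≤ M := fun i => by exact_mod_cast hw i
  have hs1N : (N : ℝ) ≤ s1 := by
    have h1 : ∑ i : Fin N, (1 : ℝ) ≤ ∑ i, (w i : ℝ) := sum_le_sum fun i _ => hw1' i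
    simpa using h1
  have hs1pos : 0 < s1 := by linarith
  have hs2pos : 0 < s2 := by
    have h1 : ∑ i : Fin N, (1 : ℝ) ≤ ∑ i, (w i : ℝ) ^ 2 := sum_le_sum fun i _ => by
      have := hw1' i
      nlinarith
    have h2 : (N : ℝ) ≤ s2 := by simpa using h1
    linarith
  have hs2le : s2 ≤ M * s1 := by
    rw [hs2, hs1, mul_sum]
    apply sum_le_sum
    intro i _
    rw [sq]
    exact mul_le_mul_of_nonneg_right (hw' i) (by linarith [hw1' i])
  set l : ℝ := 2 / (3 * m) * (s1 / s2) with hl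
  have hlpos : 0 < l := by positivity
  have h1 : (((univ : Finset (Fin N → Fin (m + 1))).filter fun α =>
      3 * ∑ i, (α i : ℕ) * w i ≤ m * ∑ i, w i).card : ℝ) ≤
      ∑ α : Fin N → Fin (m + 1), ∏ t, Real.exp (l * w t * ((m : ℝ) / 3 - ((α t : Fin (m + 1)) : ℕ))) := by
    rw [← nsmul_one, ← sum_const]
    refine le_trans (sum_le_sum (f := fun _ => (1 : ℝ))
      (g := fun α : Fin N → Fin (m + 1) =>
        ∏ t, Real.exp (l * w t * ((m : ℝ) / 3 - ((α t : Fin (m + 1)) : ℕ)))) ?_)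
      (sum_le_sum_of_subset_of_nonneg (subset_univ _) fun α _ _ =>
        prod_nonneg fun t _ => (Real.exp_pos _).le)
    intro α hα
    rw [mem_filter] at hα
    have h3 : (3 : ℝ) * ∑ i, ((α i : ℕ) : ℝ) * w i ≤ m * s1 := by
      rw [hs1]
      exact_mod_cast hα.2
    rw [← Real.exp_sum]
    apply Real.one_le_exp
    have h4 : ∑ t, l * (w t : ℝ) * ((m : ℝ) / 3 - ((α t : Fin (m + 1)) : ℕ)) =
        l * (m * s1 / 3 - ∑ i, ((α i : ℕ) : ℝ) * w i) := by
      rw [hs1, mul_sub, mul_sum, sum_div, mul_sum, mul_sum, ← sum_sub_distrib]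
      apply sum_congr rfl
      intro t _
      ring
    rw [h4]
    apply mul_nonneg hlpos.le
    linarith
  have h2 : ∑ α : Fin N → Fin (m + 1),
      ∏ t, Real.exp (l * w t * ((m : ℝ) / 3 - ((α t : Fin (m + 1)) : ℕ))) =
      ∏ t, ∑ a : Fin (m + 1), Real.exp (l * w t * ((m : ℝ) / 3 - (a : ℕ))) := by
    have h3 := Finset.prod_univ_sum (fun _ : Fin N => (univ : Finset (Fin (m + 1))))
      (fun t a => Real.exp (l * w t * ((m : ℝ) / 3 - ((a : Fin (m + 1)) : ℕ))))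
    rw [h3, Fintype.piFinset_univ]
  rw [h2] at h1
  refine le_trans h1 ?_
  have h3 : ∀ t ∈ (univ : Finset (Fin N)),
      ∑ a : Fin (m + 1), Real.exp (l * w t * ((m : ℝ) / 3 - (a : ℕ))) ≤
      (m + 1) * Real.exp (-(l * m / 6) * w t + (l * m) ^ 2 / 8 * (w t : ℝ) ^ 2) := by
    intro t _
    have h4 : ∑ a : Fin (m + 1), Real.exp (l * w t * ((m : ℝ) / 3 - (a : ℕ))) =
        Real.exp (-(l * m / 6) * w t) *
          ∑ a : Fin (m + 1), Real.exp (l * w t * ((m : ℝ) / 2 - (a : ℕ))) := by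
      rw [mul_sum]
      apply sum_congr rfl
      intro a _
      rw [← Real.exp_add]
      congr 1
      ring
    rw [h4]
    refine le_trans (mul_le_mul_of_nonneg_left (sum_exp_le m (l * w t)) (Real.exp_pos _).le) ?_
    have h6 : Real.exp (-(l * m / 6) * w t) * ((m + 1) * Real.exp ((l * w t * m / 2) ^ 2 / 2)) =
        (m + 1) * (Real.exp (-(l * m / 6) * w t) * Real.exp ((l * w t * m / 2) ^ 2 / 2)) := by ring
    rw [h6, ← Real.exp_add]
    apply le_of_eq
    congr 2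
    ring
  refine le_trans (prod_le_prod (fun t _ => sum_nonneg fun a _ => (Real.exp_pos _).le) h3) ?_
  rw [prod_mul_distrib, prod_const, card_univ, Fintype.card_fin, ← Real.exp_sum,
    sum_add_distrib, ← mul_sum, ← mul_sum, ← hs1, ← hs2]
  apply mul_le_mul_of_nonneg_left _ (by positivity)
  apply Real.exp_le_exp.mpr
  have hlm : l * m = 2 / 3 * (s1 / s2) := by
    rw [hl]
    field_simp
  have h7 : -(l * m / 6) * s1 + (l * m) ^ 2 / 8 * s2 = -(s1 ^ 2 / s2) / 18 := by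
    rw [hlm]
    field_simp
    ring
  rw [h7]
  have h8 : (N : ℝ) / M ≤ s1 ^ 2 / s2 := by
    rw [div_le_div_iff₀ hM0 hs2pos]
    calc (N : ℝ) * s2 ≤ s1 * (M * s1) := mul_le_mul hs1N hs2le hs2pos.le hs1pos.le
      _ = s1 ^ 2 * M := by ring
  have h9 : -(N : ℝ) / (18 * M) = -((N : ℝ) / M) / 18 := by
    field_simp
  rw [h9]
  linarith

end Pool.Agent.Books.Sym
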