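import Mathlib

set_option autoImplicit false

/-! A critical pair `A ≤ D` inside a solvable normal subgroup. -/

namespace Pool.Agent.Books.Sym

open Finset

private lemma crit_comm_lt {Γ : Type} [Group Γ] (S K : Subgroup Γ) (hS : Group.IsSolvable S)
    (hKS : K ≤ S) (hK : K ≠ ⊥) : ⁅K, K⁆ < K := by
  have h1 : K.subgroupOf S ≠ ⊥ := by
    intro h
    apply hK
    rw [← Subgroup.map_subgroupOf_eq_of_le hKS, h, Subgroup.map_bot]
  have h2 := Group.IsSolvable.commutator_lt_of_ne_bot h1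
  refine lt_of_le_of_ne ?_ ?_
  · rw [Subgroup.commutator_le]
    intro a ha b hb
    exact K.mul_mem (K.mul_mem (K.mul_mem ha hb) (K.inv_mem ha)) (K.inv_mem hb)
  · intro h
    apply h2.ne
    apply Subgroup.map_injective S.subtype_injective
    rw [Subgroup.map_commutator, Subgroup.map_subgroupOf_eq_of_le hKS, h]

/-- (C) -/
theorem critical {Γ : Type} [Group Γ] [Finite Γ] (S : Subgroup Γ) [S.Normal]
    (hS : Group.IsSolvable S) :
    ∃ A D : Subgroup Γ, A.Normal ∧ D.Normal ∧ A ≤ D ∧ D ≤ S ∧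
      (∀ a ∈ A, ∀ d ∈ D, a * d = d * a) ∧ (∀ x ∈ D, ∀ y ∈ D, x * y * x⁻¹ * y⁻¹ ∈ A) ∧
      (∀ g ∈ S, (∀ d ∈ D, d * g = g * d) → g ∈ A) := by
  classical
  -- a maximal abelian normal subgroup of `Γ` inside `S`
  obtain ⟨A, hA⟩ := exists_maximal_of_wellFoundedGT
    (fun A : Subgroup Γ => A.Normal ∧ A ≤ S ∧ ∀ a ∈ A, ∀ b ∈ A, a * b = b * a)
    ⟨⊥, inferInstance, bot_le, by
      intro a ha b hb
      rw [Subgroup.mem_bot] at ha hb
      rw [ha, hb]⟩
  obtain ⟨hAn, hAS, hAc⟩ := hA.prop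
  -- a maximal `D`
  obtain ⟨D, hD⟩ := exists_maximal_of_wellFoundedGT
    (fun D : Subgroup Γ => D.Normal ∧ A ≤ D ∧ D ≤ S ∧ (∀ a ∈ A, ∀ d ∈ D, a * d = d * a) ∧
      ∀ x ∈ D, ∀ y ∈ D, x * y * x⁻¹ * y⁻¹ ∈ A)
    ⟨A, hAn, le_rfl, hAS, hAc, fun x hx y hy =>
      A.mul_mem (A.mul_mem (A.mul_mem hx hy) (A.inv_mem hx)) (A.inv_mem hy)⟩
  obtain ⟨hDn, hAD, hDS, hDA, hDD⟩ := hD.prop
  refine ⟨A, D, hAn, hDn, hAD, hDS, hDA, hDD, ?_⟩
  -- every normal subgroup of `Γ` in `S` centralising `D` lies in `A`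
  have key : ∀ n : ℕ, ∀ K : Subgroup Γ, Nat.card K = n → K.Normal → K ≤ S →
      (∀ k ∈ K, ∀ d ∈ D, d * k = k * d) → K ≤ A := by
    intro n
    induction n using Nat.strong_induction_on with
    | _ n ih =>
      intro K hn hKn hKS hKD
      by_cases hK : K = ⊥
      · rw [hK]
        exact bot_le
      have hlt : ⁅K, K⁆ < K := crit_comm_lt S K hS hKS hK
      have hcard : Nat.card (⁅K, K⁆ : Subgroup Γ) < n := by
        rw [← hn]
        have h1 : ((⁅K, K⁆ : Subgroup Γ) : Set Γ) ⊂ (K : Set Γ) := hlt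
        have h2 := Set.ncard_lt_ncard h1 (Set.toFinite _)
        rw [← Nat.card_coe_set_eq, ← Nat.card_coe_set_eq] at h2
        exact h2
      have hKK : ⁅K, K⁆ ≤ A := by
        refine ih _ hcard ⁅K, K⁆ rfl inferInstance (hlt.le.trans hKS) ?_
        intro k hk d hd
        exact hKD k (hlt.le hk) d hd
      -- `D ⊔ K` satisfies the conditions for `D`
      have hKleD : K ≤ D := by
        have hcond : (D ⊔ K).Normal ∧ A ≤ D ⊔ K ∧ D ⊔ K ≤ S ∧
            (∀ a ∈ A, ∀ d ∈ D ⊔ K, a * d = d * a) ∧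
            ∀ x ∈ D ⊔ K, ∀ y ∈ D ⊔ K, x * y * x⁻¹ * y⁻¹ ∈ A := by
          refine ⟨Subgroup.sup_normal D K, hAD.trans le_sup_left, sup_le hDS hKS, ?_, ?_⟩
          · intro a ha z hz
            rw [Subgroup.mem_sup_of_normal_right] at hz
            obtain ⟨d, hd, k, hk, rfl⟩ := hz
            rw [← mul_assoc, hDA a ha d hd, mul_assoc, hKD k hk a (hAD ha), mul_assoc]
          · intro x hx y hy
            rw [Subgroup.mem_sup_of_normal_right] at hx hy
            obtain ⟨d, hd, k, hk, rfl⟩ := hx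
            obtain ⟨e, he, l, hl, rfl⟩ := hy
            have c1 : e * k = k * e := hKD k hk e he
            have c2 : d * l = l * d := hKD l hl d hd
            have c3 : d⁻¹ * l = l * d⁻¹ := hKD l hl _ (D.inv_mem hd)
            have c4 : e⁻¹ * k = k * e⁻¹ := hKD k hk _ (D.inv_mem he)
            have c5 : d⁻¹ * k = k * d⁻¹ := hKD k hk _ (D.inv_mem hd)
            have c6 : e⁻¹ * l = l * e⁻¹ := hKD l hl _ (D.inv_mem he)
            have c7 : d⁻¹ * k⁻¹ = k⁻¹ * d⁻¹ := hKD _ (K.inv_mem hk) _ (D.inv_mem hd)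
            have c8 : e⁻¹ * l⁻¹ = l⁻¹ * e⁻¹ := hKD _ (K.inv_mem hl) _ (D.inv_mem he)
            have c9 : e⁻¹ * k⁻¹ = k⁻¹ * e⁻¹ := hKD _ (K.inv_mem hk) _ (D.inv_mem he)
            have e1 : d * k * (e * l) * (d * k)⁻¹ * (e * l)⁻¹
                = (d * e * d⁻¹ * e⁻¹) * (k * l * k⁻¹ * l⁻¹) := by
              calc d * k * (e * l) * (d * k)⁻¹ * (e * l)⁻¹
                  = d * (k * e) * l * (k⁻¹ * d⁻¹) * (l⁻¹ * e⁻¹) := by
                    simp only [mul_inv_rev, mul_assoc]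
                _ = d * (e * k) * l * (d⁻¹ * k⁻¹) * (e⁻¹ * l⁻¹) := by rw [c1, c7, c8]
                _ = d * e * k * (l * d⁻¹) * (k⁻¹ * e⁻¹) * l⁻¹ := by simp only [mul_assoc]
                _ = d * e * k * (d⁻¹ * l) * (e⁻¹ * k⁻¹) * l⁻¹ := by rw [c3, c9]
                _ = d * e * (k * d⁻¹) * (l * e⁻¹) * k⁻¹ * l⁻¹ := by simp only [mul_assoc]
                _ = d * e * (d⁻¹ * k) * (e⁻¹ * l) * k⁻¹ * l⁻¹ := by rw [c5, c6]
                _ = d * e * d⁻¹ * (k * e⁻¹) * l * k⁻¹ * l⁻¹ := by simp only [mul_assoc]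
                _ = d * e * d⁻¹ * (e⁻¹ * k) * l * k⁻¹ * l⁻¹ := by rw [c4]
                _ = (d * e * d⁻¹ * e⁻¹) * (k * l * k⁻¹ * l⁻¹) := by simp only [mul_assoc]
            rw [e1]
            refine A.mul_mem (hDD d hd e he) (hKK ?_)
            exact Subgroup.commutator_mem_commutator hk hl
        exact le_sup_right.trans (hD.le_of_ge hcond le_sup_left)
      -- `A ⊔ K` is abelian
      have hcond : (A ⊔ K).Normal ∧ A ⊔ K ≤ S ∧
          ∀ a ∈ A ⊔ K, ∀ b ∈ A ⊔ K, a * b = b * a := by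
        refine ⟨Subgroup.sup_normal A K, sup_le hAS hKS, ?_⟩
        intro x hx y hy
        rw [Subgroup.mem_sup_of_normal_right] at hx hy
        obtain ⟨d, hd, k, hk, rfl⟩ := hx
        obtain ⟨e, he, l, hl, rfl⟩ := hy
        have c0 : d * e = e * d := hAc d hd e he
        have c1 : e * k = k * e := hKD k hk e (hAD he)
        have c2 : d * l = l * d := hKD l hl d (hAD hd)
        have c3 : k * l = l * k := hKD l hl k (hKleD hk)
        calc d * k * (e * l) = d * (k * e) * l := by simp only [mul_assoc]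
          _ = d * (e * k) * l := by rw [c1]
          _ = (d * e) * (k * l) := by simp only [mul_assoc]
          _ = (e * d) * (l * k) := by rw [c0, c3]
          _ = e * (d * l) * k := by simp only [mul_assoc]
          _ = e * (l * d) * k := by rw [c2]
          _ = e * l * (d * k) := by simp only [mul_assoc]
      exact le_sup_right.trans (hA.le_of_ge hcond le_sup_left)
  intro g hg hgD
  have hCn : (Subgroup.centralizer (D : Set Γ)).Normal := inferInstance
  have hK : S ⊓ Subgroup.centralizer (D : Set Γ) ≤ A := by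
    refine key _ _ rfl inferInstance inf_le_left ?_
    intro k hk d hd
    exact (Subgroup.mem_centralizer_iff.mp hk.2) d hd
  exact hK ⟨hg, Subgroup.mem_centralizer_iff.mpr hgD⟩

end Pool.Agent.Books.Sym
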