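import Mathlib

set_option autoImplicit false

/-!
# Definitions used in the statement of MP_cd78fc_co, GroupSymmetry
-/

namespace Pool.Agent.Books.Sym

open Finset

/-- The number of orbits of `Γ` on `V`. -/
noncomputable def orbits (Γ V : Type) [Group Γ] [MulAction Γ V] : ℕ :=
  Nat.card (Quotient (MulAction.orbitRel Γ V))

/-- The group `Γ` acts on the vertex set by automorphisms of `G`, and the stabilisers of the
vertices have at most `h` elements. -/
structure ActsOn (Γ : Type) {V : Type} [Group Γ] [MulAction Γ V] (G : SimpleGraph V) (h : ℕ) :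
    Prop where
  inv : ∀ (g : Γ) (u v : V), G.Adj u v → G.Adj (g • u) (g • v)
  stab : ∀ v : V, Nat.card (MulAction.stabilizer Γ v) ≤ h

/-- Every edge of `G` is in a triangle. -/
def Covered {V : Type} (G : SimpleGraph V) : Prop :=
  ∀ u v : V, G.Adj u v → ∃ w : V, G.Adj u w ∧ G.Adj v w

/-- `Γ` has a normal subgroup isomorphic to `H ^ n` (the image of `φ`) on which each element of `Γ`
acts by conjugation as a permutation of the `n` coordinates followed by maps in the coordinates. -/
def HasPower (Γ H : Type) [Group Γ] [Group H] (n : ℕ) : Prop :=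
  ∃ φ : (Fin n → H) →* Γ, Function.Injective φ ∧
    ∀ g : Γ, ∃ (σ : Equiv.Perm (Fin n)) (α : Fin n → H → H),
      ∀ u : Fin n → H, g * φ u * g⁻¹ = φ fun t => α t (u (σ t))

/-- Largeness condition on the group: (a) `Γ` has a normal subgroup `S` of exponent dividing `m ≥ 2`
and `S` is abelian with `log |S| ≥ 36 x log m`, or nilpotent of class at most `k`, `k ≥ 1`, with
`log |S| ≥ 18 x k m ^ (⌊log₂ k⌋ + 1) log m`, or solvable with `(log |S|) ^ (1 / 2) ≥ 700 x m (log m) ^ 2`, or
(b) there is a finite group `H` with at least two elements and an `n ≥ 19 x |H|` such that `Γ` has a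
normal subgroup `H ^ n` as in `HasPower`. -/
def Rich (Γ : Type) [Group Γ] (x : ℝ) : Prop :=
  (∃ (S : Subgroup Γ) (m : ℕ), S.Normal ∧ 2 ≤ m ∧ (∀ g ∈ S, g ^ m = 1) ∧
    (((∀ a ∈ S, ∀ b ∈ S, a * b = b * a) ∧ 36 * x * Real.log m ≤ Real.log (Nat.card S)) ∨
      (∃ k : ℕ, 1 ≤ k ∧ S.lowerCentralSeries k = ⊥ ∧
        18 * x * k * (m : ℝ) ^ (Nat.log 2 k + 1) * Real.log m ≤ Real.log (Nat.card S)) ∨
      (Group.IsSolvable S ∧
        700 * x * m * Real.log m ^ 2 ≤ Real.sqrt (Real.log (Nat.card S))))) ∨
  (∃ (H : Type) (_ : Group H) (_ : Fintype H) (n : ℕ), 2 ≤ Fintype.card H ∧ HasPower Γ H n ∧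
    19 * x * Fintype.card H ≤ n)

/-- The number of common neighbours of `u` and `v`, which is the number of triangles on `uv` if
`uv` is an edge. -/
def triangles {V : Type} [Fintype V] (G : SimpleGraph V) [DecidableRel G.Adj] (u v : V) : ℕ :=
  (univ.filter fun w : V => G.Adj u w ∧ G.Adj v w).card

end Pool.Agent.Books.Sym
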