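import Pool.Agent.Books.Sym.Pow1

set_option autoImplicit false

/-!
# The number of index vectors of low degree
-/

namespace Pool.Agent.Books.Sym

open Finset

section

variable {H : Type} [Group H] [Fintype H] [DecidableEq H]

theorem sum_weight (s : H) (hs : s ≠ 1) (l : ℝ) :
    ∑ g : H, Real.exp (l * (1 - (dg s g : ℝ))) =
      Real.exp (-(2 * l)) + Real.exp l + ((Fintype.card H : ℝ) - 2) := by
  have h1 : ∀ g : H, Real.exp (l * (1 - (dg s g : ℝ))) =
      1 + (if g = 1 then Real.exp (-(2 * l)) - 1 else 0) +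
        (if g = s then Real.exp l - 1 else 0) := by
    intro g
    unfold dg
    by_cases h1 : g = 1
    · subst h1
      rw [if_pos rfl, if_pos rfl, if_neg hs.symm]
      have : l * (1 - ((3 : ℕ) : ℝ)) = -(2 * l) := by push_cast; ring
      rw [this]
      ring
    · by_cases h2 : g = s
      · subst h2
        rw [if_neg h1, if_pos rfl, if_neg h1, if_pos rfl]
        have : l * (1 - ((0 : ℕ) : ℝ)) = l := by push_cast; ring
        rw [this]
        ring
      · rw [if_neg h1, if_neg h2, if_neg h1, if_neg h2]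
        have : l * (1 - ((1 : ℕ) : ℝ)) = 0 := by push_cast; ring
        rw [this, Real.exp_zero]
        ring
  rw [sum_congr rfl fun g _ => h1 g, sum_add_distrib, sum_add_distrib, sum_ite_eq', sum_ite_eq',
    sum_const, card_univ, nsmul_eq_mul]
  simp only [mem_univ, if_true]
  ring

/-- Chernoff bound. -/
theorem card_lowH_le (s : H) (hs : s ≠ 1) (n : ℕ) :
    (((univ : Finset (Fin n → H)).filter fun A => ∑ t, dg s (A t) ≤ n).card : ℝ) ≤
      (Fintype.card H : ℝ) ^ n * Real.exp (-(11 * (n : ℝ) / (100 * Fintype.card H))) := by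
  set l : ℝ := Real.log (5 / 4) with hl
  have hl0 : 0 ≤ l := Real.log_nonneg (by norm_num)
  have e1 : Real.exp l = 5 / 4 := Real.exp_log (by norm_num)
  have e2 : Real.exp (-(2 * l)) = 16 / 25 := by
    rw [Real.exp_neg, two_mul, Real.exp_add, e1]
    norm_num
  set h : ℝ := (Fintype.card H : ℝ) with hh
  have hh2 : (2 : ℝ) ≤ h := by
    have : 1 < Fintype.card H := Fintype.one_lt_card_iff.mpr ⟨s, 1, hs⟩
    have h3 : 2 ≤ Fintype.card H := this
    rw [hh]
    exact_mod_cast h3
  have h1 : (((univ : Finset (Fin n → H)).filter fun A => ∑ t, dg s (A t) ≤ n).card : ℝ) ≤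
      ∑ A : Fin n → H, ∏ t, Real.exp (l * (1 - (dg s (A t) : ℝ))) := by
    have h2 : (((univ : Finset (Fin n → H)).filter fun A => ∑ t, dg s (A t) ≤ n).card : ℝ) =
        ∑ A ∈ (univ : Finset (Fin n → H)).filter fun A => ∑ t, dg s (A t) ≤ n, (1 : ℝ) := by simp
    rw [h2]
    refine le_trans (sum_le_sum (f := fun _ => (1 : ℝ))
      (g := fun A : Fin n → H => ∏ t, Real.exp (l * (1 - (dg s (A t) : ℝ)))) ?_)
      (sum_le_sum_of_subset_of_nonneg (subset_univ _) fun A _ _ =>
        prod_nonneg fun t _ => (Real.exp_pos _).le)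
    intro A hA
    rw [mem_filter] at hA
    have h3 : (∑ t, (dg s (A t) : ℝ)) ≤ n := by exact_mod_cast hA.2
    show (1 : ℝ) ≤ ∏ t, Real.exp (l * (1 - (dg s (A t) : ℝ)))
    rw [← Real.exp_sum]
    apply Real.one_le_exp
    rw [← mul_sum, sum_sub_distrib, sum_const, card_univ, Fintype.card_fin, nsmul_eq_mul, mul_one]
    apply mul_nonneg hl0
    linarith
  have h2 : ∑ A : Fin n → H, ∏ t, Real.exp (l * (1 - (dg s (A t) : ℝ))) =
      (∑ g : H, Real.exp (l * (1 - (dg s g : ℝ)))) ^ n := by
    have h3 := Finset.prod_univ_sum (fun _ : Fin n => (univ : Finset H))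
      (fun _ g => Real.exp (l * (1 - (dg s g : ℝ))))
    rw [prod_const, card_univ, Fintype.card_fin] at h3
    rw [h3, Fintype.piFinset_univ]
  rw [h2, sum_weight s hs l, e1, e2] at h1
  refine le_trans h1 ?_
  have h3 : (16 / 25 + 5 / 4 + (h - 2) : ℝ) ≤ h * Real.exp (-(11 / (100 * h))) := by
    have h4 := Real.add_one_le_exp (-(11 / (100 * h)))
    have h5 := mul_le_mul_of_nonneg_left h4 (by linarith : (0 : ℝ) ≤ h)
    refine le_trans (le_of_eq ?_) h5
    have hne : h ≠ 0 := by linarith
    field_simp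
    ring
  refine le_trans (pow_le_pow_left₀ (by linarith) h3 n) ?_
  rw [mul_pow, ← Real.exp_nat_mul]
  apply le_of_eq
  congr 2
  have hne : h ≠ 0 := by linarith
  field_simp

end

end Pool.Agent.Books.Sym
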