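import Pool.Agent.Books.Sym.Tricoloured
import Pool.Agent.Books.Sym.Pow2

set_option autoImplicit false

/-!
# Tricoloured product-free families in a group with a normal subgroup `H ^ n`
-/

namespace Pool.Agent.Books.Sym

open Finset

/-- Product of basis functions. -/
def Mn {H : Type} [Group H] [Fintype H] [DecidableEq H] (p : ℕ) (s : H) {n : ℕ}
    (A u : Fin n → H) : ZMod p := ∏ t, bt p s (A t) (u t)

section Coord

variable {Γ H : Type} [Group Γ] [Group H] {n : ℕ} (φ : (Fin n → H) →* Γ)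

theorem range_normal (hM : ∀ g : Γ, ∃ (σ : Equiv.Perm (Fin n)) (α : Fin n → H → H),
    ∀ u : Fin n → H, g * φ u * g⁻¹ = φ fun t => α t (u (σ t))) : φ.range.Normal := by
  constructor
  rintro _ ⟨u, rfl⟩ g
  obtain ⟨σ, α, h⟩ := hM g
  rw [h u]
  exact ⟨_, rfl⟩

theorem exists_nuH [φ.range.Normal] (x : Γ) : ∃ u, φ u * (x : Γ ⧸ φ.range).out = x := by
  obtain ⟨u, hu⟩ := mem_aux φ.range x
  exact ⟨u, by rw [hu]; group⟩

theorem triple_eqH (r1 r2 r3 : Γ) (u1 u2 u3 : Fin n → H) :
    φ u1 * r1 * (φ u2 * r2) * (φ u3 * r3) =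
      φ u1 * (r1 * φ u2 * r1⁻¹) * ((r1 * r2) * φ u3 * (r1 * r2)⁻¹) * (r1 * r2 * r3) := by
  group

theorem sum_indicator {H : Type} [Fintype H] [DecidableEq H] (p : ℕ) (f : H → H) (hf : Function.Bijective f) (a : H) :
    ∑ y, (if f y = a then (1 : ZMod p) else 0) = 1 := by
  obtain ⟨y0, hy0⟩ := hf.2 a
  rw [sum_eq_single y0]
  · rw [if_pos hy0]
  · intro y _ hy
    rw [if_neg]
    intro h
    exact hy (hf.1 (h.trans hy0.symm))
  · intro h
    exact absurd (mem_univ _) h

theorem bij_of_monomial [Fintype H] (hφ : Function.Injective φ)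
    (hM : ∀ g : Γ, ∃ (σ : Equiv.Perm (Fin n)) (α : Fin n → H → H),
      ∀ u : Fin n → H, g * φ u * g⁻¹ = φ fun t => α t (u (σ t)))
    (g : Γ) (σ : Equiv.Perm (Fin n)) (α : Fin n → H → H)
    (h : ∀ u : Fin n → H, g * φ u * g⁻¹ = φ fun t => α t (u (σ t))) (t : Fin n) :
    Function.Bijective (α t) := by
  have hs : Function.Surjective (α t) := by
    intro a
    obtain ⟨σ', α', h'⟩ := hM g⁻¹
    have h1 := h' fun _ => a
    set v : Fin n → H := fun t => α' t a with hv
    have h2 := h v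
    have h3 : g * φ v * g⁻¹ = φ fun _ => a := by
      have h4 : g⁻¹ * (φ fun _ => a) * (g⁻¹)⁻¹ = φ v := h1
      rw [← h4]
      group
    rw [h3] at h2
    have h5 := congrFun (hφ h2) t
    exact ⟨v (σ t), h5.symm⟩
  exact ⟨Finite.injective_iff_surjective.mpr hs, hs⟩

open Classical in
theorem coefH [Fintype H] [DecidableEq H] (p : ℕ) (hp : p ∣ Fintype.card H) (s : H) (hs : s ≠ 1) (hφ : Function.Injective φ)
    (hM : ∀ g : Γ, ∃ (σ : Equiv.Perm (Fin n)) (α : Fin n → H → H),
      ∀ u : Fin n → H, g * φ u * g⁻¹ = φ fun t => α t (u (σ t)))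
    (r1 r2 r3 : Γ) :
    ∃ C : (Fin n → H) × (Fin n → H) × (Fin n → H) → ZMod p,
      (∀ ε, 3 * n < ∑ t, dg s (ε.1 t) + ∑ t, dg s (ε.2.1 t) + ∑ t, dg s (ε.2.2 t) → C ε = 0) ∧
      ∀ u1 u2 u3 : Fin n → H,
      (if φ u1 * r1 * (φ u2 * r2) * (φ u3 * r3) = 1 then (1 : ZMod p) else 0) =
        ∑ ε, C ε * (Mn p s ε.1 u1 * Mn p s ε.2.1 u2 * Mn p s ε.2.2 u3) := by
  obtain ⟨σ, α, hα⟩ := hM r1
  obtain ⟨τ, β, hβ⟩ := hM (r1 * r2)
  have hαb := bij_of_monomial φ hφ hM r1 σ α hα
  have hβb := bij_of_monomial φ hφ hM (r1 * r2) τ β hβ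
  by_cases hr : r1 * r2 * r3 ∈ φ.range
  · obtain ⟨c, hc⟩ := hr
    let D : Fin n → H → H → H → ZMod p := fun t x y z =>
      if x * α t y * β t z * c t = 1 then 1 else 0
    have hD1 : ∀ t y z, ∑ x, D t x y z = 1 := by
      intro t y z
      have h1 := sum_indicator p (fun x : H => x * (α t y * β t z * c t))
        (Group.mulRight_bijective _) 1
      rw [← h1]
      apply sum_congr rfl
      intro x _
      simp only [D, mul_assoc]
    have hD2 : ∀ t x z, ∑ y, D t x y z = 1 := by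
      intro t x z
      have h1 := sum_indicator p (α t) (hαb t) (x⁻¹ * (β t z * c t)⁻¹)
      rw [← h1]
      apply sum_congr rfl
      intro y _
      simp only [D]
      congr 1
      apply propext
      constructor
      · intro h
        have h2 : x * α t y * (β t z * c t) = 1 := by rw [← mul_assoc]; exact h
        have h3 : x * α t y = (β t z * c t)⁻¹ := eq_inv_of_mul_eq_one_left h2
        rw [← h3]
        group
      · intro h
        rw [h]
        group
    have hD3 : ∀ t x y, ∑ z, D t x y z = 1 := by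
      intro t x y
      have h1 := sum_indicator p (β t) (hβb t) ((x * α t y)⁻¹ * (c t)⁻¹)
      rw [← h1]
      apply sum_congr rfl
      intro z _
      simp only [D]
      congr 1
      apply propext
      constructor
      · intro h
        have h3 : x * α t y * β t z = (c t)⁻¹ := eq_inv_of_mul_eq_one_left h
        rw [← h3]
        group
      · intro h
        rw [h]
        group
    refine ⟨fun ε => ∏ t, kp p s (D t) (ε.1 t) (ε.2.1 (σ t)) (ε.2.2 (τ t)), ?_, ?_⟩
    · intro ε hε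
      have h1 : ∑ t, dg s (ε.2.1 t) = ∑ t, dg s (ε.2.1 (σ t)) :=
        (Equiv.sum_comp σ fun t => dg s (ε.2.1 t)).symm
      have h2 : ∑ t, dg s (ε.2.2 t) = ∑ t, dg s (ε.2.2 (τ t)) :=
        (Equiv.sum_comp τ fun t => dg s (ε.2.2 t)).symm
      rw [h1, h2, ← sum_add_distrib, ← sum_add_distrib] at hε
      obtain ⟨t, ht⟩ : ∃ t, 3 < dg s (ε.1 t) + dg s (ε.2.1 (σ t)) + dg s (ε.2.2 (τ t)) := by
        by_contra hcon
        push Not at hcon
        have h3 : ∑ t, (dg s (ε.1 t) + dg s (ε.2.1 (σ t)) + dg s (ε.2.2 (τ t))) ≤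
            ∑ _t : Fin n, 3 := sum_le_sum fun t _ => hcon t
        rw [sum_const, card_univ, Fintype.card_fin, smul_eq_mul] at h3
        omega
      apply prod_eq_zero (mem_univ t)
      exact kp_eq_zero p hp s hs (D t) (hD1 t) (hD2 t) (hD3 t) _ _ _ ht
    · intro u1 u2 u3
      have h1 : (φ u1 * r1 * (φ u2 * r2) * (φ u3 * r3) = 1) ↔
          ∀ t, u1 t * α t (u2 (σ t)) * β t (u3 (τ t)) * c t = 1 := by
        rw [triple_eqH, hα u2, hβ u3, ← hc, ← map_mul, ← map_mul, ← map_mul]
        constructor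
        · intro h t
          have h2 := (injective_iff_map_eq_one φ).mp hφ _ h
          exact congrFun h2 t
        · intro h
          have h2 : (u1 * (fun t => α t (u2 (σ t))) * (fun t => β t (u3 (τ t))) * c :
              Fin n → H) = 1 := by
            funext t
            exact h t
          rw [h2, map_one]
      have h2 : (if φ u1 * r1 * (φ u2 * r2) * (φ u3 * r3) = 1 then (1 : ZMod p) else 0) =
          ∏ t, D t (u1 t) (u2 (σ t)) (u3 (τ t)) := by
        by_cases h3 : ∀ t, u1 t * α t (u2 (σ t)) * β t (u3 (τ t)) * c t = 1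
        · rw [if_pos (h1.mpr h3)]
          symm
          apply prod_eq_one
          intro t _
          simp only [D]
          rw [if_pos (h3 t)]
        · rw [if_neg fun h => h3 (h1.mp h)]
          push Not at h3
          obtain ⟨t, ht⟩ := h3
          symm
          apply prod_eq_zero (mem_univ t)
          simp only [D]
          rw [if_neg ht]
      rw [h2, prod_congr rfl fun t _ => kp_expand p hp s hs (D t) (u1 t) (u2 (σ t)) (u3 (τ t)),
        Finset.prod_univ_sum, Fintype.piFinset_univ]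
      let Θ : (Fin n → H × H × H) ≃ (Fin n → H) × (Fin n → H) × (Fin n → H) :=
        { toFun := fun ε => (fun t => (ε t).1, fun t => (ε (σ.symm t)).2.1,
            fun t => (ε (τ.symm t)).2.2)
          invFun := fun A t => (A.1 t, A.2.1 (σ t), A.2.2 (τ t))
          left_inv := by
            intro ε
            funext t
            simp
          right_inv := by
            rintro ⟨A, B, C⟩
            simp }
      rw [← Equiv.sum_comp Θ]
      apply sum_congr rfl
      intro ε _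
      have e1 : ∀ t, (Θ ε).2.1 (σ t) = (ε t).2.1 := fun t => by simp [Θ]
      have e2 : ∀ t, (Θ ε).2.2 (τ t) = (ε t).2.2 := fun t => by simp [Θ]
      have e3 : Mn p s (Θ ε).2.1 u2 = ∏ t, bt p s (ε t).2.1 (u2 (σ t)) := by
        rw [Mn, ← Equiv.prod_comp σ]
        exact prod_congr rfl fun t _ => by rw [e1 t]
      have e4 : Mn p s (Θ ε).2.2 u3 = ∏ t, bt p s (ε t).2.2 (u3 (τ t)) := by
        rw [Mn, ← Equiv.prod_comp τ]
        exact prod_congr rfl fun t _ => by rw [e2 t]
      rw [e3, e4]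
      simp only [e1, e2, prod_mul_distrib]
      rfl
  · refine ⟨fun _ => 0, fun _ _ => rfl, ?_⟩
    intro u1 u2 u3
    rw [if_neg]
    · simp
    · intro h
      apply hr
      rw [triple_eqH, hα u2, hβ u3, ← map_mul, ← map_mul] at h
      have h2 := inv_eq_of_mul_eq_one_right h
      rw [← h2]
      exact φ.range.inv_mem ⟨_, rfl⟩

end Coord

/-- Tricoloured product-free families in a finite group with a normal subgroup `H ^ n` whose
factors are permuted by conjugation. -/
theorem tricolouredH {Γ H : Type} [Group Γ] [Fintype Γ] [Group H] [Fintype H] {n : ℕ}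
    (φ : (Fin n → H) →* Γ) (hφ : Function.Injective φ) (hH : 2 ≤ Fintype.card H)
    (hM : ∀ g : Γ, ∃ (σ : Equiv.Perm (Fin n)) (α : Fin n → H → H),
      ∀ u : Fin n → H, g * φ u * g⁻¹ = φ fun t => α t (u (σ t)))
    {I : Type} [Fintype I] [DecidableEq I] (x y z : I → Γ)
    (h : ∀ i j k, x i * y j * z k = 1 ↔ i = j ∧ j = k) :
    (Fintype.card I : ℝ) ≤ 3 * ((Fintype.card Γ : ℝ) *
      Real.exp (-(11 * (n : ℝ) / (100 * Fintype.card H)))) := by
  classical
  obtain ⟨p, hpp, hp⟩ := Nat.exists_prime_and_dvd (n := Fintype.card H) (by omega)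
  have : Fact p.Prime := ⟨hpp⟩
  obtain ⟨s, hs⟩ : ∃ s : H, s ≠ 1 := by
    have : Nontrivial H := Fintype.one_lt_card_iff_nontrivial.mp (by omega)
    exact exists_ne 1
  have hNn : φ.range.Normal := range_normal φ hM
  set N := φ.range with hN
  let _ : Fintype (Γ ⧸ N) := Fintype.ofFinite _
  let ν : Γ → (Fin n → H) := fun g => (exists_nuH φ g).choose
  have hν : ∀ g : Γ, φ (ν g) * (g : Γ ⧸ N).out = g := fun g => (exists_nuH φ g).choose_spec
  let κ : Γ → Γ ⧸ N := fun g => (g : Γ ⧸ N)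
  have hC := fun q1 q2 q3 : Γ ⧸ N => coefH φ p hp s hs hφ hM q1.out q2.out q3.out
  choose C hC0 hC using hC
  let X := (Fin n → H) × (Fin n → H) × (Fin n → H)
  let lw : Finset (Fin n → H) := univ.filter fun A => ∑ t, dg s (A t) ≤ n
  let E1 : X → (Fin n → H) := fun ε => ε.1
  let E2 : X → (Fin n → H) := fun ε => ε.2.1
  let E3 : X → (Fin n → H) := fun ε => ε.2.2
  let XL : Finset X := univ.filter fun ε =>
    ∑ t, dg s (ε.1 t) + ∑ t, dg s (ε.2.1 t) + ∑ t, dg s (ε.2.2 t) ≤ 3 * n
  have hdelta : ∀ i j k, (if i = j ∧ j = k then (1 : ZMod p) else 0) =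
      ∑ ε ∈ XL, C (κ (x i)) (κ (y j)) (κ (z k)) ε *
        (Mn p s (E1 ε) (ν (x i)) * Mn p s (E2 ε) (ν (y j)) * Mn p s (E3 ε) (ν (z k))) := by
    intro i j k
    have h1 := hC (κ (x i)) (κ (y j)) (κ (z k)) (ν (x i)) (ν (y j)) (ν (z k))
    have h2 : ∑ ε : X, C (κ (x i)) (κ (y j)) (κ (z k)) ε *
        (Mn p s (E1 ε) (ν (x i)) * Mn p s (E2 ε) (ν (y j)) * Mn p s (E3 ε) (ν (z k))) =
        ∑ ε ∈ XL, C (κ (x i)) (κ (y j)) (κ (z k)) ε *
        (Mn p s (E1 ε) (ν (x i)) * Mn p s (E2 ε) (ν (y j)) * Mn p s (E3 ε) (ν (z k))) := by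
      symm
      apply sum_subset (subset_univ _)
      intro ε _ hε
      have h3 : 3 * n < ∑ t, dg s (ε.1 t) + ∑ t, dg s (ε.2.1 t) + ∑ t, dg s (ε.2.2 t) := by
        by_contra hcon
        push Not at hcon
        exact hε (mem_filter.mpr ⟨mem_univ _, hcon⟩)
      rw [hC0 _ _ _ ε h3, zero_mul]
    rw [← h2]
    refine Eq.trans ?_ h1
    simp only [κ]
    rw [hν, hν, hν]
    by_cases hijk : i = j ∧ j = k
    · rw [if_pos hijk, if_pos ((h i j k).mpr hijk)]
    · rw [if_neg hijk, if_neg fun hh => hijk ((h i j k).mp hh)]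
  let SA : Finset X := XL.filter fun ε => E1 ε ∈ lw
  let SB : Finset X := (XL.filter fun ε => ¬ E1 ε ∈ lw).filter fun ε => E2 ε ∈ lw
  let SC : Finset X := (XL.filter fun ε => ¬ E1 ε ∈ lw).filter fun ε => ¬ E2 ε ∈ lw
  have key := slice (K := ZMod p) (I := I) (lw ×ˢ (univ : Finset (Γ ⧸ N)))
    (lw ×ˢ (univ : Finset (Γ ⧸ N))) (lw ×ˢ (univ : Finset (Γ ⧸ N)))
    (fun α i => Mn p s α.1 (ν (x i)) * (if κ (x i) = α.2 then 1 else 0))
    (fun α j k => ∑ ε ∈ SA.filter fun ε => E1 ε = α.1, C α.2 (κ (y j)) (κ (z k)) ε *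
      (Mn p s (E2 ε) (ν (y j)) * Mn p s (E3 ε) (ν (z k))))
    (fun β j => Mn p s β.1 (ν (y j)) * (if κ (y j) = β.2 then 1 else 0))
    (fun β i k => ∑ ε ∈ SB.filter fun ε => E2 ε = β.1, C (κ (x i)) β.2 (κ (z k)) ε *
      (Mn p s (E1 ε) (ν (x i)) * Mn p s (E3 ε) (ν (z k))))
    (fun γ k => Mn p s γ.1 (ν (z k)) * (if κ (z k) = γ.2 then 1 else 0))
    (fun γ i j => ∑ ε ∈ SC.filter fun ε => E3 ε = γ.1, C (κ (x i)) (κ (y j)) γ.2 ε *
      (Mn p s (E1 ε) (ν (x i)) * Mn p s (E2 ε) (ν (y j)))) ?_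
  · rw [card_product, card_univ] at key
    have hlow := card_lowH_le s hs n
    have hcard : Fintype.card Γ = Fintype.card (Γ ⧸ N) * Fintype.card H ^ n := by
      have h1 := Subgroup.card_eq_card_quotient_mul_card_subgroup N
      rw [Nat.card_eq_fintype_card, Nat.card_eq_fintype_card] at h1
      rw [h1]
      congr 1
      have h2 := Nat.card_congr (MonoidHom.ofInjective hφ).toEquiv
      rw [← h2, Nat.card_eq_fintype_card, Fintype.card_fun, Fintype.card_fin]
    have h1 : (Fintype.card I : ℝ) ≤ 3 * ((lw.card : ℝ) * Fintype.card (Γ ⧸ N)) := by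
      have : Fintype.card I ≤ 3 * (lw.card * Fintype.card (Γ ⧸ N)) := by omega
      exact_mod_cast this
    have h2 : (Fintype.card Γ : ℝ) = Fintype.card (Γ ⧸ N) * (Fintype.card H : ℝ) ^ n := by
      rw [hcard]
      push_cast
      ring
    rw [h2]
    have h3 := mul_le_mul_of_nonneg_right hlow (Nat.cast_nonneg (α := ℝ) (Fintype.card (Γ ⧸ N)))
    calc (Fintype.card I : ℝ) ≤ 3 * ((lw.card : ℝ) * Fintype.card (Γ ⧸ N)) := h1
      _ ≤ 3 * ((Fintype.card H : ℝ) ^ n * Real.exp (-(11 * (n : ℝ) / (100 * Fintype.card H))) *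
          Fintype.card (Γ ⧸ N)) := by linarith
      _ = _ := by ring
  intro i j k
  rw [hdelta i j k]
  have h2 : ∀ G : X → ZMod p,
      ∑ ε ∈ XL, G ε = ∑ ε ∈ SA, G ε + ∑ ε ∈ SB, G ε + ∑ ε ∈ SC, G ε := by
    intro G
    rw [add_assoc, sum_filter_add_sum_filter_not, sum_filter_add_sum_filter_not]
  rw [h2, sum_product, sum_product, sum_product]
  congr 1
  · congr 1
    · have hmap : ∀ ε ∈ SA, E1 ε ∈ lw := fun ε hε => (mem_filter.mp hε).2
      rw [← sum_fiberwise_of_maps_to hmap]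
      apply sum_congr rfl
      intro α _
      rw [sum_eq_single (κ (x i))]
      · rw [if_pos rfl, mul_one, mul_sum]
        apply sum_congr rfl
        intro ε hε
        have hα : E1 ε = α := (mem_filter.mp hε).2
        rw [← hα]
        ring
      · intro b _ hb
        rw [if_neg fun hh => hb hh.symm]
        ring
      · intro hh
        exact absurd (mem_univ _) hh
    · have hmap : ∀ ε ∈ SB, E2 ε ∈ lw := fun ε hε => (mem_filter.mp hε).2
      rw [← sum_fiberwise_of_maps_to hmap]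
      apply sum_congr rfl
      intro α _
      rw [sum_eq_single (κ (y j))]
      · rw [if_pos rfl, mul_one, mul_sum]
        apply sum_congr rfl
        intro ε hε
        have hα : E2 ε = α := (mem_filter.mp hε).2
        rw [← hα]
        ring
      · intro b _ hb
        rw [if_neg fun hh => hb hh.symm]
        ring
      · intro hh
        exact absurd (mem_univ _) hh
  · have hmap : ∀ ε ∈ SC, E3 ε ∈ lw := by
      intro ε hε
      have hb : ¬ E2 ε ∈ lw := (mem_filter.mp hε).2
      have ha : ¬ E1 ε ∈ lw := (mem_filter.mp (mem_filter.mp hε).1).2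
      have hx : ε ∈ XL := (mem_filter.mp (mem_filter.mp hε).1).1
      simp only [lw, XL, mem_filter, mem_univ, true_and, E1, E2, E3] at ha hb hx ⊢
      omega
    rw [← sum_fiberwise_of_maps_to hmap]
    apply sum_congr rfl
    intro α _
    rw [sum_eq_single (κ (z k))]
    · rw [if_pos rfl, mul_one, mul_sum]
      apply sum_congr rfl
      intro ε hε
      have hα : E3 ε = α := (mem_filter.mp hε).2
      rw [← hα]
      ring
    · intro b _ hb
      rw [if_neg fun hh => hb hh.symm]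
      ring
    · intro hh
      exact absurd (mem_univ _) hh

end Pool.Agent.Books.Sym
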