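import Pool.Agent.Books.Sym.Nilpotent

set_option autoImplicit false

/-!
A normal `p`-subgroup with a large elementary abelian quotient (piece P).
-/

namespace Pool.Agent.Books.Sym

open Finset

/-- As `elementary_of_abelian`, with `N ≤ A`. -/
theorem elementary_of_abelian' {P : Type} [Group P] [Finite P] (A : Subgroup P) (hAn : A.Normal)
    (hAc : ∀ a ∈ A, ∀ b ∈ A, a * b = b * a) (m : ℕ) (hm : m ≠ 0) (hexp : ∀ a ∈ A, a ^ m = 1) :
    ∃ (N : Subgroup P) (p n : ℕ), N ≤ A ∧ N.Normal ∧ p.Prime ∧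
      (∀ a ∈ N, ∀ b ∈ N, a * b = b * a) ∧
      (∀ a ∈ N, a ^ p = 1) ∧ Nat.card N = p ^ n ∧ Nat.card A ≤ m ^ n := by
  classical
  have hpow : ∀ q : ℕ, q.Prime → ∃ n, Nat.card (tor A hAc q) = q ^ n := by
    intro q hq
    have : Fact q.Prime := ⟨hq⟩
    apply IsPGroup.iff_card.mp
    intro g
    refine ⟨1, ?_⟩
    rw [pow_one]
    exact Subtype.ext g.2.2
  obtain ⟨p, n, hp, hn, hmax⟩ : ∃ (p n : ℕ), p.Prime ∧ Nat.card (tor A hAc p) = p ^ n ∧
      ∀ q : ℕ, q.Prime → q ∣ m → Nat.card (tor A hAc q) ≤ q ^ n := by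
    rcases m.primeFactors.eq_empty_or_nonempty with h | h
    · obtain ⟨n, hn⟩ := hpow 2 Nat.prime_two
      refine ⟨2, n, Nat.prime_two, hn, ?_⟩
      intro q hq hqm
      exfalso
      have : q ∈ m.primeFactors := Nat.mem_primeFactors.mpr ⟨hq, hqm, hm⟩
      rw [h] at this
      simp at this
    · let f : ℕ → ℕ := fun q => if hq : q.Prime then (hpow q hq).choose else 0
      have hf : ∀ q (hq : q.Prime), Nat.card (tor A hAc q) = q ^ f q := by
        intro q hq
        have h1 := (hpow q hq).choose_spec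
        simp only [f]
        rw [dif_pos hq]
        exact h1
      obtain ⟨p, hp, hpm⟩ := exists_max_image m.primeFactors f h
      have hpp := (Nat.mem_primeFactors.mp hp).1
      refine ⟨p, f p, hpp, hf p hpp, ?_⟩
      intro q hq hqm
      rw [hf q hq]
      exact Nat.pow_le_pow_right hq.pos (hpm q (Nat.mem_primeFactors.mpr ⟨hq, hqm, hm⟩))
  refine ⟨tor A hAc p, p, n, fun a ha => ha.1, ?_, hp, ?_, ?_, hn, ?_⟩
  · constructor
    rintro a ⟨ha, ha'⟩ g
    refine ⟨hAn.conj_mem a ha g, ?_⟩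
    rw [conj_pow, ha']
    group
  · rintro a ⟨ha, _⟩ b ⟨hb, _⟩
    exact hAc a ha b hb
  · rintro a ⟨_, ha'⟩
    exact ha'
  · exact card_le_tor A hAc n m hm hmax hexp

/-- (P) -/
theorem exists_pgroup {Γ : Type} [Group Γ] [Finite Γ] (A D : Subgroup Γ) (hA : A.Normal)
    (hD : D.Normal) (hAD : A ≤ D) (hc : ∀ a ∈ A, ∀ d ∈ D, a * d = d * a)
    (hcomm : ∀ x ∈ D, ∀ y ∈ D, x * y * x⁻¹ * y⁻¹ ∈ A) (m : ℕ) (hm : m ≠ 0)
    (hexp : ∀ d ∈ D, d ^ m = 1) :
    ∃ (P : Subgroup Γ) (p k : ℕ) (ψ : P →* Multiplicative (Fin k → ZMod p)),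
      P.Normal ∧ p.Prime ∧ P ≤ D ∧ IsPGroup p P ∧ Function.Surjective ψ ∧
      (∀ x : P, ψ x = 1 ↔ (x : Γ) ∈ A) ∧ Nat.card D ≤ Nat.card A * m ^ k := by
  classical
  let π : Γ →* Γ ⧸ A := QuotientGroup.mk' A
  have hπ : ∀ x : Γ, π x = 1 ↔ x ∈ A := fun x => QuotientGroup.eq_one_iff x
  let B : Subgroup (Γ ⧸ A) := D.map π
  have hBn : B.Normal := Subgroup.Normal.map hD π (QuotientGroup.mk'_surjective A)
  have hBc : ∀ a ∈ B, ∀ b ∈ B, a * b = b * a := by
    rintro _ ⟨x, hx, rfl⟩ _ ⟨y, hy, rfl⟩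
    have h := (hπ (x * y * x⁻¹ * y⁻¹)).mpr (hcomm x hx y hy)
    rw [map_mul, map_mul, map_mul, map_inv, map_inv, mul_inv_eq_one, mul_inv_eq_iff_eq_mul] at h
    exact h
  have hBe : ∀ a ∈ B, a ^ m = 1 := by
    rintro _ ⟨x, hx, rfl⟩
    rw [← map_pow, hexp x hx, map_one]
  obtain ⟨N, p, k, hNB, hNn, hp, hNc, hNe, hNk, hBk⟩ :=
    elementary_of_abelian' B hBn hBc m hm hBe
  have hpf : Fact p.Prime := ⟨hp⟩
  -- the cardinality of `D`
  have hcard : Nat.card D ≤ Nat.card A * m ^ k := by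
    let φ : D →* Γ ⧸ A := π.comp D.subtype
    have h1 := Subgroup.card_eq_card_quotient_mul_card_subgroup φ.ker
    have h2 : Nat.card (D ⧸ φ.ker) = Nat.card φ.range :=
      Nat.card_congr (QuotientGroup.quotientKerEquivRange φ).toEquiv
    have h3 : φ.range = B := by
      ext x
      constructor
      · rintro ⟨y, rfl⟩
        exact ⟨y, y.2, rfl⟩
      · rintro ⟨y, hy, rfl⟩
        exact ⟨⟨y, hy⟩, rfl⟩
    have h4 : Nat.card φ.ker ≤ Nat.card A := by
      apply Nat.card_le_card_of_injective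
        (fun x : φ.ker => (⟨((x : D) : Γ), (hπ _).mp x.2⟩ : A))
      intro x y hxy
      have := congrArg Subtype.val hxy
      exact Subtype.ext (Subtype.ext this)
    rw [h2, h3] at h1
    rw [h1, mul_comm]
    exact Nat.mul_le_mul h4 hBk
  let E : Subgroup Γ := N.comap π
  have hEn : E.Normal := Subgroup.Normal.comap hNn π
  have hED : E ≤ D := by
    intro x hx
    obtain ⟨d, hd, hdx⟩ := hNB hx
    have h1 : π (d⁻¹ * x) = 1 := by
      rw [map_mul, map_inv, hdx, inv_mul_cancel]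
    have h2 := hAD ((hπ _).mp h1)
    have h3 := D.mul_mem hd h2
    rwa [mul_inv_cancel_left] at h3
  let f : E →* N := (π.comp E.subtype).codRestrict N (fun x => x.2)
  have hfs : Function.Surjective f := by
    rintro ⟨n, hn⟩
    obtain ⟨x, hx⟩ := QuotientGroup.mk'_surjective A n
    refine ⟨⟨x, ?_⟩, Subtype.ext hx⟩
    change π x ∈ N
    have : π x = n := hx
    rw [this]; exact hn
  have hNnil : Group.IsNilpotent N := by
    refine ⟨1, ?_⟩
    rw [Subgroup.upperCentralSeries_one, Subgroup.eq_top_iff']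
    intro x
    rw [Subgroup.mem_center_iff]
    intro y
    exact Subtype.ext (hNc y y.2 x x.2)
  have hEnil : Group.IsNilpotent E := by
    refine Subgroup.isNilpotent_of_ker_le_center f ?_
    intro x hx
    rw [Subgroup.mem_center_iff]
    intro y
    have h1 : (x : Γ) ∈ A := (hπ _).mp (congrArg Subtype.val hx)
    exact Subtype.ext (hc x h1 y (hED y.2)).symm
  obtain ⟨S⟩ : Nonempty (Sylow p E) := inferInstance
  have hSn : (S : Subgroup E).Normal :=
    ((Group.isNilpotent_of_finite_tfae (G := E)).out 0 3 rfl rfl).mp hEnil p hpf S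
  have hSc : (S : Subgroup E).Characteristic := S.characteristic_of_normal hSn
  let P : Subgroup Γ := (S : Subgroup E).map E.subtype
  have hPn : P.Normal := ConjAct.normal_of_characteristic_of_normal
  have hPE : P ≤ E := by
    rintro _ ⟨x, _, rfl⟩
    exact x.2
  have hNp : IsPGroup p N := by
    intro g
    refine ⟨1, ?_⟩
    rw [pow_one]
    exact Subtype.ext (hNe g g.2)
  have hmap : (S : Subgroup E).map f = ⊤ := by
    have h1 := (S.mapSurjective hfs).3 (hNp.to_subgroup (⊤ : Subgroup N)) le_top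
    exact h1.symm
  obtain ⟨e⟩ := elem_equiv N p k hNc hNe hNk
  let g : P →* N := (π.comp P.subtype).codRestrict N (fun x => hPE x.2)
  have hgs : Function.Surjective g := by
    intro n
    have hn : n ∈ (S : Subgroup E).map f := by rw [hmap]; exact Subgroup.mem_top n
    obtain ⟨x, hx, rfl⟩ := hn
    exact ⟨⟨(x : Γ), ⟨x, hx, rfl⟩⟩, rfl⟩
  refine ⟨P, p, k, e.toMonoidHom.comp g, hPn, hp, hPE.trans hED, ?_, ?_, ?_, hcard⟩
  · exact S.2.map E.subtype
  · exact e.surjective.comp hgs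
  · intro x
    have h1 : (e.toMonoidHom.comp g) x = 1 ↔ g x = 1 := by
      change e (g x) = 1 ↔ g x = 1
      exact e.map_eq_one_iff
    rw [h1, ← hπ]
    exact ⟨fun h => congrArg Subtype.val h, fun h => Subtype.ext h⟩

end Pool.Agent.Books.Sym
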