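import Mathlib

set_option autoImplicit false

/-!
# An elementary inequality
-/

namespace Pool.Agent.Books.Sym

open Finset

/-- The rank is large. -/
theorem rank_large (P m n a : ℕ) (hP : 1 ≤ P) (hm : 2 ≤ m) (ha1 : 1 ≤ a) (ha : a ≤ m ^ n)
    (h : P ≤ a ^ (2 + Nat.log 2 a)) :
    Real.sqrt (Real.log P) / (22 * Real.log m) ≤ (n : ℝ) / 18 + 1 / 18 := by
  have hm2 : (2 : ℝ) ≤ m := by exact_mod_cast hm
  have hl2 : 0 < Real.log 2 := Real.log_pos (by norm_num)
  have hL : Real.log 2 ≤ Real.log m := Real.log_le_log (by norm_num) hm2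
  set L := Real.log m with hLdef
  have hLpos : 0 < L := lt_of_lt_of_le hl2 hL
  have hP0 : (1 : ℝ) ≤ P := by exact_mod_cast hP
  have ha0 : (1 : ℝ) ≤ a := by exact_mod_cast ha1
  have hla : 0 ≤ Real.log a := Real.log_nonneg ha0
  have h1 : Real.log a ≤ n * L := by
    have h2 : (a : ℝ) ≤ (m : ℝ) ^ n := by exact_mod_cast ha
    have h3 := Real.log_le_log (by linarith) h2
    rwa [Real.log_pow] at h3
  have h2 : ((Nat.log 2 a : ℕ) : ℝ) * Real.log 2 ≤ Real.log a := by
    have h3 : (2 : ℕ) ^ Nat.log 2 a ≤ a := Nat.pow_log_le_self 2 (by omega)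
    have h4 : (2 : ℝ) ^ Nat.log 2 a ≤ a := by exact_mod_cast h3
    have h5 := Real.log_le_log (by positivity) h4
    rwa [Real.log_pow] at h5
  have h3 : Real.log P ≤ (2 + ((Nat.log 2 a : ℕ) : ℝ)) * Real.log a := by
    have h4 : (P : ℝ) ≤ (a : ℝ) ^ (2 + Nat.log 2 a) := by exact_mod_cast h
    have h5 := Real.log_le_log (by linarith) h4
    rw [Real.log_pow] at h5
    push_cast at h5
    exact h5
  have hn0 : (0 : ℝ) ≤ n := Nat.cast_nonneg n
  have h4 : Real.log P * Real.log 2 ≤ (L * (n + 1)) ^ 2 := by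
    have h5 : Real.log P * Real.log 2 ≤
        (2 * Real.log 2 + ((Nat.log 2 a : ℕ) : ℝ) * Real.log 2) * Real.log a := by
      have := mul_le_mul_of_nonneg_right h3 hl2.le
      linarith
    have h6 : (2 * Real.log 2 + ((Nat.log 2 a : ℕ) : ℝ) * Real.log 2) * Real.log a ≤
        (2 * L + n * L) * (n * L) := by
      apply mul_le_mul _ h1 hla (by positivity)
      linarith
    have h7 : (L * (n + 1)) ^ 2 = (2 * L + n * L) * (n * L) + L ^ 2 := by ring
    rw [h7]
    have := sq_nonneg L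
    linarith
  have hlog2 : (0.6931 : ℝ) < Real.log 2 := by
    have := Real.log_two_gt_d9
    linarith
  have hlP : 0 ≤ Real.log P := Real.log_nonneg hP0
  have h5 : Real.sqrt (Real.log P) ≤ 22 / 18 * (L * (n + 1)) := by
    apply Real.sqrt_le_iff.mpr
    refine ⟨by positivity, ?_⟩
    have h6 : Real.log P * 0.6931 ≤ (L * (n + 1)) ^ 2 := by
      have := mul_le_mul_of_nonneg_left hlog2.le hlP
      linarith
    have h7 : (22 / 18 * (L * ((n : ℝ) + 1))) ^ 2 = (22 / 18) ^ 2 * (L * (n + 1)) ^ 2 := by ring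
    rw [h7]
    nlinarith [sq_nonneg (L * ((n : ℝ) + 1))]
  rw [div_le_iff₀ (by positivity)]
  calc Real.sqrt (Real.log P) ≤ 22 / 18 * (L * (n + 1)) := h5
    _ = ((n : ℝ) / 18 + 1 / 18) * (22 * L) := by ring

end Pool.Agent.Books.Sym
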