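import Pool.Agent.Books.Sym.TricolouredP
import Pool.Agent.Books.Sym.Critical
import Pool.Agent.Books.Sym.ExpandCount
import Pool.Agent.Books.Sym.PGroup
import Pool.Agent.Books.Sym.Rank

set_option autoImplicit false

/-!
# Groups with a large normal solvable subgroup of bounded exponent
-/

namespace Pool.Agent.Books.Sym

open Finset

theorem fin_gens {P : Type} [Group P] (B : Subgroup P) (T : Finset P) (s : ℕ) (hT : T.card ≤ s)
    (hcl : Subgroup.closure (T : Set P) = B) :
    ∃ b : Fin s → P, (∀ j, b j ∈ B) ∧ B ≤ Subgroup.closure (Set.range b) := by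
  classical
  let b : Fin s → P := fun j => if h : (j : ℕ) < T.card then (T.equivFin.symm ⟨j, h⟩ : P) else 1
  refine ⟨b, ?_, ?_⟩
  · intro j
    simp only [b]
    split
    · rw [← hcl]
      exact Subgroup.subset_closure (T.equivFin.symm _).2
    · exact B.one_mem
  · rw [← hcl, Subgroup.closure_le]
    intro t ht
    apply Subgroup.subset_closure
    have h1 : (T.equivFin ⟨t, ht⟩ : ℕ) < T.card := (T.equivFin ⟨t, ht⟩).2
    refine ⟨⟨(T.equivFin ⟨t, ht⟩ : ℕ), by omega⟩, ?_⟩
    simp only [b]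
    rw [dif_pos h1]
    simp

theorem solvable_num (x m R k j L s lm l2 : ℝ) (hx : 1 / 2 < x) (hm : 2 ≤ m) (hl2 : 0.6931 < l2)
    (hlm : l2 ≤ lm) (hR : 700 * x * m * lm ^ 2 ≤ R) (hj : j ≤ 36 * x + 1)
    (hRk : R / (22 * lm) ≤ (k + j) / 18 + 1 / 18) (hs : s * l2 ≤ 36 * x * lm + l2)
    (hL : L ≤ s * (m - 1)) : 1 ≤ k ∧ 2 * x ≤ k / 18 - 4 / 9 * L := by
  have hlm0 : 0 < lm := by linarith
  have hx0 : 0 < x := by linarith
  have h1 : 700 / 22 * (x * m * lm) ≤ R / (22 * lm) := by
    rw [le_div_iff₀ (by positivity)]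
    calc 700 / 22 * (x * m * lm) * (22 * lm) = 700 * x * m * lm ^ 2 := by ring
      _ ≤ R := hR
  set q := x * m * lm with hq
  have hq0 : 0 < q := by positivity
  have hxq : x ≤ 0.7215 * q := by
    have h2 : 1.3862 ≤ m * lm := by nlinarith
    have h3 : x * 1.3862 ≤ x * (m * lm) := mul_le_mul_of_nonneg_left h2 hx0.le
    have h4 : x * (m * lm) = q := by rw [hq]; ring
    rw [h4] at h3
    linarith
  have hk : 570 * q - 40 * x ≤ k := by linarith
  have hxl : x ≤ 1.443 * (x * lm) := by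
    have h2 : x * 0.6931 ≤ x * lm := mul_le_mul_of_nonneg_left (by linarith) hx0.le
    linarith
  have hs2 : s ≤ 54.9 * (x * lm) := by
    have h2 : s * l2 ≤ 36 * (x * lm) + l2 := by linarith
    have h3 : l2 ≤ 2 * x * l2 := by nlinarith
    by_contra hcon
    push Not at hcon
    have h4 : 54.9 * (x * lm) * l2 < s * l2 := mul_lt_mul_of_pos_right hcon (by linarith)
    have h5 : l2 * (54.9 * (x * lm) - 2 * x) < 36 * (x * lm) := by linarith
    have h6 : 52 * (x * lm) ≤ 54.9 * (x * lm) - 2 * x := by linarith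
    have h7 : 0.6931 * (52 * (x * lm)) ≤ l2 * (54.9 * (x * lm) - 2 * x) := by
      apply mul_le_mul hl2.le h6 (by positivity) (by linarith)
    have h8 : 0 < x * lm := by positivity
    linarith
  have hL2 : L ≤ 54.9 * q := by
    have h2 : s * (m - 1) ≤ 54.9 * (x * lm) * (m - 1) :=
      mul_le_mul_of_nonneg_right hs2 (by linarith)
    have h3 : 54.9 * (x * lm) * (m - 1) ≤ 54.9 * (x * lm) * m :=
      mul_le_mul_of_nonneg_left (by linarith) (by positivity)
    have h4 : 54.9 * (x * lm) * m = 54.9 * q := by rw [hq]; ring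
    linarith
  constructor
  · have h5 : x ≤ 0.7215 * q := hxq
    linarith
  · linarith

theorem solvable_bound {Γ : Type} [Group Γ] [Fintype Γ] (S : Subgroup Γ) [S.Normal]
    (hS : Group.IsSolvable S) (m : ℕ) (hm : 2 ≤ m) (hexp : ∀ g ∈ S, g ^ m = 1) (x : ℝ)
    (hx : 1 / 2 < x)
    (hlog : 700 * x * m * Real.log m ^ 2 ≤ Real.sqrt (Real.log (Nat.card S))) :
    (∃ A : Subgroup Γ, A.Normal ∧ (∀ a ∈ A, ∀ b ∈ A, a * b = b * a) ∧ (∀ a ∈ A, a ^ m = 1) ∧
      36 * x * Real.log m ≤ Real.log (Nat.card A)) ∨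
    (∀ (I : Type) [Fintype I] [DecidableEq I] (x' y z : I → Γ),
      (∀ i j k, x' i * y j * z k = 1 ↔ i = j ∧ j = k) →
        (Fintype.card I : ℝ) ≤ 3 * ((Fintype.card Γ : ℝ) * Real.exp (-(2 * x)))) := by
  classical
  obtain ⟨A, D, hAn, hDn, hAD, hDS, hAD2, hDD, hself⟩ := critical S hS
  by_cases hA : 36 * x * Real.log m ≤ Real.log (Nat.card A)
  · exact Or.inl ⟨A, hAn, fun a ha b hb => hAD2 a ha b (hAD hb),
      fun a ha => hexp a (hDS (hAD ha)), hA⟩
  right
  push Not at hA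
  obtain ⟨P, p, k, ψ, hPn, hp, hPD, hPp, hψ, hψA, hDk⟩ :=
    exists_pgroup A D hAn hDn hAD hAD2 hDD m (by omega) fun d hd => hexp d (hDS hd)
  have hpF : Fact p.Prime := ⟨hp⟩
  have hm2 : (2 : ℝ) ≤ m := by exact_mod_cast hm
  have hlog2 : (0.6931 : ℝ) < Real.log 2 := by
    have := Real.log_two_gt_d9
    linarith
  have hlm : Real.log 2 ≤ Real.log m := Real.log_le_log (by norm_num) hm2
  have hlm0 : 0 < Real.log m := by linarith
  -- the order of the kernel
  have hBA : Nat.card ψ.ker ≤ Nat.card A := by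
    apply Nat.card_le_card_of_injective
      (fun b : ψ.ker => (⟨((b : P) : Γ), (hψA b).mp b.2⟩ : A))
    intro b b' hbb
    have h1 : ((b : P) : Γ) = ((b' : P) : Γ) := congrArg (fun a : A => (a : Γ)) hbb
    exact Subtype.ext (Subtype.ext h1)
  have hBpos : 0 < Nat.card ψ.ker := Nat.card_pos
  have hApos : (0 : ℝ) < Nat.card A := by exact_mod_cast Nat.card_pos
  set s : ℕ := Nat.log 2 (Nat.card ψ.ker) + 1 with hs
  obtain ⟨T, hTs, hTcl⟩ := gens ψ.ker s (Nat.lt_pow_succ_log_self (by norm_num) _)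
  obtain ⟨b, hb, hB⟩ := fin_gens ψ.ker T s hTs hTcl
  -- numbers
  let j : ℕ := ⌈36 * x⌉₊
  have hj : (j : ℝ) ≤ 36 * x + 1 := (Nat.ceil_lt_add_one (by linarith)).le
  have hj2 : 36 * x ≤ j := Nat.le_ceil _
  have hAj : Nat.card A ≤ m ^ j := by
    have h1 : Real.log (Nat.card A) ≤ Real.log ((m : ℝ) ^ j) := by
      rw [Real.log_pow]
      have := mul_le_mul_of_nonneg_right hj2 hlm0.le
      linarith
    have h2 := (Real.log_le_log_iff hApos (by positivity)).mp h1
    exact_mod_cast h2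
  have hDkj : Nat.card D ≤ m ^ (k + j) := by
    refine le_trans hDk ?_
    rw [pow_add, mul_comm]
    exact Nat.mul_le_mul_left _ hAj
  have hDpos : 1 ≤ Nat.card D := Nat.card_pos
  have hSD : Nat.card S ≤ Nat.card D ^ (2 + Nat.log 2 (Nat.card D)) := by
    have h1 := card_le_critical S A D hDn hself (Nat.log 2 (Nat.card D) + 1)
      (Nat.lt_pow_succ_log_self (by norm_num) _)
    have h2 : Nat.card A ≤ Nat.card D := Nat.le_of_dvd Nat.card_pos (Subgroup.card_dvd_of_le hAD)
    refine le_trans h1 (le_trans (Nat.mul_le_mul_right _ h2) (le_of_eq ?_))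
    rw [← pow_succ']
    congr 1
    omega
  have hrank := rank_large (Nat.card S) m (k + j) (Nat.card D) Nat.card_pos hm hDpos hDkj hSD
  have hsl : (s : ℝ) * Real.log 2 ≤ 36 * x * Real.log m + Real.log 2 := by
    have h1 : (2 : ℕ) ^ Nat.log 2 (Nat.card ψ.ker) ≤ Nat.card A :=
      le_trans (Nat.pow_log_le_self 2 (by omega)) hBA
    have h2 : (2 : ℝ) ^ Nat.log 2 (Nat.card ψ.ker) ≤ Nat.card A := by exact_mod_cast h1
    have h3 := Real.log_le_log (by positivity) h2
    rw [Real.log_pow] at h3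
    rw [hs]
    push_cast
    linarith
  have hk1 : 1 ≤ k := by
    have h1 := (solvable_num x m (Real.sqrt (Real.log (Nat.card S))) k j
      ((s : ℝ) * (m - 1)) s (Real.log m) (Real.log 2) hx hm2 hlog2 hlm hlog hj
      (by push_cast at hrank; exact hrank) hsl le_rfl).1
    exact_mod_cast h1
  -- the exponent of the kernel
  have hord : ∀ u : P, ∃ e : ℕ, orderOf u = p ^ e ∧ p ^ e ∣ m := by
    intro u
    obtain ⟨e, he⟩ := (IsPGroup.iff_orderOf.mp hPp) u
    refine ⟨e, he, ?_⟩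
    rw [← he]
    apply orderOf_dvd_of_pow_eq_one
    apply Subtype.ext
    rw [Subgroup.coe_pow]
    exact hexp _ (hDS (hPD u.2))
  have hpm : p ∣ m := by
    obtain ⟨u, hu⟩ := hψ (Multiplicative.ofAdd (fun _ => 1))
    obtain ⟨e, he, hem⟩ := hord u
    rcases Nat.eq_zero_or_pos e with h0 | h0
    · exfalso
      rw [h0, pow_zero, orderOf_eq_one_iff] at he
      rw [he, map_one] at hu
      have h1 := congrFun (congrArg Multiplicative.toAdd hu) ⟨0, by omega⟩
      simp at h1
    · exact dvd_trans (dvd_pow_self p (by omega)) hem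
  set r : ℕ := m.factorization p with hr
  have hr1 : 1 ≤ r := by
    rw [hr]
    exact (hp.dvd_iff_one_le_factorization (by omega)).mp hpm
  have hbq : ∀ i, b i ^ (p ^ r) = 1 := by
    intro i
    obtain ⟨e, he, hem⟩ := hord (b i)
    apply orderOf_dvd_iff_pow_eq_one.mp
    rw [he]
    apply pow_dvd_pow
    exact (hp.pow_dvd_iff_le_factorization (by omega)).mp hem
  have hprm : p ^ r ≤ m := Nat.le_of_dvd (by omega) (Nat.ordProj_dvd m p)
  have hnum := (solvable_num x m (Real.sqrt (Real.log (Nat.card S))) k j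
      ((s * (p ^ r - 1) : ℕ) : ℝ) s (Real.log m) (Real.log 2) hx hm2 hlog2 hlm hlog hj
      (by push_cast at hrank; exact hrank) hsl (by
        rw [Nat.cast_mul]
        apply mul_le_mul_of_nonneg_left _ (Nat.cast_nonneg _)
        rw [Nat.cast_sub (Nat.one_le_pow _ _ hp.pos)]
        have h1 : ((p ^ r : ℕ) : ℝ) ≤ m := by exact_mod_cast hprm
        push_cast at h1 ⊢
        linarith)).2
  intro I _ _ x' y z h
  have hmain := tricolouredP P p r k s hr1 hk1 (by omega) ψ hψ (fun u hu v => Subtype.ext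
    (hAD2 _ ((hψA u).mp hu) _ (hPD v.2))) b (fun i => hb i) hB hbq x' y z h
  refine le_trans hmain ?_
  apply mul_le_mul_of_nonneg_left _ (by norm_num)
  apply mul_le_mul_of_nonneg_left _ (Nat.cast_nonneg _)
  apply Real.exp_le_exp.mpr
  linarith

end Pool.Agent.Books.Sym
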