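import Mathlib

set_option autoImplicit false

/-!
# Functions of bounded degree on `F_p^T`
-/

namespace Pool.Agent.Books.Sym

open Finset

section

variable {T : Type} [Fintype T] [DecidableEq T] (p m : ℕ)

/-- Monomial function with reduced exponents. -/
def mo (α : T → Fin (m + 1)) : (T → ZMod p) → ZMod p := fun u => ∏ t, u t ^ (α t : ℕ)

/-- Exponent vectors of degree at most `d`. -/
abbrev Ex (T : Type) [Fintype T] (m d : ℕ) : Type := {α : T → Fin (m + 1) // ∑ t, (α t : ℕ) ≤ d}

/-- The functions of degree at most `d`. -/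
def Dg (d : ℕ) : Submodule (ZMod p) ((T → ZMod p) → ZMod p) :=
  Submodule.span (ZMod p) (Set.range fun α : Ex T m d => mo p m α.1)

omit [DecidableEq T] in
theorem mo_mem (d : ℕ) (α : T → Fin (m + 1)) (h : ∑ t, (α t : ℕ) ≤ d) : mo p m α ∈ Dg p m d :=
  Submodule.subset_span ⟨⟨α, h⟩, rfl⟩

omit [DecidableEq T] in
theorem Dg_mono {d d' : ℕ} (h : d ≤ d') : (Dg p m d : Submodule (ZMod p) ((T → ZMod p) → ZMod p)) ≤
    Dg p m d' := by
  unfold Dg
  rw [Submodule.span_le]
  rintro _ ⟨α, rfl⟩
  exact mo_mem p m d' α.1 (le_trans α.2 h)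

omit [DecidableEq T] in
theorem one_mem_Dg : (fun _ => 1 : (T → ZMod p) → ZMod p) ∈ Dg p m 0 := by
  have h := mo_mem (T := T) p m 0 (fun _ => 0) (by simp)
  have h2 : mo p m (fun _ : T => (0 : Fin (m + 1))) = fun _ => 1 := by
    funext u
    simp [mo]
  rwa [h2] at h

variable [hp : Fact p.Prime] (hpm : p = m + 1)

include hp hpm

theorem coord_mul_mo (d : ℕ) (s : T) (α : T → Fin (m + 1)) (h : ∑ t, (α t : ℕ) ≤ d) :
    (fun u => u s * mo p m α u) ∈ Dg p m (d + 1) := by
  have hp2 : 2 ≤ p := hp.out.two_le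
  have split : ∀ (β : T → Fin (m + 1)) (u : T → ZMod p),
      mo p m β u = u s ^ (β s : ℕ) * ∏ t ∈ univ.erase s, u t ^ (β t : ℕ) := by
    intro β u
    rw [mo, mul_prod_erase univ (fun t => u t ^ (β t : ℕ)) (mem_univ s)]
  have splitS : ∀ β : T → Fin (m + 1),
      ∑ t, (β t : ℕ) = (β s : ℕ) + ∑ t ∈ univ.erase s, (β t : ℕ) := by
    intro β
    rw [add_sum_erase univ (fun t => (β t : ℕ)) (mem_univ s)]
  by_cases hlt : (α s : ℕ) + 1 < m + 1
  · let β : T → Fin (m + 1) := Function.update α s ⟨(α s : ℕ) + 1, hlt⟩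
    have hβs : (β s : ℕ) = (α s : ℕ) + 1 := by
      simp [β]
    have hβt : ∀ t ∈ univ.erase s, β t = α t := by
      intro t ht
      simp only [β]
      exact Function.update_of_ne (mem_erase.mp ht).1 _ _
    have h1 : (fun u => u s * mo p m α u) = mo p m β := by
      funext u
      have h3 : ∏ t ∈ univ.erase s, u t ^ (β t : ℕ) = ∏ t ∈ univ.erase s, u t ^ (α t : ℕ) :=
        prod_congr rfl fun t ht => by rw [hβt t ht]
      rw [split α u, split β u, hβs, pow_succ, h3]
      ring
    rw [h1]
    apply mo_mem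
    have h3 : ∑ t ∈ univ.erase s, (β t : ℕ) = ∑ t ∈ univ.erase s, (α t : ℕ) :=
      sum_congr rfl fun t ht => by rw [hβt t ht]
    rw [splitS β, hβs, h3]
    rw [splitS α] at h
    omega
  · let β : T → Fin (m + 1) := Function.update α s ⟨1, by omega⟩
    have hαs : (α s : ℕ) = m := by
      have := (α s).2
      omega
    have hβs : (β s : ℕ) = 1 := by
      simp [β]
    have hβt : ∀ t ∈ univ.erase s, β t = α t := by
      intro t ht
      simp only [β]
      exact Function.update_of_ne (mem_erase.mp ht).1 _ _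
    have h1 : (fun u => u s * mo p m α u) = mo p m β := by
      funext u
      have h3 : ∏ t ∈ univ.erase s, u t ^ (β t : ℕ) = ∏ t ∈ univ.erase s, u t ^ (α t : ℕ) :=
        prod_congr rfl fun t ht => by rw [hβt t ht]
      rw [split α u, split β u, hβs, hαs, pow_one, h3, ← mul_assoc, ← pow_succ']
      have h2 : u s ^ (m + 1) = u s := by
        rw [← hpm]
        exact ZMod.pow_card _
      rw [h2]
    rw [h1]
    apply mo_mem
    have h3 : ∑ t ∈ univ.erase s, (β t : ℕ) = ∑ t ∈ univ.erase s, (α t : ℕ) :=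
      sum_congr rfl fun t ht => by rw [hβt t ht]
    rw [splitS β, hβs, h3]
    rw [splitS α] at h
    omega

theorem coord_mul (d : ℕ) (s : T) (f : (T → ZMod p) → ZMod p) (hf : f ∈ Dg p m d) :
    (fun u => u s * f u) ∈ Dg p m (d + 1) := by
  let L : ((T → ZMod p) → ZMod p) →ₗ[ZMod p] ((T → ZMod p) → ZMod p) :=
    { toFun := fun f u => u s * f u
      map_add' := by
        intro f g
        funext u
        simp [mul_add]
      map_smul' := by
        intro c f
        funext u
        simp only [Pi.smul_apply, smul_eq_mul, RingHom.id_apply]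
        ring }
  have h : (Dg p m d : Submodule (ZMod p) ((T → ZMod p) → ZMod p)) ≤
      (Dg p m (d + 1)).comap L := by
    conv_lhs => unfold Dg
    rw [Submodule.span_le]
    rintro _ ⟨α, rfl⟩
    exact coord_mul_mo p m hpm d s α.1 α.2
  exact h hf

theorem aff_mul (d : ℕ) (l : (T → ZMod p) →+ ZMod p) (c : ZMod p) (f : (T → ZMod p) → ZMod p)
    (hf : f ∈ Dg p m d) : (fun u => (l u + c) * f u) ∈ Dg p m (d + 1) := by
  have h1 : ∀ u, l u = ∑ s, u s * l (Pi.single s 1) := by
    intro u
    have h2 := LinearMap.pi_apply_eq_sum_univ (l.toZModLinearMap p) u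
    have h3 : (l.toZModLinearMap p) u = l u := rfl
    rw [h3] at h2
    rw [h2]
    apply sum_congr rfl
    intro s _
    rw [smul_eq_mul]
    congr 1
    show l _ = l _
    congr 1
    funext t
    rw [Pi.single_apply]
    by_cases h : s = t
    · rw [if_pos h, if_pos h.symm]
    · rw [if_neg h, if_neg fun hh => h hh.symm]
  have h2 : (fun u => (l u + c) * f u) =
      (∑ s, l (Pi.single s 1) • fun u => u s * f u) + c • f := by
    funext u
    rw [Pi.add_apply, Finset.sum_apply, Pi.smul_apply, smul_eq_mul, h1 u, add_mul, sum_mul]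
    congr 1
    apply sum_congr rfl
    intro s _
    rw [Pi.smul_apply, smul_eq_mul]
    ring
  rw [h2]
  apply Submodule.add_mem
  · apply Submodule.sum_mem
    intro s _
    exact Submodule.smul_mem _ _ (coord_mul p m hpm d s f hf)
  · exact Submodule.smul_mem _ _ (Dg_mono p m (Nat.le_succ d) hf)

theorem aff_pow_mul (d k : ℕ) (l : (T → ZMod p) →+ ZMod p) (c : ZMod p)
    (f : (T → ZMod p) → ZMod p) (hf : f ∈ Dg p m d) :
    (fun u => (l u + c) ^ k * f u) ∈ Dg p m (d + k) := by
  induction k with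
  | zero =>
    have h1 : (fun u => (l u + c) ^ 0 * f u) = f := by
      funext u
      simp
    rw [h1]
    exact hf
  | succ k ih =>
    have h1 := aff_mul p m hpm (d + k) l c _ ih
    have h2 : (fun u => (l u + c) * ((l u + c) ^ k * f u)) =
        fun u => (l u + c) ^ (k + 1) * f u := by
      funext u
      ring
    rw [h2] at h1
    exact h1

theorem prod_mem {n : ℕ} (l : Fin n → ((T → ZMod p) →+ ZMod p)) (c : Fin n → ZMod p)
    (S : Finset (Fin n)) :
    (fun u => ∏ t ∈ S, (1 - (l t u + c t) ^ m)) ∈ Dg p m (m * S.card) := by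
  induction S using Finset.induction_on with
  | empty =>
    have h := one_mem_Dg (T := T) p m
    simpa using h
  | insert t S ht ih =>
    have h1 : (fun u : T → ZMod p => ∏ t ∈ insert t S, (1 - (l t u + c t) ^ m)) =
        (fun u => ∏ t ∈ S, (1 - (l t u + c t) ^ m)) -
          fun u => (l t u + c t) ^ m * ∏ t ∈ S, (1 - (l t u + c t) ^ m) := by
      funext u
      rw [prod_insert ht, Pi.sub_apply]
      ring
    rw [h1, card_insert_of_notMem ht, mul_add, mul_one]
    apply Submodule.sub_mem
    · exact Dg_mono p m (Nat.le_add_right _ _) ih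
    · exact aff_pow_mul p m hpm _ m (l t) (c t) _ ih

end

end Pool.Agent.Books.Sym
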