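import Pool.Agent.Books.Sym.Slice
import Pool.Agent.Books.Sym.Count
import Pool.Agent.Books.Sym.PolyDeg

set_option autoImplicit false

/-!
# Tricoloured product-free families in a finite group with a normal elementary abelian subgroup
-/

namespace Pool.Agent.Books.Sym

open Finset

section Coord

variable {Γ : Type} [Group Γ] (N : Subgroup Γ) {p n : ℕ}
  (e : N ≃* Multiplicative (Fin n → ZMod p))

/-- The element of `N` with given coordinates. -/
def ps (u : Fin n → ZMod p) : Γ := (e.symm (Multiplicative.ofAdd u) : Γ)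

theorem ps_mem (u : Fin n → ZMod p) : ps N e u ∈ N := (e.symm (Multiplicative.ofAdd u)).2

theorem ps_add (u v : Fin n → ZMod p) : ps N e (u + v) = ps N e u * ps N e v := by
  simp only [ps]
  rw [ofAdd_add, map_mul]
  rfl

theorem ps_inj {u v : Fin n → ZMod p} (h : ps N e u = ps N e v) : u = v := by
  have h1 : e.symm (Multiplicative.ofAdd u) = e.symm (Multiplicative.ofAdd v) := Subtype.ext h
  exact Multiplicative.ofAdd.injective (e.symm.injective h1)

theorem ps_zero : ps N e 0 = 1 := by
  simp only [ps]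
  rw [ofAdd_zero, map_one]
  rfl

theorem ps_surj {g : Γ} (hg : g ∈ N) : ∃ u, ps N e u = g := by
  refine ⟨Multiplicative.toAdd (e ⟨g, hg⟩), ?_⟩
  simp only [ps]
  rw [ofAdd_toAdd, MulEquiv.symm_apply_apply]

variable [hN : N.Normal]

/-- Conjugation on the coordinates. -/
noncomputable def cj (g : Γ) : (Fin n → ZMod p) →+ (Fin n → ZMod p) :=
  AddMonoidHom.mk' (fun u => Multiplicative.toAdd
    (e ⟨g * ps N e u * g⁻¹, hN.conj_mem _ (ps_mem N e u) g⟩)) (by
    intro u v
    rw [← toAdd_mul, ← map_mul]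
    congr 2
    apply Subtype.ext
    show g * ps N e (u + v) * g⁻¹ = (g * ps N e u * g⁻¹) * (g * ps N e v * g⁻¹)
    rw [ps_add]
    group)

theorem ps_cj (g : Γ) (u : Fin n → ZMod p) : ps N e (cj N e g u) = g * ps N e u * g⁻¹ := by
  simp only [cj, AddMonoidHom.mk'_apply]
  rw [ps, ofAdd_toAdd, MulEquiv.symm_apply_apply]

theorem mem_aux (x : Γ) : x * ((x : Γ ⧸ N).out)⁻¹ ∈ N := by
  have h1 : (((x : Γ ⧸ N).out : Γ) : Γ ⧸ N) = (x : Γ ⧸ N) := QuotientGroup.out_eq' _
  rw [QuotientGroup.eq] at h1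
  exact hN.mem_comm_iff.mp h1

theorem exists_nu (x : Γ) : ∃ u, ps N e u * (x : Γ ⧸ N).out = x := by
  obtain ⟨u, hu⟩ := ps_surj N e (mem_aux N x)
  exact ⟨u, by rw [hu]; group⟩

theorem triple_eq (r1 r2 r3 : Γ) (u1 u2 u3 : Fin n → ZMod p) :
    ps N e u1 * r1 * (ps N e u2 * r2) * (ps N e u3 * r3) =
      ps N e (u1 + cj N e r1 u2 + cj N e (r1 * r2) u3) * (r1 * r2 * r3) := by
  rw [ps_add, ps_add, ps_cj, ps_cj]
  group

variable [Fact p.Prime]

open Classical in
theorem coef (m : ℕ) (hpm : p = m + 1) (r1 r2 r3 : Γ) :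
    ∃ C : Ex (Fin 3 × Fin n) m (m * n) → ZMod p, ∀ u1 u2 u3 : Fin n → ZMod p,
      (if ps N e u1 * r1 * (ps N e u2 * r2) * (ps N e u3 * r3) = 1 then (1 : ZMod p) else 0) =
        ∑ ε, C ε * (mo p m (fun t => ε.1 (0, t)) u1 * mo p m (fun t => ε.1 (1, t)) u2 *
          mo p m (fun t => ε.1 (2, t)) u3) := by
  let F : (Fin 3 × Fin n → ZMod p) → ZMod p := fun u =>
    if ps N e (fun t => u (0, t)) * r1 * (ps N e (fun t => u (1, t)) * r2) *
      (ps N e (fun t => u (2, t)) * r3) = 1 then (1 : ZMod p) else 0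
  have hF : F ∈ Dg p m (m * n) := by
    by_cases hr : r1 * r2 * r3 ∈ N
    · obtain ⟨c, hc⟩ := ps_surj N e hr
      let l : Fin n → ((Fin 3 × Fin n → ZMod p) →+ ZMod p) := fun t =>
        AddMonoidHom.mk' (fun u => u (0, t) + cj N e r1 (fun s => u (1, s)) t +
          cj N e (r1 * r2) (fun s => u (2, s)) t) (by
          intro u v
          have h1 : (fun s => (u + v) (1, s)) = (fun s => u (1, s)) + fun s => v (1, s) := rfl
          have h2 : (fun s => (u + v) (2, s)) = (fun s => u (2, s)) + fun s => v (2, s) := rfl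
          rw [h1, h2, map_add, map_add]
          simp only [Pi.add_apply]
          ring)
      have h1 : F = fun u => ∏ t ∈ (univ : Finset (Fin n)), (1 - (l t u + c t) ^ m) := by
        funext u
        have h2 : (ps N e (fun t => u (0, t)) * r1 * (ps N e (fun t => u (1, t)) * r2) *
            (ps N e (fun t => u (2, t)) * r3) = 1) ↔ ∀ t, l t u + c t = 0 := by
          rw [triple_eq, ← hc, ← ps_add, ← ps_zero N e]
          constructor
          · intro h t
            exact congrFun (ps_inj N e h) t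
          · intro h
            congr 1
            funext t
            exact h t
        by_cases h3 : ∀ t, l t u + c t = 0
        · simp only [F]
          rw [if_pos (h2.mpr h3)]
          symm
          apply prod_eq_one
          intro t _
          have hm : m ≠ 0 := by
            have := (Fact.out : p.Prime).two_le
            omega
          rw [h3 t, zero_pow hm, sub_zero]
        · simp only [F]
          rw [if_neg fun h => h3 (h2.mp h)]
          push Not at h3
          obtain ⟨t, ht⟩ := h3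
          symm
          apply prod_eq_zero (mem_univ t)
          have hm : m = p - 1 := by omega
          rw [hm, ZMod.pow_card_sub_one_eq_one ht, sub_self]
      rw [h1]
      have h4 := prod_mem (T := Fin 3 × Fin n) p m hpm l c (univ : Finset (Fin n))
      rw [card_univ, Fintype.card_fin] at h4
      exact h4
    · have h1 : F = 0 := by
        funext u
        simp only [F]
        rw [if_neg]
        · rfl
        · intro h
          apply hr
          rw [triple_eq] at h
          have h2 := inv_eq_of_mul_eq_one_right h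
          rw [← h2]
          exact N.inv_mem (ps_mem N e _)
      rw [h1]
      exact Submodule.zero_mem _
  unfold Dg at hF
  obtain ⟨C, hC⟩ := (Submodule.mem_span_range_iff_exists_fun (ZMod p)).mp hF
  refine ⟨C, ?_⟩
  intro u1 u2 u3
  have h1 := congrFun hC (fun x => (![u1, u2, u3] : Fin 3 → Fin n → ZMod p) x.1 x.2)
  have h2 : F (fun x => (![u1, u2, u3] : Fin 3 → Fin n → ZMod p) x.1 x.2) =
      if ps N e u1 * r1 * (ps N e u2 * r2) * (ps N e u3 * r3) = 1 then (1 : ZMod p) else 0 := rfl
  rw [← h2, ← h1, Finset.sum_apply]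
  apply sum_congr rfl
  intro ε _
  rw [Pi.smul_apply, smul_eq_mul]
  congr 1
  simp only [mo]
  rw [Fintype.prod_prod_type, Fin.prod_univ_three]
  rfl

end Coord

/-- Tricoloured product-free families in a finite group with a normal subgroup `(Z/p)^n`. -/
theorem tricolouredN {Γ : Type} [Group Γ] [Fintype Γ] (N : Subgroup Γ) [N.Normal] (p n : ℕ)
    [Fact p.Prime] (e : N ≃* Multiplicative (Fin n → ZMod p)) {I : Type} [Fintype I]
    [DecidableEq I] (x y z : I → Γ) (h : ∀ i j k, x i * y j * z k = 1 ↔ i = j ∧ j = k) :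
    (Fintype.card I : ℝ) ≤ 3 * ((Fintype.card Γ : ℝ) * Real.exp (-(n : ℝ) / 18)) := by
  classical
  have hp : p.Prime := Fact.out
  have hp2 := hp.two_le
  obtain ⟨m, hpm⟩ : ∃ m, p = m + 1 := ⟨p - 1, by omega⟩
  have hm1 : 1 ≤ m := by omega
  let _ : Fintype (Γ ⧸ N) := Fintype.ofFinite _
  let ν : Γ → (Fin n → ZMod p) := fun g => (exists_nu N e g).choose
  have hν : ∀ g : Γ, ps N e (ν g) * (g : Γ ⧸ N).out = g := fun g => (exists_nu N e g).choose_spec
  let κ : Γ → Γ ⧸ N := fun g => (g : Γ ⧸ N)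
  have hC := fun q1 q2 q3 : Γ ⧸ N => coef N e m hpm q1.out q2.out q3.out
  choose C hC using hC
  let E1 : Ex (Fin 3 × Fin n) m (m * n) → (Fin n → Fin (m + 1)) := fun ε t => ε.1 (0, t)
  let E2 : Ex (Fin 3 × Fin n) m (m * n) → (Fin n → Fin (m + 1)) := fun ε t => ε.1 (1, t)
  let E3 : Ex (Fin 3 × Fin n) m (m * n) → (Fin n → Fin (m + 1)) := fun ε t => ε.1 (2, t)
  have hdelta : ∀ i j k, (if i = j ∧ j = k then (1 : ZMod p) else 0) =
      ∑ ε, C (κ (x i)) (κ (y j)) (κ (z k)) ε * (mo p m (E1 ε) (ν (x i)) * mo p m (E2 ε) (ν (y j)) *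
        mo p m (E3 ε) (ν (z k))) := by
    intro i j k
    have h1 := hC (κ (x i)) (κ (y j)) (κ (z k)) (ν (x i)) (ν (y j)) (ν (z k))
    rw [← h1]
    simp only [κ]
    rw [hν, hν, hν]
    by_cases hijk : i = j ∧ j = k
    · rw [if_pos hijk, if_pos ((h i j k).mpr hijk)]
    · rw [if_neg hijk, if_neg fun hh => hijk ((h i j k).mp hh)]
  let SA : Finset (Ex (Fin 3 × Fin n) m (m * n)) := univ.filter fun ε => E1 ε ∈ low m n
  let SB : Finset (Ex (Fin 3 × Fin n) m (m * n)) :=
    (univ.filter fun ε => ¬ E1 ε ∈ low m n).filter fun ε => E2 ε ∈ low m n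
  let SC : Finset (Ex (Fin 3 × Fin n) m (m * n)) :=
    (univ.filter fun ε => ¬ E1 ε ∈ low m n).filter fun ε => ¬ E2 ε ∈ low m n
  have key := slice (K := ZMod p) (I := I) (low m n ×ˢ (univ : Finset (Γ ⧸ N)))
    (low m n ×ˢ (univ : Finset (Γ ⧸ N))) (low m n ×ˢ (univ : Finset (Γ ⧸ N)))
    (fun α i => mo p m α.1 (ν (x i)) * (if κ (x i) = α.2 then 1 else 0))
    (fun α j k => ∑ ε ∈ SA.filter fun ε => E1 ε = α.1, C α.2 (κ (y j)) (κ (z k)) ε *
      (mo p m (E2 ε) (ν (y j)) * mo p m (E3 ε) (ν (z k))))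
    (fun β j => mo p m β.1 (ν (y j)) * (if κ (y j) = β.2 then 1 else 0))
    (fun β i k => ∑ ε ∈ SB.filter fun ε => E2 ε = β.1, C (κ (x i)) β.2 (κ (z k)) ε *
      (mo p m (E1 ε) (ν (x i)) * mo p m (E3 ε) (ν (z k))))
    (fun γ k => mo p m γ.1 (ν (z k)) * (if κ (z k) = γ.2 then 1 else 0))
    (fun γ i j => ∑ ε ∈ SC.filter fun ε => E3 ε = γ.1, C (κ (x i)) (κ (y j)) γ.2 ε *
      (mo p m (E1 ε) (ν (x i)) * mo p m (E2 ε) (ν (y j)))) ?_
  · rw [card_product, card_univ] at key
    have hlow := card_low_le m n hm1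
    have hcard : Fintype.card Γ = Fintype.card (Γ ⧸ N) * p ^ n := by
      have h1 := Subgroup.card_eq_card_quotient_mul_card_subgroup N
      rw [Nat.card_eq_fintype_card, Nat.card_eq_fintype_card] at h1
      rw [h1]
      congr 1
      rw [Nat.card_congr e.toEquiv, Nat.card_eq_fintype_card, Fintype.card_multiplicative,
        Fintype.card_pi, prod_const, ZMod.card, card_univ, Fintype.card_fin]
    have h1 : (Fintype.card I : ℝ) ≤ 3 * (((low m n).card : ℝ) * Fintype.card (Γ ⧸ N)) := by
      have : Fintype.card I ≤ 3 * ((low m n).card * Fintype.card (Γ ⧸ N)) := by omega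
      exact_mod_cast this
    have h2 : (Fintype.card Γ : ℝ) = Fintype.card (Γ ⧸ N) * ((m : ℝ) + 1) ^ n := by
      rw [hcard, hpm]
      push_cast
      ring
    rw [h2]
    have h3 := mul_le_mul_of_nonneg_right hlow (Nat.cast_nonneg (α := ℝ) (Fintype.card (Γ ⧸ N)))
    calc (Fintype.card I : ℝ) ≤ 3 * (((low m n).card : ℝ) * Fintype.card (Γ ⧸ N)) := h1
      _ ≤ 3 * (((m : ℝ) + 1) ^ n * Real.exp (-(n : ℝ) / 18) * Fintype.card (Γ ⧸ N)) := by linarith
      _ = _ := by ring
  intro i j k
  rw [hdelta i j k]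
  have h2 : ∀ G : Ex (Fin 3 × Fin n) m (m * n) → ZMod p,
      ∑ ε, G ε = ∑ ε ∈ SA, G ε + ∑ ε ∈ SB, G ε + ∑ ε ∈ SC, G ε := by
    intro G
    rw [add_assoc, sum_filter_add_sum_filter_not, sum_filter_add_sum_filter_not]
  rw [h2, sum_product, sum_product, sum_product]
  congr 1
  · congr 1
    · have hmap : ∀ ε ∈ SA, E1 ε ∈ low m n := fun ε hε => (mem_filter.mp hε).2
      rw [← sum_fiberwise_of_maps_to hmap]
      apply sum_congr rfl
      intro α _
      rw [sum_eq_single (κ (x i))]
      · rw [if_pos rfl, mul_one, mul_sum]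
        apply sum_congr rfl
        intro ε hε
        have hα : E1 ε = α := (mem_filter.mp hε).2
        rw [← hα]
        ring
      · intro b _ hb
        rw [if_neg fun hh => hb hh.symm]
        ring
      · intro hh
        exact absurd (mem_univ _) hh
    · have hmap : ∀ ε ∈ SB, E2 ε ∈ low m n := fun ε hε => (mem_filter.mp hε).2
      rw [← sum_fiberwise_of_maps_to hmap]
      apply sum_congr rfl
      intro α _
      rw [sum_eq_single (κ (y j))]
      · rw [if_pos rfl, mul_one, mul_sum]
        apply sum_congr rfl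
        intro ε hε
        have hα : E2 ε = α := (mem_filter.mp hε).2
        rw [← hα]
        ring
      · intro b _ hb
        rw [if_neg fun hh => hb hh.symm]
        ring
      · intro hh
        exact absurd (mem_univ _) hh
  · have hmap : ∀ ε ∈ SC, E3 ε ∈ low m n := by
      intro ε hε
      have hb : ¬ E2 ε ∈ low m n := (mem_filter.mp hε).2
      have ha : ¬ E1 ε ∈ low m n := (mem_filter.mp (mem_filter.mp hε).1).2
      simp only [low, mem_filter, mem_univ, true_and] at ha hb ⊢
      have hsum := ε.2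
      rw [Fintype.sum_prod_type, Fin.sum_univ_three] at hsum
      simp only [E1, E2, E3] at ha hb ⊢
      omega
    rw [← sum_fiberwise_of_maps_to hmap]
    apply sum_congr rfl
    intro α _
    rw [sum_eq_single (κ (z k))]
    · rw [if_pos rfl, mul_one, mul_sum]
      apply sum_congr rfl
      intro ε hε
      have hα : E3 ε = α := (mem_filter.mp hε).2
      rw [← hα]
      ring
    · intro b _ hb
      rw [if_neg fun hh => hb hh.symm]
      ring
    · intro hh
      exact absurd (mem_univ _) hh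

end Pool.Agent.Books.Sym
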