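import Pool.Agent.Books.Sym.Action
import Pool.Agent.Books.Sym.Tricoloured
import Pool.Agent.Books.Sym.Powers
import Pool.Agent.Books.Sym.Nilpotent
import Pool.Agent.Books.Sym.Solvable
import Pool.Agent.Books.Sym.ClassBound
import Pool.Agent.Books.Sym.Defs

set_option autoImplicit false

/-!
# Books in graphs with many symmetries: consequences
-/

namespace Pool.Agent.Books.Sym

open Finset

theorem main_ineq {Γ : Type} [Group Γ] [Fintype Γ] (N : Subgroup Γ) (p n : ℕ)
    (hNn : N.Normal) (hp : p.Prime) (hNc : ∀ a ∈ N, ∀ b ∈ N, a * b = b * a)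
    (hNe : ∀ a ∈ N, a ^ p = 1) (hNcard : Nat.card N = p ^ n)
    {V : Type} [Fintype V] (G : SimpleGraph V) [DecidableRel G.Adj]
    [MulAction Γ V] (h b : ℕ) (hG : ActsOn Γ G h) (hT : Covered G)
    (hb : ∀ u v : V, G.Adj u v → triangles G u v ≤ b) :
    2 * (G.edgeFinset.card : ℝ) ≤
      15 * ((h : ℝ) * (orbits Γ V : ℝ) * (b : ℝ) * (Fintype.card V : ℝ)) ^ 2 *
        Real.exp (-(n : ℝ) / 18) := by
  have : Fact p.Prime := ⟨hp⟩
  obtain ⟨e⟩ := elem_equiv N p n hNc hNe hNcard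
  exact action_bound _ (Real.exp_pos _).le
    (fun I _ _ x y z h => tricolouredN N p n e x y z h) G h hG.stab hG.inv hT b hb

theorem rich_ineq {Γ : Type} [Group Γ] [Fintype Γ] (x : ℝ) (hx : Rich Γ x)
    {V : Type} [Fintype V] (G : SimpleGraph V) [DecidableRel G.Adj]
    [MulAction Γ V] (h b : ℕ) (hG : ActsOn Γ G h) (hT : Covered G)
    (hb : ∀ u v : V, G.Adj u v → triangles G u v ≤ b) :
    (G.edgeFinset.card : ℝ) ≤
      8 * ((h : ℝ) * (orbits Γ V : ℝ) * (b : ℝ) * (Fintype.card V : ℝ)) ^ 2 *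
        Real.exp (-(2 * x)) := by
  set W := ((h : ℝ) * (orbits Γ V : ℝ) * (b : ℝ) * (Fintype.card V : ℝ)) ^ 2 with hW
  have hW0 : 0 ≤ W := sq_nonneg _
  have key : ∀ n : ℕ, 2 * (G.edgeFinset.card : ℝ) ≤ 15 * W * Real.exp (-(n : ℝ) / 18) →
      2 * x ≤ (n : ℝ) / 18 + 1 / 18 → (G.edgeFinset.card : ℝ) ≤ 8 * W * Real.exp (-(2 * x)) := by
    intro n h1 h2
    have h3 : Real.exp (-(n : ℝ) / 18) ≤ Real.exp (1 / 18) * Real.exp (-(2 * x)) := by
      rw [← Real.exp_add]
      apply Real.exp_le_exp.mpr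
      linarith
    have h4 : Real.exp (1 / 18) ≤ 16 / 15 := by
      have h5 := Real.add_one_le_exp (-(1 / 18 : ℝ))
      have h6 : Real.exp (-(1 / 18 : ℝ)) = (Real.exp (1 / 18))⁻¹ := Real.exp_neg _
      rw [h6] at h5
      have h7 := Real.exp_pos (1 / 18 : ℝ)
      have h8 : (17 / 18 : ℝ) ≤ (Real.exp (1 / 18))⁻¹ := by linarith
      have h9 : Real.exp (1 / 18) * (17 / 18) ≤ 1 := by
        calc Real.exp (1 / 18) * (17 / 18) ≤ Real.exp (1 / 18) * (Real.exp (1 / 18))⁻¹ :=
              mul_le_mul_of_nonneg_left h8 h7.le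
          _ = 1 := mul_inv_cancel₀ h7.ne'
      linarith
    have h5 : Real.exp (-(n : ℝ) / 18) ≤ 16 / 15 * Real.exp (-(2 * x)) :=
      le_trans h3 (mul_le_mul_of_nonneg_right h4 (Real.exp_pos _).le)
    have h6 : 15 * W * Real.exp (-(n : ℝ) / 18) ≤ 15 * W * (16 / 15 * Real.exp (-(2 * x))) :=
      mul_le_mul_of_nonneg_left h5 (by positivity)
    have h7 : 15 * W * (16 / 15 * Real.exp (-(2 * x))) = 2 * (8 * W * Real.exp (-(2 * x))) := by
      ring
    linarith
  have caseA : ∀ (A : Subgroup Γ) (m : ℕ), A.Normal → 2 ≤ m → (∀ a ∈ A, ∀ b ∈ A, a * b = b * a) →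
      (∀ a ∈ A, a ^ m = 1) → 36 * x * Real.log m ≤ Real.log (Nat.card A) →
        (G.edgeFinset.card : ℝ) ≤ 8 * W * Real.exp (-(2 * x)) := by
    intro A m hAn hm hAc hAe hA
    obtain ⟨N, p, n, hNn, hp, hNc, hNe, hNcard, hcard⟩ :=
      elementary_of_abelian A hAn hAc m (by omega) hAe
    apply key n (main_ineq N p n hNn hp hNc hNe hNcard G h b hG hT hb)
    have hm2 : (2 : ℝ) ≤ m := by exact_mod_cast hm
    have hLpos : 0 < Real.log m := Real.log_pos (by linarith)
    have hApos : (0 : ℝ) < Nat.card A := by exact_mod_cast Nat.card_pos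
    have h2 : (Nat.card A : ℝ) ≤ (m : ℝ) ^ n := by exact_mod_cast hcard
    have h3 := Real.log_le_log hApos h2
    rw [Real.log_pow] at h3
    have h4 : 36 * x ≤ n := le_of_mul_le_mul_right (le_trans hA h3) hLpos
    linarith
  have caseI : (∀ (I : Type) [Fintype I] [DecidableEq I] (x' y z : I → Γ),
      (∀ i j k, x' i * y j * z k = 1 ↔ i = j ∧ j = k) →
        (Fintype.card I : ℝ) ≤ 3 * ((Fintype.card Γ : ℝ) * Real.exp (-(2 * x)))) →
      (G.edgeFinset.card : ℝ) ≤ 8 * W * Real.exp (-(2 * x)) := by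
    intro hI
    have h1 := action_bound (Γ := Γ) (Real.exp (-(2 * x))) (Real.exp_pos _).le
      (fun I _ _ x y z h => hI I x y z h) G h hG.stab hG.inv hT b hb
    have h2 : 2 * (G.edgeFinset.card : ℝ) ≤ 15 * W * Real.exp (-(2 * x)) := h1
    have h3 : 0 ≤ W * Real.exp (-(2 * x)) := mul_nonneg hW0 (Real.exp_pos _).le
    linarith
  rcases hx with ⟨S, m, hSn, hm, hexp, ⟨hAc, hA⟩ | ⟨k, hk1, hk, hkS⟩ | ⟨hSs, hS⟩⟩ |
    ⟨H, _, _, n, hH, ⟨φ, hφ, hM⟩, hn⟩
  · exact caseA S m hSn hm hAc hexp hA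
  · exact caseI fun I _ _ x' y z h => class_bound S hSn m k hm hexp hk1 hk x hkS I
      x' y z h
  · rcases le_or_gt x (1 / 2) with hx | hx
    · -- the trivial bound
      have h1 := action_bound (Γ := Γ) (1 / 3) (by norm_num) (fun I _ _ x y z h => by
        have h2 : Fintype.card I ≤ Fintype.card Γ := by
          apply Fintype.card_le_of_injective x
          intro i j hij
          have h3 := (h j j j).mpr ⟨rfl, rfl⟩
          rw [← hij] at h3
          exact ((h i j j).mp h3).1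
        have h3 : (Fintype.card I : ℝ) ≤ Fintype.card Γ := by exact_mod_cast h2
        linarith) G h hG.stab hG.inv hT b hb
      have h2 : Real.exp (-1) ≤ Real.exp (-(2 * x)) := by
        apply Real.exp_le_exp.mpr
        linarith
      have h3 : (5 / 16 : ℝ) ≤ Real.exp (-1) := by
        have h4 := Real.exp_one_lt_d9
        have h5 : Real.exp (-1) * Real.exp 1 = 1 := by
          rw [← Real.exp_add]
          norm_num
        have h6 := Real.exp_pos (-1 : ℝ)
        nlinarith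
      have h4 : W * (5 / 16) ≤ W * Real.exp (-(2 * x)) :=
        mul_le_mul_of_nonneg_left (le_trans h3 h2) hW0
      have h5 : 2 * (G.edgeFinset.card : ℝ) ≤ 15 * W * (1 / 3) := h1
      linarith
    · rcases solvable_bound S hSs m hm hexp x hx hS with ⟨A, hAn, hAc, hAe, hA⟩ | hI
      · exact caseA A m hAn hm hAc hAe hA
      · exact caseI hI
  · have h1 := action_bound (Real.exp (-(11 * (n : ℝ) / (100 * Fintype.card H))))
      (Real.exp_pos _).le (fun I _ _ x y z h => tricolouredH φ hφ hH hM x y z h)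
      G h hG.stab hG.inv hT b hb
    have hH2 : (2 : ℝ) ≤ Fintype.card H := by exact_mod_cast hH
    have hn0 : (0 : ℝ) ≤ n := Nat.cast_nonneg n
    have h2 : 2 * x ≤ 11 * (n : ℝ) / (100 * Fintype.card H) := by
      rw [le_div_iff₀ (by positivity)]
      nlinarith
    have h3 : Real.exp (-(11 * (n : ℝ) / (100 * Fintype.card H))) ≤ Real.exp (-(2 * x)) := by
      apply Real.exp_le_exp.mpr
      linarith
    have h4 : 15 * W * Real.exp (-(11 * (n : ℝ) / (100 * Fintype.card H))) ≤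
        15 * W * Real.exp (-(2 * x)) := mul_le_mul_of_nonneg_left h3 (by positivity)
    have h5 : 15 * W * Real.exp (-(2 * x)) ≤ 2 * (8 * W * Real.exp (-(2 * x))) := by
      have h6 : 0 ≤ W * Real.exp (-(2 * x)) := mul_nonneg hW0 (Real.exp_pos _).le
      linarith
    have h7 : 2 * (G.edgeFinset.card : ℝ) ≤
        15 * W * Real.exp (-(11 * (n : ℝ) / (100 * Fintype.card H))) := h1
    linarith

/-- The edge with the largest number of triangles. -/
theorem exists_max_edge {V : Type} [Fintype V] (G : SimpleGraph V) [DecidableRel G.Adj]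
    (hne : ∃ u v : V, G.Adj u v) :
    ∃ u v : V, G.Adj u v ∧ ∀ x y : V, G.Adj x y → triangles G x y ≤ triangles G u v := by
  classical
  obtain ⟨u0, v0, h0⟩ := hne
  obtain ⟨p, hp, hmax⟩ := exists_max_image ((univ : Finset (V × V)).filter fun p => G.Adj p.1 p.2)
    (fun p : V × V => triangles G p.1 p.2) ⟨(u0, v0), by simpa using h0⟩
  rw [mem_filter] at hp
  exact ⟨p.1, p.2, hp.2, fun x y hxy => hmax (x, y) (by simpa using hxy)⟩

theorem rich_book {Γ : Type} [Group Γ] [Fintype Γ] (x : ℝ) (hx : Rich Γ x)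
    {V : Type} [Fintype V] (G : SimpleGraph V) [DecidableRel G.Adj] [MulAction Γ V] (h : ℕ)
    (hG : ActsOn Γ G h) (hT : Covered G) (hne : ∃ u v : V, G.Adj u v) :
    ∃ u v : V, G.Adj u v ∧ Real.sqrt ((G.edgeFinset.card : ℝ) / 8) * Real.exp x ≤
      (h : ℝ) * (orbits Γ V : ℝ) * (Fintype.card V : ℝ) * (triangles G u v : ℝ) := by
  obtain ⟨u, v, huv, hmax⟩ := exists_max_edge G hne
  refine ⟨u, v, huv, ?_⟩
  have h1 := rich_ineq x hx G h (triangles G u v) hG hT hmax
  set R : ℝ := (h : ℝ) * (orbits Γ V : ℝ) * (Fintype.card V : ℝ) * (triangles G u v : ℝ) with hR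
  have hR0 : 0 ≤ R := by positivity
  have h2 : ((h : ℝ) * (orbits Γ V : ℝ) * (triangles G u v : ℝ) * (Fintype.card V : ℝ)) ^ 2 =
      R ^ 2 := by
    rw [hR]
    ring
  rw [h2] at h1
  apply abs_le_of_sq_le_sq' _ hR0 |>.2
  rw [mul_pow, Real.sq_sqrt (by positivity), ← Real.exp_nat_mul]
  push_cast
  have h3 := mul_le_mul_of_nonneg_right h1 (Real.exp_pos (2 * x)).le
  have h4 : Real.exp (-(2 * x)) * Real.exp (2 * x) = 1 := by
    rw [← Real.exp_add]
    have : -(2 * x) + 2 * x = 0 := by ring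
    rw [this, Real.exp_zero]
  have h5 : 8 * R ^ 2 * Real.exp (-(2 * x)) * Real.exp (2 * x) = 8 * R ^ 2 := by
    rw [mul_assoc, h4, mul_one]
  rw [h5] at h3
  linarith

end Pool.Agent.Books.Sym
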