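import Pool.Agent.Books.Sym.ZSer

set_option autoImplicit false

/-!
# Letters for the layers
-/

namespace Pool.Agent.Books.Sym

open Finset

private lemma lt_mod {V : Type} [AddCommGroup V] [Finite V] (p : ℕ) [Fact p.Prime]
    [Module (ZMod p) V] : ∃ (e : ℕ) (b : Fin e → V), Nat.card V = p ^ e ∧
      ∀ D : AddSubgroup V, (∀ i, b i ∈ D) → D = ⊤ := by
  have hfin : Module.Finite (ZMod p) V := Module.Finite.of_finite
  obtain ⟨b⟩ : Nonempty (Module.Basis (Fin (Module.finrank (ZMod p) V)) (ZMod p) V) :=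
    ⟨Module.finBasis (ZMod p) V⟩
  refine ⟨_, b, ?_, ?_⟩
  · rw [Module.natCard_eq_pow_finrank (K := ZMod p), Nat.card_zmod]
  · intro D hD
    have h1 : AddSubgroup.toZModSubmodule p D = ⊤ := by
      rw [eq_top_iff, ← b.span_eq, Submodule.span_le]
      rintro _ ⟨i, rfl⟩
      exact hD i
    rw [eq_top_iff]
    intro x _
    have h2 : x ∈ AddSubgroup.toZModSubmodule p D := by rw [h1]; trivial
    exact h2

private lemma lt_add {V : Type} [AddCommGroup V] [Finite V] (p : ℕ) [Fact p.Prime]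
    (h : ∀ x : V, p • x = 0) : ∃ (e : ℕ) (b : Fin e → V), Nat.card V = p ^ e ∧
      ∀ D : AddSubgroup V, (∀ i, b i ∈ D) → D = ⊤ := by
  let _ : Module (ZMod p) V := AddCommGroup.zmodModule h
  exact lt_mod p

private lemma lt_com {Q : Type} [CommGroup Q] [Finite Q] (p : ℕ) [Fact p.Prime]
    (h : ∀ x : Q, x ^ p = 1) : ∃ (e : ℕ) (b : Fin e → Q), Nat.card Q = p ^ e ∧
      ∀ D : Subgroup Q, (∀ i, b i ∈ D) → D = ⊤ := by
  obtain ⟨e, b, h1, h2⟩ := lt_add (V := Additive Q) p (fun x => h x.toMul)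
  refine ⟨e, fun i => (b i).toMul, h1, fun D hD => ?_⟩
  have h3 := h2 (Subgroup.toAddSubgroup D) hD
  rw [eq_top_iff]
  intro x _
  have h4 : Additive.ofMul x ∈ Subgroup.toAddSubgroup D := by rw [h3]; trivial
  exact h4

private lemma lt_layer {P : Type} [Group P] [Finite P] (p : ℕ) [Fact p.Prime] (H K : Subgroup P)
    (hKH : K ≤ H) (hc : ∀ u ∈ H, ∀ v ∈ H, u * v * u⁻¹ * v⁻¹ ∈ K) (hpw : ∀ u ∈ H, u ^ p ∈ K) :
    ∃ (e : ℕ) (g : Fin e → P), (∀ i, g i ∈ H) ∧ Nat.card H = p ^ e * Nat.card K ∧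
      H ≤ K ⊔ Subgroup.closure (Set.range g) := by
  classical
  have hN : (K.subgroupOf H).Normal := by
    refine ⟨fun n hn g => ?_⟩
    rw [Subgroup.mem_subgroupOf] at hn ⊢
    have h1 := hc g.1 g.2 n.1 n.2
    have h2 := K.mul_mem h1 hn
    have h3 : (g : P) * n * (g : P)⁻¹ * (n : P)⁻¹ * n = (g * n * g⁻¹ : H) := by
      push_cast
      group
    rw [h3] at h2
    exact h2
  let _ : CommGroup (H ⧸ K.subgroupOf H) :=
    { (inferInstance : Group (H ⧸ K.subgroupOf H)) with
      mul_comm := by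
        intro a b
        induction a using QuotientGroup.induction_on with
        | H x =>
        induction b using QuotientGroup.induction_on with
        | H y =>
        rw [← QuotientGroup.mk_mul, ← QuotientGroup.mk_mul, QuotientGroup.eq,
          Subgroup.mem_subgroupOf]
        have h1 := hc (y : P)⁻¹ (H.inv_mem y.2) (x : P)⁻¹ (H.inv_mem x.2)
        have h2 : (y : P)⁻¹ * (x : P)⁻¹ * ((y : P)⁻¹)⁻¹ * ((x : P)⁻¹)⁻¹
            = ((x * y)⁻¹ * (y * x) : H) := by
          push_cast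
          group
        rw [h2] at h1
        exact h1 }
  obtain ⟨e, b, hb1, hb2⟩ := lt_com (Q := H ⧸ K.subgroupOf H) p (by
    intro a
    induction a using QuotientGroup.induction_on with
    | H x =>
    rw [← QuotientGroup.mk_pow, QuotientGroup.eq_one_iff, Subgroup.mem_subgroupOf]
    push_cast
    exact hpw x.1 x.2)
  let q : Fin e → H := fun i => Quotient.out (b i)
  have hq : ∀ i, ((q i : H) : H ⧸ K.subgroupOf H) = b i := fun i => QuotientGroup.out_eq' _
  refine ⟨e, fun i => (q i : P), fun i => (q i).2, ?_, ?_⟩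
  · have h1 := Subgroup.card_eq_card_quotient_mul_card_subgroup (K.subgroupOf H)
    have h2 : Nat.card (K.subgroupOf H) = Nat.card K :=
      Nat.card_congr (Subgroup.subgroupOfEquivOfLe hKH).toEquiv
    rw [h1, h2, hb1]
  · set C : Subgroup P := K ⊔ Subgroup.closure (Set.range fun i => (q i : P)) with hC
    let D : Subgroup (H ⧸ K.subgroupOf H) :=
      (C.subgroupOf H).map (QuotientGroup.mk' (K.subgroupOf H))
    have hD : D = ⊤ := by
      apply hb2
      intro i
      rw [← hq i]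
      refine ⟨q i, ?_, rfl⟩
      show (q i : P) ∈ C
      exact (le_sup_right : _ ≤ C) (Subgroup.subset_closure ⟨i, rfl⟩)
    intro h hh
    have h2 : ((⟨h, hh⟩ : H) : H ⧸ K.subgroupOf H) ∈ D := by
      rw [hD]; trivial
    obtain ⟨x, hx, hxh⟩ := h2
    have h3 : (x : P) ∈ C := hx
    have h4 : ((x : H) : H ⧸ K.subgroupOf H) = ((⟨h, hh⟩ : H) : H ⧸ K.subgroupOf H) := hxh
    rw [QuotientGroup.eq, Subgroup.mem_subgroupOf] at h4
    have h5 : (x : P)⁻¹ * h ∈ K := h4
    have h6 := C.mul_mem h3 ((le_sup_left : K ≤ C) h5)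
    rwa [mul_inv_cancel_left] at h6

private lemma lt_mul_le {F : Type} [Field F] {P : Type} [Group P] :
    aug F (⊤ : Subgroup P) * aug F (⊤ : Subgroup P) ≤ aug F (⊤ : Subgroup P) := by
  unfold aug
  rw [Submodule.span_mul_span, Submodule.span_le]
  rintro _ ⟨_, ⟨x, rfl⟩, _, ⟨y, rfl⟩, rfl⟩
  have h1 := of_sub_mem (F := F) (⊤ : Subgroup P) (Subgroup.mem_top ((x : P) * (y : P)))
  have h2 := of_sub_mem (F := F) (⊤ : Subgroup P) (Subgroup.mem_top (x : P))
  have h3 := of_sub_mem (F := F) (⊤ : Subgroup P) (Subgroup.mem_top (y : P))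
  have h4 : (MonoidAlgebra.of F P (x : P) - 1) * (MonoidAlgebra.of F P (y : P) - 1)
      = (MonoidAlgebra.of F P ((x : P) * (y : P)) - 1) - (MonoidAlgebra.of F P (x : P) - 1)
        - (MonoidAlgebra.of F P (y : P) - 1) := by
    rw [map_mul]
    noncomm_ring
  show (MonoidAlgebra.of F P (x : P) - 1) * (MonoidAlgebra.of F P (y : P) - 1) ∈ _
  rw [h4]
  exact Submodule.sub_mem _ (Submodule.sub_mem _ h1 h2) h3

private lemma lt_anti {F : Type} [Field F] {P : Type} [Group P] {a b : ℕ} (ha : 1 ≤ a)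
    (hab : a ≤ b) : aug F (⊤ : Subgroup P) ^ b ≤ aug F (⊤ : Subgroup P) ^ a := by
  induction b, hab using Nat.le_induction with
  | base => exact le_rfl
  | succ b hb ih =>
    refine le_trans ?_ ih
    obtain ⟨c, rfl⟩ : ∃ c, b = c + 1 := ⟨b - 1, by omega⟩
    rw [pow_succ, pow_succ, mul_assoc]
    exact mul_le_mul' le_rfl lt_mul_le

/-- Letters whose layers generate the layers of the group algebra. -/
theorem letters {P : Type} [Group P] [Finite P] (p M : ℕ) [Fact p.Prime] (hPp : IsPGroup p P)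
    (hM : zser p P (M + 1) = ⊥) :
    ∃ (N : ℕ) (g : Fin N → P) (w : Fin N → ℕ), Nat.card P = p ^ N ∧
      (∀ i, 1 ≤ w i ∧ w i ≤ M ∧ g i ∈ zser p P (w i)) ∧
      ∀ n, 1 ≤ n → lay p P n ≤
        Submodule.span (ZMod p) {y | ∃ i, w i = n ∧ y = MonoidAlgebra.of (ZMod p) P (g i) - 1} ⊔
          aug (ZMod p) (⊤ : Subgroup P) ^ (n + 1) := by
  classical
  have hpr : p.Prime := Fact.out
  have hZ := zser_series p P hpr
  have hanti : ∀ a b, a ≤ b → zser p P b ≤ zser p P a := by
    intro a b hab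
    induction b, hab using Nat.le_induction with
    | base => exact le_rfl
    | succ b _ ih => exact (hZ.anti b).trans ih
  have hlay : ∀ n : ℕ, ∃ (e : ℕ) (g : Fin e → P), (∀ i, g i ∈ zser p P (n + 1)) ∧
      Nat.card (zser p P (n + 1)) = p ^ e * Nat.card (zser p P (n + 2)) ∧
      zser p P (n + 1) ≤ zser p P (n + 2) ⊔ Subgroup.closure (Set.range g) := by
    intro n
    apply lt_layer p _ _ (hZ.anti (n + 1))
    · intro u hu v _
      exact hZ.comm (n + 1) (by omega) u hu v
    · intro u hu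
      have h1 := hZ.pow (n + 1) (by omega) u hu
      have h2 := hpr.two_le
      exact hanti (n + 2) (p * (n + 1)) (by nlinarith) h1
  choose e g hg1 hg2 hg3 using hlay
  have hcard : ∀ k : ℕ, Nat.card (zser p P 1) = p ^ (∑ n : Fin k, e n) *
      Nat.card (zser p P (k + 1)) := by
    intro k
    induction k with
    | zero => simp
    | succ k ih =>
      rw [ih, hg2 k, Fin.sum_univ_castSucc, pow_add]
      simp only [Fin.val_castSucc, Fin.val_last]
      ring
  let E : (Σ n : Fin M, Fin (e n)) ≃ Fin (∑ n : Fin M, e n) := finSigmaFinEquiv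
  refine ⟨∑ n : Fin M, e n, fun i => g (E.symm i).1 (E.symm i).2, fun i => (E.symm i).1 + 1,
    ?_, ?_, ?_⟩
  · have h1 := hcard M
    rw [hM, hZ.one, Subgroup.card_top, Subgroup.card_bot, mul_one] at h1
    exact h1
  · intro i
    show 1 ≤ ((E.symm i).1 : ℕ) + 1 ∧ ((E.symm i).1 : ℕ) + 1 ≤ M ∧
      g (E.symm i).1 (E.symm i).2 ∈ zser p P (((E.symm i).1 : ℕ) + 1)
    refine ⟨by omega, ?_, hg1 _ _⟩
    have := (E.symm i).1.2
    omega
  · intro n hn
    obtain ⟨k, rfl⟩ : ∃ k, n = k + 1 := ⟨n - 1, by omega⟩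
    unfold lay
    apply sup_le _ le_sup_right
    rw [Submodule.span_le]
    rintro _ ⟨z, hz, rfl⟩
    show MonoidAlgebra.of (ZMod p) P z - 1 ∈ _
    by_cases hkM : k < M
    · set T : Submodule (ZMod p) (MonoidAlgebra (ZMod p) P) :=
        Submodule.span (ZMod p) {y | ∃ i : Fin (∑ n : Fin M, e n), ((E.symm i).1 : ℕ) + 1 = k + 1 ∧
          y = MonoidAlgebra.of (ZMod p) P (g (E.symm i).1 (E.symm i).2) - 1} ⊔
          aug (ZMod p) (⊤ : Subgroup P) ^ (k + 1 + 1) with hT
      have hJ : ∀ x ∈ zser p P (k + 1), ∀ y ∈ zser p P (k + 1),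
          (MonoidAlgebra.of (ZMod p) P x - 1) * (MonoidAlgebra.of (ZMod p) P y - 1) ∈ T := by
        intro x hx y hy
        have h1 := Submodule.mul_mem_mul (zser_mem p P (k + 1) (by omega) x hx)
          (zser_mem p P (k + 1) (by omega) y hy)
        rw [← pow_add] at h1
        exact (le_sup_right : _ ≤ T) (lt_anti (by omega) (by omega) h1)
      let A : Subgroup P :=
        { carrier := {x | x ∈ zser p P (k + 1) ∧ MonoidAlgebra.of (ZMod p) P x - 1 ∈ T}
          one_mem' := ⟨Subgroup.one_mem _, by rw [map_one, sub_self]; exact T.zero_mem⟩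
          mul_mem' := by
            rintro x y ⟨hx, hx'⟩ ⟨hy, hy'⟩
            refine ⟨Subgroup.mul_mem _ hx hy, ?_⟩
            have h1 : MonoidAlgebra.of (ZMod p) P (x * y) - 1
                = (MonoidAlgebra.of (ZMod p) P x - 1) * (MonoidAlgebra.of (ZMod p) P y - 1)
                  + (MonoidAlgebra.of (ZMod p) P x - 1) + (MonoidAlgebra.of (ZMod p) P y - 1) := by
              rw [map_mul]
              noncomm_ring
            rw [h1]
            exact T.add_mem (T.add_mem (hJ x hx y hy) hx') hy'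
          inv_mem' := by
            rintro x ⟨hx, hx'⟩
            refine ⟨Subgroup.inv_mem _ hx, ?_⟩
            have h2 : MonoidAlgebra.of (ZMod p) P x⁻¹ * MonoidAlgebra.of (ZMod p) P x = 1 := by
              rw [← map_mul, inv_mul_cancel, map_one]
            have h1 : MonoidAlgebra.of (ZMod p) P x⁻¹ - 1
                = -((MonoidAlgebra.of (ZMod p) P x⁻¹ - 1) * (MonoidAlgebra.of (ZMod p) P x - 1))
                  - (MonoidAlgebra.of (ZMod p) P x - 1) := by
              rw [sub_mul, mul_sub, h2]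
              noncomm_ring
            rw [h1]
            exact T.sub_mem (T.neg_mem (hJ _ (Subgroup.inv_mem _ hx) x hx)) hx' }
      have hA : zser p P (k + 1) ≤ A := by
        refine (hg3 k).trans (sup_le ?_ ?_)
        · intro x hx
          refine ⟨hZ.anti (k + 1) hx, ?_⟩
          exact (le_sup_right : _ ≤ T) (zser_mem p P (k + 2) (by omega) x hx)
        · rw [Subgroup.closure_le]
          rintro _ ⟨j, rfl⟩
          refine ⟨hg1 k j, ?_⟩
          apply (le_sup_left : _ ≤ T)
          apply Submodule.subset_span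
          refine ⟨E ⟨⟨k, hkM⟩, j⟩, ?_, ?_⟩
          · rw [Equiv.symm_apply_apply]
          · rw [Equiv.symm_apply_apply]
      exact (hA hz).2
    · have h1 : z ∈ zser p P (M + 1) := hanti (M + 1) (k + 1) (by omega) hz
      rw [hM, Subgroup.mem_bot] at h1
      rw [h1, map_one, sub_self]
      exact Submodule.zero_mem _

end Pool.Agent.Books.Sym
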