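import Mathlib

set_option autoImplicit false

/-!
# Commutators of the members of the lower central series
-/

namespace Pool.Agent.Books.Sym

private theorem t1_three {G : Type} [Group G] (N : Subgroup G) (hN : N.Normal)
    (A B C : Subgroup G) (h1 : ⁅⁅B, C⁆, A⁆ ≤ N) (h2 : ⁅⁅C, A⁆, B⁆ ≤ N) : ⁅⁅A, B⁆, C⁆ ≤ N := by
  have key : ∀ K : Subgroup G, K ≤ N ↔ K.map (QuotientGroup.mk' N) = ⊥ := by
    intro K
    rw [Subgroup.map_eq_bot_iff, QuotientGroup.ker_mk']
  rw [key, Subgroup.map_commutator, Subgroup.map_commutator] at h1 h2 ⊢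
  exact Subgroup.commutator_commutator_eq_bot_of_rotate h1 h2

private theorem t1_le {G : Type} [Group G] (j : ℕ) : ∀ i : ℕ,
    ⁅(⊤ : Subgroup G).lowerCentralSeries i, (⊤ : Subgroup G).lowerCentralSeries j⁆ ≤
      (⊤ : Subgroup G).lowerCentralSeries (i + j + 1) := by
  induction j with
  | zero => exact fun i => le_rfl
  | succ j ih =>
    intro i
    have hN : ((⊤ : Subgroup G).lowerCentralSeries (i + (j + 1) + 1)).Normal := inferInstance
    rw [Subgroup.commutator_comm]
    refine t1_three _ hN ((⊤ : Subgroup G).lowerCentralSeries j) ⊤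
      ((⊤ : Subgroup G).lowerCentralSeries i) ?_ ?_
    · rw [Subgroup.commutator_comm ⊤]
      have h := ih (i + 1)
      have e : i + 1 + j + 1 = i + (j + 1) + 1 := by omega
      rwa [e] at h
    · have h := Subgroup.commutator_mono (ih i) (le_refl (⊤ : Subgroup G))
      exact h

/-- `[γ_i, γ_j] ≤ γ_{i + j}` (with the indices shifted by one). -/
theorem lcs_comm {P : Type} [Group P] (i j : ℕ) (u v : P)
    (hu : u ∈ (⊤ : Subgroup P).lowerCentralSeries i)
    (hv : v ∈ (⊤ : Subgroup P).lowerCentralSeries j) :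
    u * v * u⁻¹ * v⁻¹ ∈ (⊤ : Subgroup P).lowerCentralSeries (i + j + 1) :=
  t1_le j i (Subgroup.commutator_mem_commutator hu hv)

end Pool.Agent.Books.Sym
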