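import Pool.Agent.Books.Sym.JenDefs
import Pool.Agent.Books.Sym.LcsComm

set_option autoImplicit false

/-!
# A series adapted to the exponent and the nilpotency class, with smaller weights
-/

namespace Pool.Agent.Books.Sym

/-- the weight of the `i`-th member of the lower central series -/
def t2w (q i : ℕ) : ℕ := (i + 1) * q ^ Nat.log 2 (i + 1)

theorem t2w_zero (q : ℕ) : t2w q 0 = 1 := by simp [t2w]

theorem t2w_succ {q : ℕ} (hq : 1 ≤ q) (i : ℕ) : t2w q i + 1 ≤ t2w q (i + 1) := by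
  unfold t2w
  have h1 : q ^ Nat.log 2 (i + 1) ≤ q ^ Nat.log 2 (i + 1 + 1) :=
    Nat.pow_le_pow_right hq (Nat.log_mono_right (Nat.le_succ _))
  have h2 : 1 ≤ q ^ Nat.log 2 (i + 1) := Nat.one_le_pow _ _ hq
  have h3 : (i + 1 + 1) * q ^ Nat.log 2 (i + 1) ≤ (i + 1 + 1) * q ^ Nat.log 2 (i + 1 + 1) :=
    Nat.mul_le_mul_left _ h1
  have h4 : (i + 1 + 1) * q ^ Nat.log 2 (i + 1) =
      (i + 1) * q ^ Nat.log 2 (i + 1) + q ^ Nat.log 2 (i + 1) := by ring
  omega

theorem t2w_mono {q : ℕ} (hq : 1 ≤ q) {i j : ℕ} (h : i ≤ j) : t2w q i ≤ t2w q j := by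
  induction h with
  | refl => exact le_rfl
  | step _ ih => exact ih.trans ((Nat.le_succ _).trans (t2w_succ hq _))

theorem t2w_ge {q : ℕ} (hq : 1 ≤ q) (i : ℕ) : i + 1 ≤ t2w q i :=
  Nat.le_mul_of_pos_right _ (Nat.pow_pos hq)

theorem t2w_two {q : ℕ} (i : ℕ) : q * t2w q i ≤ t2w q (i + i + 1) := by
  unfold t2w
  have h1 : i + i + 1 + 1 = (i + 1) * 2 := by ring
  have h2 : Nat.log 2 ((i + 1) * 2) = Nat.log 2 (i + 1) + 1 :=
    Nat.log_mul_base (by norm_num) (by omega)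
  rw [h1, h2, pow_succ]
  have h3 : q * ((i + 1) * q ^ Nat.log 2 (i + 1)) ≤
      2 * (q * ((i + 1) * q ^ Nat.log 2 (i + 1))) := by omega
  refine h3.trans (le_of_eq ?_)
  ring

/-- generators of the `n`-th member of the series -/
def t2gen (P : Type) [Group P] (p r n : ℕ) : Set P :=
  {x | ∃ (i k : ℕ) (v : P), v ∈ (⊤ : Subgroup P).lowerCentralSeries i ∧
    n ≤ p ^ k * t2w (p ^ r) i ∧ x = v ^ (p ^ k)}

/-- the series -/
def t2ser (P : Type) [Group P] (p r n : ℕ) : Subgroup P :=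
  Subgroup.normalClosure (t2gen P p r n)

theorem t2_anti (P : Type) [Group P] (p r : ℕ) {m n : ℕ} (h : m ≤ n) :
    t2ser P p r n ≤ t2ser P p r m := by
  apply Subgroup.normalClosure_mono
  rintro x ⟨i, k, v, hv, hn, rfl⟩
  exact ⟨i, k, v, hv, h.trans hn, rfl⟩

theorem t2_top (P : Type) [Group P] (p r : ℕ) {n : ℕ} (h : n ≤ 1) : t2ser P p r n = ⊤ := by
  rw [eq_top_iff]
  intro v _
  apply Subgroup.subset_normalClosure
  refine ⟨0, 0, v, by rw [Subgroup.lowerCentralSeries_zero]; trivial, ?_, by simp⟩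
  rw [t2w_zero]
  simpa using h

theorem t2_lcs (P : Type) [Group P] (p r : ℕ) {n i : ℕ} (h : n ≤ t2w (p ^ r) i) :
    (⊤ : Subgroup P).lowerCentralSeries i ≤ t2ser P p r n := by
  intro v hv
  apply Subgroup.subset_normalClosure
  exact ⟨i, 0, v, hv, by simpa using h, by simp⟩

theorem t2_lcs_normal (P : Type) [Group P] (i : ℕ) :
    ((⊤ : Subgroup P).lowerCentralSeries i).Normal := by
  infer_instance

theorem t2_commute {P : Type} [Group P] (N : Subgroup P) [N.Normal] (i : ℕ)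
    (hN : (⊤ : Subgroup P).lowerCentralSeries (i + i + 1) ≤ N) (u v : P)
    (hu : u ∈ (⊤ : Subgroup P).lowerCentralSeries i)
    (hv : v ∈ (⊤ : Subgroup P).lowerCentralSeries i) :
    Commute (QuotientGroup.mk' N u) (QuotientGroup.mk' N v) := by
  show _ * _ = _ * _
  rw [← map_mul, ← map_mul]
  apply QuotientGroup.eq.2
  apply hN
  have := lcs_comm i i v⁻¹ u⁻¹ (Subgroup.inv_mem _ hv) (Subgroup.inv_mem _ hu)
  have e : (u * v)⁻¹ * (v * u) = v⁻¹ * u⁻¹ * v⁻¹⁻¹ * u⁻¹⁻¹ := by group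
  rw [e]
  exact this

theorem t2_comm {P : Type} [Group P] (p r : ℕ) (hp : p.Prime)
    (hexp : ∀ g : P, g ^ (p ^ r) = 1) (n : ℕ) (hn : 1 ≤ n) :
    ∀ u ∈ t2ser P p r n, ∀ g : P, u * g * u⁻¹ * g⁻¹ ∈ t2ser P p r (n + 1) := by
  have hN : (t2ser P p r (n + 1)).Normal := Subgroup.normalClosure_normal
  have hq1 : 1 ≤ p ^ r := Nat.one_le_pow _ _ hp.pos
  have key : t2ser P p r n ≤
      (Subgroup.center (P ⧸ t2ser P p r (n + 1))).comap (QuotientGroup.mk' _) := by
    apply Subgroup.normalClosure_le_normal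
    rintro x ⟨i, k, v, hv, hnk, rfl⟩
    rw [SetLike.mem_coe, Subgroup.mem_comap, Subgroup.mem_center_iff]
    intro g
    obtain ⟨g, rfl⟩ := QuotientGroup.mk'_surjective _ g
    rcases Nat.lt_or_ge k r with hk | hk
    · have hpk : 1 ≤ p ^ k := Nat.one_le_pow _ _ hp.pos
      obtain ⟨c, hcdef⟩ : ∃ c : P, c = g * v * g⁻¹ * v⁻¹ := ⟨_, rfl⟩
      have hc1 : c ∈ (⊤ : Subgroup P).lowerCentralSeries (i + 1) := by
        rw [hcdef, Subgroup.lowerCentralSeries_succ]
        have h1 := Subgroup.commutator_mem_commutator hv (Subgroup.mem_top g)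
        have h2 := Subgroup.inv_mem _ h1
        rw [commutatorElement_def] at h2
        have e : (v * g * v⁻¹ * g⁻¹)⁻¹ = g * v * g⁻¹ * v⁻¹ := by group
        rw [e] at h2
        exact h2
      have hc0 : c ∈ (⊤ : Subgroup P).lowerCentralSeries i :=
        Subgroup.lowerCentralSeries_antitone _ (Nat.le_succ i) hc1
      have hK : (⊤ : Subgroup P).lowerCentralSeries (i + i + 1) ≤ t2ser P p r (n + 1) := by
        apply t2_lcs
        refine le_trans ?_ (t2w_two i)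
        have h1 : p ^ (k + 1) ≤ p ^ r := Nat.pow_le_pow_right hp.pos hk
        have h2 : p ^ (k + 1) * t2w (p ^ r) i ≤ p ^ r * t2w (p ^ r) i := Nat.mul_le_mul_right _ h1
        have h3 : p ^ (k + 1) * t2w (p ^ r) i = p * (p ^ k * t2w (p ^ r) i) := by
          rw [pow_succ]; ring
        have h4 : 2 * (p ^ k * t2w (p ^ r) i) ≤ p * (p ^ k * t2w (p ^ r) i) :=
          Nat.mul_le_mul_right _ hp.two_le
        omega
      have hcomm := t2_commute (t2ser P p r (n + 1)) i hK c v hc0 hv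
      have hcp : QuotientGroup.mk' (t2ser P p r (n + 1)) (c ^ (p ^ k)) = 1 := by
        rw [QuotientGroup.mk'_apply, QuotientGroup.eq_one_iff]
        apply Subgroup.subset_normalClosure
        refine ⟨i + 1, k, c, hc1, ?_, rfl⟩
        have h1 : p ^ k * (t2w (p ^ r) i + 1) ≤ p ^ k * t2w (p ^ r) (i + 1) :=
          Nat.mul_le_mul_left _ (t2w_succ hq1 i)
        have h2 : p ^ k * (t2w (p ^ r) i + 1) = p ^ k * t2w (p ^ r) i + p ^ k := by ring
        omega
      have h5 : g * v ^ (p ^ k) * g⁻¹ = (c * v) ^ (p ^ k) := by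
        rw [← conj_pow]
        congr 1
        rw [hcdef]
        group
      have h6 : QuotientGroup.mk' (t2ser P p r (n + 1)) (g * v ^ (p ^ k) * g⁻¹) =
          QuotientGroup.mk' (t2ser P p r (n + 1)) (v ^ (p ^ k)) := by
        rw [h5, map_pow, map_mul, hcomm.mul_pow, ← map_pow, hcp, one_mul, map_pow]
      rw [map_mul, map_mul, map_inv, mul_inv_eq_iff_eq_mul] at h6
      exact h6
    · have h1 : v ^ (p ^ k) = 1 := by
        obtain ⟨j, rfl⟩ := Nat.exists_eq_add_of_le hk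
        rw [pow_add, pow_mul, hexp, one_pow]
      rw [h1, map_one, mul_one, one_mul]
  intro u hu g
  have h1 := key hu
  rw [Subgroup.mem_comap, Subgroup.mem_center_iff] at h1
  have h2 := h1 (QuotientGroup.mk' _ g)
  rw [← map_mul, ← map_mul] at h2
  have h3 := QuotientGroup.eq.1 h2
  have h4 := hN.conj_mem _ h3 (g * u)
  have e : g * u * ((g * u)⁻¹ * (u * g)) * (g * u)⁻¹ = u * g * u⁻¹ * g⁻¹ := by group
  rw [e] at h4
  exact h4

/-- the elements of `A` whose `p`-th power is in `B` -/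
def t2pow {P : Type} [Group P] (A K B : Subgroup P) (p : ℕ) [hA : A.Normal] [hK : K.Normal]
    (hKB : K ≤ B) (hAK : ∀ a ∈ A, ∀ b ∈ A, a * b * a⁻¹ * b⁻¹ ∈ K) : Subgroup P where
  carrier := {u | u ∈ A ∧ u ^ p ∈ B}
  one_mem' := ⟨A.one_mem, by rw [one_pow]; exact B.one_mem⟩
  inv_mem' := by
    rintro u ⟨h1, h2⟩
    exact ⟨A.inv_mem h1, by rw [inv_pow]; exact B.inv_mem h2⟩
  mul_mem' := by
    rintro u v ⟨h1, h2⟩ ⟨h3, h4⟩
    refine ⟨A.mul_mem h1 h3, ?_⟩
    have hc : Commute (QuotientGroup.mk' K u) (QuotientGroup.mk' K v) := by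
      show _ * _ = _ * _
      rw [← map_mul, ← map_mul]
      apply QuotientGroup.eq.2
      have := hAK v⁻¹ (A.inv_mem h3) u⁻¹ (A.inv_mem h1)
      have e : (u * v)⁻¹ * (v * u) = v⁻¹ * u⁻¹ * v⁻¹⁻¹ * u⁻¹⁻¹ := by group
      rw [e]
      exact this
    have h5 := hc.mul_pow p
    rw [← map_mul, ← map_pow, ← map_pow, ← map_pow, ← map_mul] at h5
    have h6 := QuotientGroup.eq.1 h5
    have h7 := B.inv_mem (hKB h6)
    have h8 := B.mul_mem (B.mul_mem h2 h4) h7
    have e : u ^ p * v ^ p * (((u * v) ^ p)⁻¹ * (u ^ p * v ^ p))⁻¹ = (u * v) ^ p := by group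
    rw [e] at h8
    exact h8


theorem t2_pow {P : Type} [Group P] (p r : ℕ) (hp : p.Prime) (hr : 1 ≤ r)
    (hexp : ∀ g : P, g ^ (p ^ r) = 1) (n : ℕ) :
    ∀ u ∈ t2ser P p r n, u ^ p ∈ t2ser P p r (p * n) := by
  classical
  have hq1 : 1 ≤ p ^ r := Nat.one_le_pow _ _ hp.pos
  have hex : ∃ i : ℕ, n ≤ p ^ (r - 1) * t2w (p ^ r) i := by
    refine ⟨n, ?_⟩
    have h1 := t2w_ge hq1 n
    have h2 : 1 * t2w (p ^ r) n ≤ p ^ (r - 1) * t2w (p ^ r) n :=
      Nat.mul_le_mul_right _ (Nat.one_le_pow _ _ hp.pos)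
    omega
  obtain ⟨hi, hmin⟩ := (⟨Nat.find_spec hex, fun m hm => Nat.find_min hex hm⟩ :
    n ≤ p ^ (r - 1) * t2w (p ^ r) (Nat.find hex) ∧
      ∀ m < Nat.find hex, ¬ n ≤ p ^ (r - 1) * t2w (p ^ r) m)
  generalize Nat.find hex = i at hi hmin
  have hKB : (⊤ : Subgroup P).lowerCentralSeries (i + i + 1) ≤ t2ser P p r (p * n) := by
    apply t2_lcs
    refine le_trans ?_ (t2w_two i)
    have e : p ^ r = p * p ^ (r - 1) := by
      rw [← pow_succ']
      congr 1
      omega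
    calc p * n ≤ p * (p ^ (r - 1) * t2w (p ^ r) i) := Nat.mul_le_mul_left p hi
      _ = (p * p ^ (r - 1)) * t2w (p ^ r) i := by ring
      _ = p ^ r * t2w (p ^ r) i := by rw [← e]
  have hAK : ∀ a ∈ (⊤ : Subgroup P).lowerCentralSeries i,
      ∀ b ∈ (⊤ : Subgroup P).lowerCentralSeries i,
      a * b * a⁻¹ * b⁻¹ ∈ (⊤ : Subgroup P).lowerCentralSeries (i + i + 1) :=
    fun a ha b hb => lcs_comm i i a b ha hb
  have hB : (t2ser P p r (p * n)).Normal := Subgroup.normalClosure_normal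
  have key : t2ser P p r n ≤ t2pow _ _ _ p hKB hAK := by
    have hT : (t2pow _ _ _ p hKB hAK).Normal := by
      refine ⟨fun u hu g => ?_⟩
      refine ⟨(t2_lcs_normal P i).conj_mem _ hu.1 g, ?_⟩
      rw [conj_pow]
      exact hB.conj_mem _ hu.2 g
    apply Subgroup.normalClosure_le_normal
    rintro x ⟨j, k, v, hv, hnk, rfl⟩
    constructor
    · rcases Nat.lt_or_ge k r with hk | hk
      · have hij : i ≤ j := by
          by_contra hcon
          push Not at hcon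
          apply hmin j hcon
          refine hnk.trans (Nat.mul_le_mul_right _ (Nat.pow_le_pow_right hp.pos (by omega)))
        exact Subgroup.lowerCentralSeries_antitone _ hij (Subgroup.pow_mem _ hv _)
      · have h1 : v ^ (p ^ k) = 1 := by
          obtain ⟨j, rfl⟩ := Nat.exists_eq_add_of_le hk
          rw [pow_add, pow_mul, hexp, one_pow]
        rw [h1]
        exact Subgroup.one_mem _
    · apply Subgroup.subset_normalClosure
      refine ⟨j, k + 1, v, hv, ?_, ?_⟩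
      · have e : p ^ (k + 1) * t2w (p ^ r) j = p * (p ^ k * t2w (p ^ r) j) := by
          rw [pow_succ]; ring
        rw [e]
        exact Nat.mul_le_mul_left p hnk
      · rw [← pow_mul, pow_succ]
  intro u hu
  exact (key hu).2

/-- There is a series that becomes trivial after `p ^ (r - 1) * (c * (p ^ r) ^ ⌊log₂ c⌋)` steps. -/
theorem exists_series2 {P : Type} [Group P] (p r c : ℕ) (hp : p.Prime) (hr : 1 ≤ r) (hc : 1 ≤ c)
    (hexp : ∀ g : P, g ^ (p ^ r) = 1) (hnil : (⊤ : Subgroup P).lowerCentralSeries c = ⊥) :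
    ∃ W : ℕ → Subgroup P, IsSeries p W ∧
      W (p ^ (r - 1) * (c * (p ^ r) ^ Nat.log 2 c) + 1) = ⊥ := by
  have hq1 : 1 ≤ p ^ r := Nat.one_le_pow _ _ hp.pos
  refine ⟨t2ser P p r, ⟨t2_top P p r (by norm_num), t2_top P p r le_rfl,
    fun n => t2_anti P p r (Nat.le_succ n), fun n hn => t2_comm p r hp hexp n hn,
    fun n _ => t2_pow p r hp hr hexp n⟩, ?_⟩
  rw [eq_bot_iff]
  apply Subgroup.normalClosure_le_normal
  rintro x ⟨i, k, v, hv, hnk, rfl⟩
  rw [SetLike.mem_coe, Subgroup.mem_bot]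
  rcases Nat.lt_or_ge i c with hic | hic
  · have h1 : t2w (p ^ r) i ≤ c * (p ^ r) ^ Nat.log 2 c := by
      have h2 := t2w_mono hq1 (show i ≤ c - 1 by omega)
      have h3 : t2w (p ^ r) (c - 1) = c * (p ^ r) ^ Nat.log 2 c := by
        unfold t2w
        rw [Nat.sub_add_cancel hc]
      omega
    have h4 : p ^ (r - 1) < p ^ k := by
      by_contra hcon
      push Not at hcon
      have h5 := Nat.mul_le_mul hcon h1
      omega
    have hk : r ≤ k := by
      have := (Nat.pow_lt_pow_iff_right hp.one_lt).1 h4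
      omega
    obtain ⟨j, rfl⟩ := Nat.exists_eq_add_of_le hk
    rw [pow_add, pow_mul, hexp, one_pow]
  · have h2 := Subgroup.lowerCentralSeries_antitone _ hic hv
    rw [hnil, Subgroup.mem_bot] at h2
    rw [h2, one_pow]

end Pool.Agent.Books.Sym
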