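import Mathlib

set_option autoImplicit false

/-!
# Straightening words modulo higher powers of an ideal
-/

namespace Pool.Agent.Books.Sym

open Finset

section R1

variable {F R : Type} [Field F] [Ring R] [Algebra F R]

/-- Combinations of words of weight `n` and length `< k`, modulo the power `n + 1`. -/
def r1S (J : Submodule F R) {N : ℕ} (x : Fin N → R) (w : Fin N → ℕ) (k n : ℕ) :
    Submodule F R :=
  Submodule.span F {y | ∃ l : List (Fin N), l.length < k ∧ (l.map w).sum = n ∧
    y = (l.map x).prod} ⊔ J ^ (n + 1)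

theorem r1_word_mem (J : Submodule F R) {N : ℕ} (x : Fin N → R) (w : Fin N → ℕ)
    (hx : ∀ l, x l ∈ J ^ w l) (l : List (Fin N)) : (l.map x).prod ∈ J ^ (l.map w).sum := by
  induction l with
  | nil =>
    simp only [List.map_nil, List.prod_nil, List.sum_nil, pow_zero]
    exact Submodule.one_le.1 le_rfl
  | cons a t ih =>
    simp only [List.map_cons, List.prod_cons, List.sum_cons]
    rw [pow_add]
    exact Submodule.mul_mem_mul (hx a) ih

theorem r1_word_memS (J : Submodule F R) {N : ℕ} (x : Fin N → R) (w : Fin N → ℕ)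
    (l : List (Fin N)) (k n : ℕ) (hk : l.length < k) (hn : (l.map w).sum = n) :
    (l.map x).prod ∈ r1S J x w k n :=
  Submodule.mem_sup_left (Submodule.subset_span ⟨l, hk, hn, rfl⟩)

theorem r1_cons (J : Submodule F R) {N : ℕ} (x : Fin N → R) (w : Fin N → ℕ)
    (hx : ∀ l, x l ∈ J ^ w l) (a : Fin N) (k n : ℕ) (y : R) (hy : y ∈ r1S J x w k n) :
    x a * y ∈ r1S J x w (k + 1) (w a + n) := by
  obtain ⟨y1, hy1, y2, hy2, rfl⟩ := Submodule.mem_sup.1 hy
  rw [mul_add]
  refine Submodule.add_mem _ ?_ ?_
  · refine Submodule.mem_sup_left ?_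
    clear hy hy2
    induction hy1 using Submodule.span_induction with
    | mem z hz =>
      obtain ⟨l, hl, hw, rfl⟩ := hz
      refine Submodule.subset_span ⟨a :: l, ?_, ?_, ?_⟩
      · simp only [List.length_cons]; omega
      · simp only [List.map_cons, List.sum_cons]; omega
      · simp
    | zero => simp
    | add z z' _ _ h h' => rw [mul_add]; exact Submodule.add_mem _ h h'
    | smul c z _ h => rw [mul_smul_comm]; exact Submodule.smul_mem _ _ h
  · refine Submodule.mem_sup_right ?_
    have : w a + n + 1 = w a + (n + 1) := by omega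
    rw [this, pow_add]
    exact Submodule.mul_mem_mul (hx a) hy2

/-- An element of `span {x i : w i = v} ⊔ J ^ (v + 1)` times a word. -/
theorem r1_mul_word (J : Submodule F R) {N : ℕ} (x : Fin N → R) (w : Fin N → ℕ)
    (hx : ∀ l, x l ∈ J ^ w l) (v : ℕ) (u : R)
    (hu : u ∈ (Submodule.span F {y | ∃ i, w i = v ∧ y = x i} ⊔ J ^ (v + 1) : Submodule F R))
    (t : List (Fin N)) (k : ℕ) (hk : t.length + 1 < k) :
    u * (t.map x).prod ∈ r1S J x w k (v + (t.map w).sum) := by
  obtain ⟨y1, hy1, y2, hy2, rfl⟩ := Submodule.mem_sup.1 hu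
  rw [add_mul]
  refine Submodule.add_mem _ ?_ ?_
  · refine Submodule.mem_sup_left ?_
    clear hu hy2
    induction hy1 using Submodule.span_induction with
    | mem z hz =>
      obtain ⟨i, hi, rfl⟩ := hz
      refine Submodule.subset_span ⟨i :: t, ?_, ?_, ?_⟩
      · simpa only [List.length_cons] using hk
      · simp only [List.map_cons, List.sum_cons]; omega
      · simp
    | zero => simp
    | add z z' _ _ h h' => rw [add_mul]; exact Submodule.add_mem _ h h'
    | smul c z _ h => rw [smul_mul_assoc]; exact Submodule.smul_mem _ _ h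
  · refine Submodule.mem_sup_right ?_
    have : v + (t.map w).sum + 1 = (v + 1) + (t.map w).sum := by omega
    rw [this, pow_add]
    exact Submodule.mul_mem_mul hy2 (r1_word_mem J x w hx t)

theorem r1_perm (J : Submodule F R) {N : ℕ} (x : Fin N → R) (w : Fin N → ℕ)
    (hx : ∀ l, x l ∈ J ^ w l)
    (h1 : ∀ l m, x l * x m - x m * x l ∈
      (Submodule.span F {y | ∃ i, w i = w l + w m ∧ y = x i} ⊔ J ^ (w l + w m + 1) :
        Submodule F R))
    (l l' : List (Fin N)) (h : l.Perm l') :
    (l.map x).prod - (l'.map x).prod ∈ r1S J x w l.length (l.map w).sum := by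
  induction h with
  | nil => simp
  | cons a _ ih =>
    simp only [List.map_cons, List.prod_cons, List.sum_cons, List.length_cons]
    rw [← mul_sub]
    exact r1_cons J x w hx a _ _ _ ih
  | swap a b t =>
    have h := r1_mul_word J x w hx (w b + w a) _ (h1 b a) t (t.length + 2) (by omega)
    simp only [List.map_cons, List.prod_cons, List.sum_cons, List.length_cons]
    have e1 : x b * (x a * (t.map x).prod) - x a * (x b * (t.map x).prod) =
        (x b * x a - x a * x b) * (t.map x).prod := by
      rw [sub_mul, mul_assoc, mul_assoc]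
    have e2 : w b + (w a + (t.map w).sum) = w b + w a + (t.map w).sum := by omega
    rw [e1, e2]
    exact h
  | trans p q ihp ihq =>
    rename_i l1 l2 l3
    have hl : l2.length = l1.length := p.length_eq.symm
    have hs : (l2.map w).sum = (l1.map w).sum := (p.map w).sum_eq.symm
    rw [hl, hs] at ihq
    have := Submodule.add_mem _ ihp ihq
    simpa using this

theorem r1_perm_flat {N : ℕ} (l : List (Fin N)) :
    l.Perm (List.ofFn fun i => List.replicate (l.count i) i).flatten := by
  rw [List.perm_iff_count]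
  intro a
  rw [List.count_flatten, List.map_ofFn, List.sum_ofFn]
  simp only [Function.comp_apply, List.count_replicate]
  simp

theorem r1_flat_prod {M : Type} [Monoid M] {N : ℕ} (x : Fin N → M) (c : Fin N → ℕ) :
    (((List.ofFn fun i => List.replicate (c i) i).flatten).map x).prod =
      (List.ofFn fun i => x i ^ c i).prod := by
  rw [List.map_flatten, List.prod_flatten, List.map_ofFn, List.map_ofFn]
  congr 1
  congr 1
  funext i
  simp

theorem r1_flat_sum {N : ℕ} (w : Fin N → ℕ) (c : Fin N → ℕ) :
    (((List.ofFn fun i => List.replicate (c i) i).flatten).map w).sum =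
      ∑ i, c i * w i := by
  rw [List.map_flatten, List.sum_flatten, List.map_ofFn, List.map_ofFn, List.sum_ofFn]
  refine Finset.sum_congr rfl fun i _ => ?_
  simp

theorem r1_words (J : Submodule F R) (N : ℕ) (x : Fin N → R) (w : Fin N → ℕ)
    (p : ℕ) (hp : 2 ≤ p) (hx : ∀ l, x l ∈ J ^ w l)
    (h1 : ∀ l m, x l * x m - x m * x l ∈
      (Submodule.span F {y | ∃ i, w i = w l + w m ∧ y = x i} ⊔ J ^ (w l + w m + 1) :
        Submodule F R))
    (h2 : ∀ l, x l ^ p ∈
      (Submodule.span F {y | ∃ i, w i = p * w l ∧ y = x i} ⊔ J ^ (p * w l + 1) :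
        Submodule F R)) (n : ℕ) :
    ∀ (k : ℕ) (l : List (Fin N)), l.length = k → (l.map w).sum = n →
      (l.map x).prod ∈ (Submodule.span F {y | ∃ α : Fin N → Fin p,
        ∑ l, (α l : ℕ) * w l = n ∧
        y = (List.ofFn fun l => x l ^ (α l : ℕ)).prod} ⊔ J ^ (n + 1) : Submodule F R) := by
  intro k
  induction k using Nat.strong_induction_on with
  | _ k ih =>
    intro l hl hn
    have hS : r1S J x w k n ≤ (Submodule.span F {y | ∃ α : Fin N → Fin p,
        ∑ l, (α l : ℕ) * w l = n ∧
        y = (List.ofFn fun l => x l ^ (α l : ℕ)).prod} ⊔ J ^ (n + 1) : Submodule F R) := by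
      refine sup_le ?_ le_sup_right
      rw [Submodule.span_le]
      rintro y ⟨l', hl', hn', rfl⟩
      exact ih l'.length hl' l' rfl hn'
    by_cases hc : ∀ i, l.count i < p
    · have hperm := r1_perm_flat l
      have hd := r1_perm J x w hx h1 _ _ hperm
      rw [hl, hn] at hd
      have hd' := hS hd
      have hsum : (l.map w).sum = ∑ i, l.count i * w i := by
        rw [(hperm.map w).sum_eq, r1_flat_sum]
      have hmem : ((((List.ofFn fun i => List.replicate (l.count i) i).flatten).map x).prod) ∈
          (Submodule.span F {y | ∃ α : Fin N → Fin p,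
            ∑ l, (α l : ℕ) * w l = n ∧
            y = (List.ofFn fun l => x l ^ (α l : ℕ)).prod} ⊔ J ^ (n + 1) :
              Submodule F R) := by
        refine Submodule.mem_sup_left (Submodule.subset_span
          ⟨fun i => ⟨l.count i, hc i⟩, ?_, ?_⟩)
        · simp only
          rw [← hsum, hn]
        · rw [r1_flat_prod]
      have := Submodule.add_mem _ hd' hmem
      simpa using this
    · push Not at hc
      obtain ⟨i, hi⟩ := hc
      have hsub : (List.replicate p i).Subperm l := by
        rw [List.subperm_ext_iff]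
        intro a ha
        have : a = i := List.eq_of_mem_replicate ha
        subst this
        rw [List.count_replicate_self]
        exact hi
      obtain ⟨l0, hl0, hl1⟩ := hsub
      obtain ⟨t, ht0⟩ := hl1.exists_perm_append
      have ht : l.Perm (List.replicate p i ++ t) := ht0.trans (hl0.append_right t)
      have hd := r1_perm J x w hx h1 _ _ ht
      rw [hl, hn] at hd
      have hlen : l.length = p + t.length := by
        rw [ht.length_eq]; simp
      have hsum : (l.map w).sum = p * w i + (t.map w).sum := by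
        rw [(ht.map w).sum_eq]; simp
      have h := r1_mul_word J x w hx (p * w i) _ (h2 i) t k (by omega)
      rw [← hsum, hn] at h
      have e : ((List.replicate p i ++ t).map x).prod = x i ^ p * (t.map x).prod := by
        simp
      rw [e] at hd
      have := hS (Submodule.add_mem _ hd h)
      simpa using this

theorem r1_pow_le (J : Submodule F R) (hJJ : J * J ≤ J) (n : ℕ) :
    J ^ (n + 2) ≤ J ^ (n + 1) := by
  calc J ^ (n + 2) = J ^ n * (J * J) := by rw [pow_add, pow_two]
    _ ≤ J ^ n * J := mul_le_mul' le_rfl hJJ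
    _ = J ^ (n + 1) := by rw [pow_succ]

theorem r1_top (J : Submodule F R)
    (hJJ : J * J ≤ J) (N : ℕ) (x : Fin N → R) (w : Fin N → ℕ)
    (hx : ∀ l, x l ∈ J ^ w l)
    (h3 : J ≤ Submodule.span F {y | ∃ i, w i = 1 ∧ y = x i} ⊔ J ^ 2) (n : ℕ) :
    J ^ n ≤ Submodule.span F {y | ∃ l : List (Fin N), (l.map w).sum = n ∧
      y = (l.map x).prod} ⊔ J ^ (n + 1) := by
  induction n with
  | zero =>
    refine le_sup_of_le_left ?_
    rw [pow_zero, Submodule.one_eq_span, Submodule.span_le]
    rintro y hy
    rw [Set.mem_singleton_iff] at hy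
    subst hy
    exact Submodule.subset_span ⟨[], by simp, by simp⟩
  | succ n ih =>
    set Wn := Submodule.span F {y | ∃ l : List (Fin N), (l.map w).sum = n ∧
      y = (l.map x).prod} with hWn
    set V := Submodule.span F {y | ∃ i, w i = 1 ∧ y = x i} with hV
    have hWJ : Wn ≤ J ^ n := by
      rw [hWn, Submodule.span_le]
      rintro y ⟨l, hl, rfl⟩
      have := r1_word_mem J x w hx l
      rw [hl] at this
      exact this
    have hVJ : V ≤ J := by
      rw [hV, Submodule.span_le]
      rintro y ⟨i, hi, rfl⟩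
      have := hx i
      rw [hi, pow_one] at this
      exact this
    have h12 : J ^ (n + 1 + 2) ≤ J ^ (n + 1 + 1) := r1_pow_le J hJJ (n + 1)
    calc J ^ (n + 1) = J ^ n * J := pow_succ _ _
      _ ≤ (Wn ⊔ J ^ (n + 1)) * (V ⊔ J ^ 2) := mul_le_mul' ih h3
      _ = (Wn * V ⊔ Wn * J ^ 2) ⊔ (J ^ (n + 1) * V ⊔ J ^ (n + 1) * J ^ 2) := by
          rw [Submodule.sup_mul, Submodule.mul_sup, Submodule.mul_sup]
      _ ≤ _ := by
          refine sup_le (sup_le ?_ ?_) (sup_le ?_ ?_)
          · refine le_sup_of_le_left ?_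
            rw [hWn, hV, Submodule.span_mul_span, Submodule.span_le]
            rintro y ⟨a, ⟨l, hl, rfl⟩, b, ⟨i, hi, rfl⟩, rfl⟩
            refine Submodule.subset_span ⟨l ++ [i], ?_, ?_⟩
            · simp [hl, hi]
            · simp
          · refine le_sup_of_le_right ?_
            calc Wn * J ^ 2 ≤ J ^ n * J ^ 2 := mul_le_mul' hWJ le_rfl
              _ = J ^ (n + 1 + 1) := by rw [← pow_add]
          · refine le_sup_of_le_right ?_
            calc J ^ (n + 1) * V ≤ J ^ (n + 1) * J := mul_le_mul' le_rfl hVJ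
              _ = J ^ (n + 1 + 1) := by rw [← pow_succ]
          · refine le_sup_of_le_right ?_
            rw [← pow_add]
            exact h12

end R1

/-- Words in the letters can be sorted modulo higher powers of `J`. -/
theorem straighten {F R : Type} [Field F] [Ring R] [Algebra F R] (J : Submodule F R)
    (hJJ : J * J ≤ J) (N : ℕ) (x : Fin N → R) (w : Fin N → ℕ) (hw : ∀ l, 1 ≤ w l)
    (p : ℕ) (hp : 2 ≤ p) (hx : ∀ l, x l ∈ J ^ w l)
    (h1 : ∀ l m, x l * x m - x m * x l ∈
      (Submodule.span F {y | ∃ i, w i = w l + w m ∧ y = x i} ⊔ J ^ (w l + w m + 1) :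
        Submodule F R))
    (h2 : ∀ l, x l ^ p ∈
      (Submodule.span F {y | ∃ i, w i = p * w l ∧ y = x i} ⊔ J ^ (p * w l + 1) :
        Submodule F R))
    (h3 : J ≤ Submodule.span F {y | ∃ i, w i = 1 ∧ y = x i} ⊔ J ^ 2) (n : ℕ) (hn : 1 ≤ n) :
    J ^ n ≤ Submodule.span F {y | ∃ α : Fin N → Fin p, ∑ l, (α l : ℕ) * w l = n ∧
      y = (List.ofFn fun l => x l ^ (α l : ℕ)).prod} ⊔ J ^ (n + 1) := by
  refine (r1_top J hJJ N x w hx h3 n).trans (sup_le ?_ le_sup_right)
  rw [Submodule.span_le]
  rintro y ⟨l, hl, rfl⟩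
  exact r1_words J N x w p hp hx h1 h2 n l.length l rfl hl

end Pool.Agent.Books.Sym
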