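import Mathlib

set_option autoImplicit false

/-!
# Large Sylow subgroups of a normal nilpotent subgroup
-/

namespace Pool.Agent.Books.Sym

open Finset

theorem r6_lcs_mono {G : Type} [Group G] {H K : Subgroup G} (h : H ≤ K) (n : ℕ) :
    H.lowerCentralSeries n ≤ K.lowerCentralSeries n := by
  induction n with
  | zero => simpa using h
  | succ n ih =>
    rw [Subgroup.lowerCentralSeries_succ, Subgroup.lowerCentralSeries_succ]
    exact Subgroup.commutator_mono ih h

theorem r6_lcs_top {G : Type} [Group G] (H : Subgroup G) (n : ℕ)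
    (h : H.lowerCentralSeries n = ⊥) :
    (⊤ : Subgroup H).lowerCentralSeries n = ⊥ := by
  rw [← Subgroup.map_eq_bot_iff_of_injective _ H.subtype_injective,
    Subgroup.top_subtype_lowerCentralSeries, h]

/-- A nilpotent normal subgroup has a Sylow subgroup that is large in the logarithmic sense. -/
theorem exists_sylow_part {Γ : Type} [Group Γ] [Finite Γ] (S : Subgroup Γ) (hS : S.Normal)
    (c : ℕ) (hc : S.lowerCentralSeries c = ⊥) (m : ℕ) (hm : 2 ≤ m)
    (hexp : ∀ g ∈ S, g ^ m = 1) :
    ∃ (P : Subgroup Γ) (p r N : ℕ), P.Normal ∧ p.Prime ∧ P ≤ S ∧ IsPGroup p P ∧ 1 ≤ r ∧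
      p ^ r ≤ m ∧ (∀ g ∈ P, g ^ (p ^ r) = 1) ∧
      (⊤ : Subgroup P).lowerCentralSeries c = ⊥ ∧
      Nat.card P = p ^ N ∧ Nat.card S ≤ m ^ N := by
  classical
  have hSn : Group.IsNilpotent S := (Subgroup.isNilpotent_iff_lowerCentralSeries S).mpr ⟨c, hc⟩
  have hn0 : Nat.card S ≠ 0 := Nat.card_pos.ne'
  have hm0 : m ≠ 0 := by omega
  have hdiv : ∀ q : ℕ, q.Prime → q ∣ Nat.card S → q ∣ m := by
    intro q hq hqn
    haveI := Fact.mk hq
    obtain ⟨g, hg⟩ := exists_prime_orderOf_dvd_card' q hqn
    rw [← hg]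
    apply orderOf_dvd_of_pow_eq_one
    exact Subtype.ext (by simpa using hexp g g.2)
  have hne : m.primeFactors.Nonempty := Nat.nonempty_primeFactors.mpr (by omega)
  obtain ⟨p, hp, hmax⟩ := m.primeFactors.exists_max_image
    (fun q => (Nat.card S).factorization q) hne
  have hpp := Nat.prime_of_mem_primeFactors hp
  haveI := Fact.mk hpp
  let P0 : Sylow p S := default
  haveI hP0n : (P0 : Subgroup S).Normal := inferInstance
  haveI hch : (P0 : Subgroup S).Characteristic := P0.characteristic_of_normal hP0n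
  haveI := hS
  have hle : (P0 : Subgroup S).map S.subtype ≤ S := Subgroup.map_subtype_le _
  refine ⟨(P0 : Subgroup S).map S.subtype, p, m.factorization p,
    (Nat.card S).factorization p, inferInstance, hpp, hle, P0.isPGroup'.map _, ?_, ?_, ?_,
    ?_, ?_, ?_⟩
  · exact hpp.factorization_pos_of_dvd hm0 (Nat.dvd_of_mem_primeFactors hp)
  · exact Nat.le_of_dvd (by omega) (Nat.ordProj_dvd m p)
  · rintro g ⟨x, hx, rfl⟩
    obtain ⟨k, hk⟩ := (IsPGroup.iff_orderOf.mp P0.isPGroup') ⟨x, hx⟩
    have hk' : orderOf (x : S) = p ^ k := by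
      rw [← hk]; exact (Subgroup.orderOf_coe (⟨x, hx⟩ : (P0 : Subgroup S))).symm ▸ rfl
    have h1 : (x : S) ^ m = 1 := Subtype.ext (by simpa using hexp x x.2)
    have h2 : p ^ k ∣ m := hk' ▸ orderOf_dvd_of_pow_eq_one h1
    have h3 : k ≤ m.factorization p := (hpp.pow_dvd_iff_le_factorization hm0).mp h2
    have h4 : (x : S) ^ (p ^ m.factorization p) = 1 := by
      apply orderOf_dvd_iff_pow_eq_one.mp
      rw [hk']
      exact pow_dvd_pow p h3
    have h5 := congrArg (S.subtype) h4
    simpa using h5
  · apply r6_lcs_top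
    apply le_bot_iff.mp
    rw [← hc]
    exact r6_lcs_mono hle c
  · rw [← Sylow.card_eq_multiplicity P0]
    exact (Nat.card_congr
      ((P0 : Subgroup S).equivMapOfInjective S.subtype S.subtype_injective).toEquiv).symm
  · have hsub : (Nat.card S).primeFactors ⊆ m.primeFactors := by
      intro q hq
      exact Nat.mem_primeFactors.mpr ⟨Nat.prime_of_mem_primeFactors hq,
        hdiv q (Nat.prime_of_mem_primeFactors hq) (Nat.dvd_of_mem_primeFactors hq), hm0⟩
    calc Nat.card S = ∏ q ∈ (Nat.card S).primeFactors, q ^ (Nat.card S).factorization q :=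
          (Nat.factorization_prod_pow_eq_self hn0).symm
      _ ≤ ∏ q ∈ (Nat.card S).primeFactors, q ^ (Nat.card S).factorization p := by
          apply Finset.prod_le_prod'
          intro q hq
          exact Nat.pow_le_pow_right (Nat.prime_of_mem_primeFactors hq).pos (hmax q (hsub hq))
      _ = (∏ q ∈ (Nat.card S).primeFactors, q) ^ (Nat.card S).factorization p :=
          Finset.prod_pow _ _ _
      _ ≤ m ^ (Nat.card S).factorization p := by
          apply Nat.pow_le_pow_left
          calc ∏ q ∈ (Nat.card S).primeFactors, q ≤ ∏ q ∈ m.primeFactors, q := by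
                apply Finset.prod_le_prod_of_subset_of_one_le' hsub
                intro q hq _
                exact (Nat.prime_of_mem_primeFactors hq).pos
            _ ≤ m := Nat.le_of_dvd (by omega) (Nat.prod_primeFactors_dvd m)

end Pool.Agent.Books.Sym
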