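import Mathlib

set_option autoImplicit false

/-!
# Slice rank of a diagonal tensor over any field, and the tricoloured bound in abstract form
-/

namespace Pool.Agent.Books.Sym

open Finset

/-- A subspace of `K^I` contains a vector whose support is at least its dimension. -/
theorem exists_supportF {K I : Type*} [Field K] [Fintype I] [DecidableEq K]
    (W : Submodule K (I → K)) :
    ∃ v ∈ W, Module.finrank K W ≤ (univ.filter fun i => v i ≠ 0).card := by
  classical
  obtain ⟨v, hv⟩ : ∃ v : W, ∀ u : W, (univ.filter fun i => (u : I → K) i ≠ 0).card ≤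
      (univ.filter fun i => (v : I → K) i ≠ 0).card := by
    have hb : BddAbove (Set.range fun u : W => (univ.filter fun i => (u : I → K) i ≠ 0).card) := by
      refine ⟨Fintype.card I, ?_⟩
      rintro _ ⟨u, rfl⟩
      exact card_le_univ _
    obtain ⟨v, hv⟩ := Nat.sSup_mem (Set.range_nonempty _) hb
    exact ⟨v, fun u => (le_csSup hb ⟨u, rfl⟩).trans hv.ge⟩
  refine ⟨v, v.2, ?_⟩
  by_contra hlt
  push Not at hlt
  set S := univ.filter fun i => (v : I → K) i ≠ 0 with hS
  let r : W →ₗ[K] (S → K) :=
    { toFun := fun w s => (w : I → K) s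
      map_add' := fun _ _ => rfl
      map_smul' := fun _ _ => rfl }
  have hker : LinearMap.ker r ≠ ⊥ := by
    apply LinearMap.ker_ne_bot_of_finrank_lt
    rw [Module.finrank_fintype_fun_eq_card, Fintype.card_coe]
    exact hlt
  obtain ⟨w, hw, hw0⟩ := Submodule.exists_mem_ne_zero_of_ne_bot hker
  have hwS : ∀ i ∈ S, (w : I → K) i = 0 := by
    intro i hi
    have := congrFun (LinearMap.mem_ker.mp hw) ⟨i, hi⟩
    simpa [r] using this
  have hne : ∃ i, (w : I → K) i ≠ 0 := by
    by_contra h
    push Not at h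
    apply hw0
    ext i
    simpa using h i
  obtain ⟨i, hi⟩ := hne
  have hiS : i ∉ S := fun h => hi (hwS i h)
  have h1 := hv (v + w)
  have hsub : insert i S ⊆ univ.filter fun j => ((v + w : W) : I → K) j ≠ 0 := by
    intro j hj
    rw [mem_insert] at hj
    rw [mem_filter]
    refine ⟨mem_univ _, ?_⟩
    rcases hj with rfl | hj
    · have : (v : I → K) j = 0 := by
        by_contra h
        exact hiS (by rw [hS, mem_filter]; exact ⟨mem_univ _, h⟩)
      simp [this, hi]
    · have h2 := hwS j hj
      rw [hS, mem_filter] at hj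
      simp [h2, hj.2]
  have h2 := card_le_card hsub
  rw [card_insert_of_notMem hiS] at h2
  have h3 : (univ.filter fun j => ((v + w : W) : I → K) j ≠ 0).card ≤ S.card := h1
  omega

/-- Slice rank of the diagonal tensor. -/
theorem sliceF {K I A B C : Type*} [Field K] [Fintype I] [DecidableEq I]
    (LA : Finset A) (LB : Finset B) (LC : Finset C)
    (a : A → I → K) (f : A → I → I → K) (b : B → I → K) (g : B → I → I → K)
    (c : C → I → K) (h : C → I → I → K)
    (hd : ∀ i j k, (if i = j ∧ j = k then (1 : K) else 0) =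
      (∑ x ∈ LA, a x i * f x j k) + (∑ x ∈ LB, b x j * g x i k) + ∑ x ∈ LC, c x k * h x i j) :
    Fintype.card I ≤ LA.card + LB.card + LC.card := by
  classical
  -- vectors orthogonal to the `a x`
  let r : (I → K) →ₗ[K] (LA → K) :=
    { toFun := fun v x => ∑ i, a x i * v i
      map_add' := by
        intro v w
        ext x
        simp [mul_add, sum_add_distrib]
      map_smul' := by
        intro t v
        ext x
        simp only [Pi.smul_apply, smul_eq_mul, RingHom.id_apply, mul_sum]
        exact sum_congr rfl fun i _ => by ring }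
  obtain ⟨v, hvW, hvc⟩ := exists_supportF (LinearMap.ker r)
  have hdim : Fintype.card I ≤ LA.card + Module.finrank K (LinearMap.ker r) := by
    have h1 := LinearMap.finrank_range_add_finrank_ker r
    have h2 : Module.finrank K (LinearMap.range r) ≤ LA.card := by
      have := Submodule.finrank_le (LinearMap.range r)
      rwa [Module.finrank_fintype_fun_eq_card, Fintype.card_coe] at this
    rw [Module.finrank_fintype_fun_eq_card] at h1
    omega
  have hv : ∀ x ∈ LA, ∑ i, a x i * v i = 0 := by
    intro x hx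
    have := congrFun (LinearMap.mem_ker.mp hvW) ⟨x, hx⟩
    simpa [r] using this
  set S := univ.filter fun i => v i ≠ 0 with hS
  -- the contracted tensor
  have hcon : ∀ j k, (if j = k then v j else 0) =
      (∑ x ∈ LB, b x j * ∑ i, v i * g x i k) + ∑ x ∈ LC, c x k * ∑ i, v i * h x i j := by
    intro j k
    have h1 : ∑ i, v i * (if i = j ∧ j = k then (1 : K) else 0) = if j = k then v j else 0 := by
      by_cases hjk : j = k
      · simp [hjk]
      · simp [hjk]
    rw [← h1]
    have h2 : ∀ i, v i * (if i = j ∧ j = k then (1 : K) else 0) =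
        (∑ x ∈ LA, (a x i * v i) * f x j k) + (∑ x ∈ LB, b x j * (v i * g x i k)) +
          ∑ x ∈ LC, c x k * (v i * h x i j) := by
      intro i
      rw [hd i j k, mul_add, mul_add, mul_sum, mul_sum, mul_sum]
      congr 1
      · congr 1
        · exact sum_congr rfl fun x _ => by ring
        · exact sum_congr rfl fun x _ => by ring
      · exact sum_congr rfl fun x _ => by ring
    rw [sum_congr rfl fun i _ => h2 i, sum_add_distrib, sum_add_distrib]
    have h3 : ∑ i, ∑ x ∈ LA, (a x i * v i) * f x j k = 0 := by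
      rw [sum_comm]
      apply sum_eq_zero
      intro x hx
      rw [← sum_mul, hv x hx, zero_mul]
    rw [h3, zero_add]
    congr 1
    · rw [sum_comm]
      exact sum_congr rfl fun x _ => by rw [mul_sum]
    · rw [sum_comm]
      exact sum_congr rfl fun x _ => by rw [mul_sum]
  -- vectors supported on `S`
  let q : (S → K) →ₗ[K] (LB → K) :=
    { toFun := fun u x => ∑ j : S, b x j * u j
      map_add' := by
        intro v w
        ext x
        simp [mul_add, sum_add_distrib]
      map_smul' := by
        intro t v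
        ext x
        simp only [Pi.smul_apply, smul_eq_mul, RingHom.id_apply, mul_sum]
        exact sum_congr rfl fun i _ => by ring }
  let s : (S → K) →ₗ[K] (LC → K) :=
    { toFun := fun u x => ∑ j : S, (∑ i, v i * h x i j) * u j
      map_add' := by
        intro v w
        ext x
        simp [mul_add, sum_add_distrib]
      map_smul' := by
        intro t v
        ext x
        simp only [Pi.smul_apply, smul_eq_mul, RingHom.id_apply, mul_sum]
        exact sum_congr rfl fun i _ => by ring }
  have hinj : ∀ u : S → K, q u = 0 → s u = 0 → u = 0 := by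
    intro u hq hs
    ext k
    have h1 : ∑ j : S, (if (j : I) = k then v j else 0) * u j = v k * u k := by
      rw [sum_eq_single k]
      · simp
      · intro j _ hjk
        rw [if_neg, zero_mul]
        exact fun hh => hjk (Subtype.ext hh)
      · intro hk
        exact absurd (mem_univ _) hk
    have h2 : ∑ j : S, (if (j : I) = k then v j else 0) * u j = 0 := by
      have h3 : ∀ j : S, (if (j : I) = k then v j else 0) * u j =
          (∑ x ∈ LB, (b x j * u j) * ∑ i, v i * g x i k) +
            ∑ x ∈ LC, c x k * ((∑ i, v i * h x i j) * u j) := by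
        intro j
        rw [hcon j k, add_mul, sum_mul, sum_mul]
        congr 1
        · exact sum_congr rfl fun x _ => by ring
        · exact sum_congr rfl fun x _ => by ring
      rw [sum_congr rfl fun j _ => h3 j, sum_add_distrib]
      have h4 : ∑ j : S, ∑ x ∈ LB, (b x j * u j) * ∑ i, v i * g x i k = 0 := by
        rw [sum_comm]
        apply sum_eq_zero
        intro x hx
        have := congrFun hq ⟨x, hx⟩
        have h5 : ∑ j : S, b x j * u j = 0 := by simpa [q] using this
        rw [← sum_mul, h5, zero_mul]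
      have h6 : ∑ j : S, ∑ x ∈ LC, c x k * ((∑ i, v i * h x i j) * u j) = 0 := by
        rw [sum_comm]
        apply sum_eq_zero
        intro x hx
        have := congrFun hs ⟨x, hx⟩
        have h5 : ∑ j : S, (∑ i, v i * h x i j) * u j = 0 := by simpa [s] using this
        rw [← mul_sum, h5, mul_zero]
      rw [h4, h6, zero_add]
    rw [h1] at h2
    have hk : v k ≠ 0 := (mem_filter.mp k.2).2
    rcases mul_eq_zero.mp h2 with h | h
    · exact absurd h hk
    · simpa using h
  have hScard : S.card ≤ LB.card + LC.card := by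
    have h1 : Function.Injective (q.prod s) := by
      rw [← LinearMap.ker_eq_bot, LinearMap.ker_eq_bot']
      intro u hu
      have h2 := congrArg Prod.fst hu
      have h3 := congrArg Prod.snd hu
      exact hinj u h2 h3
    have h2 := LinearMap.finrank_le_finrank_of_injective h1
    rw [Module.finrank_prod, Module.finrank_fintype_fun_eq_card,
      Module.finrank_fintype_fun_eq_card, Module.finrank_fintype_fun_eq_card, Fintype.card_coe,
      Fintype.card_coe, Fintype.card_coe] at h2
    exact h2
  omega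

theorem tricolouredAbs {Γ : Type} [Group Γ] [Fintype Γ] (N : Subgroup Γ) [N.Normal] {F : Type}
    [Field F] {S : Type} [Fintype S] [DecidableEq S] (w : S → ℕ) (D : ℕ) (cf : S → N → F)
    (hcoef : ∀ r1 r2 r3 : Γ, ∃ C : S → S → S → F,
      (∀ α β γ, D < w α + w β + w γ → C α β γ = 0) ∧
      ∀ u1 u2 u3 : N, (open Classical in
        if (u1 : Γ) * r1 * ((u2 : Γ) * r2) * ((u3 : Γ) * r3) = 1 then (1 : F) else 0) =
        ∑ α, ∑ β, ∑ γ, C α β γ * (cf α u1 * cf β u2 * cf γ u3))
    {I : Type} [Fintype I] [DecidableEq I] (x y z : I → Γ)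
    (h : ∀ i j k, x i * y j * z k = 1 ↔ i = j ∧ j = k) :
    Fintype.card I ≤ 3 * ((univ.filter fun α : S => 3 * w α ≤ D).card * Nat.card (Γ ⧸ N)) := by
  classical
  let _ : Fintype (Γ ⧸ N) := Fintype.ofFinite _
  have hN : N.Normal := inferInstance
  have hex : ∀ g : Γ, ∃ u : N, (u : Γ) * (g : Γ ⧸ N).out = g := by
    intro g
    have h1 : (((g : Γ ⧸ N).out : Γ) : Γ ⧸ N) = (g : Γ ⧸ N) := QuotientGroup.out_eq' _
    rw [QuotientGroup.eq] at h1
    exact ⟨⟨g * ((g : Γ ⧸ N).out)⁻¹, hN.mem_comm_iff.mp h1⟩, by simp⟩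
  choose ν hν using hex
  let κ : Γ → Γ ⧸ N := fun g => (g : Γ ⧸ N)
  have hC := fun q1 q2 q3 : Γ ⧸ N => hcoef q1.out q2.out q3.out
  choose C hC0 hC using hC
  have hdelta : ∀ i j k, (if i = j ∧ j = k then (1 : F) else 0) =
      ∑ α, ∑ β, ∑ γ, C (κ (x i)) (κ (y j)) (κ (z k)) α β γ *
        (cf α (ν (x i)) * cf β (ν (y j)) * cf γ (ν (z k))) := by
    intro i j k
    have h1 := hC (κ (x i)) (κ (y j)) (κ (z k)) (ν (x i)) (ν (y j)) (ν (z k))
    rw [← h1]
    simp only [κ]
    rw [hν, hν, hν]
    by_cases hijk : i = j ∧ j = k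
    · rw [if_pos hijk, if_pos ((h i j k).mpr hijk)]
    · rw [if_neg hijk, if_neg fun hh => hijk ((h i j k).mp hh)]
  let lo : Finset S := univ.filter fun α : S => 3 * w α ≤ D
  let hi : Finset S := univ.filter fun α : S => ¬ 3 * w α ≤ D
  have key := sliceF (K := F) (I := I) (lo ×ˢ (univ : Finset (Γ ⧸ N)))
    (lo ×ˢ (univ : Finset (Γ ⧸ N))) (lo ×ˢ (univ : Finset (Γ ⧸ N)))
    (fun a i => cf a.1 (ν (x i)) * (if κ (x i) = a.2 then 1 else 0))
    (fun a j k => ∑ β, ∑ γ, C a.2 (κ (y j)) (κ (z k)) a.1 β γ *
      (cf β (ν (y j)) * cf γ (ν (z k))))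
    (fun b j => cf b.1 (ν (y j)) * (if κ (y j) = b.2 then 1 else 0))
    (fun b i k => ∑ α ∈ hi, ∑ γ, C (κ (x i)) b.2 (κ (z k)) α b.1 γ *
      (cf α (ν (x i)) * cf γ (ν (z k))))
    (fun c k => cf c.1 (ν (z k)) * (if κ (z k) = c.2 then 1 else 0))
    (fun c i j => ∑ α ∈ hi, ∑ β ∈ hi, C (κ (x i)) (κ (y j)) c.2 α β c.1 *
      (cf α (ν (x i)) * cf β (ν (y j)))) ?_
  · rw [card_product, card_univ] at key
    rw [Nat.card_eq_fintype_card]
    have : Fintype.card I ≤ 3 * (lo.card * Fintype.card (Γ ⧸ N)) := by omega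
    exact this
  intro i j k
  rw [hdelta i j k]
  have hone : ∀ (G : S → Γ ⧸ N → F) (q : Γ ⧸ N) (cc : S → F),
      ∑ a ∈ lo ×ˢ (univ : Finset (Γ ⧸ N)), cc a.1 * (if q = a.2 then 1 else 0) * G a.1 a.2 =
        ∑ α ∈ lo, cc α * G α q := by
    intro G q cc
    rw [sum_product]
    apply sum_congr rfl
    intro α _
    rw [sum_eq_single q]
    · simp
    · intro b _ hb
      simp only []
      rw [if_neg fun hh => hb hh.symm]
      ring
    · intro hh
      exact absurd (mem_univ _) hh
  rw [hone (fun α q => ∑ β, ∑ γ, C q (κ (y j)) (κ (z k)) α β γ *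
      (cf β (ν (y j)) * cf γ (ν (z k)))) (κ (x i)) (fun α => cf α (ν (x i))),
    hone (fun β q => ∑ α ∈ hi, ∑ γ, C (κ (x i)) q (κ (z k)) α β γ *
      (cf α (ν (x i)) * cf γ (ν (z k)))) (κ (y j)) (fun β => cf β (ν (y j))),
    hone (fun γ q => ∑ α ∈ hi, ∑ β ∈ hi, C (κ (x i)) (κ (y j)) q α β γ *
      (cf α (ν (x i)) * cf β (ν (y j)))) (κ (z k)) (fun γ => cf γ (ν (z k)))]
  have hsplit : ∀ G : S → F, ∑ α, G α = ∑ α ∈ lo, G α + ∑ α ∈ hi, G α := by
    intro G
    rw [← sum_filter_add_sum_filter_not univ (fun α : S => 3 * w α ≤ D) G]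
  rw [hsplit, add_assoc]
  congr 1
  · apply sum_congr rfl
    intro α _
    rw [mul_sum]
    apply sum_congr rfl
    intro β _
    rw [mul_sum]
    apply sum_congr rfl
    intro γ _
    ring
  · rw [sum_congr rfl fun α _ => hsplit _, sum_add_distrib]
    congr 1
    · rw [sum_comm]
      apply sum_congr rfl
      intro β _
      rw [mul_sum]
      apply sum_congr rfl
      intro α _
      rw [mul_sum]
      apply sum_congr rfl
      intro γ _
      ring
    · have h1 : ∀ α ∈ hi, ∀ β ∈ hi, ∑ γ, C (κ (x i)) (κ (y j)) (κ (z k)) α β γ *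
          (cf α (ν (x i)) * cf β (ν (y j)) * cf γ (ν (z k))) =
          ∑ γ ∈ lo, C (κ (x i)) (κ (y j)) (κ (z k)) α β γ *
          (cf α (ν (x i)) * cf β (ν (y j)) * cf γ (ν (z k))) := by
        intro α hα β hβ
        rw [hsplit]
        have h2 : ∑ γ ∈ hi, C (κ (x i)) (κ (y j)) (κ (z k)) α β γ *
            (cf α (ν (x i)) * cf β (ν (y j)) * cf γ (ν (z k))) = 0 := by
          apply sum_eq_zero
          intro γ hγ
          have ha := (mem_filter.mp hα).2
          have hb := (mem_filter.mp hβ).2
          have hc := (mem_filter.mp hγ).2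
          rw [hC0 _ _ _ α β γ (by omega), zero_mul]
        rw [h2, add_zero]
      rw [sum_congr rfl fun α hα => sum_congr rfl fun β hβ => h1 α hα β hβ]
      rw [sum_congr rfl fun α _ => sum_comm, sum_comm]
      apply sum_congr rfl
      intro γ _
      rw [mul_sum]
      apply sum_congr rfl
      intro α _
      rw [mul_sum]
      apply sum_congr rfl
      intro β _
      ring

end Pool.Agent.Books.Sym
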