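import Pool.Agent.Books.Sym.ZBracket
import Pool.Agent.Books.Sym.AugNilP
import Pool.Agent.Books.Sym.Straighten
import Pool.Agent.Books.Sym.SeriesTwo
import Pool.Agent.Books.Sym.Letters
import Pool.Agent.Books.Sym.CountW
import Pool.Agent.Books.Sym.SylowPart
import Pool.Agent.Books.Sym.AugCoef
import Pool.Agent.Books.Sym.TricolouredAbs

set_option autoImplicit false

/-!
# Tricoloured product-free families in a group with a normal `p`-subgroup of bounded class
-/

namespace Pool.Agent.Books.Sym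

open Finset

theorem aug_mul_self (F : Type) [Field F] (P : Type) [Group P] :
    aug F (⊤ : Subgroup P) * aug F (⊤ : Subgroup P) ≤ aug F (⊤ : Subgroup P) := by
  rw [Submodule.mul_le]
  intro a ha b hb
  have h1 : aug F (⊤ : Subgroup P) ≤ (aug F (⊤ : Subgroup P)).comap (LinearMap.mulRight F b) := by
    apply aug_le
    intro u _
    rw [Submodule.mem_comap, LinearMap.mulRight_apply]
    have h2 : aug F (⊤ : Subgroup P) ≤ (aug F (⊤ : Subgroup P)).comap
        (LinearMap.mulLeft F (MonoidAlgebra.of F P u - 1)) := by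
      apply aug_le
      intro v _
      rw [Submodule.mem_comap, LinearMap.mulLeft_apply]
      have h3 : (MonoidAlgebra.of F P u - 1) * (MonoidAlgebra.of F P v - 1) =
          (MonoidAlgebra.of F P (u * v) - 1) - (MonoidAlgebra.of F P u - 1) -
            (MonoidAlgebra.of F P v - 1) := by
        rw [map_mul]
        noncomm_ring
      rw [h3]
      exact Submodule.sub_mem _ (Submodule.sub_mem _ (of_sub_mem F ⊤ (Subgroup.mem_top _))
        (of_sub_mem F ⊤ (Subgroup.mem_top _))) (of_sub_mem F ⊤ (Subgroup.mem_top _))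
    have := h2 hb
    rwa [Submodule.mem_comap, LinearMap.mulLeft_apply] at this
  have := h1 ha
  rwa [Submodule.mem_comap, LinearMap.mulRight_apply] at this

theorem tricolouredJ {Γ : Type} [Group Γ] [Fintype Γ] (N0 : Subgroup Γ) [N0.Normal]
    (p r c N : ℕ) [hp : Fact p.Prime] (hr : 1 ≤ r) (hc1 : 1 ≤ c) (hPp : IsPGroup p N0)
    (hexp : ∀ g ∈ N0, g ^ (p ^ r) = 1) (hc : (⊤ : Subgroup N0).lowerCentralSeries c = ⊥)
    (hcard : Nat.card N0 = p ^ N) {I : Type} [Fintype I] [DecidableEq I] (x' y z : I → Γ)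
    (h : ∀ i j k, x' i * y j * z k = 1 ↔ i = j ∧ j = k) :
    (Fintype.card I : ℝ) ≤ 3 * ((Fintype.card Γ : ℝ) *
      Real.exp (-(N : ℝ) / (18 * (p ^ (r - 1) * (c * (p ^ r) ^ Nat.log 2 c) : ℕ)))) := by
  classical
  have hp2 := hp.out.two_le
  obtain ⟨W, hW, hWb⟩ := exists_series2 (P := N0) p r c hp.out hr hc1
    (fun g => Subtype.ext (hexp g g.2)) hc
  obtain ⟨M, hM⟩ : ∃ M, M = p ^ (r - 1) * (c * (p ^ r) ^ Nat.log 2 c) := ⟨_, rfl⟩
  rw [← hM] at hWb ⊢
  clear hM
  have hZ : zser p N0 (M + 1) = ⊥ := by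
    rw [eq_bot_iff, ← hWb]
    exact iInf_le (fun W : {W : ℕ → Subgroup N0 // IsSeries p W} => W.1 (M + 1)) ⟨W, hW⟩
  obtain ⟨N', g, w, hN', hgw, hlay⟩ := letters (P := N0) p M hPp hZ
  obtain rfl : N = N' := Nat.pow_right_injective hp2 (hcard.symm.trans hN')
  set J := aug (ZMod p) (⊤ : Subgroup N0) with hJ
  let x : Fin N → MonoidAlgebra (ZMod p) N0 := fun l => MonoidAlgebra.of (ZMod p) N0 (g l) - 1
  have hchar : CharP (MonoidAlgebra (ZMod p) N0) p :=
    charP_of_injective_algebraMap (FaithfulSMul.algebraMap_injective (ZMod p) _) p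
  have hx : ∀ l, x l ∈ J ^ w l := fun l =>
    zser_mem p N0 (w l) (hgw l).1 (g l) (hgw l).2.2
  have hst := straighten J (aug_mul_self (ZMod p) N0) N x w (fun l => (hgw l).1) p hp2 hx
    (fun l m => hlay _ (by have := (hgw l).1; omega)
      (zser_bracket p N0 (w l) (w m) (hgw l).1 (hgw m).1 (g l) (g m) (hgw l).2.2 (hgw m).2.2))
    (fun l => hlay _ (Nat.mul_pos (by omega) (hgw l).1) (by
      have h1 : x l ^ p = MonoidAlgebra.of (ZMod p) N0 (g l ^ p) - 1 := by
        simp only [x]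
        rw [sub_pow_char_of_commute _ (Commute.one_right _), ← map_pow, one_pow]
      rw [h1]
      exact Submodule.mem_sup_left (Submodule.subset_span
        ⟨_, (zser_series p N0 hp.out).pow _ (hgw l).1 _ (hgw l).2.2, rfl⟩)))
    (by
      refine le_trans ?_ (hlay 1 le_rfl)
      rw [hJ]
      apply aug_le
      intro b _
      exact Submodule.mem_sup_left (Submodule.subset_span
        ⟨b, by rw [(zser_series p N0 hp.out).one]; exact Subgroup.mem_top _, rfl⟩))
  let e : (Fin N → Fin p) → MonoidAlgebra (ZMod p) N0 := fun α =>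
    (List.ofFn fun l => x l ^ (α l : ℕ)).prod
  let wt : (Fin N → Fin p) → ℕ := fun α => ∑ l, (α l : ℕ) * w l
  obtain ⟨K, hK⟩ := aug_nil_pgroup (P := N0) p hPp
  have hK1 : J ^ (K + 1) = ⊥ := by
    rw [pow_succ, hJ, hK, Submodule.bot_mul]
  have hspan : ∀ d n : ℕ, 1 ≤ n → K + 1 ≤ n + d →
      J ^ n ≤ Submodule.span (ZMod p) {y | ∃ α, n ≤ wt α ∧ y = e α} := by
    intro d
    induction d with
    | zero =>
      intro n _ hn
      have h1 : J ^ n = ⊥ := by
        obtain ⟨k, rfl⟩ := Nat.exists_eq_add_of_le (show K + 1 ≤ n by omega)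
        rw [pow_add, hK1, Submodule.bot_mul]
      rw [h1]
      exact bot_le
    | succ d ih =>
      intro n hn hnd
      refine le_trans (hst n hn) (sup_le ?_ ?_)
      · apply Submodule.span_mono
        rintro _ ⟨α, hα, rfl⟩
        exact ⟨α, hα.ge, rfl⟩
      · refine le_trans (ih (n + 1) (by omega) (by omega)) (Submodule.span_mono ?_)
        rintro _ ⟨α, hα, rfl⟩
        exact ⟨α, by omega, rfl⟩
  set D : ℕ := (p - 1) * ∑ l, w l with hD
  have hwt : ∀ α, wt α ≤ D := by
    intro α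
    simp only [wt]
    rw [hD, mul_sum]
    apply sum_le_sum
    intro l _
    apply Nat.mul_le_mul_right
    have := (α l).2
    omega
  have hJD : (⊤ * J ^ (D + 1) : Submodule (ZMod p) (MonoidAlgebra (ZMod p) N0)) = ⊥ := by
    have h1 : J ^ (D + 1) = ⊥ := by
      rw [eq_bot_iff]
      refine le_trans (hspan (K + 1) (D + 1) (by omega) (by omega)) ?_
      rw [Submodule.span_le]
      rintro _ ⟨α, hα, _⟩
      have := hwt α
      omega
    rw [h1, Submodule.mul_bot]
  have he : ∀ α, e α ∈ (⊤ * J ^ wt α : Submodule (ZMod p) (MonoidAlgebra (ZMod p) N0)) := by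
    intro α
    have h1 := list_prod_mem_pow J N (fun l => x l ^ (α l : ℕ)) (fun l => (α l : ℕ) * w l)
      (fun l => by
        rw [mul_comm, pow_mul]
        exact Submodule.pow_mem_pow _ (hx l) _)
    rw [← one_mul (e α)]
    exact Submodule.mul_mem_mul Submodule.mem_top h1
  have hof : ∀ u : N0, ∃ cf : (Fin N → Fin p) → ZMod p,
      ∑ α, cf α • e α = MonoidAlgebra.of (ZMod p) N0 u := by
    intro u
    apply (Submodule.mem_span_range_iff_exists_fun (ZMod p)).mp
    have h1 : MonoidAlgebra.of (ZMod p) N0 u = 1 + (MonoidAlgebra.of (ZMod p) N0 u - 1) := by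
      abel
    rw [h1]
    apply Submodule.add_mem
    · apply Submodule.subset_span
      refine ⟨fun _ => ⟨0, by omega⟩, ?_⟩
      simp [e]
    · have h2 := hspan (K + 1) 1 le_rfl (by omega)
      rw [pow_one] at h2
      refine (Submodule.span_mono ?_) (h2 (of_sub_mem (ZMod p) ⊤ (Subgroup.mem_top _)))
      rintro _ ⟨α, _, rfl⟩
      exact ⟨α, rfl⟩
  choose cf hcf using hof
  have hT := tricolouredAbs N0 (F := ZMod p) (S := Fin N → Fin p) wt D (fun α u => cf u α)
    (fun r1 r2 r3 => coefP (ZMod p) N0 wt D e (fun α u => cf u α) he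
      (fun u => (hcf u).symm) hJD r1 r2 r3) x' y z h
  obtain ⟨m, rfl⟩ : ∃ m, p = m + 1 := ⟨p - 1, by omega⟩
  have hm1 : 1 ≤ m := by omega
  have hlow := card_low_w m N M hm1 w (fun l => (hgw l).1)
    (fun l => (hgw l).2.1)
  have hDm : D = m * ∑ l, w l := by
    rw [hD, Nat.add_sub_cancel]
  rw [hDm] at hT
  have hcardΓ : (Fintype.card Γ : ℝ) = Nat.card (Γ ⧸ N0) * ((m : ℝ) + 1) ^ N := by
    have h1 := Subgroup.card_eq_card_quotient_mul_card_subgroup N0
    rw [← Nat.card_eq_fintype_card, h1, hcard]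
    push_cast
    ring
  have hT2 : (Fintype.card I : ℝ) ≤ 3 * ((((univ : Finset (Fin N → Fin (m + 1))).filter
      fun α => 3 * ∑ i, (α i : ℕ) * w i ≤ m * ∑ i, w i).card : ℝ) * Nat.card (Γ ⧸ N0)) := by
    exact_mod_cast hT
  have h3 := mul_le_mul_of_nonneg_right hlow (Nat.cast_nonneg (α := ℝ) (Nat.card (Γ ⧸ N0)))
  rw [hcardΓ]
  linarith

end Pool.Agent.Books.Sym
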