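import Pool.Agent.Books.Sym.Aug

set_option autoImplicit false

/-!
# Series of subgroups adapted to the powers of the augmentation ideal
-/

namespace Pool.Agent.Books.Sym

/-- A descending series of subgroups with `[W n, P] ≤ W (n + 1)` and `(W n) ^ p ⊆ W (p * n)`. -/
structure IsSeries (p : ℕ) {P : Type} [Group P] (W : ℕ → Subgroup P) : Prop where
  zero : W 0 = ⊤
  one : W 1 = ⊤
  anti : ∀ n, W (n + 1) ≤ W n
  comm : ∀ n, 1 ≤ n → ∀ u ∈ W n, ∀ g : P, u * g * u⁻¹ * g⁻¹ ∈ W (n + 1)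
  pow : ∀ n, 1 ≤ n → ∀ u ∈ W n, u ^ p ∈ W (p * n)

/-- The smallest series. -/
def zser (p : ℕ) (P : Type) [Group P] (n : ℕ) : Subgroup P :=
  ⨅ W : {W : ℕ → Subgroup P // IsSeries p W}, W.1 n

/-- The `n`-th layer: combinations of `z - 1`, `z` in `Z n`, modulo the power `n + 1`. -/
noncomputable def lay (p : ℕ) (P : Type) [Group P] [Fact p.Prime] (n : ℕ) :
    Submodule (ZMod p) (MonoidAlgebra (ZMod p) P) :=
  Submodule.span (ZMod p) {y | ∃ z ∈ zser p P n, y = MonoidAlgebra.of (ZMod p) P z - 1} ⊔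
    aug (ZMod p) (⊤ : Subgroup P) ^ (n + 1)

end Pool.Agent.Books.Sym
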