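import Mathlib

set_option autoImplicit false

/-!
# The product-one tensor of a finite group modulo a prime divisor of its order

The functions on `H` have a basis with one element of degree `0` (a constant), one of degree `3`
(the delta function at the identity) and the others of degree `1` (of sum zero); in this basis every
function of three variables with all marginals equal to `1` has total degree at most `3`.
-/

namespace Pool.Agent.Books.Sym

open Finset

section

variable {H : Type} [Group H] [Fintype H] [DecidableEq H]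

/-- Degree of a basis function. -/
def dg (s g : H) : ℕ := if g = 1 then 3 else if g = s then 0 else 1

/-- Basis functions on `H`. -/
def bt (p : ℕ) (s g x : H) : ZMod p :=
  if g = 1 then (if x = 1 then 1 else 0) else if g = s then 1 else
    (if x = g then 1 else 0) - (if x = 1 then 1 else 0)

/-- Dual functionals. -/
def om (p : ℕ) (s g x : H) : ZMod p :=
  if g = 1 then 1 else if g = s then (if x = s then 1 else 0) else
    (if x = g then 1 else 0) - (if x = s then 1 else 0)

omit [Fintype H] in
theorem om_mul_bt (p : ℕ) (s : H) (hs : s ≠ 1) (x x' g : H) :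
    om p s g x' * bt p s g x =
      ((if x' = g then (1 : ZMod p) else 0) - (if x' = s then 1 else 0)) *
        ((if x = g then 1 else 0) - (if x = 1 then 1 else 0)) +
      (if g = 1 then (if x = 1 then (1 : ZMod p) else 0) else 0) +
      (if g = s then (if x' = s then (1 : ZMod p) else 0) else 0) := by
  unfold om bt
  by_cases h1 : g = 1
  · subst h1
    simp [hs.symm]
  · by_cases h2 : g = s
    · subst h2
      simp [h1]
    · simp [h1, h2]

/-- The two systems are dual. -/
theorem om_bt (p : ℕ) (hp : p ∣ Fintype.card H) (s : H) (hs : s ≠ 1) (x x' : H) :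
    ∑ g, om p s g x' * bt p s g x = if x = x' then 1 else 0 := by
  have hcard : ((Fintype.card H : ℕ) : ZMod p) = 0 := (ZMod.natCast_eq_zero_iff _ _).2 hp
  have hF : ∑ g : H, ((if x' = g then (1 : ZMod p) else 0) - (if x' = s then 1 else 0)) *
        ((if x = g then 1 else 0) - (if x = 1 then 1 else 0)) =
      (if x = x' then 1 else 0) - (if x = 1 then 1 else 0) - (if x' = s then 1 else 0) := by
    set u : ZMod p := if x' = s then 1 else 0
    set v : ZMod p := if x = 1 then 1 else 0
    have e : ∀ g : H, ((if x' = g then (1 : ZMod p) else 0) - u) * ((if x = g then 1 else 0) - v) =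
        (if x' = g then (if x = g then (1 : ZMod p) else 0) else 0) - v * (if x' = g then 1 else 0)
          - u * (if x = g then 1 else 0) + u * v := by
      intro g
      split_ifs <;> ring
    simp_rw [e]
    rw [Finset.sum_add_distrib, Finset.sum_sub_distrib, Finset.sum_sub_distrib, ← Finset.mul_sum,
      ← Finset.mul_sum, Finset.sum_ite_eq, Finset.sum_ite_eq, Finset.sum_ite_eq, Finset.sum_const,
      Finset.card_univ, nsmul_eq_mul, hcard]
    simp
  simp_rw [om_mul_bt p s hs x x']
  rw [Finset.sum_add_distrib, Finset.sum_add_distrib, hF, Finset.sum_ite_eq', Finset.sum_ite_eq']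
  simp only [Finset.mem_univ, if_true]
  ring

/-- Coefficients. -/
def kp (p : ℕ) (s : H) (D : H → H → H → ZMod p) (a b c : H) : ZMod p :=
  ∑ x, ∑ y, ∑ z, om p s a x * om p s b y * om p s c z * D x y z

theorem expand1 (p : ℕ) (hp : p ∣ Fintype.card H) (s : H) (hs : s ≠ 1) (f : H → ZMod p) (x : H) :
    f x = ∑ a, (∑ x', om p s a x' * f x') * bt p s a x := by
  simp_rw [Finset.sum_mul]
  rw [Finset.sum_comm]
  have e : ∀ x' : H, ∑ a, om p s a x' * f x' * bt p s a x = if x = x' then f x' else 0 := by
    intro x'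
    have : ∀ a : H, om p s a x' * f x' * bt p s a x = f x' * (om p s a x' * bt p s a x) := by
      intro a; ring
    simp_rw [this]
    rw [← Finset.mul_sum, om_bt p hp s hs]
    split_ifs <;> simp
  simp_rw [e]
  rw [Finset.sum_ite_eq]
  simp

theorem kp_eq (p : ℕ) (s : H) (D : H → H → H → ZMod p) (a b c : H) :
    kp p s D a b c = ∑ x, om p s a x * (∑ y, om p s b y * (∑ z, om p s c z * D x y z)) := by
  unfold kp
  refine Finset.sum_congr rfl (fun x _ => ?_)
  rw [Finset.mul_sum]
  refine Finset.sum_congr rfl (fun y _ => ?_)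
  rw [Finset.mul_sum, Finset.mul_sum]
  refine Finset.sum_congr rfl (fun z _ => ?_)
  ring

/-- Expansion in the basis. -/
theorem kp_expand (p : ℕ) (hp : p ∣ Fintype.card H) (s : H) (hs : s ≠ 1)
    (D : H → H → H → ZMod p) (x y z : H) :
    D x y z = ∑ e : H × H × H, kp p s D e.1 e.2.1 e.2.2 *
      (bt p s e.1 x * bt p s e.2.1 y * bt p s e.2.2 z) := by
  have h1 := expand1 p hp s hs (fun z => D x y z) z
  have h2 : ∀ c : H, (∑ z', om p s c z' * D x y z') =
      ∑ b, (∑ y', om p s b y' * (∑ z', om p s c z' * D x y' z')) * bt p s b y :=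
    fun c => expand1 p hp s hs (fun y => ∑ z', om p s c z' * D x y z') y
  have h3 : ∀ b c : H, (∑ y', om p s b y' * (∑ z', om p s c z' * D x y' z')) =
      ∑ a, kp p s D a b c * bt p s a x := by
    intro b c
    have := expand1 p hp s hs (fun x => ∑ y', om p s b y' * (∑ z', om p s c z' * D x y' z')) x
    refine this.trans (Finset.sum_congr rfl (fun a _ => ?_))
    rw [kp_eq]
  have h4 : D x y z = ∑ c, (∑ b, (∑ a, kp p s D a b c * bt p s a x) * bt p s b y) * bt p s c z := by
    refine h1.trans (Finset.sum_congr rfl (fun c _ => ?_))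
    rw [h2 c]
    congr 1
    refine Finset.sum_congr rfl (fun b _ => ?_)
    rw [h3 b c]
  rw [h4, Fintype.sum_prod_type]
  simp_rw [Fintype.sum_prod_type]
  have h5 : ∑ c, (∑ b, (∑ a, kp p s D a b c * bt p s a x) * bt p s b y) * bt p s c z =
      ∑ c, ∑ b, ∑ a, kp p s D a b c * (bt p s a x * bt p s b y * bt p s c z) := by
    refine Finset.sum_congr rfl (fun c _ => ?_)
    rw [Finset.sum_mul]
    refine Finset.sum_congr rfl (fun b _ => ?_)
    rw [Finset.sum_mul, Finset.sum_mul]
    refine Finset.sum_congr rfl (fun a _ => ?_)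
    ring
  rw [h5]
  have h6 : ∀ c : H, ∑ b, ∑ a, kp p s D a b c * (bt p s a x * bt p s b y * bt p s c z) =
      ∑ a, ∑ b, kp p s D a b c * (bt p s a x * bt p s b y * bt p s c z) :=
    fun c => Finset.sum_comm
  simp_rw [h6]
  rw [Finset.sum_comm]
  refine Finset.sum_congr rfl (fun a _ => ?_)
  rw [Finset.sum_comm]

theorem sum_om (p : ℕ) (hp : p ∣ Fintype.card H) (s : H) (hs : s ≠ 1) (b : H) :
    ∑ y, om p s b y = if b = s then 1 else 0 := by
  have hcard : ((Fintype.card H : ℕ) : ZMod p) = 0 := (ZMod.natCast_eq_zero_iff _ _).2 hp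
  unfold om
  by_cases h1 : b = 1
  · subst h1
    simp [hs.symm, hcard]
  · by_cases h2 : b = s
    · subst h2
      simp [h1]
    · simp [h1, h2, Finset.sum_sub_distrib]

omit [Fintype H] in
theorem om_one (p : ℕ) (s x : H) : om p s 1 x = 1 := by simp [om]

theorem kp_a (p : ℕ) (s : H) (D : H → H → H → ZMod p) (h1 : ∀ y z, ∑ x, D x y z = 1) (b c : H) :
    kp p s D 1 b c = (∑ y, om p s b y) * ∑ z, om p s c z := by
  unfold kp
  rw [Finset.sum_comm, Finset.sum_mul_sum]
  refine Finset.sum_congr rfl fun y _ => ?_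
  rw [Finset.sum_comm]
  refine Finset.sum_congr rfl fun z _ => ?_
  simp_rw [om_one, one_mul]
  rw [← Finset.mul_sum, h1, mul_one]

theorem kp_b (p : ℕ) (s : H) (D : H → H → H → ZMod p) (h2 : ∀ x z, ∑ y, D x y z = 1) (a c : H) :
    kp p s D a 1 c = (∑ x, om p s a x) * ∑ z, om p s c z := by
  unfold kp
  rw [Finset.sum_mul_sum]
  refine Finset.sum_congr rfl fun x _ => ?_
  rw [Finset.sum_comm]
  refine Finset.sum_congr rfl fun z _ => ?_
  simp_rw [om_one, mul_one]
  rw [← Finset.mul_sum, h2, mul_one]

theorem kp_c (p : ℕ) (s : H) (D : H → H → H → ZMod p) (h3 : ∀ x y, ∑ z, D x y z = 1) (a b : H) :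
    kp p s D a b 1 = (∑ x, om p s a x) * ∑ y, om p s b y := by
  unfold kp
  rw [Finset.sum_mul_sum]
  refine Finset.sum_congr rfl fun x _ => ?_
  refine Finset.sum_congr rfl fun y _ => ?_
  simp_rw [om_one, mul_one]
  rw [← Finset.mul_sum, h3, mul_one]

/-- The total degree is at most `3`. -/
theorem kp_eq_zero (p : ℕ) (hp : p ∣ Fintype.card H) (s : H) (hs : s ≠ 1)
    (D : H → H → H → ZMod p) (h1 : ∀ y z, ∑ x, D x y z = 1) (h2 : ∀ x z, ∑ y, D x y z = 1)
    (h3 : ∀ x y, ∑ z, D x y z = 1) (a b c : H) (h : 3 < dg s a + dg s b + dg s c) :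
    kp p s D a b c = 0 := by
  have hdg : ∀ g : H, g ≠ 1 → dg s g ≤ 1 := by
    intro g hg
    unfold dg
    rw [if_neg hg]
    split_ifs <;> omega
  have hdgs : dg s s = 0 := by simp [dg, hs]
  have hdg1 : dg s 1 = 3 := by simp [dg]
  by_cases ha : a = 1
  · subst ha
    rw [kp_a p s D h1, sum_om p hp s hs, sum_om p hp s hs]
    by_cases hb : b = s
    · by_cases hc : c = s
      · exfalso
        rw [hb, hc, hdgs, hdg1] at h
        omega
      · rw [if_neg hc, mul_zero]
    · rw [if_neg hb, zero_mul]
  by_cases hb : b = 1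
  · subst hb
    rw [kp_b p s D h2, sum_om p hp s hs, sum_om p hp s hs]
    by_cases ha : a = s
    · by_cases hc : c = s
      · exfalso
        rw [ha, hc, hdgs, hdg1] at h
        omega
      · rw [if_neg hc, mul_zero]
    · rw [if_neg ha, zero_mul]
  by_cases hc : c = 1
  · subst hc
    rw [kp_c p s D h3, sum_om p hp s hs, sum_om p hp s hs]
    by_cases ha : a = s
    · by_cases hb : b = s
      · exfalso
        rw [ha, hb, hdgs, hdg1] at h
        omega
      · rw [if_neg hb, mul_zero]
    · rw [if_neg ha, zero_mul]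
  exfalso
  have := hdg a ha
  have := hdg b hb
  have := hdg c hc
  omega

end

end Pool.Agent.Books.Sym
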