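import Mathlib

set_option autoImplicit false

/-!
# Selecting a tricoloured product-free family from a sparse system of triangles
-/

namespace Pool.Agent.Books.Sym

open Finset

/-- `X' ⊆ X`; every `x ∈ X'` has a triple `(x, y x, (x * y x)⁻¹)` in `X × Y × Z`, every element of
`X`, `Y`, `Z` is in at most `b` triples. Then there is a tricoloured product-free subfamily of size
at least `|X'| / (2 b ^ 2 + 2 b + 1)`. -/
theorem selectM {Γ : Type} [Group Γ] [DecidableEq Γ] (X Y Z X' : Finset Γ) (b : ℕ)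
    (hX' : X' ⊆ X) (y : Γ → Γ) (hy : ∀ x ∈ X', y x ∈ Y ∧ (x * y x)⁻¹ ∈ Z)
    (hX : ∀ x ∈ X, (Y.filter fun v => (x * v)⁻¹ ∈ Z).card ≤ b)
    (hY : ∀ v ∈ Y, (X.filter fun x => (x * v)⁻¹ ∈ Z).card ≤ b)
    (hZ : ∀ z ∈ Z, (X.filter fun x => (z * x)⁻¹ ∈ Y).card ≤ b) :
    ∃ I ⊆ X', (∀ i ∈ I, ∀ j ∈ I, ∀ k ∈ I, i * y j * (k * y k)⁻¹ = 1 → i = j ∧ j = k) ∧
      X'.card ≤ (2 * b ^ 2 + 2 * b + 1) * I.card := by
  classical
  let good : Finset Γ → Prop := fun I =>
    ∀ i ∈ I, ∀ j ∈ I, ∀ k ∈ I, i * y j * (k * y k)⁻¹ = 1 → i = j ∧ j = k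
  obtain ⟨I, hI, hmax⟩ := (X'.powerset.filter good).exists_max_image (fun I => I.card)
    ⟨∅, by
      rw [mem_filter]
      refine ⟨empty_mem_powerset _, ?_⟩
      intro i hi
      simp at hi⟩
  rw [mem_filter, mem_powerset] at hI
  obtain ⟨hIX, hIg⟩ := hI
  refine ⟨I, hIX, hIg, ?_⟩
  -- the four covering sets
  let U1 : Finset Γ := I.biUnion fun j => X.filter fun x => (x * y j)⁻¹ ∈ Z
  let U2 : Finset Γ := I.biUnion fun i => (Y.filter fun v => (i * v)⁻¹ ∈ Z).biUnion
    fun v => X.filter fun x => (x * v)⁻¹ ∈ Z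
  let U3 : Finset Γ := I.biUnion fun i => (Y.filter fun v => (i * v)⁻¹ ∈ Z).biUnion
    fun v => X.filter fun x => ((i * v)⁻¹ * x)⁻¹ ∈ Y
  let U4 : Finset Γ := I.biUnion fun k => X.filter fun x => ((k * y k)⁻¹ * x)⁻¹ ∈ Y
  have hU1 : U1.card ≤ I.card * b := card_biUnion_le_card_mul _ _ _ fun j hj =>
    hY _ (hy j (hIX hj)).1
  have hU2 : U2.card ≤ I.card * (b * b) := card_biUnion_le_card_mul _ _ _ fun i hi => by
    refine le_trans (card_biUnion_le_card_mul _ _ b fun v hv => hY v (mem_filter.mp hv).1) ?_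
    exact Nat.mul_le_mul_right b (hX i (hX' (hIX hi)))
  have hU3 : U3.card ≤ I.card * (b * b) := card_biUnion_le_card_mul _ _ _ fun i hi => by
    refine le_trans (card_biUnion_le_card_mul _ _ b fun v hv => hZ _ (mem_filter.mp hv).2) ?_
    exact Nat.mul_le_mul_right b (hX i (hX' (hIX hi)))
  have hU4 : U4.card ≤ I.card * b := card_biUnion_le_card_mul _ _ _ fun k hk =>
    hZ _ (hy k (hIX hk)).2
  have hcov : X' ⊆ I ∪ (U1 ∪ (U2 ∪ (U3 ∪ U4))) := by
    intro s hs
    by_cases hsI : s ∈ I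
    · exact mem_union_left _ hsI
    apply mem_union_right
    have hsX : s ∈ X := hX' hs
    obtain ⟨hsY, hsZ⟩ := hy s hs
    by_contra hnot
    simp only [mem_union, not_or] at hnot
    obtain ⟨h1, h2, h3, h4⟩ := hnot
    have n1 : ∀ j ∈ I, ¬ ((s * y j)⁻¹ ∈ Z) := by
      intro j hj hh
      exact h1 (mem_biUnion.mpr ⟨j, hj, mem_filter.mpr ⟨hsX, hh⟩⟩)
    have n2 : ∀ i ∈ I, ∀ v ∈ Y, (i * v)⁻¹ ∈ Z → ¬ ((s * v)⁻¹ ∈ Z) := by
      intro i hi v hv hz hh
      exact h2 (mem_biUnion.mpr ⟨i, hi, mem_biUnion.mpr ⟨v, mem_filter.mpr ⟨hv, hz⟩,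
        mem_filter.mpr ⟨hsX, hh⟩⟩⟩)
    have n3 : ∀ i ∈ I, ∀ v ∈ Y, (i * v)⁻¹ ∈ Z → ¬ (((i * v)⁻¹ * s)⁻¹ ∈ Y) := by
      intro i hi v hv hz hh
      exact h3 (mem_biUnion.mpr ⟨i, hi, mem_biUnion.mpr ⟨v, mem_filter.mpr ⟨hv, hz⟩,
        mem_filter.mpr ⟨hsX, hh⟩⟩⟩)
    have n4 : ∀ k ∈ I, ¬ (((k * y k)⁻¹ * s)⁻¹ ∈ Y) := by
      intro k hk hh
      exact h4 (mem_biUnion.mpr ⟨k, hk, mem_filter.mpr ⟨hsX, hh⟩⟩)
    have hg : good (insert s I) := by
      intro i hi j hj k hk hsum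
      -- `i * y j = k * y k`
      have hE : i * y j = k * y k := mul_inv_eq_one.mp hsum
      rw [mem_insert] at hi hj hk
      rcases hi with hie | hi
      · rw [hie] at hE
        rcases hj with hje | hj
        · rw [hje] at hE
          rcases hk with hke | hk
          · exact ⟨hie.trans hje.symm, hje.trans hke.symm⟩
          · -- i = j = s, k ∈ I
            exfalso
            apply n4 k hk
            have h7 : ((k * y k)⁻¹ * s)⁻¹ = y s := by
              rw [← hE]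
              group
            rw [h7]
            exact hsY
        · rcases hk with hke | hk
          · -- i = k = s, j ∈ I
            rw [hke] at hE
            exfalso
            apply n1 j hj
            rw [hE]
            exact hsZ
          · -- i = s, j, k ∈ I
            exfalso
            apply n1 j hj
            rw [hE]
            exact (hy k (hIX hk)).2
      · rcases hj with hje | hj
        · rw [hje] at hE
          rcases hk with hke | hk
          · -- j = k = s : i = s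
            rw [hke] at hE
            exfalso
            apply hsI
            have h7 : i = s := mul_right_cancel hE
            rw [← h7]
            exact hi
          · -- j = s, i, k ∈ I
            exfalso
            refine n2 i hi (y s) hsY ?_ hsZ
            rw [hE]
            exact (hy k (hIX hk)).2
        · rcases hk with hke | hk
          · -- k = s, i, j ∈ I
            rw [hke] at hE
            exfalso
            refine n3 i hi (y j) (hy j (hIX hj)).1 ?_ ?_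
            · rw [hE]
              exact hsZ
            · rw [hE]
              have h8 : ((s * y s)⁻¹ * s)⁻¹ = y s := by group
              rw [h8]
              exact hsY
          · exact hIg i hi j hj k hk hsum
    have h8 := hmax (insert s I) (by
      rw [mem_filter, mem_powerset]
      exact ⟨insert_subset hs hIX, hg⟩)
    rw [card_insert_of_notMem hsI] at h8
    omega
  have h9 := card_le_card hcov
  have h10 := card_union_le I (U1 ∪ (U2 ∪ (U3 ∪ U4)))
  have h11 := card_union_le U1 (U2 ∪ (U3 ∪ U4))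
  have h12 := card_union_le U2 (U3 ∪ U4)
  have h13 := card_union_le U3 U4
  nlinarith

/-- Tricoloured product-free families in `Γ` have at most `3 |Γ| δ` members. -/
def TC (Γ : Type) [Group Γ] [Fintype Γ] (δ : ℝ) : Prop :=
  ∀ (I : Type) [Fintype I] [DecidableEq I] (x y z : I → Γ),
    (∀ i j k, x i * y j * z k = 1 ↔ i = j ∧ j = k) →
    (Fintype.card I : ℝ) ≤ 3 * ((Fintype.card Γ : ℝ) * δ)

/-- The selected family is small. -/
theorem sparse_boundM {Γ : Type} [Group Γ] [Fintype Γ] [DecidableEq Γ] (δ : ℝ) (hδ : 0 ≤ δ)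
    (htc : TC Γ δ)
    (X Y Z X' : Finset Γ) (b : ℕ)
    (hX' : X' ⊆ X) (hy : ∀ x ∈ X', ∃ v ∈ Y, (x * v)⁻¹ ∈ Z)
    (hX : ∀ x ∈ X, (Y.filter fun v => (x * v)⁻¹ ∈ Z).card ≤ b)
    (hY : ∀ v ∈ Y, (X.filter fun x => (x * v)⁻¹ ∈ Z).card ≤ b)
    (hZ : ∀ z ∈ Z, (X.filter fun x => (z * x)⁻¹ ∈ Y).card ≤ b) :
    (X'.card : ℝ) ≤ 15 * (b : ℝ) ^ 2 * ((Fintype.card Γ : ℝ) * δ) := by
  classical
  rcases X'.eq_empty_or_nonempty with hem | hne
  · rw [hem]
    simp only [card_empty, Nat.cast_zero]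
    positivity
  have hb1 : 1 ≤ b := by
    obtain ⟨x, hx⟩ := hne
    obtain ⟨v, hv, hz⟩ := hy x hx
    refine le_trans ?_ (hX x (hX' hx))
    exact card_pos.mpr ⟨v, mem_filter.mpr ⟨hv, hz⟩⟩
  let y : Γ → Γ := fun x => if hx : x ∈ X' then (hy x hx).choose else 1
  have hy' : ∀ x ∈ X', y x ∈ Y ∧ (x * y x)⁻¹ ∈ Z := by
    intro x hx
    have h1 := (hy x hx).choose_spec
    have h2 : y x = (hy x hx).choose := by
      simp only [y]
      rw [dif_pos hx]
    rw [h2]
    exact h1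
  obtain ⟨I, hIX, hIg, hcard⟩ := selectM X Y Z X' b hX' y hy' hX hY hZ
  have h1 := htc I (fun i => (i : Γ)) (fun i => y i)
    (fun i => ((i : Γ) * y i)⁻¹) (by
      intro i j k
      constructor
      · intro h
        obtain ⟨h2, h3⟩ := hIg i i.2 j j.2 k k.2 h
        exact ⟨Subtype.ext h2, Subtype.ext h3⟩
      · rintro ⟨rfl, rfl⟩
        exact mul_inv_cancel _)
  rw [Fintype.card_coe] at h1
  have h4 : (X'.card : ℝ) ≤ (2 * (b : ℝ) ^ 2 + 2 * b + 1) * I.card := by exact_mod_cast hcard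
  have h6 : (1 : ℝ) ≤ b := by exact_mod_cast hb1
  have h7 : (2 * (b : ℝ) ^ 2 + 2 * b + 1) ≤ 5 * (b : ℝ) ^ 2 := by nlinarith
  have h8 : (0 : ℝ) ≤ (I.card : ℝ) := by positivity
  calc (X'.card : ℝ) ≤ (2 * (b : ℝ) ^ 2 + 2 * b + 1) * I.card := h4
    _ ≤ (5 * (b : ℝ) ^ 2) * I.card := mul_le_mul_of_nonneg_right h7 h8
    _ ≤ (5 * (b : ℝ) ^ 2) * (3 * ((Fintype.card Γ : ℝ) * δ)) :=
        mul_le_mul_of_nonneg_left h1 (by positivity)
    _ = 15 * (b : ℝ) ^ 2 * ((Fintype.card Γ : ℝ) * δ) := by ring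

end Pool.Agent.Books.Sym
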