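import Mathlib

set_option autoImplicit false

/-!
# Slice rank of a diagonal tensor
-/

namespace Pool.Agent.Books.Sym

open Finset

/-- A subspace of `K^I` contains a vector whose support is at least its dimension. -/
theorem exists_support {K I : Type*} [Field K] [Finite K] [Fintype I] [DecidableEq K]
    (W : Submodule K (I → K)) :
    ∃ v ∈ W, Module.finrank K W ≤ (univ.filter fun i => v i ≠ 0).card := by
  classical
  obtain ⟨v, hv⟩ := Finite.exists_max (fun v : W => (univ.filter fun i => (v : I → K) i ≠ 0).card)
  refine ⟨v, v.2, ?_⟩
  by_contra hlt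
  push Not at hlt
  set S := univ.filter fun i => (v : I → K) i ≠ 0 with hS
  let r : W →ₗ[K] (S → K) :=
    { toFun := fun w s => (w : I → K) s
      map_add' := fun _ _ => rfl
      map_smul' := fun _ _ => rfl }
  have hker : LinearMap.ker r ≠ ⊥ := by
    apply LinearMap.ker_ne_bot_of_finrank_lt
    rw [Module.finrank_fintype_fun_eq_card, Fintype.card_coe]
    exact hlt
  obtain ⟨w, hw, hw0⟩ := Submodule.exists_mem_ne_zero_of_ne_bot hker
  have hwS : ∀ i ∈ S, (w : I → K) i = 0 := by
    intro i hi
    have := congrFun (LinearMap.mem_ker.mp hw) ⟨i, hi⟩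
    simpa [r] using this
  have hne : ∃ i, (w : I → K) i ≠ 0 := by
    by_contra h
    push Not at h
    apply hw0
    ext i
    simpa using h i
  obtain ⟨i, hi⟩ := hne
  have hiS : i ∉ S := fun h => hi (hwS i h)
  have h1 := hv (v + w)
  have hsub : insert i S ⊆ univ.filter fun j => ((v + w : W) : I → K) j ≠ 0 := by
    intro j hj
    rw [mem_insert] at hj
    rw [mem_filter]
    refine ⟨mem_univ _, ?_⟩
    rcases hj with rfl | hj
    · have : (v : I → K) j = 0 := by
        by_contra h
        exact hiS (by rw [hS, mem_filter]; exact ⟨mem_univ _, h⟩)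
      simp [this, hi]
    · have h2 := hwS j hj
      rw [hS, mem_filter] at hj
      simp [h2, hj.2]
  have h2 := card_le_card hsub
  rw [card_insert_of_notMem hiS] at h2
  have h3 : (univ.filter fun j => ((v + w : W) : I → K) j ≠ 0).card ≤ S.card := h1
  omega

/-- Slice rank of the diagonal tensor. -/
theorem slice {K I A B C : Type*} [Field K] [Finite K] [Fintype I] [DecidableEq I]
    (LA : Finset A) (LB : Finset B) (LC : Finset C)
    (a : A → I → K) (f : A → I → I → K) (b : B → I → K) (g : B → I → I → K)
    (c : C → I → K) (h : C → I → I → K)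
    (hd : ∀ i j k, (if i = j ∧ j = k then (1 : K) else 0) =
      (∑ x ∈ LA, a x i * f x j k) + (∑ x ∈ LB, b x j * g x i k) + ∑ x ∈ LC, c x k * h x i j) :
    Fintype.card I ≤ LA.card + LB.card + LC.card := by
  classical
  -- vectors orthogonal to the `a x`
  let r : (I → K) →ₗ[K] (LA → K) :=
    { toFun := fun v x => ∑ i, a x i * v i
      map_add' := by
        intro v w
        ext x
        simp [mul_add, sum_add_distrib]
      map_smul' := by
        intro t v
        ext x
        simp only [Pi.smul_apply, smul_eq_mul, RingHom.id_apply, mul_sum]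
        exact sum_congr rfl fun i _ => by ring }
  obtain ⟨v, hvW, hvc⟩ := exists_support (LinearMap.ker r)
  have hdim : Fintype.card I ≤ LA.card + Module.finrank K (LinearMap.ker r) := by
    have h1 := LinearMap.finrank_range_add_finrank_ker r
    have h2 : Module.finrank K (LinearMap.range r) ≤ LA.card := by
      have := Submodule.finrank_le (LinearMap.range r)
      rwa [Module.finrank_fintype_fun_eq_card, Fintype.card_coe] at this
    rw [Module.finrank_fintype_fun_eq_card] at h1
    omega
  have hv : ∀ x ∈ LA, ∑ i, a x i * v i = 0 := by
    intro x hx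
    have := congrFun (LinearMap.mem_ker.mp hvW) ⟨x, hx⟩
    simpa [r] using this
  set S := univ.filter fun i => v i ≠ 0 with hS
  -- the contracted tensor
  have hcon : ∀ j k, (if j = k then v j else 0) =
      (∑ x ∈ LB, b x j * ∑ i, v i * g x i k) + ∑ x ∈ LC, c x k * ∑ i, v i * h x i j := by
    intro j k
    have h1 : ∑ i, v i * (if i = j ∧ j = k then (1 : K) else 0) = if j = k then v j else 0 := by
      by_cases hjk : j = k
      · simp [hjk]
      · simp [hjk]
    rw [← h1]
    have h2 : ∀ i, v i * (if i = j ∧ j = k then (1 : K) else 0) =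
        (∑ x ∈ LA, (a x i * v i) * f x j k) + (∑ x ∈ LB, b x j * (v i * g x i k)) +
          ∑ x ∈ LC, c x k * (v i * h x i j) := by
      intro i
      rw [hd i j k, mul_add, mul_add, mul_sum, mul_sum, mul_sum]
      congr 1
      · congr 1
        · exact sum_congr rfl fun x _ => by ring
        · exact sum_congr rfl fun x _ => by ring
      · exact sum_congr rfl fun x _ => by ring
    rw [sum_congr rfl fun i _ => h2 i, sum_add_distrib, sum_add_distrib]
    have h3 : ∑ i, ∑ x ∈ LA, (a x i * v i) * f x j k = 0 := by
      rw [sum_comm]
      apply sum_eq_zero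
      intro x hx
      rw [← sum_mul, hv x hx, zero_mul]
    rw [h3, zero_add]
    congr 1
    · rw [sum_comm]
      exact sum_congr rfl fun x _ => by rw [mul_sum]
    · rw [sum_comm]
      exact sum_congr rfl fun x _ => by rw [mul_sum]
  -- vectors supported on `S`
  let q : (S → K) →ₗ[K] (LB → K) :=
    { toFun := fun u x => ∑ j : S, b x j * u j
      map_add' := by
        intro v w
        ext x
        simp [mul_add, sum_add_distrib]
      map_smul' := by
        intro t v
        ext x
        simp only [Pi.smul_apply, smul_eq_mul, RingHom.id_apply, mul_sum]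
        exact sum_congr rfl fun i _ => by ring }
  let s : (S → K) →ₗ[K] (LC → K) :=
    { toFun := fun u x => ∑ j : S, (∑ i, v i * h x i j) * u j
      map_add' := by
        intro v w
        ext x
        simp [mul_add, sum_add_distrib]
      map_smul' := by
        intro t v
        ext x
        simp only [Pi.smul_apply, smul_eq_mul, RingHom.id_apply, mul_sum]
        exact sum_congr rfl fun i _ => by ring }
  have hinj : ∀ u : S → K, q u = 0 → s u = 0 → u = 0 := by
    intro u hq hs
    ext k
    have h1 : ∑ j : S, (if (j : I) = k then v j else 0) * u j = v k * u k := by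
      rw [sum_eq_single k]
      · simp
      · intro j _ hjk
        rw [if_neg, zero_mul]
        exact fun hh => hjk (Subtype.ext hh)
      · intro hk
        exact absurd (mem_univ _) hk
    have h2 : ∑ j : S, (if (j : I) = k then v j else 0) * u j = 0 := by
      have h3 : ∀ j : S, (if (j : I) = k then v j else 0) * u j =
          (∑ x ∈ LB, (b x j * u j) * ∑ i, v i * g x i k) +
            ∑ x ∈ LC, c x k * ((∑ i, v i * h x i j) * u j) := by
        intro j
        rw [hcon j k, add_mul, sum_mul, sum_mul]
        congr 1
        · exact sum_congr rfl fun x _ => by ring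
        · exact sum_congr rfl fun x _ => by ring
      rw [sum_congr rfl fun j _ => h3 j, sum_add_distrib]
      have h4 : ∑ j : S, ∑ x ∈ LB, (b x j * u j) * ∑ i, v i * g x i k = 0 := by
        rw [sum_comm]
        apply sum_eq_zero
        intro x hx
        have := congrFun hq ⟨x, hx⟩
        have h5 : ∑ j : S, b x j * u j = 0 := by simpa [q] using this
        rw [← sum_mul, h5, zero_mul]
      have h6 : ∑ j : S, ∑ x ∈ LC, c x k * ((∑ i, v i * h x i j) * u j) = 0 := by
        rw [sum_comm]
        apply sum_eq_zero
        intro x hx
        have := congrFun hs ⟨x, hx⟩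
        have h5 : ∑ j : S, (∑ i, v i * h x i j) * u j = 0 := by simpa [s] using this
        rw [← mul_sum, h5, mul_zero]
      rw [h4, h6, zero_add]
    rw [h1] at h2
    have hk : v k ≠ 0 := (mem_filter.mp k.2).2
    rcases mul_eq_zero.mp h2 with h | h
    · exact absurd h hk
    · simpa using h
  have hScard : S.card ≤ LB.card + LC.card := by
    have h1 : Function.Injective (q.prod s) := by
      rw [← LinearMap.ker_eq_bot, LinearMap.ker_eq_bot']
      intro u hu
      have h2 := congrArg Prod.fst hu
      have h3 := congrArg Prod.snd hu
      exact hinj u h2 h3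
    have h2 := LinearMap.finrank_le_finrank_of_injective h1
    rw [Module.finrank_prod, Module.finrank_fintype_fun_eq_card,
      Module.finrank_fintype_fun_eq_card, Module.finrank_fintype_fun_eq_card, Fintype.card_coe,
      Fintype.card_coe, Fintype.card_coe] at h2
    exact h2
  omega

end Pool.Agent.Books.Sym
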