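import Pool.Agent.Books.Sym.AugNil
import Pool.Agent.Books.Sym.AugCoef
import Pool.Agent.Books.Sym.TricolouredAbs
import Pool.Agent.Books.Sym.Count

set_option autoImplicit false

/-!
# Tricoloured product-free families in a finite group with a normal subgroup which is a central
extension of an elementary abelian group
-/

namespace Pool.Agent.Books.Sym

open Finset

theorem card_low_le' (m n T : ℕ) (hm : 1 ≤ m) :
    (((univ : Finset (Fin n → Fin (m + 1))).filter fun α => 3 * ∑ t, (α t : ℕ) ≤ m * n + T).card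
      : ℝ) ≤ ((m : ℝ) + 1) ^ n * Real.exp (-(n : ℝ) / 18 + 2 * T / (9 * m)) := by
  have hm0 : (0 : ℝ) < m := by exact_mod_cast hm
  set l : ℝ := 2 / (3 * m) with hl
  have hlpos : 0 < l := by positivity
  set low' := (univ : Finset (Fin n → Fin (m + 1))).filter fun α => 3 * ∑ t, (α t : ℕ) ≤ m * n + T
    with hlow
  have h1 : ((low').card : ℝ) ≤ Real.exp (l * T / 3) *
      ∑ α : Fin n → Fin (m + 1), ∏ t, Real.exp (l * ((m : ℝ) / 3 - ((α t : Fin (m + 1)) : ℕ))) := by
    have h2 : ((low').card : ℝ) = ∑ α ∈ low', (1 : ℝ) := by simp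
    rw [h2, mul_sum]
    refine le_trans (sum_le_sum (f := fun _ => (1 : ℝ))
      (g := fun α : Fin n → Fin (m + 1) => Real.exp (l * T / 3) *
        ∏ t, Real.exp (l * ((m : ℝ) / 3 - ((α t : Fin (m + 1)) : ℕ)))) ?_)
      (sum_le_sum_of_subset_of_nonneg (subset_univ _) fun α _ _ =>
        mul_nonneg (Real.exp_pos _).le (prod_nonneg fun t _ => (Real.exp_pos _).le))
    intro α hα
    rw [hlow, mem_filter] at hα
    have h3 : (3 : ℝ) * ∑ t, ((α t : ℕ) : ℝ) ≤ m * n + T := by exact_mod_cast hα.2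
    rw [← Real.exp_sum, ← Real.exp_add]
    apply Real.one_le_exp
    rw [← mul_sum, sum_sub_distrib, sum_const, card_univ, Fintype.card_fin, nsmul_eq_mul]
    have h4 : l * T / 3 + l * (n * ((m : ℝ) / 3) - ∑ t, ((α t : ℕ) : ℝ)) =
        l * (T / 3 + (n * ((m : ℝ) / 3) - ∑ t, ((α t : ℕ) : ℝ))) := by ring
    rw [h4]
    apply mul_nonneg hlpos.le
    linarith
  have h2 : ∑ α : Fin n → Fin (m + 1), ∏ t, Real.exp (l * ((m : ℝ) / 3 - ((α t : Fin (m + 1)) : ℕ))) =
      (∑ a : Fin (m + 1), Real.exp (l * ((m : ℝ) / 3 - (a : ℕ)))) ^ n := by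
    have h3 := Finset.prod_univ_sum (fun _ : Fin n => (univ : Finset (Fin (m + 1))))
      (fun _ a => Real.exp (l * ((m : ℝ) / 3 - ((a : Fin (m + 1)) : ℕ))))
    rw [prod_const, card_univ, Fintype.card_fin] at h3
    rw [h3, Fintype.piFinset_univ]
  rw [h2] at h1
  refine le_trans h1 ?_
  have h3 : ∑ a : Fin (m + 1), Real.exp (l * ((m : ℝ) / 3 - (a : ℕ))) ≤
      (m + 1) * Real.exp (-1 / 18) := by
    have h4 : ∑ a : Fin (m + 1), Real.exp (l * ((m : ℝ) / 3 - (a : ℕ))) =
        Real.exp (-(1 / 9)) * ∑ a : Fin (m + 1), Real.exp (l * ((m : ℝ) / 2 - (a : ℕ))) := by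
      rw [mul_sum]
      apply sum_congr rfl
      intro a _
      rw [← Real.exp_add]
      congr 1
      rw [hl]
      field_simp
      ring
    rw [h4]
    refine le_trans (mul_le_mul_of_nonneg_left (sum_exp_le m l) (Real.exp_pos _).le) ?_
    have h5 : (l * m / 2) ^ 2 / 2 = 1 / 18 := by
      rw [hl]
      field_simp
      norm_num
    rw [h5]
    have h6 : Real.exp (-(1 / 9)) * ((m + 1) * Real.exp (1 / 18)) =
        (m + 1) * (Real.exp (-(1 / 9)) * Real.exp (1 / 18)) := by ring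
    rw [h6, ← Real.exp_add]
    norm_num
  have h7 : (0 : ℝ) ≤ ∑ a : Fin (m + 1), Real.exp (l * ((m : ℝ) / 3 - (a : ℕ))) :=
    sum_nonneg fun a _ => (Real.exp_pos _).le
  refine le_trans (mul_le_mul_of_nonneg_left (pow_le_pow_left₀ h7 h3 n) (Real.exp_pos _).le) ?_
  rw [mul_pow, ← Real.exp_nat_mul]
  apply le_of_eq
  have h8 : Real.exp (l * T / 3) * (((m : ℝ) + 1) ^ n * Real.exp (n * (-1 / 18))) =
      ((m : ℝ) + 1) ^ n * (Real.exp (n * (-1 / 18)) * Real.exp (l * T / 3)) := by ring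
  rw [h8, ← Real.exp_add]
  congr 2
  rw [hl]
  field_simp
  ring

theorem tricolouredP {Γ : Type} [Group Γ] [Fintype Γ] (N : Subgroup Γ) [N.Normal] (p r k s : ℕ)
    [hp : Fact p.Prime] (hr : 1 ≤ r) (hk : 1 ≤ k) (hs : 1 ≤ s)
    (ψ : N →* Multiplicative (Fin k → ZMod p)) (hψ : Function.Surjective ψ)
    (hker : ∀ x : N, ψ x = 1 → ∀ y : N, x * y = y * x)
    (b : Fin s → N) (hb : ∀ j, ψ (b j) = 1) (hB : ψ.ker ≤ Subgroup.closure (Set.range b))
    (hbq : ∀ j, b j ^ (p ^ r) = 1) {I : Type} [Fintype I] [DecidableEq I] (x y z : I → Γ)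
    (h : ∀ i j k, x i * y j * z k = 1 ↔ i = j ∧ j = k) :
    (Fintype.card I : ℝ) ≤ 3 * ((Fintype.card Γ : ℝ) *
      Real.exp (-(k : ℝ) / 18 + 4 / 9 * ((s * (p ^ r - 1) : ℕ) : ℝ))) := by
  classical
  have hp2 := hp.out.two_le
  obtain ⟨g, hg⟩ : ∃ g : Fin k → N, ∀ i, ψ (g i) = Multiplicative.ofAdd (Pi.single i 1) := by
    choose g hg using fun i : Fin k => hψ (Multiplicative.ofAdd (Pi.single i 1))
    exact ⟨g, hg⟩
  let c : N → Fin k → ℕ := fun u i => (Multiplicative.toAdd (ψ u) i).val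
  have hc : ∀ u i, c u i < p := fun u i => ZMod.val_lt _
  have hψc : ∀ u, ψ (List.ofFn fun i => g i ^ c u i).prod = ψ u := by
    intro u
    rw [map_list_prod, List.map_ofFn, List.prod_ofFn]
    apply Multiplicative.toAdd.injective
    rw [toAdd_prod]
    funext j
    rw [Finset.sum_apply, sum_eq_single j]
    · rw [Function.comp_apply, map_pow, hg, toAdd_pow, toAdd_ofAdd, Pi.smul_apply,
        Pi.single_eq_same, nsmul_eq_mul, mul_one]
      exact ZMod.natCast_zmod_val _
    · intro i _ hi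
      rw [Function.comp_apply, map_pow, hg, toAdd_pow, toAdd_ofAdd, Pi.smul_apply,
        Pi.single_eq_of_ne (fun h => hi h.symm), smul_zero]
    · intro h
      exact absurd (mem_univ _) h
  have hβ : ∀ u, (List.ofFn fun i => g i ^ c u i).prod⁻¹ * u ∈ ψ.ker := by
    intro u
    rw [MonoidHom.mem_ker, map_mul, map_inv, hψc, inv_mul_cancel]
  have hgen : ∀ u : N, u ∈ Subgroup.closure (Set.range g ∪ (ψ.ker : Set N)) := by
    intro u
    have h1 : u = (List.ofFn fun i => g i ^ c u i).prod *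
        ((List.ofFn fun i => g i ^ c u i).prod⁻¹ * u) := by group
    rw [h1]
    apply Subgroup.mul_mem
    · apply Subgroup.list_prod_mem
      intro a ha
      rw [List.mem_ofFn] at ha
      obtain ⟨i, rfl⟩ := ha
      show g i ^ c u i ∈ Subgroup.closure (Set.range g ∪ (ψ.ker : Set N))
      exact Subgroup.pow_mem _ (Subgroup.subset_closure (Set.mem_union_left _ (Set.mem_range_self i))) _
    · exact Subgroup.subset_closure (Set.mem_union_right _ (hβ u))
  have hnil := aug_nilpotent p r hr ψ.ker (fun b hb x => hker b hb x) hk hs g hgen b hb hB hbq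
    (by
      intro x y
      rw [MonoidHom.mem_ker]
      simp only [map_mul, map_inv]
      rw [mul_comm (ψ x) (ψ y), mul_inv_cancel_right, mul_inv_cancel])
    (by
      intro x
      rw [MonoidHom.mem_ker, map_pow]
      apply Multiplicative.toAdd.injective
      rw [toAdd_pow]
      funext i
      rw [Pi.smul_apply, nsmul_eq_mul, ZMod.natCast_self, zero_mul]
      rfl)
  set L : ℕ := s * (p ^ r - 1) with hL
  let D : ℕ := k * (p - 1) + p * L
  have hD : (⊤ * aug (ZMod p) (⊤ : Subgroup N) ^ (D + 1) :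
      Submodule (ZMod p) (MonoidAlgebra (ZMod p) N)) = ⊥ := by
    have h1 : D + 1 = k * (p - 1) + 1 + p * L := by
      simp only [D]
      omega
    rw [h1]
    exact hnil
  have hspan : ∀ u : N, ∃ cf : (Fin k → Fin p) × ψ.ker → ZMod p,
      ∑ α, cf α • eb (ZMod p) (p := p) g ψ.ker α = MonoidAlgebra.of (ZMod p) N u := by
    intro u
    have h1 := of_mem_span (ZMod p) (p := p) g ψ.ker (c u) (hc u) ⟨_, hβ u⟩
    rw [mul_inv_cancel_left] at h1
    exact (Submodule.mem_span_range_iff_exists_fun (ZMod p)).mp h1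
  choose cf hcf using hspan
  have hT := tricolouredAbs N (F := ZMod p) (S := (Fin k → Fin p) × ψ.ker)
    (fun α => ∑ i, (α.1 i : ℕ)) D (fun α u => cf u α)
    (fun r1 r2 r3 => coefP (ZMod p) N (fun α : (Fin k → Fin p) × ψ.ker => ∑ i, (α.1 i : ℕ)) D
      (eb (ZMod p) (p := p) g ψ.ker) (fun α u => cf u α) (eb_mem (ZMod p) g ψ.ker)
      (fun u => (hcf u).symm) hD r1 r2 r3) x y z h
  obtain ⟨m, rfl⟩ : ∃ m, p = m + 1 := ⟨p - 1, by omega⟩
  have hm1 : 1 ≤ m := by omega
  have hcount : ((univ : Finset ((Fin k → Fin (m + 1)) × ψ.ker)).filter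
      fun α => 3 * ∑ i, (α.1 i : ℕ) ≤ D).card =
      ((univ : Finset (Fin k → Fin (m + 1))).filter
        fun α => 3 * ∑ t, (α t : ℕ) ≤ m * k + (m + 1) * L).card * Nat.card ψ.ker := by
    have h1 : ((univ : Finset ((Fin k → Fin (m + 1)) × ψ.ker)).filter
        fun α => 3 * ∑ i, (α.1 i : ℕ) ≤ D) =
        ((univ : Finset (Fin k → Fin (m + 1))).filter
          fun α => 3 * ∑ t, (α t : ℕ) ≤ m * k + (m + 1) * L) ×ˢ (univ : Finset ψ.ker) := by
      ext α
      simp only [mem_filter, mem_univ, true_and, mem_product, and_true, D]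
      rw [Nat.add_sub_cancel, mul_comm k m]
    rw [h1, card_product, card_univ, Nat.card_eq_fintype_card]
  rw [hcount] at hT
  have hcard : Nat.card N = Nat.card ψ.ker * (m + 1) ^ k := by
    have h1 := Subgroup.card_eq_card_quotient_mul_card_subgroup ψ.ker
    have h2 : Nat.card (N ⧸ ψ.ker) = (m + 1) ^ k := by
      rw [Nat.card_congr (QuotientGroup.quotientKerEquivOfSurjective ψ hψ).toEquiv,
        Nat.card_eq_fintype_card, Fintype.card_multiplicative, Fintype.card_pi, prod_const,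
        ZMod.card, card_univ, Fintype.card_fin]
    rw [h1, h2, mul_comm]
  have hcardΓ : (Fintype.card Γ : ℝ) = Nat.card (Γ ⧸ N) * (Nat.card ψ.ker * ((m : ℝ) + 1) ^ k) := by
    have h1 := Subgroup.card_eq_card_quotient_mul_card_subgroup N
    rw [← Nat.card_eq_fintype_card, h1, hcard]
    push_cast
    ring
  have hlow := card_low_le' m k ((m + 1) * L) hm1
  have hT2 : (Fintype.card I : ℝ) ≤ 3 * ((((univ : Finset (Fin k → Fin (m + 1))).filter
        fun α => 3 * ∑ t, (α t : ℕ) ≤ m * k + (m + 1) * L).card : ℝ) * Nat.card ψ.ker *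
          Nat.card (Γ ⧸ N)) := by
    exact_mod_cast hT
  have hexp : Real.exp (-(k : ℝ) / 18 + 2 * (((m + 1) * L : ℕ) : ℝ) / (9 * m)) ≤
      Real.exp (-(k : ℝ) / 18 + 4 / 9 * (L : ℝ)) := by
    apply Real.exp_le_exp.mpr
    have hm0 : (1 : ℝ) ≤ m := by exact_mod_cast hm1
    have hL0 : (0 : ℝ) ≤ L := Nat.cast_nonneg L
    have h1 : 2 * (((m + 1) * L : ℕ) : ℝ) / (9 * m) ≤ 4 / 9 * (L : ℝ) := by
      rw [div_le_iff₀ (by positivity)]
      push_cast
      nlinarith
    linarith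
  have h1 := le_trans hlow (mul_le_mul_of_nonneg_left hexp (by positivity))
  have h2 : (0 : ℝ) ≤ (Nat.card ψ.ker : ℝ) * Nat.card (Γ ⧸ N) := by positivity
  have h3 := mul_le_mul_of_nonneg_right h1 h2
  rw [hcardΓ]
  linarith

end Pool.Agent.Books.Sym
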