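import Pool.Agent.Books.Sym.ZSer

set_option autoImplicit false

/-!
# Commutators of the layers
-/

namespace Pool.Agent.Books.Sym

section Bracket

variable (p : ℕ) (P : Type) [Group P] [Fact p.Prime]

private theorem br_JJ : aug (ZMod p) (⊤ : Subgroup P) * aug (ZMod p) (⊤ : Subgroup P) ≤
    aug (ZMod p) (⊤ : Subgroup P) := by
  rw [Submodule.mul_le]
  intro a ha b hb
  have h1 : aug (ZMod p) (⊤ : Subgroup P) ≤
      (aug (ZMod p) (⊤ : Subgroup P)).comap (LinearMap.mulRight (ZMod p) b) := by
    apply aug_le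
    intro g _
    rw [Submodule.mem_comap, LinearMap.mulRight_apply]
    have h2 : aug (ZMod p) (⊤ : Subgroup P) ≤ (aug (ZMod p) (⊤ : Subgroup P)).comap
        (LinearMap.mulLeft (ZMod p) (MonoidAlgebra.of (ZMod p) P g - 1)) := by
      apply aug_le
      intro h _
      rw [Submodule.mem_comap, LinearMap.mulLeft_apply]
      have h3 : (MonoidAlgebra.of (ZMod p) P g - 1) * (MonoidAlgebra.of (ZMod p) P h - 1) =
          (MonoidAlgebra.of (ZMod p) P (g * h) - 1) - (MonoidAlgebra.of (ZMod p) P g - 1) -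
            (MonoidAlgebra.of (ZMod p) P h - 1) := by
        rw [map_mul]
        noncomm_ring
      rw [h3]
      exact Submodule.sub_mem _ (Submodule.sub_mem _ (of_sub_mem _ _ (Subgroup.mem_top _))
        (of_sub_mem _ _ (Subgroup.mem_top _))) (of_sub_mem _ _ (Subgroup.mem_top _))
    have h4 := h2 hb
    rwa [Submodule.mem_comap, LinearMap.mulLeft_apply] at h4
  have h5 := h1 ha
  rwa [Submodule.mem_comap, LinearMap.mulRight_apply] at h5

private theorem br_succ (n : ℕ) (hn : 1 ≤ n) : aug (ZMod p) (⊤ : Subgroup P) ^ (n + 1) ≤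
    aug (ZMod p) (⊤ : Subgroup P) ^ n := by
  obtain ⟨m, rfl⟩ := Nat.exists_eq_add_of_le' hn
  rw [pow_succ, pow_succ, mul_assoc]
  exact mul_le_mul' le_rfl (br_JJ p P)

private theorem br_anti (m n : ℕ) (hm : 1 ≤ m) (hmn : m ≤ n) :
    aug (ZMod p) (⊤ : Subgroup P) ^ n ≤ aug (ZMod p) (⊤ : Subgroup P) ^ m := by
  induction n, hmn using Nat.le_induction with
  | base => exact le_rfl
  | succ n hmn ih => exact (br_succ p P n (hm.trans hmn)).trans ih

private theorem br_mul {a b : MonoidAlgebra (ZMod p) P} {m n : ℕ}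
    (ha : a ∈ aug (ZMod p) (⊤ : Subgroup P) ^ m) (hb : b ∈ aug (ZMod p) (⊤ : Subgroup P) ^ n) :
    a * b ∈ aug (ZMod p) (⊤ : Subgroup P) ^ (m + n) := by
  rw [pow_add]
  exact Submodule.mul_mem_mul ha hb

private theorem br_com {a b : MonoidAlgebra (ZMod p) P} {m n : ℕ}
    (ha : a ∈ aug (ZMod p) (⊤ : Subgroup P) ^ m) (hb : b ∈ aug (ZMod p) (⊤ : Subgroup P) ^ n) :
    a * b - b * a ∈ aug (ZMod p) (⊤ : Subgroup P) ^ (m + n) := by
  apply Submodule.sub_mem _ (br_mul p P ha hb)
  rw [add_comm]
  exact br_mul p P hb ha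

private theorem br_lay_ge (n : ℕ) : aug (ZMod p) (⊤ : Subgroup P) ^ (n + 1) ≤ lay p P n :=
  le_sup_right

private theorem br_lay_mem (n : ℕ) {z : P} (hz : z ∈ zser p P n) :
    MonoidAlgebra.of (ZMod p) P z - 1 ∈ lay p P n :=
  Submodule.mem_sup_left (Submodule.subset_span ⟨z, hz, rfl⟩)

variable (h2 : ∀ n : ℕ, 1 ≤ n → ∀ z ∈ zser p P n,
  MonoidAlgebra.of (ZMod p) P z - 1 ∈ aug (ZMod p) (⊤ : Subgroup P) ^ n)

include h2

private theorem br_lay_le (n : ℕ) (hn : 1 ≤ n) : lay p P n ≤ aug (ZMod p) (⊤ : Subgroup P) ^ n := by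
  unfold lay
  apply sup_le _ (br_succ p P n hn)
  rw [Submodule.span_le]
  rintro _ ⟨z, hz, rfl⟩
  exact h2 n hn z hz

private theorem br_lay_mulr (n : ℕ) (hn : 1 ≤ n) {u : MonoidAlgebra (ZMod p) P}
    (hu : u ∈ lay p P n) (g : P) : u * MonoidAlgebra.of (ZMod p) P g ∈ lay p P n := by
  have e : u * MonoidAlgebra.of (ZMod p) P g = u + u * (MonoidAlgebra.of (ZMod p) P g - 1) := by
    noncomm_ring
  rw [e]
  apply Submodule.add_mem _ hu
  apply br_lay_ge p P n
  rw [pow_succ]
  exact Submodule.mul_mem_mul (br_lay_le p P h2 n hn hu) (of_sub_mem _ _ (Subgroup.mem_top _))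

private theorem br_lay_mull (n : ℕ) (hn : 1 ≤ n) {u : MonoidAlgebra (ZMod p) P}
    (hu : u ∈ lay p P n) (g : P) : MonoidAlgebra.of (ZMod p) P g * u ∈ lay p P n := by
  have e : MonoidAlgebra.of (ZMod p) P g * u = u + (MonoidAlgebra.of (ZMod p) P g - 1) * u := by
    noncomm_ring
  rw [e]
  apply Submodule.add_mem _ hu
  apply br_lay_ge p P n
  rw [pow_succ']
  exact Submodule.mul_mem_mul (of_sub_mem _ _ (Subgroup.mem_top _)) (br_lay_le p P h2 n hn hu)

omit h2 in
/-- extension of a commutator rule to a layer -/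
private theorem br_D (Y : MonoidAlgebra (ZMod p) P) (m j : ℕ)
    (hYJ : Y ∈ aug (ZMod p) (⊤ : Subgroup P) ^ j)
    (hY : ∀ z ∈ zser p P m, (MonoidAlgebra.of (ZMod p) P z - 1) * Y -
      Y * (MonoidAlgebra.of (ZMod p) P z - 1) ∈ lay p P (m + j))
    {a : MonoidAlgebra (ZMod p) P} (ha : a ∈ lay p P m) : a * Y - Y * a ∈ lay p P (m + j) := by
  have h1 : lay p P m ≤ (lay p P (m + j)).comap
      (LinearMap.mulRight (ZMod p) Y - LinearMap.mulLeft (ZMod p) Y) := by
    have h3 : Submodule.span (ZMod p) {y | ∃ z ∈ zser p P m,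
        y = MonoidAlgebra.of (ZMod p) P z - 1} ⊔ aug (ZMod p) (⊤ : Subgroup P) ^ (m + 1) ≤
        (lay p P (m + j)).comap
          (LinearMap.mulRight (ZMod p) Y - LinearMap.mulLeft (ZMod p) Y) := by
      apply sup_le
      · rw [Submodule.span_le]
        rintro _ ⟨z, hz, rfl⟩
        rw [SetLike.mem_coe, Submodule.mem_comap, LinearMap.sub_apply, LinearMap.mulRight_apply,
          LinearMap.mulLeft_apply]
        exact hY z hz
      · intro b hb
        rw [Submodule.mem_comap, LinearMap.sub_apply, LinearMap.mulRight_apply,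
          LinearMap.mulLeft_apply]
        apply br_lay_ge p P (m + j)
        have h4 := br_com p P hb hYJ
        have e : m + 1 + j = m + j + 1 := by omega
        rwa [e] at h4
    exact h3
  have h5 := h1 ha
  rwa [Submodule.mem_comap, LinearMap.sub_apply, LinearMap.mulRight_apply,
    LinearMap.mulLeft_apply] at h5

variable (h1 : IsSeries p (zser p P))

include h1

private theorem br_one (i : ℕ) (hi : 1 ≤ i) {x : P} (hx : x ∈ zser p P i) (g : P) :
    (MonoidAlgebra.of (ZMod p) P x - 1) * (MonoidAlgebra.of (ZMod p) P g - 1) -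
      (MonoidAlgebra.of (ZMod p) P g - 1) * (MonoidAlgebra.of (ZMod p) P x - 1) ∈
        lay p P (i + 1) := by
  have hc := h1.comm i hi x hx g
  have e : (MonoidAlgebra.of (ZMod p) P x - 1) * (MonoidAlgebra.of (ZMod p) P g - 1) -
      (MonoidAlgebra.of (ZMod p) P g - 1) * (MonoidAlgebra.of (ZMod p) P x - 1) =
      (MonoidAlgebra.of (ZMod p) P (x * g * x⁻¹ * g⁻¹) - 1) *
        MonoidAlgebra.of (ZMod p) P (g * x) := by
    have e1 : MonoidAlgebra.of (ZMod p) P (x * g * x⁻¹ * g⁻¹) *
        MonoidAlgebra.of (ZMod p) P (g * x) = MonoidAlgebra.of (ZMod p) P x *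
          MonoidAlgebra.of (ZMod p) P g := by
      rw [← map_mul, ← map_mul]
      congr 1
      group
    have e2 : (MonoidAlgebra.of (ZMod p) P (x * g * x⁻¹ * g⁻¹) - 1) *
        MonoidAlgebra.of (ZMod p) P (g * x) = MonoidAlgebra.of (ZMod p) P x *
          MonoidAlgebra.of (ZMod p) P g - MonoidAlgebra.of (ZMod p) P g *
          MonoidAlgebra.of (ZMod p) P x := by
      rw [sub_mul, one_mul, e1, map_mul (MonoidAlgebra.of (ZMod p) P) g x]
    rw [e2]
    noncomm_ring
  rw [e]
  exact br_lay_mulr p P h2 (i + 1) (by omega) (br_lay_mem p P (i + 1) hc) (g * x)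

theorem zser_bracket_aux (i j : ℕ) (hi : 1 ≤ i) (hj : 1 ≤ j) (x y : P) (hx : x ∈ zser p P i)
    (hy : y ∈ zser p P j) :
    (MonoidAlgebra.of (ZMod p) P x - 1) * (MonoidAlgebra.of (ZMod p) P y - 1) -
      (MonoidAlgebra.of (ZMod p) P y - 1) * (MonoidAlgebra.of (ZMod p) P x - 1) ∈
        lay p P (i + j) := by
  have hex : ∀ n : ℕ, ∃ S : Subgroup P, (n = 0 → S = ⊤) ∧ (1 ≤ n → ∀ y, y ∈ S ↔
      (y ∈ zser p P n ∧ ∀ i, 1 ≤ i → ∀ x ∈ zser p P i,
        (MonoidAlgebra.of (ZMod p) P x - 1) * (MonoidAlgebra.of (ZMod p) P y - 1) -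
        (MonoidAlgebra.of (ZMod p) P y - 1) * (MonoidAlgebra.of (ZMod p) P x - 1) ∈
          lay p P (i + n))) := by
    intro n
    rcases Nat.eq_zero_or_pos n with hn | hn
    · exact ⟨⊤, fun _ => rfl, fun h => absurd h (by omega)⟩
    · refine ⟨⟨⟨⟨{y | y ∈ zser p P n ∧ ∀ i, 1 ≤ i → ∀ x ∈ zser p P i,
          (MonoidAlgebra.of (ZMod p) P x - 1) * (MonoidAlgebra.of (ZMod p) P y - 1) -
          (MonoidAlgebra.of (ZMod p) P y - 1) * (MonoidAlgebra.of (ZMod p) P x - 1) ∈
            lay p P (i + n)}, ?_⟩, ?_⟩, ?_⟩, fun h => absurd h (by omega), fun _ y => Iff.rfl⟩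
      · rintro y y' ⟨hy1, hy2⟩ ⟨hy1', hy2'⟩
        refine ⟨Subgroup.mul_mem _ hy1 hy1', fun i hi x hx => ?_⟩
        have a1 := hy2 i hi x hx
        have a2 := hy2' i hi x hx
        have b1 := h2 n hn y hy1
        have b2 := h2 n hn y' hy1'
        have c1 := br_lay_le p P h2 (i + n) (by omega) a1
        have c2 := br_lay_le p P h2 (i + n) (by omega) a2
        have e : (MonoidAlgebra.of (ZMod p) P x - 1) *
            (MonoidAlgebra.of (ZMod p) P (y * y') - 1) -
            (MonoidAlgebra.of (ZMod p) P (y * y') - 1) * (MonoidAlgebra.of (ZMod p) P x - 1) =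
            ((MonoidAlgebra.of (ZMod p) P x - 1) * (MonoidAlgebra.of (ZMod p) P y - 1) -
              (MonoidAlgebra.of (ZMod p) P y - 1) * (MonoidAlgebra.of (ZMod p) P x - 1)) +
            ((MonoidAlgebra.of (ZMod p) P x - 1) * (MonoidAlgebra.of (ZMod p) P y' - 1) -
              (MonoidAlgebra.of (ZMod p) P y' - 1) * (MonoidAlgebra.of (ZMod p) P x - 1)) +
            (((MonoidAlgebra.of (ZMod p) P x - 1) * (MonoidAlgebra.of (ZMod p) P y - 1) -
              (MonoidAlgebra.of (ZMod p) P y - 1) * (MonoidAlgebra.of (ZMod p) P x - 1)) *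
                (MonoidAlgebra.of (ZMod p) P y' - 1) +
            (MonoidAlgebra.of (ZMod p) P y - 1) *
              ((MonoidAlgebra.of (ZMod p) P x - 1) * (MonoidAlgebra.of (ZMod p) P y' - 1) -
              (MonoidAlgebra.of (ZMod p) P y' - 1) * (MonoidAlgebra.of (ZMod p) P x - 1))) := by
          rw [map_mul]
          noncomm_ring
        rw [e]
        apply Submodule.add_mem _ (Submodule.add_mem _ a1 a2)
        apply br_lay_ge p P (i + n)
        apply Submodule.add_mem
        · exact br_anti p P (i + n + 1) (i + n + n) (by omega) (by omega) (br_mul p P c1 b2)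
        · have := br_mul p P b1 c2
          exact br_anti p P (i + n + 1) (n + (i + n)) (by omega) (by omega) this
      · refine ⟨Subgroup.one_mem _, fun i hi x hx => ?_⟩
        rw [map_one, sub_self, mul_zero, zero_mul, sub_zero]
        exact Submodule.zero_mem _
      · rintro y ⟨hy1, hy2⟩
        refine ⟨Subgroup.inv_mem _ hy1, fun i hi x hx => ?_⟩
        have a1 := hy2 i hi x hx
        have e : (MonoidAlgebra.of (ZMod p) P x - 1) *
            (MonoidAlgebra.of (ZMod p) P y⁻¹ - 1) -
            (MonoidAlgebra.of (ZMod p) P y⁻¹ - 1) * (MonoidAlgebra.of (ZMod p) P x - 1) =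
            -(MonoidAlgebra.of (ZMod p) P y⁻¹ *
            (((MonoidAlgebra.of (ZMod p) P x - 1) * (MonoidAlgebra.of (ZMod p) P y - 1) -
              (MonoidAlgebra.of (ZMod p) P y - 1) * (MonoidAlgebra.of (ZMod p) P x - 1)) *
              MonoidAlgebra.of (ZMod p) P y⁻¹)) := by
          have u1 : MonoidAlgebra.of (ZMod p) P y * MonoidAlgebra.of (ZMod p) P y⁻¹ = 1 := by
            rw [← map_mul, mul_inv_cancel, map_one]
          have u2 : MonoidAlgebra.of (ZMod p) P y⁻¹ * MonoidAlgebra.of (ZMod p) P y = 1 := by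
            rw [← map_mul, inv_mul_cancel, map_one]
          set X := MonoidAlgebra.of (ZMod p) P x
          set Y := MonoidAlgebra.of (ZMod p) P y
          set Y' := MonoidAlgebra.of (ZMod p) P y⁻¹
          have v1 : (X - 1) * (Y - 1) - (Y - 1) * (X - 1) = X * Y - Y * X := by noncomm_ring
          have v2 : (X - 1) * (Y' - 1) - (Y' - 1) * (X - 1) = X * Y' - Y' * X := by noncomm_ring
          rw [v1, v2, sub_mul, mul_assoc X Y Y', u1, mul_one, mul_sub, mul_assoc Y X Y',
            ← mul_assoc Y' Y (X * Y'), u2, one_mul]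
          abel
        rw [e]
        apply Submodule.neg_mem
        exact br_lay_mull p P h2 (i + n) (by omega)
          (br_lay_mulr p P h2 (i + n) (by omega) a1 y⁻¹) y⁻¹
  choose W hW0 hW using hex
  -- commutators of a layer with an element of `W n`
  have hL6 : ∀ n, 1 ≤ n → ∀ u ∈ W n, ∀ m, 1 ≤ m → ∀ a ∈ lay p P m,
      a * (MonoidAlgebra.of (ZMod p) P u - 1) - (MonoidAlgebra.of (ZMod p) P u - 1) * a ∈
        lay p P (m + n) := by
    intro n hn u hu m hm a ha
    obtain ⟨hu1, hu2⟩ := (hW n hn u).1 hu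
    exact br_D p P _ m n (h2 n hn u hu1) (fun z hz => hu2 m hm z hz) ha
  have hser : IsSeries p W := by
    refine ⟨hW0 0 rfl, ?_, ?_, ?_, ?_⟩
    · rw [eq_top_iff]
      intro g _
      rw [hW 1 le_rfl]
      refine ⟨?_, fun i hi x hx => br_one p P h2 h1 i hi hx g⟩
      rw [h1.one]
      exact Subgroup.mem_top _
    · intro n
      rcases Nat.eq_zero_or_pos n with hn | hn
      · rw [hW0 n hn]
        exact le_top
      · intro u hu
        obtain ⟨hu1, hu2⟩ := (hW (n + 1) (by omega) u).1 hu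
        rw [hW n hn]
        refine ⟨h1.anti n hu1, fun i hi x hx => ?_⟩
        apply br_lay_ge p P (i + n)
        exact br_lay_le p P h2 (i + (n + 1)) (by omega) (hu2 i hi x hx)
    · intro n hn u hu g
      obtain ⟨hu1, hu2⟩ := (hW n hn u).1 hu
      rw [hW (n + 1) (by omega)]
      refine ⟨h1.comm n hn u hu1 g, fun i hi x hx => ?_⟩
      have hX := h2 i hi x hx
      have hU := h2 n hn u hu1
      have hG : MonoidAlgebra.of (ZMod p) P g - 1 ∈ aug (ZMod p) (⊤ : Subgroup P) ^ 1 := by
        rw [pow_one]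
        exact of_sub_mem _ _ (Subgroup.mem_top _)
      obtain ⟨X, hXd⟩ : ∃ X, X = MonoidAlgebra.of (ZMod p) P x - 1 := ⟨_, rfl⟩
      obtain ⟨U, hUd⟩ : ∃ U, U = MonoidAlgebra.of (ZMod p) P u - 1 := ⟨_, rfl⟩
      obtain ⟨G, hGd⟩ : ∃ G, G = MonoidAlgebra.of (ZMod p) P g - 1 := ⟨_, rfl⟩
      obtain ⟨V, hVd⟩ : ∃ V, V = MonoidAlgebra.of (ZMod p) P (u⁻¹ * g⁻¹) - 1 := ⟨_, rfl⟩
      have hV : V ∈ aug (ZMod p) (⊤ : Subgroup P) ^ 1 := by
        rw [pow_one, hVd]
        exact of_sub_mem _ _ (Subgroup.mem_top _)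
      have ec : MonoidAlgebra.of (ZMod p) P (u * g * u⁻¹ * g⁻¹) - 1 =
          (U * G - G * U) + (U * G - G * U) * V := by
        have w1 : MonoidAlgebra.of (ZMod p) P (u * g * u⁻¹ * g⁻¹) =
            MonoidAlgebra.of (ZMod p) P u * MonoidAlgebra.of (ZMod p) P g *
              MonoidAlgebra.of (ZMod p) P (u⁻¹ * g⁻¹) := by
          rw [← map_mul, ← map_mul]
          congr 1
          group
        have w2 : MonoidAlgebra.of (ZMod p) P g * MonoidAlgebra.of (ZMod p) P u *
              MonoidAlgebra.of (ZMod p) P (u⁻¹ * g⁻¹) = 1 := by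
          rw [← map_mul, ← map_mul]
          have : g * u * (u⁻¹ * g⁻¹) = 1 := by group
          rw [this, map_one]
        rw [w1, ← w2, hUd, hGd, hVd]
        noncomm_ring
      rw [← hXd, ec]
      rw [← hXd] at hX
      rw [← hUd] at hU
      rw [← hGd] at hG
      have hUG : U * G - G * U ∈ aug (ZMod p) (⊤ : Subgroup P) ^ (n + 1) := br_com p P hU hG
      have e2 : X * ((U * G - G * U) + (U * G - G * U) * V) -
          ((U * G - G * U) + (U * G - G * U) * V) * X =
          (((X * U - U * X) * G - G * (X * U - U * X)) -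
            ((X * G - G * X) * U - U * (X * G - G * X))) +
          (X * ((U * G - G * U) * V) - (U * G - G * U) * V * X) := by
        noncomm_ring
      rw [e2]
      apply Submodule.add_mem
      · apply Submodule.sub_mem
        · -- `[[X, U], G]`
          have k1 : X * U - U * X ∈ lay p P (i + n) := by
            rw [hXd, hUd]
            exact hu2 i hi x hx
          have k2 := br_D p P G (i + n) 1 hG (fun z hz => by
            rw [hGd]
            exact br_one p P h2 h1 (i + n) (by omega) hz g) k1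
          exact k2
        · -- `[[X, G], U]`
          have k1 : X * G - G * X ∈ lay p P (i + 1) := by
            rw [hXd, hGd]
            exact br_one p P h2 h1 i hi hx g
          have k2 := hL6 n hn u hu (i + 1) (by omega) _ k1
          rw [← hUd] at k2
          have e3 : i + 1 + n = i + (n + 1) := by omega
          rwa [e3] at k2
      · apply br_lay_ge p P (i + (n + 1))
        have k1 := br_com p P hX (br_mul p P hUG hV)
        exact br_anti p P _ _ (by omega) (by omega) k1
    · intro n hn v hv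
      obtain ⟨hv1, hv2⟩ := (hW n hn v).1 hv
      have hp0 : 0 < p := (Fact.out : p.Prime).pos
      rw [hW (p * n) (Nat.mul_pos hp0 hn)]
      refine ⟨h1.pow n hn v hv1, fun i hi x hx => ?_⟩
      obtain ⟨V, hVd⟩ : ∃ V, V = MonoidAlgebra.of (ZMod p) P v - 1 := ⟨_, rfl⟩
      have : CharP (MonoidAlgebra (ZMod p) P) p :=
        charP_of_injective_algebraMap (algebraMap (ZMod p) (MonoidAlgebra (ZMod p) P)).injective p
      have : CharP (Module.End (ZMod p) (MonoidAlgebra (ZMod p) P)) p :=
        charP_of_injective_algebraMap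
          (algebraMap (ZMod p) (Module.End (ZMod p) (MonoidAlgebra (ZMod p) P))).injective p
      have e1 : MonoidAlgebra.of (ZMod p) P (v ^ p) - 1 = V ^ p := by
        rw [hVd, sub_pow_char_of_commute p (Commute.one_right _),
          one_pow, map_pow]
      rw [e1]
      obtain ⟨D, hD⟩ : ∃ D : Module.End (ZMod p) (MonoidAlgebra (ZMod p) P),
          D = LinearMap.mulRight (ZMod p) V - LinearMap.mulLeft (ZMod p) V := ⟨_, rfl⟩
      have e2 : D ^ p = LinearMap.mulRight (ZMod p) (V ^ p) -
          LinearMap.mulLeft (ZMod p) (V ^ p) := by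
        have hcm : Commute (LinearMap.mulRight (ZMod p) V : Module.End (ZMod p) _)
            (LinearMap.mulLeft (ZMod p) V) := by
          apply LinearMap.ext
          intro a
          rw [Module.End.mul_apply, Module.End.mul_apply, LinearMap.mulRight_apply,
            LinearMap.mulLeft_apply, LinearMap.mulLeft_apply, LinearMap.mulRight_apply, mul_assoc]
        rw [hD, sub_pow_char_of_commute p hcm, LinearMap.pow_mulLeft, LinearMap.pow_mulRight]
      have e3 : ∀ t : ℕ, (D ^ t) (MonoidAlgebra.of (ZMod p) P x - 1) ∈ lay p P (i + t * n) := by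
        intro t
        induction t with
        | zero =>
          rw [pow_zero, Module.End.one_apply, Nat.zero_mul, Nat.add_zero]
          exact br_lay_mem p P i hx
        | succ t ih =>
          rw [pow_succ', Module.End.mul_apply]
          have k1 := hL6 n hn v hv (i + t * n) (by omega) _ ih
          rw [← hVd] at k1
          have e4 : i + t * n + n = i + (t + 1) * n := by ring
          rw [e4] at k1
          have e6 : ∀ a, D a = a * V - V * a := by
            intro a
            rw [hD, LinearMap.sub_apply, LinearMap.mulRight_apply, LinearMap.mulLeft_apply]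
          rw [e6]
          exact k1
      have e5 := e3 p
      rw [e2, LinearMap.sub_apply, LinearMap.mulRight_apply, LinearMap.mulLeft_apply] at e5
      exact e5
  have hle : zser p P j ≤ W j := by
    unfold zser
    exact iInf_le (fun W : {W : ℕ → Subgroup P // IsSeries p W} => W.1 j) ⟨W, hser⟩
  exact ((hW j hj y).1 (hle hy)).2 i hi x hx

end Bracket

/-- The commutator of two elements `z - 1` lies in the right layer. -/
theorem zser_bracket (p : ℕ) (P : Type) [Group P] [Fact p.Prime] (i j : ℕ) (hi : 1 ≤ i)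
    (hj : 1 ≤ j) (x y : P) (hx : x ∈ zser p P i) (hy : y ∈ zser p P j) :
    (MonoidAlgebra.of (ZMod p) P x - 1) * (MonoidAlgebra.of (ZMod p) P y - 1) -
      (MonoidAlgebra.of (ZMod p) P y - 1) * (MonoidAlgebra.of (ZMod p) P x - 1) ∈
        lay p P (i + j) :=
  zser_bracket_aux p P (fun n hn z hz => zser_mem p P n hn z hz)
    (zser_series p P Fact.out) i j hi hj x y hx hy

end Pool.Agent.Books.Sym
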