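import Pool.Agent.Books.Sym.JenDefs

set_option autoImplicit false

/-!
# The smallest series, and the powers of the augmentation ideal
-/

namespace Pool.Agent.Books.Sym

/-- The smallest series is a series. -/
theorem zser_series (p : ℕ) (P : Type) [Group P] (hp : p.Prime) : IsSeries p (zser p P) where
  zero := by
    unfold zser
    rw [iInf_eq_top]
    exact fun W => W.2.zero
  one := by
    unfold zser
    rw [iInf_eq_top]
    exact fun W => W.2.one
  anti := fun n => iInf_mono fun W => W.2.anti n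
  comm := by
    intro n hn u hu g
    unfold zser at hu ⊢
    rw [Subgroup.mem_iInf] at hu ⊢
    exact fun W => W.2.comm n hn u (hu W) g
  pow := by
    intro n hn u hu
    unfold zser at hu ⊢
    rw [Subgroup.mem_iInf] at hu ⊢
    exact fun W => W.2.pow n hn u (hu W)

section

variable {F : Type} [Field F] {P : Type} [Group P]

theorem r3c_mul_top : aug F (⊤ : Subgroup P) * ⊤ ≤ aug F (⊤ : Subgroup P) := by
  rw [Submodule.mul_le]
  intro a ha x _
  have h1 : aug F (⊤ : Subgroup P) ≤ (aug F (⊤ : Subgroup P)).comap (LinearMap.mulRight F x) := by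
    apply aug_le
    intro b _
    rw [Submodule.mem_comap, LinearMap.mulRight_apply]
    have h2 := le_of_of F ((aug F (⊤ : Subgroup P)).comap
      (LinearMap.mulLeft F (MonoidAlgebra.of F P b - 1))) (fun v => by
        rw [Submodule.mem_comap, LinearMap.mulLeft_apply]
        have h3 : (MonoidAlgebra.of F P b - 1) * MonoidAlgebra.of F P v =
            (MonoidAlgebra.of F P (b * v) - 1) - (MonoidAlgebra.of F P v - 1) := by
          rw [sub_mul, ← map_mul, one_mul]
          abel
        rw [h3]
        exact Submodule.sub_mem _ (of_sub_mem F ⊤ (Subgroup.mem_top _))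
          (of_sub_mem F ⊤ (Subgroup.mem_top _))) x
    rw [Submodule.mem_comap, LinearMap.mulLeft_apply] at h2
    exact h2
  have := h1 ha
  rwa [Submodule.mem_comap, LinearMap.mulRight_apply] at this

theorem r3c_top_mul : ⊤ * aug F (⊤ : Subgroup P) ≤ aug F (⊤ : Subgroup P) := by
  rw [Submodule.mul_le]
  intro x _ a ha
  have h1 : aug F (⊤ : Subgroup P) ≤ (aug F (⊤ : Subgroup P)).comap (LinearMap.mulLeft F x) := by
    apply aug_le
    intro b _
    rw [Submodule.mem_comap, LinearMap.mulLeft_apply]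
    have h2 := le_of_of F ((aug F (⊤ : Subgroup P)).comap
      (LinearMap.mulRight F (MonoidAlgebra.of F P b - 1))) (fun v => by
        rw [Submodule.mem_comap, LinearMap.mulRight_apply]
        have h3 : MonoidAlgebra.of F P v * (MonoidAlgebra.of F P b - 1) =
            (MonoidAlgebra.of F P (v * b) - 1) - (MonoidAlgebra.of F P v - 1) := by
          rw [mul_sub, ← map_mul, mul_one]
          abel
        rw [h3]
        exact Submodule.sub_mem _ (of_sub_mem F ⊤ (Subgroup.mem_top _))
          (of_sub_mem F ⊤ (Subgroup.mem_top _))) x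
    rw [Submodule.mem_comap, LinearMap.mulRight_apply] at h2
    exact h2
  have := h1 ha
  rwa [Submodule.mem_comap, LinearMap.mulLeft_apply] at this

theorem r3c_pow_mul_top {n : ℕ} (hn : 1 ≤ n) :
    aug F (⊤ : Subgroup P) ^ n * ⊤ ≤ aug F (⊤ : Subgroup P) ^ n := by
  obtain ⟨k, rfl⟩ := Nat.exists_eq_add_of_le' hn
  rw [pow_succ, mul_assoc]
  exact mul_le_mul' le_rfl r3c_mul_top

theorem r3c_top_mul_pow {n : ℕ} (hn : 1 ≤ n) :
    ⊤ * aug F (⊤ : Subgroup P) ^ n ≤ aug F (⊤ : Subgroup P) ^ n := by
  obtain ⟨k, rfl⟩ := Nat.exists_eq_add_of_le' hn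
  rw [pow_succ', ← mul_assoc]
  exact mul_le_mul' r3c_top_mul le_rfl

theorem r3c_mul_right {n : ℕ} (hn : 1 ≤ n) {a : MonoidAlgebra F P}
    (ha : a ∈ aug F (⊤ : Subgroup P) ^ n) (x : MonoidAlgebra F P) :
    a * x ∈ aug F (⊤ : Subgroup P) ^ n :=
  r3c_pow_mul_top hn (Submodule.mul_mem_mul ha Submodule.mem_top)

theorem r3c_mul_left {n : ℕ} (hn : 1 ≤ n) {a : MonoidAlgebra F P}
    (ha : a ∈ aug F (⊤ : Subgroup P) ^ n) (x : MonoidAlgebra F P) :
    x * a ∈ aug F (⊤ : Subgroup P) ^ n :=
  r3c_top_mul_pow hn (Submodule.mul_mem_mul Submodule.mem_top ha)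

/-- The subgroup of the elements `z` with `z - 1` in the power `n` of the augmentation ideal. -/
noncomputable def r3cW (F : Type) [Field F] (P : Type) [Group P] (n : ℕ) : Subgroup P where
  carrier := {z | n = 0 ∨ MonoidAlgebra.of F P z - 1 ∈ aug F (⊤ : Subgroup P) ^ n}
  one_mem' := by
    right
    rw [map_one, sub_self]
    exact Submodule.zero_mem _
  mul_mem' := by
    intro a b ha hb
    rcases Nat.eq_zero_or_pos n with h0 | h0
    · exact Or.inl h0
    · right
      have ha' := ha.resolve_left h0.ne'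
      have hb' := hb.resolve_left h0.ne'
      have h1 : MonoidAlgebra.of F P (a * b) - 1 =
          MonoidAlgebra.of F P a * (MonoidAlgebra.of F P b - 1) +
            (MonoidAlgebra.of F P a - 1) := by
        rw [map_mul]
        noncomm_ring
      rw [h1]
      exact Submodule.add_mem _ (r3c_mul_left h0 hb' _) ha'
  inv_mem' := by
    intro a ha
    rcases Nat.eq_zero_or_pos n with h0 | h0
    · exact Or.inl h0
    · right
      have ha' := ha.resolve_left h0.ne'
      have h1 : MonoidAlgebra.of F P a⁻¹ - 1 =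
          - (MonoidAlgebra.of F P a⁻¹ * (MonoidAlgebra.of F P a - 1)) := by
        rw [mul_sub, ← map_mul, inv_mul_cancel, map_one]
        noncomm_ring
      rw [h1]
      exact Submodule.neg_mem _ (r3c_mul_left h0 ha' _)

theorem mem_r3cW {n : ℕ} (hn : 1 ≤ n) {z : P} : z ∈ r3cW F P n ↔
    MonoidAlgebra.of F P z - 1 ∈ aug F (⊤ : Subgroup P) ^ n := by
  constructor
  · intro h
    exact h.resolve_left (by omega)
  · intro h
    exact Or.inr h

end

theorem r3cW_series (p : ℕ) (P : Type) [Group P] [Fact p.Prime] :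
    IsSeries p (r3cW (ZMod p) P) where
  zero := by
    rw [eq_top_iff]
    intro z _
    exact Or.inl rfl
  one := by
    rw [eq_top_iff]
    intro z _
    rw [mem_r3cW le_rfl, pow_one]
    exact of_sub_mem _ ⊤ (Subgroup.mem_top _)
  anti := by
    intro n z hz
    rcases Nat.eq_zero_or_pos n with h0 | h0
    · exact Or.inl h0
    · rw [mem_r3cW (by omega)] at hz
      rw [mem_r3cW h0]
      have h1 : aug (ZMod p) (⊤ : Subgroup P) ^ (n + 1) ≤ aug (ZMod p) (⊤ : Subgroup P) ^ n := by
        rw [pow_succ]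
        exact (mul_le_mul' le_rfl le_top).trans (r3c_pow_mul_top h0)
      exact h1 hz
  comm := by
    intro n hn u hu g
    rw [mem_r3cW hn] at hu
    rw [mem_r3cW (by omega)]
    have hg : MonoidAlgebra.of (ZMod p) P g - 1 ∈ aug (ZMod p) (⊤ : Subgroup P) :=
      of_sub_mem _ ⊤ (Subgroup.mem_top _)
    have h1 : MonoidAlgebra.of (ZMod p) P (u * g * u⁻¹ * g⁻¹) - 1 =
        ((MonoidAlgebra.of (ZMod p) P u - 1) * (MonoidAlgebra.of (ZMod p) P g - 1) -
          (MonoidAlgebra.of (ZMod p) P g - 1) * (MonoidAlgebra.of (ZMod p) P u - 1)) *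
          MonoidAlgebra.of (ZMod p) P (u⁻¹ * g⁻¹) := by
      have h2 : (MonoidAlgebra.of (ZMod p) P u - 1) * (MonoidAlgebra.of (ZMod p) P g - 1) -
          (MonoidAlgebra.of (ZMod p) P g - 1) * (MonoidAlgebra.of (ZMod p) P u - 1) =
          MonoidAlgebra.of (ZMod p) P (u * g) - MonoidAlgebra.of (ZMod p) P (g * u) := by
        rw [map_mul, map_mul]
        noncomm_ring
      rw [h2, sub_mul, ← map_mul, ← map_mul]
      congr 2
      · rw [show u * g * (u⁻¹ * g⁻¹) = u * g * u⁻¹ * g⁻¹ by group]
      · rw [show g * u * (u⁻¹ * g⁻¹) = 1 by group, map_one]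
    rw [h1]
    apply r3c_mul_right (by omega)
    apply Submodule.sub_mem
    · rw [pow_succ]
      exact Submodule.mul_mem_mul hu hg
    · rw [pow_succ']
      exact Submodule.mul_mem_mul hg hu
  pow := by
    intro n hn u hu
    have hp : p.Prime := Fact.out
    rw [mem_r3cW hn] at hu
    rw [mem_r3cW (Nat.mul_pos hp.pos hn)]
    haveI : CharP (MonoidAlgebra (ZMod p) P) p := by
      apply charP_of_injective_algebraMap (algebraMap (ZMod p) (MonoidAlgebra (ZMod p) P)).injective p
    have h1 : MonoidAlgebra.of (ZMod p) P (u ^ p) - 1 =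
        (MonoidAlgebra.of (ZMod p) P u - 1) ^ p := by
      rw [sub_pow_char_of_commute p (Commute.one_right _), one_pow, map_pow]
    rw [h1, mul_comm p n, pow_mul]
    exact Submodule.pow_mem_pow _ hu p

/-- The smallest series lies in the series given by the powers of the augmentation ideal. -/
theorem zser_mem (p : ℕ) (P : Type) [Group P] [Fact p.Prime] (n : ℕ) (hn : 1 ≤ n) (z : P)
    (hz : z ∈ zser p P n) :
    MonoidAlgebra.of (ZMod p) P z - 1 ∈ aug (ZMod p) (⊤ : Subgroup P) ^ n := by
  unfold zser at hz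
  rw [Subgroup.mem_iInf] at hz
  exact (mem_r3cW hn).mp (hz ⟨r3cW (ZMod p) P, r3cW_series p P⟩)

end Pool.Agent.Books.Sym
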